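import Pool.Agent.P.MP_845aff_co.Geo0

namespace Pool.Agent.P.MP_845aff_co

open Set

noncomputable section

variable {V : Type} [Fintype V] {G : SimpleGraph V} {A : ℕ} {P : Set V → (V → ℤ) → Prop}
  {X : Set V} {ord : V → ℤ}

namespace Step

variable (S : Step G A P X ord)

def Nf : Finset V := S.N.toFinite.toFinset

def marks : Finset ℤ := S.Nf.biUnion S.Mk

def Xt (p : ℤ) : Prop := ∃ n ∈ S.N, p ∈ S.Mk n ∧ S.hd p ∉ X ∧ G.Adj n (S.hd p)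

def fst (n : V) : ℤ := if h : (S.Mk n).Nonempty then (S.Mk n).min' h else 0

def Gap (a : V) (l h : ℤ) : Prop :=
  a ∈ S.N ∧ l ∈ S.Mk a ∧ h ∈ S.Mk a ∧ l < h ∧ ∀ p ∈ S.Mk a, ¬ (l < p ∧ p < h)

def Slot (a : V) (l h : ℤ) : Prop :=
  a ∈ S.N ∧ l ∈ S.Mk a ∧ h ∈ S.Mk a ∧ l ≤ h ∧ (∀ p ∈ S.Mk a, ¬ (l < p ∧ p < h)) ∧ S.Xt l ∧ S.Xt h

open Classical in
def gaps : Finset (ℤ × ℤ) := (S.marks ×ˢ S.marks).filter fun γ => ∃ a, S.Gap a γ.1 γ.2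

def C (n : V) : Finset (ℤ × ℤ) := S.gaps.filter fun γ => γ.1 < S.fst n ∧ S.fst n < γ.2

def Cg (β : ℤ × ℤ) : Finset (ℤ × ℤ) := S.gaps.filter fun γ => γ.1 ≤ β.1 ∧ β.2 ≤ γ.2

def bound : ℤ := (S.marks.sup Int.natAbs : ℕ) + 1

def root : ℤ × ℤ := (-S.bound, S.bound)

def Blk (β : ℤ × ℤ) : Prop := β ∈ S.gaps ∨ β = S.root

def Arc (β : ℤ × ℤ) (n : V) : Prop := n ∈ S.N ∧ S.C n = S.Cg β

variable {S}

lemma mem_Nf {n : V} : n ∈ S.Nf ↔ n ∈ S.N := Set.Finite.mem_toFinset _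

lemma mem_marks {n : V} (hn : n ∈ S.N) {p : ℤ} (hp : p ∈ S.Mk n) : p ∈ S.marks :=
  Finset.mem_biUnion.2 ⟨n, mem_Nf.2 hn, hp⟩

lemma mk_ne {n : V} (hn : n ∈ S.N) : (S.Mk n).Nonempty := by
  rcases S.kind n hn with h | ⟨⟨p, h⟩, -⟩
  · exact h.1
  · rw [h]; simp

lemma fst_mem {n : V} (hn : n ∈ S.N) : S.fst n ∈ S.Mk n := by
  rw [fst, dif_pos (mk_ne hn)]; exact Finset.min'_mem _ _

lemma fst_le {n : V} {p : ℤ} (hp : p ∈ S.Mk n) : S.fst n ≤ p := by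
  rw [fst, dif_pos ⟨p, hp⟩]; exact Finset.min'_le _ _ hp

lemma in_root {n : V} (hn : n ∈ S.N) {p : ℤ} (hp : p ∈ S.Mk n) : S.root.1 < p ∧ p < S.root.2 := by
  have := Finset.le_sup (f := Int.natAbs) (mem_marks hn hp)
  simp only [root, bound]
  omega

lemma mem_gaps {γ : ℤ × ℤ} : γ ∈ S.gaps ↔ ∃ a, S.Gap a γ.1 γ.2 := by
  classical
  simp only [gaps, Finset.mem_filter, Finset.mem_product]
  exact ⟨fun h => h.2, fun ⟨a, h⟩ => ⟨⟨mem_marks h.1 h.2.1, mem_marks h.1 h.2.2.1⟩, a, h⟩⟩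

lemma mem_C {n : V} {γ : ℤ × ℤ} :
    γ ∈ S.C n ↔ (∃ a, S.Gap a γ.1 γ.2) ∧ γ.1 < S.fst n ∧ S.fst n < γ.2 := by
  rw [C, Finset.mem_filter, mem_gaps]

lemma mem_Cg {β γ : ℤ × ℤ} :
    γ ∈ S.Cg β ↔ (∃ a, S.Gap a γ.1 γ.2) ∧ γ.1 ≤ β.1 ∧ β.2 ≤ γ.2 := by
  rw [Cg, Finset.mem_filter, mem_gaps]

lemma Cg_root : S.Cg S.root = ∅ := by
  ext γ
  simp only [mem_Cg, Finset.notMem_empty, iff_false]
  rintro ⟨⟨a, h⟩, h1, -⟩
  have := (in_root h.1 h.2.1).1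
  omega

lemma root_not_gap {a : V} : ¬ S.Gap a S.root.1 S.root.2 := fun h => by
  have := (in_root h.1 h.2.1).1
  omega

lemma xt_of_two {n : V} (hn : n ∈ S.N) {p q : ℤ} (hp : p ∈ S.Mk n) (hq : q ∈ S.Mk n) (h : p ≠ q) :
    S.Xt p := by
  rcases S.kind n hn with h1 | ⟨⟨r, h1⟩, -⟩
  · exact ⟨n, hn, hp, h1.2 p hp⟩
  · rw [h1, Finset.mem_singleton] at hp hq
    exact absurd (hp.trans hq.symm) h

lemma Gap.slot {a : V} {l h : ℤ} (g : S.Gap a l h) : S.Slot a l h :=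
  ⟨g.1, g.2.1, g.2.2.1, g.2.2.2.1.le, g.2.2.2.2, xt_of_two g.1 g.2.1 g.2.2.1 g.2.2.2.1.ne,
    xt_of_two g.1 g.2.2.1 g.2.1 g.2.2.2.1.ne'⟩

lemma Slot.gap {a : V} {l h : ℤ} (g : S.Slot a l h) (hl : l < h) : S.Gap a l h :=
  ⟨g.1, g.2.1, g.2.2.1, hl, g.2.2.2.2.1⟩

lemma Gap.uniq {a a' : V} {l h h' : ℤ} (g : S.Gap a l h) (g' : S.Gap a' l h') : a = a' ∧ h = h' := by
  obtain rfl := S.mk_disj a g.1 a' g'.1 l g.2.1 g'.2.1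
  have h1 := g.2.2.2.2 h' g'.2.2.1
  have h2 := g'.2.2.2.2 h g.2.2.1
  have h3 := g.2.2.2.1
  have h4 := g'.2.2.2.1
  exact ⟨rfl, by omega⟩

lemma exists_gap {n : V} (hn : n ∈ S.N) {p q x : ℤ} (hp : p ∈ S.Mk n) (hq : q ∈ S.Mk n)
    (h1 : p < x) (h2 : x < q) (hx : x ∉ S.Mk n) :
    ∃ l h, S.Gap n l h ∧ p ≤ l ∧ l < x ∧ x < h ∧ h ≤ q := by
  obtain ⟨l, hl, ml⟩ := ((S.Mk n).filter (· < x)).exists_max_image id ⟨p, by simp [hp, h1]⟩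
  obtain ⟨h, hh, mh⟩ := ((S.Mk n).filter (x < ·)).exists_min_image id ⟨q, by simp [hq, h2]⟩
  simp only [Finset.mem_filter, id, and_imp] at hl hh ml mh
  refine ⟨l, h, ⟨hn, hl.1, hh.1, hl.2.trans hh.2, fun r hr ⟨a, b⟩ => ?_⟩, ml p hp h1, hl.2, hh.2,
    mh q hq h2⟩
  rcases lt_trichotomy r x with c | c | c
  · have := ml r hr c; omega
  · exact hx (c ▸ hr)
  · have := mh r hr c; omega

lemma Gap.inside' {a : V} {l h : ℤ} (g : S.Gap a l h) {Z : Set V} (hZ : Z ⊆ X) (cZ : Conn G Z)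
    (ha : a ∉ Z) {s s' : V} (hs : s ∈ Z) (hs' : s' ∈ Z) (sN : s ∈ S.N) (sN' : s' ∈ S.N) {p p' : ℤ}
    (hp : p ∈ S.Mk s) (hp' : p' ∈ S.Mk s') (h1 : l < p) (h2 : p < h) : l < p' ∧ p' < h := by
  have n1 : p' ≠ l := fun e => ha (S.mk_disj s' sN' a g.1 l (e ▸ hp') g.2.1 ▸ hs')
  have n2 : p' ≠ h := fun e => ha (S.mk_disj s' sN' a g.1 h (e ▸ hp') g.2.2.1 ▸ hs')
  have aX : {a} ⊆ X := by simpa using S.sub g.1
  have d : Disjoint Z {a} := by simpa using ha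
  constructor
  · by_contra c
    exact S.nc Z {a} hZ aX cZ (conn_singleton a) d s' hs' a rfl s hs a rfl sN' g.1 sN g.1 p' hp' l
      g.2.1 p hp h g.2.2.1 (by omega) h1 h2
  · by_contra c
    exact S.nc {a} Z aX hZ (conn_singleton a) cZ d.symm a rfl s hs a rfl s' hs' g.1 sN g.1 sN' l
      g.2.1 p hp h g.2.2.1 p' hp' h1 h2 (by omega)

lemma Gap.inside {a n : V} {l h : ℤ} (g : S.Gap a l h) (hn : n ∈ S.N) {p p' : ℤ}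
    (hp : p ∈ S.Mk n) (hp' : p' ∈ S.Mk n) (h1 : l < p) (h2 : p < h) : l < p' ∧ p' < h :=
  g.inside' (Z := {n}) (by simpa using S.sub hn) (conn_singleton n)
    (fun e => g.2.2.2.2 p (by rw [mem_singleton_iff.1 e]; exact hp) ⟨h1, h2⟩) rfl rfl hn hn hp hp' h1 h2

lemma Slot.lam {a a' : V} {l h l' h' : ℤ} (g : S.Slot a l h) (g' : S.Slot a' l' h') :
    h ≤ l' ∨ h' ≤ l ∨ (l < S.fst a' ∧ S.fst a' < h ∧ l < l' ∧ h' < h) ∨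
      (l' < S.fst a ∧ S.fst a < h' ∧ l' < l ∧ h < h') ∨ (l = l' ∧ h = h') := by
  by_cases c1 : h ≤ l'
  · exact Or.inl c1
  by_cases c2 : h' ≤ l
  · exact Or.inr (Or.inl c2)
  right; right
  rcases lt_trichotomy l l' with c | c | c
  · have g0 := g.gap (by omega)
    have i1 := g0.inside g'.1 g'.2.1 (fst_mem g'.1) c (by omega)
    have i2 := g0.inside g'.1 g'.2.1 g'.2.2.1 c (by omega)
    exact Or.inl ⟨i1.1, i1.2, c, i2.2⟩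
  · subst c
    exact Or.inr (Or.inr ⟨rfl, ((g.gap (by omega)).uniq (g'.gap (by omega))).2⟩)
  · have g0 := g'.gap (by omega)
    have i1 := g0.inside g.1 g.2.1 (fst_mem g.1) c (by omega)
    have i2 := g0.inside g.1 g.2.1 g.2.2.1 c (by omega)
    exact Or.inr (Or.inl ⟨i1.1, i1.2, c, i2.2⟩)

lemma Gap.Cg_eq {a : V} {l h : ℤ} (g : S.Gap a l h) :
    S.Cg (l, h) = insert (l, h) (S.C a) ∧ (l, h) ∉ S.C a := by
  have f := fst_le g.2.1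
  refine ⟨?_, fun c => ?_⟩
  · ext ⟨l', h'⟩
    simp only [mem_Cg, mem_C, Finset.mem_insert, Prod.mk.injEq]
    have := g.2.2.2.1
    constructor
    · rintro ⟨⟨a', g'⟩, h1, h2⟩
      rcases g.slot.lam g'.slot with c | c | c | c | c
      · omega
      · omega
      · omega
      · exact Or.inr ⟨⟨a', g'⟩, c.1, c.2.1⟩
      · omega
    · rintro (⟨rfl, rfl⟩ | ⟨⟨a', g'⟩, h1, h2⟩)
      · exact ⟨⟨a, g⟩, le_rfl, le_rfl⟩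
      · exact ⟨⟨a', g'⟩, (g'.inside g.1 (fst_mem g.1) g.2.1 h1 h2).1.le,
          (g'.inside g.1 (fst_mem g.1) g.2.2.1 h1 h2).2.le⟩
  · have := (mem_C.1 c).2.1
    simp only at this; omega

lemma Blk.lam {β : ℤ × ℤ} (b : S.Blk β) {a : V} {l h x : ℤ} (g : S.Gap a l h) (h1 : β.1 < x)
    (h2 : x < β.2) (h3 : l < x) (h4 : x < h) :
    (l ≤ β.1 ∧ β.2 ≤ h) ∨ (β.1 < S.fst a ∧ S.fst a < β.2 ∧ β.1 < l ∧ h < β.2) := by
  rcases b with b | rfl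
  · obtain ⟨a', g'⟩ := mem_gaps.1 b
    rcases g.slot.lam g'.slot with c | c | c | c | c
    · omega
    · omega
    · omega
    · exact Or.inr c
    · omega
  · exact Or.inr ⟨(in_root g.1 (fst_mem g.1)).1, (in_root g.1 (fst_mem g.1)).2,
      (in_root g.1 g.2.1).1, (in_root g.1 g.2.2.1).2⟩

lemma Blk.inside {β : ℤ × ℤ} (b : S.Blk β) {n : V} (hn : S.Arc β n) {p : ℤ} (hp : p ∈ S.Mk n) :
    β.1 < p ∧ p < β.2 := by
  rcases b with b | rfl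
  · have : β ∈ S.C n := by rw [hn.2]; exact mem_Cg.2 ⟨mem_gaps.1 b, le_rfl, le_rfl⟩
    obtain ⟨⟨a, g⟩, h1, h2⟩ := mem_C.1 this
    exact g.inside hn.1 (fst_mem hn.1) hp h1 h2
  · exact in_root hn.1 hp

lemma sep_of_C {n n' : V} (hn : n ∈ S.N) (hn' : n' ∈ S.N) (hC : S.C n = S.C n')
    (h : S.fst n < S.fst n') : ∀ p ∈ S.Mk n, ∀ p' ∈ S.Mk n', p < p' := by
  intro p hp p' hp'
  by_contra c
  have ne : n ≠ n' := fun e => by rw [e] at h; omega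
  have nm : S.fst n' ∉ S.Mk n := fun e => ne (S.mk_disj n hn n' hn' _ e (fst_mem hn'))
  have f := fst_le hp'
  have : S.fst n' ≠ p := fun e => nm (e ▸ hp)
  obtain ⟨l, h', g, a1, a2, a3, a4⟩ := exists_gap hn (fst_mem hn) hp h (by omega) nm
  have : (l, h') ∈ S.C n := by rw [hC]; exact mem_C.2 ⟨⟨n, g⟩, a2, a3⟩
  have := (mem_C.1 this).2.1
  simp only at this; omega

lemma fst_ne {n n' : V} (hn : n ∈ S.N) (hn' : n' ∈ S.N) (h : n ≠ n') : S.fst n ≠ S.fst n' :=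
  fun e => h (S.mk_disj n hn n' hn' _ (fst_mem hn) (e ▸ fst_mem hn'))

/-- the block of an object with attachment set `T` -/
lemma exists_blk {T : Set V} (hT : T ⊆ S.N) (hne : T.Nonempty)
    (hc : ∀ s ∈ T, ∀ s' ∈ T, ∀ a ∈ S.N, a ≠ s → a ≠ s' →
      ∃ Z ⊆ X, Conn G Z ∧ s ∈ Z ∧ s' ∈ Z ∧ a ∉ Z) :
    ∃ β, S.Blk β ∧ (∃ s ∈ T, S.Arc β s) ∧ ∀ s ∈ T, S.Arc β s ∨ S.Gap s β.1 β.2 := by
  by_cases h0 : ∀ s ∈ T, S.C s = ∅
  · obtain ⟨s, hs⟩ := hne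
    exact ⟨S.root, Or.inr rfl, ⟨s, hs, hT hs, by rw [h0 s hs, Cg_root]⟩,
      fun s hs => Or.inl ⟨hT hs, by rw [h0 s hs, Cg_root]⟩⟩
  push Not at h0
  obtain ⟨s1, hs1, γ1, hγ1⟩ := h0
  obtain ⟨γ, ⟨s0, hs0, hγ⟩, mn⟩ := Set.exists_min_image {γ | ∃ s ∈ T, γ ∈ S.C s}
    (fun γ => γ.2 - γ.1) (S.gaps.finite_toSet.subset fun γ ⟨s, _, h⟩ => (Finset.mem_filter.1 h).1)
    ⟨γ1, s1, hs1, hγ1⟩
  obtain ⟨⟨a, g⟩, h1, h2⟩ := mem_C.1 hγ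
  have bl : S.Blk γ := Or.inl (mem_gaps.2 ⟨a, g⟩)
  have arc : ∀ s ∈ T, γ.1 < S.fst s → S.fst s < γ.2 → S.Arc γ s := by
    intro s hs i1 i2
    refine ⟨hT hs, ?_⟩
    ext γ'
    rw [mem_C, mem_Cg]
    refine ⟨fun ⟨⟨a', g'⟩, j1, j2⟩ => ⟨⟨a', g'⟩, ?_⟩, fun ⟨j, j1, j2⟩ => ⟨j, by omega, by omega⟩⟩
    have := mn γ' ⟨s, hs, mem_C.2 ⟨⟨a', g'⟩, j1, j2⟩⟩
    rcases bl.lam g' i1 i2 j1 j2 with c | c
    · exact c
    · omega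
  refine ⟨γ, bl, ⟨s0, hs0, arc s0 hs0 h1 h2⟩, fun s hs => ?_⟩
  by_cases e : a = s
  · exact Or.inr (e ▸ g)
  · have e0 : a ≠ s0 := fun e => g.2.2.2.2 _ (by rw [e]; exact fst_mem (hT hs0)) ⟨h1, h2⟩
    obtain ⟨Z, z1, z2, z3, z4, z5⟩ := hc s0 hs0 s hs a g.1 e0 e
    have := g.inside' z1 z2 z5 z3 z4 (hT hs0) (hT hs) (fst_mem (hT hs0)) (fst_mem (hT hs)) h1 h2
    exact Or.inl (arc s hs this.1 this.2)

/-- the top vertex of a block above a given vertex -/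
lemma exists_top {β : ℤ × ℤ} (b : S.Blk β) {m : V} (hm : m ∈ S.N) (h1 : β.1 < S.fst m)
    (h2 : S.fst m < β.2) : ∃ n, S.Arc β n ∧ S.fst n ≤ S.fst m ∧ ∃ q ∈ S.Mk n, (∀ p ∈ S.Mk m, p ≤ q) ∧
      S.C n ⊆ S.C m ∧ (n = m ∨ (S.C m \ S.C n).Nonempty) ∧
      ∀ γ ∈ S.C m \ S.C n, S.fst n ≤ γ.1 ∧ γ.2 ≤ q := by
  obtain ⟨n, ⟨hn, i1, i2, i3, q, hq, i4⟩, mn⟩ := Set.exists_min_image
    {n | n ∈ S.N ∧ β.1 < S.fst n ∧ S.fst n < β.2 ∧ S.fst n ≤ S.fst m ∧ ∃ q ∈ S.Mk n, ∀ p ∈ S.Mk m, p ≤ q}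
    S.fst (toFinite _) ⟨m, hm, h1, h2, le_rfl, (S.Mk m).max' (mk_ne hm), Finset.max'_mem _ _,
      fun p hp => Finset.le_max' _ _ hp⟩
  have fq := i4 _ (fst_mem hm)
  have sub : S.C n ⊆ S.C m := by
    intro γ hγ
    obtain ⟨⟨a, g⟩, j1, j2⟩ := mem_C.1 hγ
    have := (g.inside hn (fst_mem hn) hq j1 j2).2
    exact mem_C.2 ⟨⟨a, g⟩, by omega, by omega⟩
  have hJ : n ≠ m → ∃ l h, S.Gap n l h ∧ S.fst n ≤ l ∧ l < S.fst m ∧ S.fst m < h ∧ h ≤ q := by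
    intro ne
    have nm : S.fst m ∉ S.Mk n := fun e => ne (S.mk_disj n hn m hm _ e (fst_mem hm))
    have a1 := fst_ne hn hm ne
    have a2 : S.fst m ≠ q := fun e => nm (e ▸ hq)
    exact exists_gap hn (fst_mem hn) hq (by omega) (by omega) nm
  refine ⟨n, ⟨hn, ?_⟩, i3, q, hq, i4, sub, ?_, ?_⟩
  · ext γ
    rw [mem_C, mem_Cg]
    refine ⟨fun ⟨⟨a, g⟩, j1, j2⟩ => ⟨⟨a, g⟩, ?_⟩, fun ⟨j, j1, j2⟩ => ⟨j, by omega, by omega⟩⟩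
    rcases b.lam g i1 i2 j1 j2 with c | c
    · exact c
    · have f := fst_le g.2.1
      have k := (g.inside hn (fst_mem hn) hq j1 j2).2
      have := mn a ⟨g.1, c.1, c.2.1, by omega, γ.2, g.2.2.1, fun p hp => (i4 p hp).trans k.le⟩
      omega
  · by_cases ne : n = m
    · exact Or.inl ne
    · obtain ⟨l, h, g, a1, a2, a3, a4⟩ := hJ ne
      exact Or.inr ⟨(l, h), Finset.mem_sdiff.2 ⟨mem_C.2 ⟨⟨n, g⟩, a2, a3⟩, g.Cg_eq.2⟩⟩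
  · intro γ hγ
    obtain ⟨k1, k2⟩ := Finset.mem_sdiff.1 hγ
    have ne : n ≠ m := fun e => k2 (e ▸ k1)
    obtain ⟨l, h, g, a1, a2, a3, a4⟩ := hJ ne
    obtain ⟨j, j1, j2⟩ := mem_C.1 k1
    rcases Blk.lam (Or.inl (mem_gaps.2 j)) g j1 j2 a2 a3 with c | c
    · omega
    · exact absurd (mem_C.2 ⟨j, c.1, c.2.1⟩) k2

/-- the separating mark of two disjoint slots -/
lemma exists_cut {n n' : V} {l h l' h' : ℤ} (g : S.Slot n l h) (g' : S.Slot n' l' h') (hl : h < l') :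
    ∃ p, S.Xt p ∧ h ≤ p ∧ p ≤ l' ∧ (∀ γ ∈ S.C n \ S.C n', γ.2 ≤ p) ∧
      ∀ γ ∈ S.C n' \ S.C n, p ≤ γ.1 := by
  obtain ⟨p, hp, mx⟩ := (insert h ((S.C n \ S.C n').image Prod.snd)).exists_max_image id
    ⟨h, Finset.mem_insert_self _ _⟩
  simp only [id] at mx
  refine ⟨p, ?_, mx h (Finset.mem_insert_self _ _), ?_,
    fun γ hγ => mx _ (Finset.mem_insert_of_mem (Finset.mem_image_of_mem _ hγ)), ?_⟩
  · rcases Finset.mem_insert.1 hp with rfl | hp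
    · exact g.2.2.2.2.2.2
    · obtain ⟨γ, hγ, rfl⟩ := Finset.mem_image.1 hp
      obtain ⟨⟨a, ga⟩, -⟩ := mem_C.1 (Finset.mem_sdiff.1 hγ).1
      exact ga.slot.2.2.2.2.2.2
  · rcases Finset.mem_insert.1 hp with rfl | hp
    · exact hl.le
    · obtain ⟨γ, hγ, rfl⟩ := Finset.mem_image.1 hp
      obtain ⟨k1, k2⟩ := Finset.mem_sdiff.1 hγ
      obtain ⟨⟨a, ga⟩, j1, j2⟩ := mem_C.1 k1
      by_contra c
      have i1 := (ga.inside g.1 (fst_mem g.1) g.2.2.1 j1 j2).1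
      exact k2 (mem_C.2 ⟨⟨a, ga⟩, ga.inside g'.1 g'.2.1 (fst_mem g'.1) (by omega) (by omega)⟩)
  · intro γ' hγ'
    obtain ⟨k1', k2'⟩ := Finset.mem_sdiff.1 hγ'
    obtain ⟨⟨a', ga'⟩, j1', j2'⟩ := mem_C.1 k1'
    have i2 := (ga'.inside g'.1 (fst_mem g'.1) g'.2.1 j1' j2').2
    rcases Finset.mem_insert.1 hp with rfl | hp
    · by_contra c
      exact k2' (mem_C.2 ⟨⟨a', ga'⟩, ga'.inside g.1 g.2.2.1 (fst_mem g.1) (by omega) (by omega)⟩)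
    · obtain ⟨γ, hγ, rfl⟩ := Finset.mem_image.1 hp
      obtain ⟨k1, k2⟩ := Finset.mem_sdiff.1 hγ
      obtain ⟨⟨a, ga⟩, j1, j2⟩ := mem_C.1 k1
      have i1 := (ga.inside g.1 (fst_mem g.1) g.2.2.1 j1 j2).1
      have n1 : ¬ (γ.1 < S.fst n' ∧ S.fst n' < γ.2) := fun c => k2 (mem_C.2 ⟨⟨a, ga⟩, c⟩)
      have n2 : ¬ (γ'.1 < S.fst n ∧ S.fst n < γ'.2) := fun c => k2' (mem_C.2 ⟨⟨a', ga'⟩, c⟩)
      rcases ga.slot.lam ga'.slot with c | c | c | c | c <;> omega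

lemma card_gaps {Δ : ℕ} (hΔ : ∀ v, (G.neighborSet v).ncard ≤ Δ) :
    S.gaps.card ≤ (A * (Δ + 1)) ^ 2 := by
  classical
  have h1 : S.marks.card ≤ A * (Δ + 1) := by
    refine (Finset.card_biUnion_le_card_mul _ _ (Δ + 1) fun n hn => ?_).trans
      (Nat.mul_le_mul_right _ ?_)
    · have hn := mem_Nf.1 hn
      rcases S.kind n hn with h | ⟨⟨p, h⟩, -⟩
      · have := ncard_le_ncard_of_injOn (s := ↑(S.Mk n)) (t := G.neighborSet n) S.hd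
          (fun p hp => (h.2 p hp).2) (fun p hp q hq e => S.hd_inj n hn p hp q hq e)
        rw [ncard_coe_finset] at this
        linarith [hΔ n]
      · simp [h]
    · have := S.card
      rwa [ncard_eq_toFinset_card] at this
  refine (Finset.card_filter_le _ _).trans ?_
  rw [Finset.card_product, sq]
  exact Nat.mul_le_mul h1 h1

end Step

end

end Pool.Agent.P.MP_845aff_co
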