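import Pool.Agent.P.MP_845aff_co.Geo0

namespace Pool.Agent.P.MP_845aff_co

open Set Complex

noncomputable section

def Rl (η ε : ℝ) (a b : ℂ) : Prop := η ≤ cr a b ∨ (‖a - 1‖ ≤ ε ∧ ‖b + 1‖ ≤ ε)

def Un (ε : ℝ) (a : ℂ) : Prop := ‖a‖ = 1 ∧ -ε ≤ a.im

open Classical in
def nu (a b : ℂ) : ℂ := a + b + if 0 ≤ a.re ∧ b.re < 0 then 4 * I else 0

variable {η ε : ℝ} {a b c : ℂ}

lemma Un.re_le (h : Un ε a) : -1 ≤ a.re ∧ a.re ≤ 1 := abs_le.1 (h.1 ▸ abs_re_le_norm a)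
lemma Un.im_le (h : Un ε a) : -1 ≤ a.im ∧ a.im ≤ 1 := abs_le.1 (h.1 ▸ abs_im_le_norm a)
lemma Un.abs (h : Un ε a) : 1 ≤ |a.re| + |a.im| := h.1 ▸ norm_le_abs_re_add_abs_im a

lemma near_one (h : ‖a - 1‖ ≤ ε) : 1 - ε ≤ a.re := by
  have := abs_le.1 ((abs_re_le_norm (a - 1)).trans h)
  simp at this; linarith [this.1]

lemma near_neg (h : ‖a + 1‖ ≤ ε) : a.re ≤ ε - 1 := by
  have := abs_le.1 ((abs_re_le_norm (a + 1)).trans h)
  simp at this; linarith [this.2]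

lemma cr_near (ha : ‖a‖ = 1) {d : ℂ} (h1 : ‖a - d‖ ≤ ε) (h2 : ‖b - d‖ ≤ ε) : |cr a b| ≤ 2 * ε := by
  have e : cr a b = cr a ((b - d) - (a - d)) := by simp [cr]; ring
  rw [e]
  refine (abs_cr_le _ _).trans ?_
  rw [ha]; linarith [norm_sub_le (b - d) (a - d)]

lemma cr_opp (ha : ‖a‖ = 1) (h1 : ‖a - 1‖ ≤ ε) (h2 : ‖b + 1‖ ≤ ε) : |cr a b| ≤ 2 * ε := by
  have := cr_near (b := -b) ha h1 (by rw [← norm_neg]; simpa [add_comm] using h2)
  rwa [cr_neg_right, abs_neg] at this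

structure EE (η ε : ℝ) : Prop where
  pos : 0 < ε
  le : 8 * ε ≤ η
  one : η ≤ 1

lemma head_mono (E : EE η ε) (ha : Un ε a) (hb : Un ε b) (h : a = b ∨ Rl η ε a b)
    (h0 : 0 ≤ b.re) : 0 ≤ a.re := by
  obtain ⟨e1, e2, e3⟩ := E
  rcases h with rfl | h | h
  · exact h0
  · by_contra c
    push Not at c
    simp only [cr] at h
    nlinarith [ha.re_le, hb.re_le, ha.2, hb.2, mul_nonneg h0 (show 0 ≤ a.im + ε by linarith [ha.2]),
      mul_nonneg (neg_nonneg.2 c.le) (show 0 ≤ b.im + ε by linarith [hb.2])]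
  · linarith [near_one h.1]

lemma cr_ge (E : EE η ε) (ha : Un ε a) (h : a = b ∨ Rl η ε a b) : -(2 * ε) ≤ cr a b := by
  obtain ⟨e1, e2, e3⟩ := E
  rcases h with rfl | h | h
  · rw [cr_self]; linarith
  · linarith
  · exact (abs_le.1 (cr_opp ha.1 h.1 h.2)).1

lemma nu_mixed (h : 0 ≤ a.re ∧ b.re < 0) : nu a b = a + b + 4 * I := by simp [nu, h]
lemma nu_pure (h : ¬ (0 ≤ a.re ∧ b.re < 0)) : nu a b = a + b := by rw [nu, if_neg h, add_zero]

lemma nu_re : (nu a b).re = a.re + b.re := by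
  by_cases h : 0 ≤ a.re ∧ b.re < 0
  · simp [nu_mixed h]
  · simp [nu_pure h]

lemma norm_nu (ha : Un ε a) (hb : Un ε b) : ‖nu a b‖ ≤ 6 := by
  have := norm_add_le a b
  rw [ha.1, hb.1] at this
  by_cases h : 0 ≤ a.re ∧ b.re < 0
  · rw [nu_mixed h]
    have h2 := norm_add_le (a + b) (4 * I)
    simp at h2; linarith
  · rw [nu_pure h]; linarith

lemma nu_im (E : EE η ε) (ha : Un ε a) (hb : Un ε b) (h : Rl η ε a b) : η / 2 ≤ (nu a b).im := by
  have hm := head_mono E ha hb (Or.inr h)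
  obtain ⟨e1, e2, e3⟩ := E
  by_cases m : 0 ≤ a.re ∧ b.re < 0
  · rw [nu_mixed m]; simp; linarith [ha.2, hb.2]
  rw [nu_pure m, add_im]
  rcases h with h | h
  · simp only [cr] at h
    by_cases c : 0 ≤ b.re
    · have a0 := hm c
      have h1 : η - ε ≤ a.re * b.im := by
        nlinarith [hb.re_le, mul_nonneg c (show 0 ≤ a.im + ε by linarith [ha.2])]
      have h2 : 0 < b.im := by by_contra k; nlinarith
      nlinarith [ha.re_le, ha.2]
    · have a0 : a.re < 0 := by by_contra k; exact m ⟨by linarith, by linarith⟩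
      push Not at c
      have h1 : η - ε ≤ a.im * (-b.re) := by
        nlinarith [ha.re_le, mul_nonneg (neg_nonneg.2 a0.le) (show 0 ≤ b.im + ε by linarith [hb.2])]
      have h2 : 0 < a.im := by by_contra k; nlinarith
      nlinarith [hb.re_le, hb.2]
  · exact absurd ⟨by linarith [near_one h.1], by linarith [near_neg h.2]⟩ m

lemma cr_four (c : ℂ) : cr c (4 * I) = 4 * c.re := by simp [cr]; ring

lemma cr_nu_ge (E : EE η ε) (ha : Un ε a) (hc : Un ε c) (h : Rl η ε a b)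
    (h1 : c = a ∨ Rl η ε c a) (h2 : Rl η ε c b) : η / 2 ≤ cr c (nu a b) := by
  have hm := head_mono E hc ha h1
  have g1 := cr_ge E hc h1
  have g2 := cr_ge E hc (Or.inr h2)
  obtain ⟨e1, e2, e3⟩ := E
  by_cases m : 0 ≤ a.re ∧ b.re < 0
  · rw [nu_mixed m, cr_add_right, cr_add_right, cr_four]
    rcases h2 with h2 | h2
    · linarith [hm m.1]
    · linarith [near_one h2.1]
  rw [nu_pure m, cr_add_right]
  rcases h2 with h2 | h2
  · linarith
  have a0 : a.re < 0 := by by_contra k; exact m ⟨by linarith, by linarith [near_neg h2.2]⟩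
  rcases h1 with rfl | h1 | h1
  · linarith [near_one h2.1]
  · linarith
  · rcases h with h | h
    · have := cr_near (d := -1) ha.1 (by simpa using h1.2) (by simpa using h2.2)
      linarith [(abs_le.1 this).2]
    · linarith [near_one h.1]

lemma cr_nu_le (E : EE η ε) (ha : Un ε a) (hb : Un ε b) (hc : Un ε c) (h : Rl η ε a b)
    (h1 : b = c ∨ Rl η ε b c) (h2 : Rl η ε a c) : η / 2 ≤ cr (-c) (nu a b) := by
  have hm := head_mono E hb hc h1
  have g1 := cr_ge E hb h1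
  have g2 := cr_ge E ha (Or.inr h2)
  have k1 := cr_anti c a
  have k2 := cr_anti c b
  obtain ⟨e1, e2, e3⟩ := E
  rw [cr_neg_left]
  by_cases m : 0 ≤ a.re ∧ b.re < 0
  · rw [nu_mixed m, cr_add_right, cr_add_right, cr_four]
    rcases h2 with h2 | h2
    · have : c.re < 0 := by by_contra k; linarith [hm (by linarith), m.2]
      linarith
    · linarith [near_neg h2.2]
  rw [nu_pure m, cr_add_right]
  rcases h2 with h2 | h2
  · linarith
  have a0 : 0 ≤ b.re := by by_contra k; exact m ⟨by linarith [near_one h2.1], by linarith⟩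
  rcases h1 with rfl | h1 | h1
  · linarith [near_neg h2.2]
  · linarith
  · rcases h with h | h
    · have := cr_near ha.1 h2.1 h1.1
      linarith [(abs_le.1 this).2]
    · linarith [near_neg h.2]

/-- parabola point -/
def pb (T : ℝ) (t : ℤ) : ℂ := ⟨-(T * t), -(t : ℝ) ^ 2⟩

/-- tangent functional -/
def tg (T : ℝ) (t : ℝ) : ℂ := ⟨1, 2 * t / T⟩

lemma cr_tg (T t : ℝ) (y : ℂ) : cr (tg T t) y = y.im - 2 * t / T * y.re := by simp [cr, tg]

lemma cr_tg_pb {T : ℝ} (hT : T ≠ 0) (s : ℝ) (t : ℤ) : cr (tg T s) (pb T t) = s ^ 2 - (t - s) ^ 2 := by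
  simp only [cr, tg, pb]; field_simp; ring

lemma norm_tg {T t : ℝ} (hT : 0 < T) (h : 2 * |t| ≤ T) : ‖tg T t‖ ≤ 2 := by
  refine (norm_le_abs_re_add_abs_im _).trans ?_
  simp only [tg, abs_one, abs_div, abs_mul, abs_two, abs_of_pos hT]
  have := (div_le_one hT).2 h
  linarith

lemma norm_pb {T : ℝ} {t : ℤ} (h : 2 * |(t : ℝ)| ≤ T) : ‖pb T t‖ ≤ T ^ 2 := by
  refine (norm_le_abs_re_add_abs_im _).trans ?_
  have h0 := abs_nonneg (t : ℝ)
  have hT : 0 ≤ T := by linarith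
  simp only [pb, abs_neg, abs_mul, abs_pow, abs_of_nonneg hT]
  nlinarith

lemma norm_pb_sub {T : ℝ} {s t : ℤ} (h : 2 * |(s : ℝ)| ≤ T) (h' : 2 * |(t : ℝ)| ≤ T) :
    ‖pb T s - pb T t‖ ≤ 2 * T ^ 2 := by
  linarith [norm_sub_le (pb T s) (pb T t), norm_pb h, norm_pb h']

lemma le_norm_pb_sub {T : ℝ} (hT : 0 ≤ T) {s t : ℤ} (h : s ≠ t) : T ≤ ‖pb T s - pb T t‖ := by
  refine le_trans ?_ (abs_re_le_norm _)
  have : (pb T s - pb T t).re = T * ((t - s : ℤ) : ℝ) := by simp [pb]; ring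
  rw [this, abs_mul, abs_of_nonneg hT]
  have h1 : (1 : ℝ) ≤ |((t - s : ℤ) : ℝ)| := by
    exact_mod_cast Int.one_le_abs (sub_ne_zero.2 h.symm)
  nlinarith

lemma cr_pb3 (T : ℝ) (i j k : ℤ) :
    cr (pb T j - pb T i) (pb T k - pb T i) = T * (j - i) * (k - i) * (k - j) := by
  simp [cr, pb]; ring

lemma cr_pb2 {T : ℝ} (hT : T ≠ 0) (w : ℂ) (j k : ℤ) :
    cr w (pb T k - pb T j) = T * (k - j) * ((cr (tg T j) w + cr (tg T k) w) / 2) := by
  simp only [cr, pb, tg, sub_re, sub_im]; field_simp; ring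

lemma cr_u_pb {T : ℝ} (hT : 2 ≤ T) (hε : (T + 2) * ε ≤ 1) (ha : Un ε a) {s t : ℤ} (h : s + 2 ≤ t)
    (h2 : (s + t ≤ -2 ∧ 0 ≤ a.re) ∨ (2 ≤ s + t ∧ a.re < 0)) : 1 ≤ cr a (pb T t - pb T s) := by
  have e : cr a (pb T t - pb T s) = (t - s) * (-(a.re * (s + t)) + T * a.im) := by
    simp [cr, pb]; ring
  have h1 : (2 : ℝ) ≤ t - s := by have : (s : ℝ) + 2 ≤ t := by exact_mod_cast h
                                  linarith
  have h3 : 2 * |a.re| ≤ -(a.re * (s + t)) := by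
    rcases h2 with ⟨h2, h3⟩ | ⟨h2, h3⟩
    · have : (s : ℝ) + t ≤ -2 := by exact_mod_cast h2
      rw [abs_of_nonneg h3]; nlinarith
    · have : (2 : ℝ) ≤ s + t := by exact_mod_cast h2
      rw [abs_of_neg h3]; nlinarith
  have h4 : 1 ≤ 2 * |a.re| + T * a.im := by
    have := ha.abs
    rcases abs_cases a.im with ⟨k, k'⟩ | ⟨k, k'⟩
    · nlinarith [abs_nonneg a.re]
    · nlinarith [ha.2]
  rw [e]; nlinarith

lemma tg_unit {T t : ℝ} (hT : 0 < T) (ha : Un ε a) (h : t * a.re ≤ 0) : -ε ≤ cr (tg T t) a := by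
  rw [cr_tg]
  have : 2 * t / T * a.re ≤ 0 := by
    rw [div_mul_eq_mul_div]; exact div_nonpos_of_nonpos_of_nonneg (by linarith) hT.le
  linarith [ha.2]

lemma tg_nu (E : EE η ε) {T t : ℝ} (hT : 0 < T) (ha : Un ε a) (hb : Un ε b) (h : Rl η ε a b)
    (h1 : t * a.re ≤ 0) (h2 : t * b.re ≤ 0) : η / 2 ≤ cr (tg T t) (nu a b) := by
  rw [cr_tg, nu_re]
  have : 2 * t / T * (a.re + b.re) ≤ 0 := by
    rw [div_mul_eq_mul_div]; exact div_nonpos_of_nonpos_of_nonneg (by linarith) hT.le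
  linarith [nu_im E ha hb h]

lemma tg_unit' {T t : ℝ} (hT : 2 ≤ T) (hε0 : 0 ≤ ε) (hε : (T + 2) * ε ≤ 1) (ha : Un ε a)
    (h : |a.re| ≤ -(t * a.re)) : 1 / T / 2 ≤ cr (tg T t) a := by
  have hT0 : 0 < T := by linarith
  rw [cr_tg, div_div, div_le_iff₀ (by positivity)]
  have e : (a.im - 2 * t / T * a.re) * (T * 2) = 2 * (T * a.im) + 4 * -(t * a.re) := by
    field_simp; ring
  rw [e]
  have := ha.abs
  rcases abs_cases a.im with ⟨k, k'⟩ | ⟨k, k'⟩
  · nlinarith [abs_nonneg a.re]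
  · nlinarith [ha.2]

lemma tg_nu' (E : EE η ε) {T t : ℝ} (hT : 2 ≤ T) (hε : (T + 2) * ε ≤ 1) (ht : 2 * |t| ≤ T)
    (ha : Un ε a) (hb : Un ε b) (h : Rl η ε a b) (h1 : 0 ≤ b.re → t ≤ -1) (h2 : a.re < 0 → 1 ≤ t) :
    1 / T ≤ cr (tg T t) (nu a b) := by
  have hT0 : 0 < T := by linarith
  have hm := head_mono E ha hb (Or.inr h)
  by_cases m : 0 ≤ a.re ∧ b.re < 0
  · rw [cr_tg, nu_re, nu_mixed m]
    have k1 : |2 * t / T| ≤ 1 := by
      rw [abs_div, abs_mul, abs_two, abs_of_pos hT0]; exact (div_le_one hT0).2 ht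
    have k2 : 1 / T ≤ 1 := (div_le_one hT0).2 (by linarith)
    have k3 : 2 * t / T * (a.re + b.re) ≤ 1 := by
      have := abs_le.1 k1
      nlinarith [ha.re_le, hb.re_le, m.1, m.2]
    simp only [add_im, mul_im, re_ofNat, I_im, im_ofNat, I_re]
    linarith [ha.2, hb.2, E.le, E.one]
  rw [nu_pure m, cr_add_right]
  by_cases c : 0 ≤ b.re
  · have a0 := hm c
    have := h1 c
    have k1 := tg_unit' (t := t) hT E.pos.le hε ha (by rw [abs_of_nonneg a0]; nlinarith)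
    have k2 := tg_unit' (t := t) hT E.pos.le hε hb (by rw [abs_of_nonneg c]; nlinarith)
    linarith
  · have a0 : a.re < 0 := by by_contra k; exact m ⟨by linarith, by linarith⟩
    push Not at c
    have := h2 a0
    have k1 := tg_unit' (t := t) hT E.pos.le hε ha (by rw [abs_of_neg a0]; nlinarith)
    have k2 := tg_unit' (t := t) hT E.pos.le hε hb (by rw [abs_of_neg c]; nlinarith)
    linarith

end

end Pool.Agent.P.MP_845aff_co
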