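import Pool.Agent.P.MP_845aff_co.Geo0

namespace Pool.Agent.P.MP_845aff_co

open Set Complex

noncomputable section

/-- a convex polygon: apex index `b`, arc indices `K`, counterclockwise -/
structure Poly (M : ℝ) (A : ℤ → ℂ) (K : Set ℤ) (b : ℤ) : Prop where
  one : 1 ≤ M
  lt : ∀ k ∈ K, b < k
  diam : ∀ k ∈ K, ∀ m ∈ K, ‖A k - A m‖ ≤ M
  far : ∀ i ∈ insert b K, ∀ m ∈ K, i ≠ m → 2 ≤ ‖A i - A m‖
  conv : ∀ i ∈ insert b K, ∀ j ∈ K, ∀ k ∈ K, ∀ m ∈ K, i < j → j < k →
    (1 + ‖A i - A m‖) / (16 * M) ≤ cr (A j - A i) (A k - A i)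

/-- star centre: at distance 1 from `A hi` along the chord towards `A lo`, at height `h` -/
def ctr (A : ℤ → ℂ) (lo hi : ℤ) (h : ℝ) : ℂ :=
  A hi + dir (A lo - A hi) + h * (I * dir (A lo - A hi))

/-- attachment set of a star with chord `lo < hi` -/
structure Att (K : Set ℤ) (b : ℤ) (att : Set ℤ) (lo hi : ℤ) : Prop where
  sub : att ⊆ insert b K
  lo_mem : lo ∈ att
  hi_mem : hi ∈ att
  lt : lo < hi
  btw : ∀ k ∈ att, lo ≤ k ∧ k ≤ hi

namespace StarAux

variable {M : ℝ} {A : ℤ → ℂ} {K : Set ℤ} {b : ℤ}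

/-- height over the chord `lo hi` -/
def ht (A : ℤ → ℂ) (lo hi : ℤ) (y : ℂ) : ℝ := cr (dir (A lo - A hi)) (y - A hi)

/-- coordinate along the chord `lo hi` -/
def al (A : ℤ → ℂ) (lo hi : ℤ) (y : ℂ) : ℝ := cr (-I * dir (A lo - A hi)) (y - A hi)

lemma mem_K (hP : Poly M A K b) {i j : ℤ} (hi : i ∈ insert b K) (hj : j ∈ insert b K)
    (h : i < j) : j ∈ K := by
  rcases hj with rfl | hj
  · rcases hi with rfl | hi
    · exact absurd h (lt_irrefl _)
    · exact absurd (hP.lt i hi) (not_lt.2 h.le)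
  · exact hj

lemma two_le (hP : Poly M A K b) {i j : ℤ} (hi : i ∈ insert b K) (hj : j ∈ insert b K)
    (h : i < j) : 2 ≤ ‖A i - A j‖ := hP.far i hi j (mem_K hP hi hj h) h.ne

lemma norm_e (hP : Poly M A K b) {i j : ℤ} (hi : i ∈ insert b K) (hj : j ∈ insert b K)
    (h : i < j) : ‖dir (A i - A j)‖ = 1 :=
  norm_dir (norm_pos_iff.1 (by linarith [two_le hP hi hj h]))

lemma mul_ht (lo hi : ℤ) (y : ℂ) :
    ‖A lo - A hi‖ * ht A lo hi y = cr (A lo - A hi) (y - A hi) := by
  rw [ht, ← cr_mul_left, norm_mul_dir]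

lemma cr_unit {e : ℂ} (he : ‖e‖ = 1) : e.re * e.re + e.im * e.im = 1 := by
  have := Complex.sq_norm e
  rw [he, normSq_apply] at this
  linarith

lemma ht_hi (lo hi : ℤ) : ht A lo hi (A hi) = 0 := by rw [ht, sub_self, cr_zero_right]

lemma al_hi (lo hi : ℤ) : al A lo hi (A hi) = 0 := by rw [al, sub_self, cr_zero_right]

lemma ht_lo (lo hi : ℤ) : ht A lo hi (A lo) = 0 := by
  rw [ht]
  nth_rewrite 2 [← norm_mul_dir (A lo - A hi)]
  rw [cr_mul_right, cr_self, mul_zero]

lemma al_lo {lo hi : ℤ} (he : ‖dir (A lo - A hi)‖ = 1) : al A lo hi (A lo) = ‖A lo - A hi‖ := by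
  rw [al]
  nth_rewrite 2 [← norm_mul_dir (A lo - A hi)]
  rw [cr_mul_right]
  have := cr_unit he
  simp only [cr, mul_re, mul_im, neg_re, neg_im, I_re, I_im]
  linear_combination ‖A lo - A hi‖ * this

lemma ht_ctr {lo hi : ℤ} (he : ‖dir (A lo - A hi)‖ = 1) (h : ℝ) :
    ht A lo hi (ctr A lo hi h) = h := by
  have := cr_unit he
  simp only [ht, ctr, cr, mul_re, mul_im, add_re, add_im, sub_re, sub_im, I_re, I_im, ofReal_re,
    ofReal_im]
  linear_combination h * this

lemma al_ctr {lo hi : ℤ} (he : ‖dir (A lo - A hi)‖ = 1) (h : ℝ) :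
    al A lo hi (ctr A lo hi h) = 1 := by
  have := cr_unit he
  simp only [al, ctr, cr, mul_re, mul_im, add_re, add_im, sub_re, sub_im, I_re, I_im, ofReal_re,
    ofReal_im, neg_re, neg_im]
  linear_combination this

lemma abs_al_le {lo hi : ℤ} (he : ‖dir (A lo - A hi)‖ = 1) (y : ℂ) :
    |al A lo hi y| ≤ ‖y - A hi‖ := by
  refine (abs_cr_le _ _).trans ?_
  simp [he]

lemma norm_ctr_sub {lo hi : ℤ} (he : ‖dir (A lo - A hi)‖ = 1) {h : ℝ} (h0 : 0 ≤ h) :
    ‖ctr A lo hi h - ctr A lo hi 0‖ = h := by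
  simp [ctr, he, abs_of_nonneg h0]

lemma far_coord {lo hi : ℤ} (he : ‖dir (A lo - A hi)‖ = 1) {t L τ : ℝ} (ht1 : |t| ≤ 1)
    {p q r s : ℂ} (hp : ht A lo hi p + t * al A lo hi p ≤ L)
    (hq : ht A lo hi q + t * al A lo hi q ≤ L) (hr : L + τ ≤ ht A lo hi r + t * al A lo hi r)
    (hs : L + τ ≤ ht A lo hi s + t * al A lo hi s) : Far (τ / 2) p q r s := by
  have key : ∀ y, cr (dir (A lo - A hi) + t * (-I * dir (A lo - A hi))) y =
      ht A lo hi y + t * al A lo hi y +
        cr (dir (A lo - A hi) + t * (-I * dir (A lo - A hi))) (A hi) := by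
    intro y
    simp only [ht, al, cr_add_left, cr_mul_left, cr_sub_right]
    ring
  refine far_of_cr (w := dir (A lo - A hi) + t * (-I * dir (A lo - A hi)))
    (l := L + cr (dir (A lo - A hi) + t * (-I * dir (A lo - A hi))) (A hi)) ?_
    (by rw [key p]; linarith) (by rw [key q]; linarith) (by rw [key r]; linarith)
    (by rw [key s]; linarith)
  refine (norm_add_le _ _).trans ?_
  simp only [norm_mul, norm_neg, norm_I, he, norm_real, Real.norm_eq_abs]
  linarith

lemma tau_le (hP : Poly M A K b) : 1 / (16 * M ^ 2) ≤ 1 / (16 * M) := by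
  have := hP.one
  gcongr
  nlinarith

lemma ht_inside (hP : Poly M A K b) {lo hi k : ℤ} (hlo : lo ∈ insert b K) (hhi : hi ∈ insert b K)
    (hk : k ∈ insert b K) (h1 : lo < k) (h2 : k < hi) : 1 / (16 * M) ≤ ht A lo hi (A k) := by
  have hK := mem_K hP hk hhi h2
  have c := hP.conv lo hlo k (mem_K hP hlo hk h1) hi hK hi hK h1 h2
  have l2 := two_le hP hlo hhi (h1.trans h2)
  have e : cr (A k - A lo) (A hi - A lo) = cr (A lo - A hi) (A k - A hi) := by
    simp only [cr, sub_re, sub_im]; ring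
  rw [e, ← mul_ht, add_div] at c
  have := hP.one
  have p : 0 < 1 / (16 * M) := by positivity
  refine le_of_mul_le_mul_left ?_ (show 0 < ‖A lo - A hi‖ by linarith)
  rw [mul_one_div]
  linarith

lemma ht_above (hP : Poly M A K b) {lo hi k : ℤ} (hlo : lo ∈ insert b K) (hhi : hi ∈ insert b K)
    (hk : k ∈ insert b K) (h1 : lo < hi) (h2 : hi < k) :
    ht A lo hi (A k) ≤ -(1 / (16 * M ^ 2)) := by
  have hK := mem_K hP hlo hhi h1
  have c := hP.conv lo hlo hi hK k (mem_K hP hhi hk h2) hi hK h1 h2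
  have l2 := two_le hP hlo hhi h1
  have e : cr (A hi - A lo) (A k - A lo) = -cr (A lo - A hi) (A k - A hi) := by
    simp only [cr, sub_re, sub_im]; ring
  rw [e, ← mul_ht, add_div] at c
  have := hP.one
  have p : 0 < 1 / (16 * M) := by positivity
  refine le_trans ?_ (neg_le_neg (tau_le hP))
  refine le_of_mul_le_mul_left ?_ (show 0 < ‖A lo - A hi‖ by linarith)
  rw [mul_neg, mul_one_div]
  linarith

lemma ht_below (hP : Poly M A K b) {lo hi k m : ℤ} (hlo : lo ∈ insert b K) (hhi : hi ∈ insert b K)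
    (hk : k ∈ insert b K) (hm : m ∈ K) (h1 : lo < hi) (h2 : k < lo) :
    ht A lo hi (A k) ≤ -(1 / (16 * M ^ 2) * (1 + ‖A k - A m‖)) := by
  have hK := mem_K hP hlo hhi h1
  have hK' := mem_K hP hk hlo h2
  have c := hP.conv k hk lo hK' hi hK m hm h2 h1
  have l2 := two_le hP hlo hhi h1
  have lM := hP.diam lo hK' hi hK
  have e : cr (A lo - A k) (A hi - A k) = -cr (A lo - A hi) (A k - A hi) := by
    simp only [cr, sub_re, sub_im]; ring
  rw [e, ← mul_ht] at c
  have := hP.one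
  have p : 0 ≤ 1 / (16 * M ^ 2) * (1 + ‖A k - A m‖) := by positivity
  have e2 : (1 + ‖A k - A m‖) / (16 * M) = M * (1 / (16 * M ^ 2) * (1 + ‖A k - A m‖)) := by
    field_simp
  refine le_of_mul_le_mul_left ?_ (show 0 < ‖A lo - A hi‖ by linarith)
  rw [e2] at c
  nlinarith [mul_le_mul_of_nonneg_right lM p]

lemma ht_outside (hP : Poly M A K b) {lo hi k : ℤ} (hlo : lo ∈ insert b K) (hhi : hi ∈ insert b K)
    (hk : k ∈ insert b K) (h1 : lo < hi) (h2 : k < lo ∨ hi < k) :
    ht A lo hi (A k) ≤ -(1 / (16 * M ^ 2)) := by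
  rcases h2 with h2 | h2
  · refine (ht_below hP hlo hhi hk (mem_K hP hlo hhi h1) h1 h2).trans (neg_le_neg ?_)
    have := hP.one
    exact le_mul_of_one_le_right (by positivity) (by linarith [norm_nonneg (A k - A hi)])
  · exact ht_above hP hlo hhi hk h1 h2

lemma ht_nonpos (hP : Poly M A K b) {lo hi k : ℤ} (hlo : lo ∈ insert b K) (hhi : hi ∈ insert b K)
    (hk : k ∈ insert b K) (h1 : lo < hi) (h2 : k ≤ lo ∨ hi ≤ k) : ht A lo hi (A k) ≤ 0 := by
  by_cases e1 : k = lo
  · rw [e1, ht_lo]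
  by_cases e2 : k = hi
  · rw [e2, ht_hi]
  have := hP.one
  exact (ht_outside hP hlo hhi hk h1 (by omega)).trans (neg_nonpos.2 (by positivity))

lemma ht_nonneg (hP : Poly M A K b) {lo hi k : ℤ} (hlo : lo ∈ insert b K) (hhi : hi ∈ insert b K)
    (hk : k ∈ insert b K) (h1 : lo ≤ k) (h2 : k ≤ hi) : 0 ≤ ht A lo hi (A k) := by
  by_cases e1 : k = lo
  · rw [e1, ht_lo]
  by_cases e2 : k = hi
  · rw [e2, ht_hi]
  have := hP.one
  exact le_trans (by positivity) (ht_inside hP hlo hhi hk (by omega) (by omega))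

/-- the base point of a chord lies below every other chord that does not enclose its ends -/
lemma below (hP : Poly M A K b) {lo hi lo' hi' : ℤ} (hlo : lo ∈ insert b K)
    (hhi : hi ∈ insert b K) (hlo' : lo' ∈ insert b K) (hhi' : hi' ∈ insert b K) (h : lo < hi)
    (h' : lo' < hi') (hne : ¬(lo = lo' ∧ hi = hi')) (h1 : lo ≤ lo' ∨ hi' ≤ lo)
    (h2 : hi ≤ lo' ∨ hi' ≤ hi) : ht A lo' hi' (ctr A lo hi 0) ≤ -(1 / (32 * M ^ 2)) := by
  have l2 := two_le hP hlo hhi h
  have e : ‖A lo - A hi‖ * ht A lo' hi' (ctr A lo hi 0) =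
      (‖A lo - A hi‖ - 1) * ht A lo' hi' (A hi) + ht A lo' hi' (A lo) := by
    have e1 : ((‖A lo - A hi‖ : ℝ) : ℂ) * (ctr A lo hi 0 - A hi') =
        ((‖A lo - A hi‖ - 1 : ℝ) : ℂ) * (A hi - A hi') + (A lo - A hi') := by
      have := norm_mul_dir (A lo - A hi)
      simp only [ctr]
      push_cast
      linear_combination this
    rw [ht, ht, ht, ← cr_mul_right, e1, cr_add_right, cr_mul_right]
  have a1 := ht_nonpos hP hlo' hhi' hlo h' h1
  have a2 := ht_nonpos hP hlo' hhi' hhi h' h2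
  have := hP.one
  have e3 : 1 / (16 * M ^ 2) = 2 * (1 / (32 * M ^ 2)) := by field_simp; norm_num
  have p : 0 < 1 / (32 * M ^ 2) := by positivity
  refine le_of_mul_le_mul_left ?_ (show 0 < ‖A lo - A hi‖ by linarith)
  rw [e]
  by_cases c : hi < lo' ∨ hi' < hi
  · have a3 := ht_outside hP hlo' hhi' hhi h' c
    rw [e3] at a3
    nlinarith
  · have a3 := ht_below hP hlo' hhi' hlo (mem_K hP hlo hhi h) h' (by omega)
    rw [e3] at a3
    nlinarith

lemma upper (hP : Poly M A K b) {δ H : ℝ} (hδH : δ ≤ H) (hH : H ≤ 1 / (2 ^ 14 * M ^ 7))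
    {att att' : Set ℤ} {lo hi lo' hi' : ℤ} {h h' : ℝ}
    (ha : Att K b att lo hi) (ha' : Att K b att' lo' hi')
    (h0 : 0 ≤ h) (h1 : h ≤ H) (h0' : 0 ≤ h') (h1' : h' ≤ H)
    (hout : ∀ k ∈ att, k ≤ lo' ∨ hi' ≤ k) (same : lo = lo' → hi = hi' → h + δ ≤ h')
    {k k' : ℤ} (hk : k ∈ att) (hk' : k' ∈ att') (hne : k ≠ k') :
    Far (δ / 2) (ctr A lo hi h) (A k) (ctr A lo' hi' h') (A k') := by
  have hM := hP.one
  have mlo := ha.sub ha.lo_mem
  have mhi := ha.sub ha.hi_mem
  have mlo' := ha'.sub ha'.lo_mem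
  have mhi' := ha'.sub ha'.hi_mem
  have mk := ha.sub hk
  have mk' := ha'.sub hk'
  have he := norm_e hP mlo mhi ha.lt
  have he' := norm_e hP mlo' mhi' ha'.lt
  have l2 := two_le hP mlo' mhi' ha'.lt
  obtain ⟨lam, hlam⟩ : ∃ lam : ℝ, lam = 1 / (320 * M ^ 3) := ⟨_, rfl⟩
  have lp : 0 < lam := by rw [hlam]; positivity
  have e1 : 1 / (32 * M ^ 2) = 10 * (M * lam) := by rw [hlam]; field_simp; norm_num
  have e2 : 1 / (16 * M ^ 2) = 20 * (M * lam) := by rw [hlam]; field_simp; norm_num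
  have lM : lam ≤ M * lam := le_mul_of_one_le_left lp.le hM
  have l1 : lam ≤ 1 := by
    rw [hlam, div_le_one (by positivity)]
    nlinarith [one_le_pow₀ hM (n := 3)]
  have hl : H ≤ lam := by
    refine hH.trans ?_
    rw [hlam]
    gcongr <;> norm_num
  have c1 := ht_ctr he' h'
  have c2 := al_ctr he' h'
  -- the upper vertex
  have up : ∀ t : ℝ, |t| ≤ lam → k' ≠ lo' → k' ≠ hi' →
      2 * lam ≤ ht A lo' hi' (A k') + t * al A lo' hi' (A k') := by
    intro t ht n1 n2
    have b1 := ha'.btw k' hk'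
    have i1 := (tau_le hP).trans (ht_inside hP mlo' mhi' mk' (by omega) (by omega))
    have i2 := (abs_al_le he' (A k')).trans
      (hP.diam k' (mem_K hP mlo' mk' (by omega)) hi' (mem_K hP mlo' mhi' ha'.lt))
    have i3 : |t * al A lo' hi' (A k')| ≤ lam * M := by
      rw [abs_mul]
      exact mul_le_mul ht i2 (abs_nonneg _) lp.le
    have := (abs_le.1 i3).1
    rw [e2] at i1
    linarith
  have uhi : k = hi' → 2 * lam ≤ ht A lo' hi' (A k') + lam * al A lo' hi' (A k') := by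
    intro e
    by_cases n1 : k' = lo'
    · rw [n1, ht_lo, al_lo he']
      nlinarith
    · exact up lam (abs_of_pos lp).le n1 fun n2 => hne (e.trans n2.symm)
  have ulo : k = lo' → 0 ≤ ht A lo' hi' (A k') + -lam * al A lo' hi' (A k') := by
    intro e
    by_cases n1 : k' = hi'
    · rw [n1, ht_hi, al_hi]
      simp
    · have := up (-lam) (by rw [abs_neg, abs_of_pos lp]) (fun n2 => hne (e.trans n2.symm)) n1
      linarith
  have t1 : |lam| ≤ 1 := by rwa [abs_of_pos lp]
  have t2 : |-lam| ≤ 1 := by rwa [abs_neg]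
  by_cases hs : lo = lo' ∧ hi = hi'
  · have s := same hs.1 hs.2
    obtain ⟨rfl, rfl⟩ := hs
    have c3 := ht_ctr he h
    have c4 := al_ctr he h
    have b1 := ha.btw k hk
    rcases hout k hk with o | o
    · have e : k = lo := by omega
      refine far_coord he t2 (L := h - lam) (by rw [c3, c4]; linarith) ?_
        (by rw [c1, c2]; linarith) (by linarith [ulo e])
      rw [e, ht_lo, al_lo he]
      nlinarith
    · have e : k = hi := by omega
      refine far_coord he t1 (L := h + lam) (by rw [c3, c4]; linarith) ?_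
        (by rw [c1, c2]; linarith) (by linarith [uhi e])
      rw [e, ht_hi, al_hi]
      linarith
  · have d1 := below hP mlo mhi mlo' mhi' ha.lt ha'.lt hs (hout lo ha.lo_mem) (hout hi ha.hi_mem)
    have d2 : ht A lo' hi' (ctr A lo hi h) ≤ -(9 * (M * lam)) := by
      have e : ht A lo' hi' (ctr A lo hi h) = ht A lo' hi' (ctr A lo hi 0) +
          cr (dir (A lo' - A hi')) (ctr A lo hi h - ctr A lo hi 0) := by
        simp only [ht, cr_sub_right]; ring
      have := cr_le (dir (A lo' - A hi')) (ctr A lo hi h - ctr A lo hi 0)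
      rw [he', norm_ctr_sub he h0] at this
      rw [e1] at d1
      linarith
    have d3 : |al A lo' hi' (ctr A lo hi h)| ≤ 3 * M := by
      refine (abs_al_le he' _).trans ?_
      have e : ctr A lo hi h - A hi' =
          (A hi - A hi') + dir (A lo - A hi) + (ctr A lo hi h - ctr A lo hi 0) := by
        simp only [ctr]; push_cast; ring
      have := hP.diam hi (mem_K hP mlo mhi ha.lt) hi' (mem_K hP mlo' mhi' ha'.lt)
      rw [e]
      refine norm_add₃_le.trans ?_
      rw [he, norm_ctr_sub he h0]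
      linarith
    have d4 := mul_le_mul_of_nonneg_left (abs_le.1 d3).1 lp.le
    have d5 := mul_le_mul_of_nonneg_left (abs_le.1 d3).2 lp.le
    by_cases n1 : k = hi'
    · refine far_coord he' t1 (L := 0) (by nlinarith) ?_ (by rw [c1, c2]; linarith)
        (by linarith [uhi n1])
      rw [n1, ht_hi, al_hi]
      simp
    by_cases n2 : k = lo'
    · refine far_coord he' t2 (L := -(2 * lam)) (by nlinarith) ?_ (by rw [c1, c2]; linarith)
        (by linarith [ulo n2])
      rw [n2, ht_lo, al_lo he']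
      nlinarith
    have o := hout k hk
    have d6 := ht_outside hP mlo' mhi' mk ha'.lt (by omega)
    have b1 := ha'.btw k' hk'
    have d7 := ht_nonneg hP mlo' mhi' mk' b1.1 b1.2
    rw [e2] at d6
    exact far_coord he' (t := 0) (by simp) (L := -lam) (by linarith) (by linarith)
      (by rw [c1]; linarith) (by linarith)

lemma cr_dir {x y : ℂ} (hx : x ≠ 0) (hy : y ≠ 0) : cr (dir x) (dir y) = cr x y / (‖x‖ * ‖y‖) := by
  have h1 := norm_pos_iff.2 hx
  have h2 := norm_pos_iff.2 hy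
  rw [eq_div_iff (by positivity)]
  conv_rhs => rw [← norm_mul_dir x, ← norm_mul_dir y, cr_mul_left, cr_mul_right]
  ring

end StarAux

open StarAux

theorem star_sep {M : ℝ} {A : ℤ → ℂ} {K : Set ℤ} {b : ℤ} (hP : Poly M A K b) {δ H : ℝ}
    (hδ : 0 < δ) (hδH : δ ≤ H) (hH : H ≤ 1 / (2 ^ 14 * M ^ 7))
    {att att' : Set ℤ} {lo hi lo' hi' : ℤ} {h h' : ℝ}
    (ha : Att K b att lo hi) (ha' : Att K b att' lo' hi')
    (h0 : 0 ≤ h) (h1 : h ≤ H) (h0' : 0 ≤ h') (h1' : h' ≤ H)
    (nc : ∀ k1 ∈ att, ∀ k2 ∈ att', ∀ k3 ∈ att, ∀ k4 ∈ att', k1 < k2 → k2 < k3 → k3 < k4 → False)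
    (nc' : ∀ k1 ∈ att', ∀ k2 ∈ att, ∀ k3 ∈ att', ∀ k4 ∈ att, k1 < k2 → k2 < k3 → k3 < k4 → False)
    (same : lo = lo' → hi = hi' →
      (h + δ ≤ h' ∧ att ⊆ {lo, hi}) ∨ (h' + δ ≤ h ∧ att' ⊆ {lo, hi}))
    {k k' : ℤ} (hk : k ∈ att) (hk' : k' ∈ att') (hne : k ≠ k') :
    Far (δ / 2) (ctr A lo hi h) (A k) (ctr A lo' hi' h') (A k') := by
  by_cases hs : lo = lo' ∧ hi = hi'
  · rcases same hs.1 hs.2 with ⟨s1, s2⟩ | ⟨s1, s2⟩
    · refine upper hP hδH hH ha ha' h0 h1 h0' h1' (fun m hm => ?_) (fun _ _ => s1) hk hk' hne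
      rcases s2 hm with e | e
      · exact Or.inl (e.trans hs.1).le
      · exact Or.inr (Eq.trans e hs.2).ge
    · refine (upper hP hδH hH ha' ha h0' h1' h0 h1 (fun m hm => ?_) (fun _ _ => s1) hk' hk
        hne.symm).symm
      rcases s2 hm with e | e
      · exact Or.inl e.le
      · exact Or.inr (Eq.ge e)
  by_cases o1 : ∀ m ∈ att, m ≤ lo' ∨ hi' ≤ m
  · exact upper hP hδH hH ha ha' h0 h1 h0' h1' o1 (fun e e' => absurd ⟨e, e'⟩ hs) hk hk' hne
  by_cases o2 : ∀ m ∈ att', m ≤ lo ∨ hi ≤ m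
  · exact (upper hP hδH hH ha' ha h0' h1' h0 h1 o2 (fun e e' => absurd ⟨e.symm, e'.symm⟩ hs) hk' hk
      hne.symm).symm
  exfalso
  push Not at o1 o2
  obtain ⟨m, hm, m1, m2⟩ := o1
  obtain ⟨m', hm', m1', m2'⟩ := o2
  rcases lt_trichotomy lo lo' with c | c | c
  · exact nc lo ha.lo_mem lo' ha'.lo_mem m hm hi' ha'.hi_mem c m1 m2
  · rcases lt_trichotomy hi hi' with d | d | d
    · exact nc lo ha.lo_mem m' hm' hi ha.hi_mem hi' ha'.hi_mem m1' m2' d
    · exact hs ⟨c, d⟩
    · exact nc' lo' ha'.lo_mem m hm hi' ha'.hi_mem hi ha.hi_mem m1 m2 d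
  · exact nc' lo' ha'.lo_mem lo ha.lo_mem m' hm' hi ha.hi_mem c m1' m2'

theorem star_dirs {M : ℝ} {A : ℤ → ℂ} {K : Set ℤ} {b : ℤ} (hP : Poly M A K b) {H : ℝ}
    (hH : H ≤ 1 / (2 ^ 14 * M ^ 7)) {att : Set ℤ} {lo hi : ℤ} {h : ℝ}
    (ha : Att K b att lo hi) (h0 : 0 ≤ h) (h1 : h ≤ H) :
    ‖dir (A lo - A hi)‖ = 1 ∧ (∀ k ∈ att, 1 / (32 * M ^ 2) ≤ ‖A k - ctr A lo hi h‖) ∧
    Dirs (1 / (128 * M ^ 5)) (64 * M ^ 2 * H) att id
      (fun k => dir (A k - ctr A lo hi h) / dir (A lo - A hi)) := by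
  have hM := hP.one
  have mlo := ha.sub ha.lo_mem
  have mhi := ha.sub ha.hi_mem
  have he := norm_e hP mlo mhi ha.lt
  have he0 : dir (A lo - A hi) ≠ 0 := norm_pos_iff.1 (by rw [he]; exact one_pos)
  have l2 := two_le hP mlo mhi ha.lt
  have tp : 0 < 1 / (16 * M ^ 2) := by positivity
  have t1 : 1 / (16 * M ^ 2) ≤ 1 := by
    rw [div_le_one (by positivity)]
    nlinarith
  have qhi : A hi - ctr A lo hi 0 = ((1 : ℝ) : ℂ) * -dir (A lo - A hi) * 1 := by simp [ctr]
  have qlo : A lo - ctr A lo hi 0 = ((‖A lo - A hi‖ - 1 : ℝ) : ℂ) * dir (A lo - A hi) * 1 := by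
    have := norm_mul_dir (A lo - A hi)
    simp only [ctr]
    push_cast
    linear_combination -this
  have d1 : dir 1 = 1 := by simp [dir]
  have dhi : dir (A hi - ctr A lo hi 0) = -dir (A lo - A hi) := by
    rw [qhi, dir_mul one_pos (by rw [norm_neg, he]), d1, mul_one]
  have dlo : dir (A lo - ctr A lo hi 0) = dir (A lo - A hi) := by
    rw [qlo, dir_mul (by linarith) he, d1, mul_one]
  have hq : ∀ y, cr (dir (A lo - A hi)) (y - ctr A lo hi 0) = ht A lo hi y := by
    intro y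
    have := ht_ctr he 0
    simp only [ht, cr_sub_right] at this ⊢
    linarith
  have n0 : ∀ k ∈ att, 1 / (16 * M ^ 2) ≤ ‖A k - ctr A lo hi 0‖ := by
    intro k hk
    have b1 := ha.btw k hk
    by_cases e1 : k = lo
    · rw [e1, qlo, mul_one, norm_mul, he, mul_one, norm_real, Real.norm_eq_abs,
        abs_of_pos (by linarith)]
      linarith
    by_cases e2 : k = hi
    · rw [e2, qhi]
      simpa [he] using t1
    have i1 := (tau_le hP).trans (ht_inside hP mlo mhi (ha.sub hk) (by omega) (by omega))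
    have := cr_le (dir (A lo - A hi)) (A k - ctr A lo hi 0)
    rw [hq, he, one_mul] at this
    linarith
  have nz : ∀ k ∈ att, A k - ctr A lo hi 0 ≠ 0 := fun k hk => norm_pos_iff.1 (tp.trans_le (n0 k hk))
  have n1 : ∀ k ∈ att, lo < k → ‖A k - ctr A lo hi 0‖ ≤ 2 * M := by
    intro k hk hlt
    have e : A k - ctr A lo hi 0 = (A k - A hi) - dir (A lo - A hi) := by
      simp only [ctr]; push_cast; ring
    have := hP.diam k (mem_K hP mlo (ha.sub hk) hlt) hi (mem_K hP mlo mhi ha.lt)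
    rw [e]
    refine (norm_sub_le _ _).trans ?_
    rw [he]
    linarith
  have dq : ∀ k, ‖(A k - ctr A lo hi 0) - (A k - ctr A lo hi h)‖ ≤ H := by
    intro k
    rw [sub_sub_sub_cancel_left, norm_ctr_sub he h0]
    exact h1
  have hH2 : H ≤ 1 / (32 * M ^ 2) := by
    refine hH.trans ?_
    gcongr
    · norm_num
    · norm_num
  have n2 : ∀ k ∈ att, 1 / (32 * M ^ 2) ≤ ‖A k - ctr A lo hi h‖ := by
    intro k hk
    have e3 : 1 / (16 * M ^ 2) = 2 * (1 / (32 * M ^ 2)) := by field_simp; norm_num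
    have := norm_sub_norm_le (A k - ctr A lo hi 0) (A k - ctr A lo hi h)
    linarith [n0 k hk, dq k]
  refine ⟨he, n2, ?_⟩
  have D0 : Dirs (1 / (64 * M ^ 5)) 0 att id
      (fun k => dir (A k - ctr A lo hi 0) / dir (A lo - A hi)) := by
    refine ⟨fun k hk => ⟨by rw [norm_div, norm_dir (nz k hk), he, div_one], ?_⟩, injOn_id _,
      fun k hk k' hk' hlt => ?_⟩
    · have e : (dir (A k - ctr A lo hi 0) / dir (A lo - A hi)).im =
          cr (dir (A lo - A hi)) (dir (A k - ctr A lo hi 0)) := by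
        rw [← cr_div _ _ _ he, div_self he0]
        simp [cr]
      have b1 := ha.btw k hk
      have := ht_nonneg hP mlo mhi (ha.sub hk) b1.1 b1.2
      rw [← hq, ← norm_mul_dir (A k - ctr A lo hi 0), cr_mul_right] at this
      rw [neg_zero, e]
      exact nonneg_of_mul_nonneg_right this (norm_pos_iff.2 (nz k hk))
    · have b1 := ha.btw k hk
      have b2 := ha.btw k' hk'
      simp only [id] at hlt
      have p1 := norm_pos_iff.2 (nz k hk)
      have p2 := norm_pos_iff.2 (nz k' hk')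
      by_cases e1 : k = lo
      · by_cases e2 : k' = hi
        · right
          simp only [e1, e2, dlo, dhi, neg_div, div_self he0]
          simp
        · left
          have i1 := ht_inside hP mlo mhi (ha.sub hk') (by omega) (by omega)
          rw [← hq, ← norm_mul_dir (A k' - ctr A lo hi 0), cr_mul_right] at i1
          simp only [cr_div _ _ _ he, e1, dlo]
          refine le_of_mul_le_mul_left (le_trans ?_ i1) p2
          calc ‖A k' - ctr A lo hi 0‖ * (1 / (64 * M ^ 5)) ≤ 2 * M * (1 / (64 * M ^ 5)) := by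
                gcongr
                exact n1 k' hk' (by omega)
            _ = 1 / (32 * M ^ 4) := by field_simp; norm_num
            _ ≤ 1 / (16 * M) := by
                gcongr
                · norm_num
                · exact le_self_pow₀ hM (by norm_num)
      · left
        have i1 := below hP mlo mhi (ha.sub hk) (ha.sub hk') ha.lt hlt (fun c => e1 c.1.symm)
          (Or.inl b1.1) (Or.inr b2.2)
        have i2 := two_le hP (ha.sub hk) (ha.sub hk') hlt
        have i3 := mul_ht (A := A) k k' (ctr A lo hi 0)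
        have e : cr (A k - ctr A lo hi 0) (A k' - ctr A lo hi 0) =
            -cr (A k - A k') (ctr A lo hi 0 - A k') := by
          simp only [cr, sub_re, sub_im]; ring
        have p3 : 0 < 1 / (32 * M ^ 2) := by positivity
        simp only [cr_div _ _ _ he]
        rw [cr_dir (nz k hk) (nz k' hk'), e, ← i3, le_div_iff₀ (by positivity)]
        calc 1 / (64 * M ^ 5) * (‖A k - ctr A lo hi 0‖ * ‖A k' - ctr A lo hi 0‖)
            ≤ 1 / (64 * M ^ 5) * (2 * M * (2 * M)) := by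
              gcongr
              · exact n1 k hk (by omega)
              · exact n1 k' hk' (by omega)
          _ = 2 * (1 / (32 * M ^ 3)) := by field_simp; norm_num
          _ ≤ 2 * (1 / (32 * M ^ 2)) := by gcongr; norm_num
          _ ≤ _ := by nlinarith
  have hH0 : 0 ≤ H := h0.trans h1
  refine (D0.perturb (γ := 32 * M ^ 2 * H) (fun k hk => ?_) fun k hk => ?_).mono ?_ ?_
  · have : 0 < 1 / (32 * M ^ 2) := by positivity
    rw [norm_div, norm_dir (norm_pos_iff.1 (this.trans_le (n2 k hk))), he, div_one]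
  · rw [← sub_div, norm_div, he, div_one]
    refine (norm_dir_sub tp (n0 k hk) (dq k)).trans_eq ?_
    field_simp
    ring
  · have e : 1 / (64 * M ^ 5) = 2 * (1 / (128 * M ^ 5)) := by field_simp; norm_num
    have : 64 * M ^ 2 * H ≤ 1 / (128 * M ^ 5) :=
      calc 64 * M ^ 2 * H ≤ 64 * M ^ 2 * (1 / (2 ^ 14 * M ^ 7)) := by gcongr
        _ = 1 / (256 * M ^ 5) := by field_simp; norm_num
        _ ≤ 1 / (128 * M ^ 5) := by gcongr; norm_num
    linarith
  · nlinarith [sq_nonneg M]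

end

end Pool.Agent.P.MP_845aff_co
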