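import Pool.Agent.P.MP_845aff_co.Clus2
import Pool.Agent.P.MP_845aff_co.Star

namespace Pool.Agent.P.MP_845aff_co

open Set Complex

noncomputable section

def Ks (T : ℝ) (ν : ℂ) : Set ℤ := {t | 2 * |(t : ℝ)| ≤ T ∧ 1 / T ≤ cr (tg T t) ν}

def apx (T : ℝ) : ℤ := -⌈T⌉

def PA (T D : ℝ) (base ν : ℂ) (t0 : ℤ) (k : ℤ) : ℂ :=
  if k = apx T then base - D * ν + pb T t0 else base + pb T k

structure PP (T D M : ℝ) : Prop where
  hT : 4 ≤ T
  hM : 2 * T ^ 2 ≤ M
  hD : 8 * M * T ≤ D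

variable {T D M : ℝ} {base ν : ℂ} {t0 : ℤ}

lemma apx_lt (hT : 0 < T) {k : ℤ} (hk : 2 * |(k : ℝ)| ≤ T) : apx T < k := by
  have h1 := Int.le_ceil T
  have h2 := neg_abs_le (k : ℝ)
  have : ((apx T : ℤ) : ℝ) < k := by simp only [apx]; push_cast; linarith
  exact_mod_cast this

lemma PA_apx : PA T D base ν t0 (apx T) = base - D * ν + pb T t0 := if_pos rfl

lemma PA_arc (p : PP T D M) {k : ℤ} (hk : k ∈ Ks T ν) : PA T D base ν t0 k = base + pb T k :=
  if_neg (apx_lt (by linarith [p.hT]) hk.1).ne'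

lemma PP.M32 (p : PP T D M) : 32 ≤ M := by nlinarith [p.hT, p.hM]
lemma PP.MD (p : PP T D M) : 32 * M ≤ D := by nlinarith [p.hT, p.hD, p.M32]

lemma norm_apx (p : PP T D M) (hν : ‖ν‖ ≤ 6) (h0 : 2 * |(t0 : ℝ)| ≤ T) {m : ℤ} (hm : m ∈ Ks T ν) :
    2 ≤ ‖PA T D base ν t0 (apx T) - PA T D base ν t0 m‖ ∧
      ‖PA T D base ν t0 (apx T) - PA T D base ν t0 m‖ ≤ 7 * D := by
  have e : PA T D base ν t0 (apx T) - PA T D base ν t0 m = (pb T t0 - pb T m) - D * ν := by
    rw [PA_apx, PA_arc p hm]; ring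
  have hT := p.hT
  have hD : 0 ≤ D := by linarith [p.MD, p.M32]
  have h1 := (norm_pb_sub h0 hm.1).trans p.hM
  have h2 : ‖(D : ℂ) * ν‖ = D * ‖ν‖ := by simp [abs_of_nonneg hD]
  have h3 : 1 ≤ 2 * T * ‖ν‖ := by
    have a1 := hm.2.trans (cr_le _ _)
    have a2 := norm_tg (by linarith) hm.1
    rw [div_le_iff₀ (by linarith)] at a1
    nlinarith [mul_le_mul_of_nonneg_right a2 (norm_nonneg ν)]
  rw [e]
  constructor
  · have a1 := norm_sub_norm_le ((D : ℂ) * ν) (pb T t0 - pb T m)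
    rw [norm_sub_rev ((D : ℂ) * ν), h2] at a1
    have a2 := mul_le_mul_of_nonneg_right p.hD (norm_nonneg ν)
    nlinarith [p.M32]
  · have a1 := norm_sub_le (pb T t0 - pb T m) ((D : ℂ) * ν)
    nlinarith [p.MD, p.M32]

lemma poly_PA (p : PP T D M) (hν : ‖ν‖ ≤ 6) (h0 : 2 * |(t0 : ℝ)| ≤ T) :
    Poly M (PA T D base ν t0) (Ks T ν) (apx T) := by
  have hT := p.hT
  have hM := p.M32
  have hD := p.MD
  have diam : ∀ k ∈ Ks T ν, ∀ m ∈ Ks T ν, ‖PA T D base ν t0 k - PA T D base ν t0 m‖ ≤ M := by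
    intro k hk m hm
    rw [PA_arc p hk, PA_arc p hm, add_sub_add_left_eq_sub]
    exact (norm_pb_sub hk.1 hm.1).trans p.hM
  refine ⟨by linarith, fun k hk => apx_lt (by linarith) hk.1, diam, ?_, ?_⟩
  · rintro i (rfl | hi) m hm ne
    · exact (norm_apx p hν h0 hm).1
    · rw [PA_arc p hi, PA_arc p hm, add_sub_add_left_eq_sub]
      linarith [le_norm_pb_sub (T := T) (by linarith) ne]
  · rintro i (rfl | hi) j hj k hk m hm h1 h2
    · have a1 := (norm_apx (base := base) p hν h0 hm).2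
      rw [div_le_iff₀ (by linarith)]
      set w : ℂ := D * ν + (pb T j - pb T t0) with hw
      have e : cr (PA T D base ν t0 j - PA T D base ν t0 (apx T))
          (PA T D base ν t0 k - PA T D base ν t0 (apx T)) = cr w (pb T k - pb T j) := by
        rw [PA_apx, PA_arc p hj, PA_arc p hk, hw]; simp [cr]; ring
      have b : ∀ s ∈ Ks T ν, D - 2 * M * T ≤ T * cr (tg T s) w := by
        intro s hs
        rw [hw, cr_add_right, cr_mul_right]
        have c1 := neg_le_cr (tg T s) (pb T j - pb T t0)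
        have c2 := mul_le_mul (norm_tg (by linarith) hs.1) ((norm_pb_sub hj.1 h0).trans p.hM)
          (norm_nonneg _) (by norm_num)
        have c3 := hs.2
        rw [div_le_iff₀ (by linarith)] at c3
        nlinarith
      have c : (1 : ℝ) ≤ k - j := by
        have : (j : ℝ) + 1 ≤ k := by exact_mod_cast h2
        linarith
      rw [e, cr_pb2 (by linarith)]
      have d : 3 / 4 * D ≤ T * (k - j) * ((cr (tg T j) w + cr (tg T k) w) / 2) := by
        have := b j hj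
        have := b k hk
        have := p.hD
        nlinarith
      nlinarith
    · have a1 := diam i hi m hm
      rw [div_le_iff₀ (by linarith), PA_arc p hi, PA_arc p hj, PA_arc p hk, add_sub_add_left_eq_sub,
        add_sub_add_left_eq_sub, cr_pb3]
      rw [PA_arc p hi] at a1
      have c1 : (1 : ℝ) ≤ j - i := by
        have : (i : ℝ) + 1 ≤ j := by exact_mod_cast h1
        linarith
      have c2 : (1 : ℝ) ≤ k - j := by
        have : (j : ℝ) + 1 ≤ k := by exact_mod_cast h2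
        linarith
      have c3 : 1 ≤ T * (j - i) * (k - i) * (k - j) :=
        one_le_mul_of_one_le_of_one_le (one_le_mul_of_one_le_of_one_le
          (one_le_mul_of_one_le_of_one_le (by linarith) c1) (by linarith)) c2
      nlinarith

lemma up_PA (p : PP T D M) (hν : ‖ν‖ ≤ 6) (h0 : 2 * |(t0 : ℝ)| ≤ T) {s k m : ℤ} (hs : s ∈ Ks T ν)
    (hk : k ∈ insert (apx T) (Ks T ν)) (hm : m ∈ Ks T ν) (ne : k ≠ s) :
    cr (tg T s) (PA T D base ν t0 k) ≤ cr (tg T s) (PA T D base ν t0 s) - 1 ∧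
    cr (tg T s) (PA T D base ν t0 k) ≤ cr (tg T s) (PA T D base ν t0 s) -
      1 / M * ‖PA T D base ν t0 k - PA T D base ν t0 m‖ := by
  have hT := p.hT
  have hM := p.M32
  have hD := p.MD
  rcases hk with rfl | hk
  · have a1 := (norm_apx (base := base) p hν h0 hm).2
    have a2 : cr (tg T s) (PA T D base ν t0 (apx T)) ≤ cr (tg T s) (PA T D base ν t0 s) - D * (1 / T) := by
      rw [PA_apx, PA_arc p hs, cr_add_right, cr_sub_right, cr_add_right, cr_mul_right,
        cr_tg_pb (by linarith), cr_tg_pb (by linarith)]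
      nlinarith [hs.2, sq_nonneg ((t0 : ℝ) - s)]
    have a3 : 1 / M * (7 * D) ≤ D * (1 / T) := by
      rw [div_mul_eq_mul_div, ← mul_div_assoc, div_le_div_iff₀ (by linarith) (by linarith)]
      have : 7 * T ≤ M := by nlinarith [p.hM]
      nlinarith
    have a4 : 1 ≤ 1 / M * (7 * D) := by
      rw [div_mul_eq_mul_div, le_div_iff₀ (by linarith)]; linarith
    have a5 := mul_le_mul_of_nonneg_left a1 (show 0 ≤ 1 / M by positivity)
    constructor <;> linarith
  · have a1 := (poly_PA (base := base) p hν h0).diam k hk m hm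
    have a2 : cr (tg T s) (PA T D base ν t0 k) ≤ cr (tg T s) (PA T D base ν t0 s) - 1 := by
      rw [PA_arc p hk, PA_arc p hs, cr_add_right, cr_add_right,
        cr_tg_pb (by linarith), cr_tg_pb (by linarith)]
      have h1 : (1 : ℝ) ≤ ((k - s : ℤ) : ℝ) ^ 2 := by
        exact_mod_cast (one_le_sq_iff_one_le_abs _).2 (Int.one_le_abs (sub_ne_zero.2 ne))
      push_cast at h1
      nlinarith
    have a3 : 1 / M * ‖PA T D base ν t0 k - PA T D base ν t0 m‖ ≤ 1 := by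
      rw [div_mul_eq_mul_div, div_le_one (by linarith)]; linarith
    constructor <;> linarith

lemma low_PA (p : PP T D M) (h0 : 2 * |(t0 : ℝ)| ≤ T) {w : ℂ} (hw : ‖w‖ ≤ 2) {μ : ℝ}
    (hμ : μ ≤ cr w ν) (hD : 2 * M + 1 ≤ D * μ) {k : ℤ} (hk : k ∈ Ks T ν) :
    cr w (PA T D base ν t0 (apx T)) + 1 ≤ cr w (PA T D base ν t0 k) := by
  rw [PA_apx, PA_arc p hk, cr_add_right, cr_sub_right, cr_add_right, cr_mul_right]
  have c1 := cr_le w (pb T t0 - pb T k)
  have c2 := mul_le_mul hw ((norm_pb_sub h0 hk.1).trans p.hM) (norm_nonneg _) (by norm_num)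
  rw [cr_sub_right] at c1
  nlinarith [p.MD, p.M32]

lemma cr_ctr {A : ℤ → ℂ} {lo hi : ℤ} {h c τ : ℝ} {w : ℂ} (hw : ‖w‖ ≤ 2) (hl : 2 ≤ ‖A lo - A hi‖)
    (h0 : 0 ≤ h) (hτ : 0 ≤ τ) (h1 : cr w (A lo) ≤ c) (h2 : cr w (A hi) ≤ c)
    (h3 : cr w (A hi) ≤ c - τ ∨ cr w (A lo) ≤ c - τ * ‖A lo - A hi‖) :
    cr w (ctr A lo hi h) ≤ c - τ / 2 + 2 * h := by
  have n1 : ‖dir (A lo - A hi)‖ = 1 := norm_dir (by intro e; rw [e, norm_zero] at hl; linarith)
  have e := congrArg (cr w) (norm_mul_dir (A lo - A hi))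
  rw [cr_mul_right, cr_sub_right] at e
  have b := cr_le w (I * dir (A lo - A hi))
  rw [norm_mul, norm_I, n1] at b
  rw [ctr, cr_add_right, cr_add_right, cr_mul_right]
  have : cr w (A hi) + cr w (dir (A lo - A hi)) ≤ c - τ / 2 := by
    set l := ‖A lo - A hi‖
    refine le_of_mul_le_mul_left ?_ (show 0 < l by linarith)
    rw [mul_add, e]
    rcases h3 with h3 | h3 <;> nlinarith
  nlinarith

lemma norm_ctr {A : ℤ → ℂ} {lo hi : ℤ} {h : ℝ} (hl : 2 ≤ ‖A lo - A hi‖) (h0 : 0 ≤ h) (h1 : h ≤ 1) :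
    ‖ctr A lo hi h‖ ≤ ‖A hi‖ + 2 := by
  have n1 : ‖dir (A lo - A hi)‖ = 1 := norm_dir (by intro e; rw [e, norm_zero] at hl; linarith)
  have a1 := norm_add_le (A hi + dir (A lo - A hi)) (h * (I * dir (A lo - A hi)))
  have a2 := norm_add_le (A hi) (dir (A lo - A hi))
  rw [norm_mul, norm_mul, norm_I, n1, norm_real, Real.norm_eq_abs, abs_of_nonneg h0] at a1
  rw [ctr]; linarith

lemma seg_ctr {A : ℤ → ℂ} {lo hi : ℤ} (hl : 2 ≤ ‖A lo - A hi‖) {x : ℂ}
    (hx : x ∈ segment ℝ (A lo) (A hi)) :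
    x ∈ segment ℝ (ctr A lo hi 0) (A lo) ∨ x ∈ segment ℝ (ctr A lo hi 0) (A hi) := by
  obtain ⟨s, t, hs, ht, hst, rfl⟩ := hx
  have e := norm_mul_dir (A lo - A hi)
  set l := ‖A lo - A hi‖
  set d := dir (A lo - A hi)
  have e1 : A lo = A hi + l * d := by rw [e]; ring
  have e2 : ctr A lo hi 0 = A hi + d := by simp [ctr, d]
  have e3 : (t : ℂ) = 1 - s := by rw [← ofReal_one, ← hst]; push_cast; ring
  rw [e2]
  by_cases c : s * l ≤ 1
  · right
    refine ⟨s * l, 1 - s * l, by positivity, by linarith, by ring, ?_⟩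
    simp only [real_smul]; rw [e1, e3]; push_cast; ring
  · left
    have l1 : 0 < l - 1 := by linarith
    refine ⟨1 - (s * l - 1) / (l - 1), (s * l - 1) / (l - 1), ?_, div_nonneg (by linarith) l1.le,
      by ring, ?_⟩
    · rw [sub_nonneg, div_le_one l1]; nlinarith
    · have : ((l : ℂ) - 1) ≠ 0 := by exact_mod_cast l1.ne'
      simp only [real_smul]; rw [e1, e3]; push_cast; field_simp; ring

end

end Pool.Agent.P.MP_845aff_co
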