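import Pool.Agent.P.MP_845aff_co.Clus1
import Pool.Agent.P.MP_845aff_co.Clus3

namespace Pool.Agent.P.MP_845aff_co

open Set Complex

noncomputable section

structure Par (A Δ : ℕ) where
  (η ε T D M H τ R Λ : ℝ)
  E : EE η ε
  p : PP T D M
  hA : 2 * (4 * A + 1) ≤ T
  hTε : (T + 2) * ε ≤ 1
  hDη : 2 * M + 1 ≤ D * (η / 2)
  H0 : 0 ≤ H
  hH : 8 * H * M ≤ 1
  τ0 : 0 < τ
  hτ : 4 * τ * M ≤ 1
  hR : M + 2 + 6 * D * ((A * (Δ + 1)) ^ 2 + 1) ≤ R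
  hΛ : 96 * R ^ 2 ≤ τ * η * Λ
  hRε : 96 * R * ε ≤ τ * η

variable {V : Type} [Fintype V] {G : SimpleGraph V} {A : ℕ} {P : Set V → (V → ℤ) → Prop}
  {X : Set V} {ord : V → ℤ}

structure Cl (S : Step G A P X ord) (Δ : ℕ) extends Par A Δ where
  u : V → ℂ
  hΔ : ∀ v, (G.neighborSet v).ncard ≤ Δ
  dirs : Dirs η ε (bd G X) ord u
  ps : ℤ
  ps1 : ∀ p, S.Xt p → p ≤ ps → 0 ≤ (u (S.hd p)).re
  ps2 : ∀ p, S.Xt p → ps < p → (u (S.hd p)).re < 0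

variable {S : Step G A P X ord} {Δ : ℕ}

lemma Step.Xt.bd {p : ℤ} (h : S.Xt p) : S.hd p ∈ bd G X := by
  obtain ⟨n, hn, -, h1, h2⟩ := h
  exact ⟨h1, n, S.sub hn, h2⟩

lemma Step.Xt.ord_le {p q : ℤ} (hp : S.Xt p) (hq : S.Xt q) (h : p ≤ q) :
    ord (S.hd p) ≤ ord (S.hd q) := by
  rcases h.eq_or_lt with rfl | h
  · exact le_rfl
  obtain ⟨n, hn, a1, a2, a3⟩ := hp
  obtain ⟨m, hm, b1, b2, b3⟩ := hq
  exact S.mono n hn m hm p a1 q b1 h a2 a3 b2 b3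

lemma xt_rel {η ε : ℝ} {u : V → ℂ} (d : Dirs η ε (bd G X) ord u) {p q : ℤ} (hp : S.Xt p)
    (hq : S.Xt q) (h : p ≤ q) : S.hd p = S.hd q ∨ ord (S.hd p) < ord (S.hd q) := by
  rcases (hp.ord_le hq h).eq_or_lt with e | e
  · exact Or.inl (d.2.1 hp.bd hq.bd e)
  · exact Or.inr e

lemma exists_ps {η ε : ℝ} (E : EE η ε) {u : V → ℂ} (d : Dirs η ε (bd G X) ord u) :
    ∃ ps : ℤ, (∀ p, S.Xt p → p ≤ ps → 0 ≤ (u (S.hd p)).re) ∧
      ∀ p, S.Xt p → ps < p → (u (S.hd p)).re < 0 := by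
  by_cases h : {p | S.Xt p ∧ 0 ≤ (u (S.hd p)).re}.Nonempty
  · obtain ⟨q, ⟨q1, q2⟩, mx⟩ := Set.exists_max_image {p | S.Xt p ∧ 0 ≤ (u (S.hd p)).re} id
      (S.marks.finite_toSet.subset fun p ⟨⟨n, hn, hp, _⟩, _⟩ => Step.mem_marks hn hp) h
    refine ⟨q, fun p hp hl => head_mono E (d.1 _ hp.bd) (d.1 _ q1.bd) ?_ q2, fun p hp hl => ?_⟩
    · rcases xt_rel d hp q1 hl with e | e
      · exact Or.inl (by rw [e])
      · exact Or.inr (d.2.2 _ hp.bd _ q1.bd e)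
    · by_contra c
      have := mx p ⟨hp, not_lt.1 c⟩
      simp only [id] at this; omega
  · refine ⟨S.root.1, fun p ⟨n, hn, hp, _⟩ hl => ?_, fun p hp _ => ?_⟩
    · have := (Step.in_root hn hp).1; omega
    · by_contra c
      exact h ⟨p, hp, not_lt.1 c⟩

def Step.rk (S : Step G A P X ord) (n : V) : ℕ := (S.Nf.filter fun m => S.fst m ≤ S.fst n).card

lemma Step.rk_bd {n : V} (hn : n ∈ S.N) : 1 ≤ S.rk n ∧ S.rk n ≤ A := by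
  refine ⟨Finset.card_pos.2 ⟨n, by simp [Step.mem_Nf, hn]⟩, (Finset.card_filter_le _ _).trans ?_⟩
  have := S.card
  rwa [ncard_eq_toFinset_card] at this

lemma Step.rk_lt {n m : V} (hm : m ∈ S.N) (h : S.fst n < S.fst m) : S.rk n < S.rk m := by
  refine Finset.card_lt_card ⟨fun x hx => ?_, fun c => ?_⟩
  · simp only [Finset.mem_filter] at hx ⊢
    exact ⟨hx.1, hx.2.trans h.le⟩
  · have := c (show m ∈ _ by simp [Step.mem_Nf, hm])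
    simp only [Finset.mem_filter] at this
    omega

namespace Cl

variable (c : Cl S Δ)

def U (p : ℤ) : ℂ := c.u (S.hd p)

def t (n : V) : ℤ :=
  if ∀ p ∈ S.Mk n, p ≤ c.ps then 4 * S.rk n - 4 * A - 2 else if c.ps < S.fst n then 4 * S.rk n else 0

def ν (β : ℤ × ℤ) : ℂ := if β ∈ S.gaps then nu (c.U β.1) (c.U β.2) else 4 * I

def W (s : Finset (ℤ × ℤ)) : ℂ := c.D * ∑ γ ∈ s, c.ν γ

def y (n : V) : ℂ := c.W (S.C n) + pb c.T (c.t n)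

open Classical in
def tap (β : ℤ × ℤ) : ℤ := if h : ∃ a, S.Gap a β.1 β.2 then c.t h.choose else 0

def B (β : ℤ × ℤ) : ℤ → ℂ := PA c.T c.D (c.W (S.Cg β)) (c.ν β) (c.tap β)

def K (β : ℤ × ℤ) : Set ℤ := Ks c.T (c.ν β)

open Classical in
def idx (β : ℤ × ℤ) (s : V) : ℤ := if S.Gap s β.1 β.2 then apx c.T else c.t s

def Good (w : ℂ) (lo hi : ℤ) : Prop :=
  ‖w‖ ≤ 2 ∧ (lo = hi → -(2 * c.ε) ≤ cr w (c.U lo)) ∧ (lo < hi → c.η / 2 ≤ cr w (c.ν (lo, hi)))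

lemma un {p : ℤ} (h : S.Xt p) : Un c.ε (c.U p) := c.dirs.1 _ h.bd

lemma rl {p q : ℤ} (hp : S.Xt p) (hq : S.Xt q) (h : ord (S.hd p) < ord (S.hd q)) :
    Rl c.η c.ε (c.U p) (c.U q) := c.dirs.2.2 _ hp.bd _ hq.bd h

lemma rl' {p q : ℤ} (hp : S.Xt p) (hq : S.Xt q) (h : p ≤ q) :
    c.U p = c.U q ∨ Rl c.η c.ε (c.U p) (c.U q) := by
  rcases xt_rel c.dirs hp hq h with e | e
  · exact Or.inl (by rw [U, U, e])
  · exact Or.inr (c.rl hp hq e)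

include c in
lemma gap_ord {a : V} {l h : ℤ} (g : S.Gap a l h) : ord (S.hd l) < ord (S.hd h) :=
  (xt_rel c.dirs g.slot.2.2.2.2.2.1 g.slot.2.2.2.2.2.2 g.2.2.2.1.le).resolve_left
    fun e => g.2.2.2.1.ne (S.hd_inj a g.1 l g.2.1 h g.2.2.1 e)

lemma ν_gap {a : V} {l h : ℤ} (g : S.Gap a l h) : c.ν (l, h) = nu (c.U l) (c.U h) :=
  if_pos (Step.mem_gaps.2 ⟨a, g⟩)

lemma norm_ν (β : ℤ × ℤ) : ‖c.ν β‖ ≤ 6 := by
  by_cases h : β ∈ S.gaps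
  · obtain ⟨a, g⟩ := Step.mem_gaps.1 h
    rw [ν, if_pos h]
    exact norm_nu (c.un g.slot.2.2.2.2.2.1) (c.un g.slot.2.2.2.2.2.2)
  · rw [ν, if_neg h]; simp; norm_num

lemma good_ge {p : ℤ} (hp : S.Xt p) {a : V} {l h : ℤ} (g : S.Gap a l h) (hl : p ≤ l) :
    c.η / 2 ≤ cr (c.U p) (c.ν (l, h)) := by
  obtain ⟨x1, x2⟩ := g.slot.2.2.2.2.2
  rw [c.ν_gap g]
  exact cr_nu_ge c.E (c.un x1) (c.un hp) (c.rl x1 x2 (c.gap_ord g)) (c.rl' hp x1 hl)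
    (c.rl hp x2 ((hp.ord_le x1 hl).trans_lt (c.gap_ord g)))

lemma good_le {p : ℤ} (hp : S.Xt p) {a : V} {l h : ℤ} (g : S.Gap a l h) (hl : h ≤ p) :
    c.η / 2 ≤ cr (-c.U p) (c.ν (l, h)) := by
  obtain ⟨x1, x2⟩ := g.slot.2.2.2.2.2
  rw [c.ν_gap g]
  exact cr_nu_le c.E (c.un x1) (c.un x2) (c.un hp) (c.rl x1 x2 (c.gap_ord g)) (c.rl' x2 hp hl)
    (c.rl x1 hp ((c.gap_ord g).trans_le (x2.ord_le hp hl)))

lemma t_cases {n : V} (hn : n ∈ S.N) :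
    ((∀ p ∈ S.Mk n, p ≤ c.ps) ∧ c.t n = 4 * S.rk n - 4 * A - 2) ∨
    ((∀ p ∈ S.Mk n, c.ps < p) ∧ c.t n = 4 * S.rk n) ∨
    ((∃ p ∈ S.Mk n, c.ps < p) ∧ S.fst n ≤ c.ps ∧ c.t n = 0) := by
  by_cases h1 : ∀ p ∈ S.Mk n, p ≤ c.ps
  · exact Or.inl ⟨h1, if_pos h1⟩
  by_cases h2 : c.ps < S.fst n
  · exact Or.inr (Or.inl ⟨fun p hp => h2.trans_le (Step.fst_le hp), by rw [t, if_neg h1, if_pos h2]⟩)
  · exact Or.inr (Or.inr ⟨by simpa using h1, not_lt.1 h2, by rw [t, if_neg h1, if_neg h2]⟩)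

lemma t_bd {n : V} (hn : n ∈ S.N) :
    2 * |(c.t n : ℝ)| ≤ c.T ∧ 2 * |((c.t n + 1 : ℤ) : ℝ)| ≤ c.T := by
  have r := Step.rk_bd hn
  have h1 : |c.t n| ≤ 4 * A + 1 ∧ |c.t n + 1| ≤ 4 * A + 1 := by
    rcases c.t_cases hn with h | h | h <;> constructor <;> rw [abs_le] <;> omega
  have h2 : |(c.t n : ℝ)| ≤ 4 * A + 1 := by exact_mod_cast h1.1
  have h3 : |((c.t n + 1 : ℤ) : ℝ)| ≤ 4 * A + 1 := by exact_mod_cast h1.2
  constructor <;> linarith [c.hA]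

lemma t_lt {n m : V} (hn : n ∈ S.N) (hm : m ∈ S.N) (h : ∀ p ∈ S.Mk n, ∀ q ∈ S.Mk m, p < q) :
    c.t n + 2 ≤ c.t m ∧ ((c.t n + c.t m ≤ -2 ∧ ∀ p ∈ S.Mk n, p ≤ c.ps) ∨
      (2 ≤ c.t n + c.t m ∧ ∀ p ∈ S.Mk m, c.ps < p)) := by
  have r := Step.rk_bd hn
  have r' := Step.rk_bd hm
  have f := h _ (Step.fst_mem hn) _ (Step.fst_mem hm)
  have l := Step.rk_lt hm f
  rcases c.t_cases hn with a | a | ⟨⟨p, hp, a⟩, a'⟩ <;> rcases c.t_cases hm with b | b | ⟨⟨q, hq, b⟩, b'⟩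
  · exact ⟨by omega, Or.inl ⟨by omega, a.1⟩⟩
  · refine ⟨by omega, ?_⟩
    by_cases k : c.t n + c.t m ≤ -2
    · exact Or.inl ⟨k, a.1⟩
    · exact Or.inr ⟨by omega, b.1⟩
  · exact ⟨by omega, Or.inl ⟨by omega, a.1⟩⟩
  · have := a.1 _ (Step.fst_mem hn)
    have := b.1 _ (Step.fst_mem hm)
    omega
  · exact ⟨by omega, Or.inr ⟨by omega, b.1⟩⟩
  · have := a.1 _ (Step.fst_mem hn)
    omega
  · have := h p hp _ (Step.fst_mem hm)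
    have := b.1 _ (Step.fst_mem hm)
    omega
  · exact ⟨by omega, Or.inr ⟨by omega, b.1⟩⟩
  · have := h p hp _ (Step.fst_mem hm)
    omega

lemma t_sign {n : V} (hn : n ∈ S.N) {q : ℤ} (hq : q ∈ S.Mk n) {p : ℤ} (hp : S.Xt p)
    (h1 : S.fst n ≤ p) (h2 : p ≤ q) : (c.t n : ℝ) * (c.U p).re ≤ 0 := by
  have r := Step.rk_bd hn
  rcases c.t_cases hn with a | a | a
  · have : (c.t n : ℝ) ≤ 0 := by exact_mod_cast (show c.t n ≤ 0 by omega)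
    exact mul_nonpos_of_nonpos_of_nonneg this (c.ps1 p hp (h2.trans (a.1 q hq)))
  · have : (0 : ℝ) ≤ c.t n := by exact_mod_cast (show 0 ≤ c.t n by omega)
    exact mul_nonpos_of_nonneg_of_nonpos this
      (c.ps2 p hp ((a.1 _ (Step.fst_mem hn)).trans_le h1)).le
  · simp [a.2.2]

lemma arc_K {β : ℤ × ℤ} (b : S.Blk β) {n : V} (hn : S.Arc β n) :
    c.t n ∈ c.K β ∧ c.t n + 1 ∈ c.K β := by
  have hT := c.p.hT
  have key : ∀ s : ℤ, c.t n ≤ s → s ≤ c.t n + 1 → 2 * |(s : ℝ)| ≤ c.T → s ∈ c.K β := by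
    intro s s1 s2 s3
    refine ⟨s3, ?_⟩
    by_cases hb : β ∈ S.gaps
    · obtain ⟨a, g⟩ := Step.mem_gaps.1 hb
      obtain ⟨x1, x2⟩ := g.slot.2.2.2.2.2
      have r := Step.rk_bd hn.1
      have f := b.inside hn (Step.fst_mem hn.1)
      rw [ν, if_pos hb]
      refine tg_nu' c.E (by linarith) c.hTε s3 (c.un x1) (c.un x2) (c.rl x1 x2 (c.gap_ord g))
        (fun k => ?_) (fun k => ?_)
      · have k1 : β.2 ≤ c.ps := by
          by_contra j; linarith [c.ps2 _ x2 (not_le.1 j), show (c.U β.2).re = (c.u (S.hd β.2)).re from rfl]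
        have : s ≤ -1 := by
          rcases c.t_cases hn.1 with j | j | ⟨⟨p, hp, j⟩, -⟩
          · omega
          · have := j.1 _ (Step.fst_mem hn.1); omega
          · have := b.inside hn hp; omega
        exact_mod_cast this
      · have k1 : c.ps < β.1 := by
          by_contra j; linarith [c.ps1 _ x1 (not_lt.1 j), show (c.U β.1).re = (c.u (S.hd β.1)).re from rfl]
        have : 1 ≤ s := by
          rcases c.t_cases hn.1 with j | j | j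
          · have := j.1 _ (Step.fst_mem hn.1); omega
          · omega
          · omega
        exact_mod_cast this
    · rw [ν, if_neg hb, cr_four]
      have : 1 / c.T ≤ 1 := (div_le_one (by linarith)).2 (by linarith)
      simp only [tg]; linarith
  exact ⟨key _ le_rfl (by omega) (c.t_bd hn.1).1, key _ (by omega) le_rfl (c.t_bd hn.1).2⟩

lemma tap_gap {a : V} {β : ℤ × ℤ} (g : S.Gap a β.1 β.2) : c.tap β = c.t a := by
  have h : ∃ a, S.Gap a β.1 β.2 := ⟨a, g⟩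
  rw [tap, dif_pos h, (h.choose_spec.uniq g).1]

lemma tap_bd (β : ℤ × ℤ) : 2 * |(c.tap β : ℝ)| ≤ c.T := by
  by_cases h : ∃ a, S.Gap a β.1 β.2
  · obtain ⟨a, g⟩ := h
    rw [c.tap_gap g]; exact (c.t_bd g.1).1
  · rw [tap, dif_neg h]; simp; linarith [c.p.hT]

lemma poly (β : ℤ × ℤ) : Poly c.M (c.B β) (c.K β) (apx c.T) :=
  poly_PA c.p (c.norm_ν β) (c.tap_bd β)

lemma B_apx {a : V} {β : ℤ × ℤ} (g : S.Gap a β.1 β.2) : c.B β (apx c.T) = c.y a := by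
  rw [B, PA_apx, c.tap_gap g, y, W, W, g.Cg_eq.1, Finset.sum_insert g.Cg_eq.2]; ring

lemma B_arc {β : ℤ × ℤ} (b : S.Blk β) {n : V} (hn : S.Arc β n) : c.B β (c.t n) = c.y n := by
  rw [B, PA_arc c.p (c.arc_K b hn).1, y, hn.2]

lemma idx_arc {β : ℤ × ℤ} (b : S.Blk β) {n : V} (hn : S.Arc β n) : c.idx β n = c.t n :=
  if_neg fun g => by
    have := b.inside hn g.2.1
    omega

lemma B_idx {β : ℤ × ℤ} (b : S.Blk β) {s : V} (h : S.Arc β s ∨ S.Gap s β.1 β.2) :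
    c.B β (c.idx β s) = c.y s ∧ c.idx β s ∈ insert (apx c.T) (c.K β) := by
  rcases h with h | h
  · rw [c.idx_arc b h]
    exact ⟨c.B_arc b h, Or.inr (c.arc_K b h).1⟩
  · rw [idx, if_pos h]
    exact ⟨c.B_apx h, Or.inl rfl⟩

lemma norm_W {s : Finset (ℤ × ℤ)} (h : s ⊆ S.gaps) : ‖c.W s‖ ≤ 6 * c.D * (A * (Δ + 1)) ^ 2 := by
  have hD : 0 ≤ c.D := by linarith [c.p.MD, c.p.M32]
  have h1 : ‖∑ γ ∈ s, c.ν γ‖ ≤ s.card * 6 := by
    refine (norm_sum_le _ _).trans ?_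
    simpa using Finset.sum_le_card_nsmul s _ 6 fun γ _ => c.norm_ν γ
  have h2 : (s.card : ℝ) ≤ (A * (Δ + 1)) ^ 2 := by
    exact_mod_cast (Finset.card_le_card h).trans (Step.card_gaps c.hΔ)
  rw [W, norm_mul, norm_real, Real.norm_eq_abs, abs_of_nonneg hD]
  nlinarith [mul_le_mul_of_nonneg_left h1 hD, mul_le_mul_of_nonneg_left h2 hD]

lemma norm_arc {β : ℤ × ℤ} {k : ℤ} (hk : k ∈ c.K β) : ‖c.B β k‖ + 2 ≤ c.R := by
  rw [B, PA_arc c.p hk]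
  have h1 := norm_add_le (c.W (S.Cg β)) (pb c.T k)
  have h2 := c.norm_W (s := S.Cg β) (Finset.filter_subset _ _)
  nlinarith [norm_pb hk.1, c.p.hM, c.hR, c.p.MD, c.p.M32, sq_nonneg c.T]

lemma norm_y {n : V} (hn : n ∈ S.N) : ‖c.y n‖ ≤ c.R := by
  have h1 := norm_add_le (c.W (S.C n)) (pb c.T (c.t n))
  have h2 := c.norm_W (s := S.C n) (Finset.filter_subset _ _)
  rw [y]
  nlinarith [norm_pb (c.t_bd hn).1, c.p.hM, c.hR, c.p.MD, c.p.M32, sq_nonneg c.T]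

lemma y_gap {n m : V} (hn : n ∈ S.N) (hm : m ∈ S.N) {w : ℂ} (hw : ‖w‖ ≤ 2) (ne : S.C n ≠ S.C m)
    (h1 : ∀ γ ∈ S.C m \ S.C n, c.η / 2 ≤ cr w (c.ν γ))
    (h2 : ∀ γ ∈ S.C n \ S.C m, c.η / 2 ≤ cr (-w) (c.ν γ)) : cr w (c.y n) + 1 ≤ cr w (c.y m) := by
  have hD : 0 ≤ c.D := by linarith [c.p.MD, c.p.M32]
  have hη : 0 ≤ c.η / 2 := by linarith [c.E.pos, c.E.le]
  have e : ∑ γ ∈ S.C m, cr w (c.ν γ) - ∑ γ ∈ S.C n, cr w (c.ν γ) =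
      ∑ γ ∈ S.C m \ S.C n, cr w (c.ν γ) + ∑ γ ∈ S.C n \ S.C m, cr (-w) (c.ν γ) := by
    rw [← Finset.sum_sdiff_sub_sum_sdiff]
    simp only [cr_neg_left, Finset.sum_neg_distrib]; ring
  have a1 := Finset.card_nsmul_le_sum _ _ _ h1
  have a2 := Finset.card_nsmul_le_sum _ _ _ h2
  have a3 : (1 : ℝ) ≤ (S.C m \ S.C n).card + (S.C n \ S.C m).card := by
    by_contra k
    have k1 : (S.C m \ S.C n).card + (S.C n \ S.C m).card < 1 := by exact_mod_cast not_le.1 k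
    exact ne ((Finset.sdiff_eq_empty_iff_subset.1 (Finset.card_eq_zero.1 (by omega))).antisymm
      (Finset.sdiff_eq_empty_iff_subset.1 (Finset.card_eq_zero.1 (by omega))))
  simp only [nsmul_eq_mul] at a1 a2
  have a4 : c.η / 2 ≤ ∑ γ ∈ S.C m, cr w (c.ν γ) - ∑ γ ∈ S.C n, cr w (c.ν γ) := by
    rw [e]; nlinarith
  have c1 := cr_le w (pb c.T (c.t n) - pb c.T (c.t m))
  have c2 := mul_le_mul hw ((norm_pb_sub (c.t_bd hn).1 (c.t_bd hm).1).trans c.p.hM) (norm_nonneg _)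
    (by norm_num)
  rw [cr_sub_right] at c1
  simp only [y, W, cr_add_right, cr_mul_right, cr_sum]
  nlinarith [c.hDη, mul_le_mul_of_nonneg_left a4 hD]

lemma good_pair {n m : V} {l h l' h' p : ℤ} (g : S.Slot n l h) (g' : S.Slot m l' h') (hp : S.Xt p)
    (h1 : h ≤ p) (h2 : p ≤ l') : c.Good (c.U p) l' h' ∧ c.Good (-c.U p) l h := by
  have n1 := (c.un hp).1
  refine ⟨⟨by linarith, fun _ => cr_ge c.E (c.un hp) (c.rl' hp g'.2.2.2.2.2.1 h2),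
    fun k => c.good_ge hp (g'.gap k) h2⟩, by rw [norm_neg]; linarith, fun k => ?_,
    fun k => c.good_le hp (g.gap k) h1⟩
  rw [cr_neg_left, ← cr_anti]
  exact cr_ge c.E (c.un g.2.2.2.2.2.1) (c.rl' g.2.2.2.2.2.1 hp (k ▸ h1))

lemma disj {n m : V} {l h l' h' : ℤ} (g : S.Slot n l h) (g' : S.Slot m l' h') (hl : h ≤ l') :
    ∃ w, c.Good w l' h' ∧ c.Good (-w) l h ∧ (n = m ∨ cr w (c.y n) + 1 ≤ cr w (c.y m)) := by
  have x1 := g.2.2.2.2.2.2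
  have x2 := g'.2.2.2.2.2.1
  by_cases ne : n = m
  · exact ⟨_, (c.good_pair g g' x1 le_rfl hl).1, (c.good_pair g g' x1 le_rfl hl).2, Or.inl ne⟩
  have hl' : h < l' := hl.lt_of_ne fun e => ne (S.mk_disj n g.1 m g'.1 h g.2.2.1 (e ▸ g'.2.1))
  by_cases hC : S.C n = S.C m
  · have sep : ∀ p ∈ S.Mk n, ∀ q ∈ S.Mk m, p < q := by
      rcases (Step.fst_ne g.1 g'.1 ne).lt_or_gt with k | k
      · exact Step.sep_of_C g.1 g'.1 hC k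
      · have := Step.sep_of_C g'.1 g.1 hC.symm k _ g'.2.1 _ g.2.2.1
        omega
    obtain ⟨t1, t2⟩ := c.t_lt g.1 g'.1 sep
    have key : ∀ p, S.Xt p → h ≤ p → p ≤ l' → ((c.t n + c.t m ≤ -2 ∧ 0 ≤ (c.U p).re) ∨
        (2 ≤ c.t n + c.t m ∧ (c.U p).re < 0)) → ∃ w, c.Good w l' h' ∧ c.Good (-w) l h ∧
        (n = m ∨ cr w (c.y n) + 1 ≤ cr w (c.y m)) := by
      intro p hp a1 a2 a3
      refine ⟨_, (c.good_pair g g' hp a1 a2).1, (c.good_pair g g' hp a1 a2).2, Or.inr ?_⟩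
      have := cr_u_pb (by linarith [c.p.hT]) c.hTε (c.un hp) t1 a3
      rw [cr_sub_right] at this
      rw [y, y, hC, cr_add_right, cr_add_right]; linarith
    rcases t2 with t2 | t2
    · exact key h x1 le_rfl hl (Or.inl ⟨t2.1, c.ps1 _ x1 (t2.2 _ g.2.2.1)⟩)
    · exact key l' x2 hl le_rfl (Or.inr ⟨t2.1, c.ps2 _ x2 (t2.2 _ g'.2.1)⟩)
  · obtain ⟨p, hp, a1, a2, a3, a4⟩ := Step.exists_cut g g' hl'
    refine ⟨_, (c.good_pair g g' hp a1 a2).1, (c.good_pair g g' hp a1 a2).2, Or.inr ?_⟩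
    refine c.y_gap g.1 g'.1 (by linarith [(c.un hp).1]) hC (fun γ hγ => ?_) (fun γ hγ => ?_)
    · obtain ⟨⟨a, ga⟩, -⟩ := Step.mem_C.1 (Finset.mem_sdiff.1 hγ).1
      exact c.good_ge hp ga (a4 γ hγ)
    · obtain ⟨⟨a, ga⟩, -⟩ := Step.mem_C.1 (Finset.mem_sdiff.1 hγ).1
      exact c.good_le hp ga (a3 γ hγ)

lemma nest {β : ℤ × ℤ} (b : S.Blk β) {m : V} {l h : ℤ} (g : S.Slot m l h) (h1 : β.1 < S.fst m)
    (h2 : S.fst m < β.2) : ∃ n, S.Arc β n ∧ c.Good (tg c.T (c.t n)) l h ∧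
      (n = m ∨ cr (tg c.T (c.t n)) (c.y n) + 1 ≤ cr (tg c.T (c.t n)) (c.y m)) := by
  obtain ⟨n, arc, a1, q, hq, a2, a3, a4, a5⟩ := Step.exists_top b g.1 h1 h2
  have hT : 0 < c.T := by linarith [c.p.hT]
  have nw := norm_tg hT (c.t_bd arc.1).1
  have key : ∀ a l h, S.Gap a l h → S.fst n ≤ l → h ≤ q → c.η / 2 ≤ cr (tg c.T (c.t n)) (c.ν (l, h)) := by
    intro a l h ga b1 b2
    obtain ⟨x1, x2⟩ := ga.slot.2.2.2.2.2
    have := ga.2.2.2.1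
    rw [c.ν_gap ga]
    exact tg_nu c.E hT (c.un x1) (c.un x2) (c.rl x1 x2 (c.gap_ord ga))
      (c.t_sign arc.1 hq x1 b1 (by omega)) (c.t_sign arc.1 hq x2 (by omega) b2)
  have f := Step.fst_le g.2.1
  refine ⟨n, arc, ⟨nw, fun _ => ?_, fun k => key m l h (g.gap k) (a1.trans f) (a2 _ g.2.2.1)⟩, ?_⟩
  · have := tg_unit hT (c.un g.2.2.2.2.2.1) (c.t_sign arc.1 hq g.2.2.2.2.2.1 (a1.trans f) (a2 _ g.2.1))
    linarith [c.E.pos]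
  · refine a4.imp id fun ⟨γ, hγ⟩ => c.y_gap arc.1 g.1 nw
      (fun e => by simp [e] at hγ) (fun γ hγ => ?_) (fun γ hγ => ?_)
    · obtain ⟨⟨a, ga⟩, -⟩ := Step.mem_C.1 (Finset.mem_sdiff.1 hγ).1
      exact key a _ _ ga (a5 γ hγ).1 (a5 γ hγ).2
    · exact absurd (a3 (Finset.mem_sdiff.1 hγ).1) (Finset.mem_sdiff.1 hγ).2

end Cl

end

end Pool.Agent.P.MP_845aff_co
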