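import Pool.Agent.P.MP_845aff_co.Clus4

namespace Pool.Agent.P.MP_845aff_co

open Set Complex

noncomputable section

variable {V : Type} [Fintype V] {G : SimpleGraph V} {A : ℕ} {P : Set V → (V → ℤ) → Prop}
  {X : Set V} {ord : V → ℤ} {S : Step G A P X ord} {Δ : ℕ}

namespace Cl

variable (c : Cl S Δ)

/-- a point of a block: a polygon vertex (listed in `J`) or a star centre -/
def BP (β : ℤ × ℤ) (J : Set V) (x : ℂ) : Prop :=
  (∃ s ∈ J, (S.Arc β s ∨ S.Gap s β.1 β.2) ∧ x = c.y s) ∨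
  ∃ lo ∈ insert (apx c.T) (c.K β), ∃ hi ∈ c.K β, ∃ h, lo < hi ∧ 0 ≤ h ∧ h ≤ c.H ∧
    x = ctr (c.B β) lo hi h

def Low (n : V) (l h : ℤ) (inc : Prop) (x : ℂ) : Prop :=
  ∀ w, c.Good w l h → cr w (c.y n) - c.τ / 4 ≤ cr w x ∧ (¬ inc → cr w (c.y n) + c.τ ≤ cr w x)

def Up (β : ℤ × ℤ) (J : Set V) (x : ℂ) : Prop :=
  ∀ n, S.Arc β n → cr (tg c.T (c.t n)) x ≤ cr (tg c.T (c.t n)) (c.y n) ∧
    (n ∉ J → cr (tg c.T (c.t n)) x ≤ cr (tg c.T (c.t n)) (c.y n) - c.τ)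

lemma τ_le : c.τ ≤ 1 / c.M / 2 - 2 * c.H ∧ c.τ ≤ 1 / 128 ∧ c.H ≤ 1 / 256 := by
  have hM := c.p.M32
  have h1 := c.hτ
  have h2 := c.hH
  refine ⟨?_, by nlinarith [c.τ0], by nlinarith [c.H0]⟩
  have : c.τ + 2 * c.H ≤ 1 / 2 / c.M := by
    rw [le_div_iff₀ (by linarith)]; linarith
  have e : 1 / 2 / c.M = 1 / c.M / 2 := by ring
  linarith

variable {c}

lemma idx_inj {β : ℤ × ℤ} (b : S.Blk β) {s s' : V} (h : S.Arc β s ∨ S.Gap s β.1 β.2)
    (h' : S.Arc β s' ∨ S.Gap s' β.1 β.2) (ne : s ≠ s') :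
    (c.idx β s + 1 ≠ c.idx β s' ∨ S.Gap s β.1 β.2) ∧ c.idx β s ≠ c.idx β s' := by
  have lt := (c.poly β).lt
  rcases h with h | h <;> rcases h' with h' | h'
  · rw [c.idx_arc b h, c.idx_arc b h']
    rcases (Step.fst_ne h.1 h'.1 ne).lt_or_gt with k | k
    · have := (c.t_lt h.1 h'.1 (Step.sep_of_C h.1 h'.1 (h.2.trans h'.2.symm) k)).1
      exact ⟨Or.inl (by omega), by omega⟩
    · have := (c.t_lt h'.1 h.1 (Step.sep_of_C h'.1 h.1 (h'.2.trans h.2.symm) k)).1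
      exact ⟨Or.inl (by omega), by omega⟩
  · rw [c.idx_arc b h, idx, if_pos h']
    have := lt _ (c.arc_K b h).1
    exact ⟨Or.inl (by omega), by omega⟩
  · rw [c.idx_arc b h', idx, if_pos h]
    have := lt _ (c.arc_K b h').1
    exact ⟨Or.inr h, by omega⟩
  · exact absurd (h.uniq h').1 ne

lemma BP.norm {β : ℤ × ℤ} {J : Set V} {x : ℂ} (h : c.BP β J x) : ‖x‖ ≤ c.R := by
  rcases h with ⟨s, -, h | h, rfl⟩ | ⟨lo, h1, hi, h2, h, h3, h4, h5, rfl⟩
  · exact c.norm_y h.1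
  · exact c.norm_y h.1
  · exact (norm_ctr ((c.poly β).far lo h1 hi h2 h3.ne) h4 (by linarith [c.τ_le.2.2])).trans
      (c.norm_arc h2)

lemma BP.up {β : ℤ × ℤ} (b : S.Blk β) {J : Set V} {x : ℂ} (h : c.BP β J x) : c.Up β J x := by
  intro n hn
  have k := (c.arc_K b hn).1
  have τ0 := c.τ0
  have τ1 := c.τ_le
  have up : ∀ {k m : ℤ}, k ∈ insert (apx c.T) (c.K β) → m ∈ c.K β → k ≠ c.t n →
      cr (tg c.T (c.t n)) (c.B β k) ≤ cr (tg c.T (c.t n)) (c.y n) - 1 ∧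
      cr (tg c.T (c.t n)) (c.B β k) ≤ cr (tg c.T (c.t n)) (c.y n) - 1 / c.M * ‖c.B β k - c.B β m‖ := by
    intro j m hj hm ne
    rw [← c.B_arc b hn]
    exact up_PA c.p (c.norm_ν β) (c.tap_bd β) k hj hm ne
  have up' : ∀ {k : ℤ}, k ∈ insert (apx c.T) (c.K β) →
      cr (tg c.T (c.t n)) (c.B β k) ≤ cr (tg c.T (c.t n)) (c.y n) := by
    intro j hj
    by_cases ne : j = c.t n
    · rw [ne, c.B_arc b hn]
    · linarith [(up hj k ne).1]
  rcases h with ⟨s, hs, h, rfl⟩ | ⟨lo, h1, hi, h2, h, h3, h4, h5, rfl⟩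
  · obtain ⟨e, m⟩ := c.B_idx b h
    refine ⟨e ▸ up' m, fun hJ => ?_⟩
    have := (idx_inj (c := c) b h (Or.inl hn) (fun e => hJ (e ▸ hs))).2
    rw [c.idx_arc b hn] at this
    have := (up m k this).1
    rw [e] at this; linarith
  · have M1 : 1 / c.M ≤ 1 := (div_le_one (by linarith [c.p.M32])).2 (by linarith [c.p.M32])
    have := cr_ctr (τ := 1 / c.M) (norm_tg (by linarith [c.p.hT]) (c.t_bd hn.1).1)
      ((c.poly β).far lo h1 hi h2 h3.ne) h4 (by have := c.p.M32; positivity) (up' h1)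
      (up' (Or.inr h2)) (by
        by_cases ne : hi = c.t n
        · exact Or.inr (up h1 h2 (by omega)).2
        · exact Or.inl (by linarith [(up (Or.inr h2) h2 ne).1]))
    exact ⟨by linarith, fun _ => by linarith⟩

lemma BP.low {a : V} {β : ℤ × ℤ} (g : S.Gap a β.1 β.2) {J : Set V} {x : ℂ} (h : c.BP β J x) :
    c.Low a β.1 β.2 (a ∈ J) x := by
  intro w hw
  have b : S.Blk β := Or.inl (Step.mem_gaps.2 ⟨a, g⟩)
  have τ0 := c.τ0
  have τ1 := c.τ_le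
  have lw : ∀ {k : ℤ}, k ∈ c.K β → cr w (c.y a) + 1 ≤ cr w (c.B β k) := by
    intro k hk
    rw [← c.B_apx g]
    exact low_PA c.p (c.tap_bd β) hw.1 (hw.2.2 g.2.2.2.1) c.hDη hk
  rcases h with ⟨s, hs, h | h, rfl⟩ | ⟨lo, h1, hi, h2, h, h3, h4, h5, rfl⟩
  · have := lw (c.arc_K b h).1
    rw [c.B_arc b h] at this
    exact ⟨by linarith, fun _ => by linarith⟩
  · obtain rfl := (h.uniq g).1
    exact ⟨by linarith, fun k => absurd hs k⟩
  · have := cr_ctr (w := -w) (c := -cr w (c.y a)) (τ := 1) (by rw [norm_neg]; exact hw.1)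
      ((c.poly β).far lo h1 hi h2 h3.ne) h4 (by norm_num) (by
        rw [cr_neg_left]
        rcases h1 with rfl | h1
        · rw [c.B_apx g]
        · linarith [lw h1]) (by rw [cr_neg_left]; linarith [lw h2])
      (Or.inl (by rw [cr_neg_left]; linarith [lw h2]))
    rw [cr_neg_left] at this
    exact ⟨by linarith, fun _ => by linarith⟩

lemma Up.seg {β : ℤ × ℤ} {J : Set V} {x1 x2 x : ℂ} (h1 : c.Up β J x1) (h2 : c.Up β J x2)
    (hx : x ∈ segment ℝ x1 x2) : c.Up β J x := fun n hn =>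
  ⟨seg_le hx (h1 n hn).1 (h2 n hn).1, fun k => seg_le hx ((h1 n hn).2 k) ((h2 n hn).2 k)⟩

lemma Low.seg {n : V} {l h : ℤ} {inc : Prop} {x1 x2 x : ℂ} (h1 : c.Low n l h inc x1)
    (h2 : c.Low n l h inc x2) (hx : x ∈ segment ℝ x1 x2) : c.Low n l h inc x := fun w hw =>
  ⟨le_seg hx (h1 w hw).1 (h2 w hw).1, fun k => le_seg hx ((h1 w hw).2 k) ((h2 w hw).2 k)⟩

lemma low_low {n m : V} {l h l' h' : ℤ} (g : S.Slot n l h) (g' : S.Slot m l' h') (hl : h ≤ l')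
    {inc inc' : Prop} {x x' : ℂ} (h1 : c.Low n l h inc x) (h2 : c.Low m l' h' inc' x')
    (ne : n = m → inc → inc' → False) : c.τ / 4 ≤ ‖x - x'‖ := by
  obtain ⟨w, w1, w2, w3⟩ := c.disj g g' hl
  have a1 := h1 _ w2
  have a2 := h2 _ w1
  simp only [cr_neg_left] at a1
  have τ0 := c.τ0
  have τ1 := c.τ_le
  have : cr w x + c.τ / 2 ≤ cr w x' := by
    rcases w3 with rfl | w3
    · by_cases i : inc
      · linarith [a1.1, a2.2 (ne rfl i)]
      · linarith [a1.2 i, a2.1]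
    · linarith [a1.1, a2.1]
  linarith [le_norm_of_cr w1.1 this]

lemma up_low {β : ℤ × ℤ} (b : S.Blk β) {m : V} {l h : ℤ} (g : S.Slot m l h) (h1 : β.1 < S.fst m)
    (h2 : S.fst m < β.2) {J : Set V} {inc : Prop} {x x' : ℂ} (u : c.Up β J x)
    (lw : c.Low m l h inc x') (ne : m ∈ J → inc → False) : c.τ / 4 ≤ ‖x - x'‖ := by
  obtain ⟨n, arc, w1, w2⟩ := c.nest b g h1 h2
  have a1 := u n arc
  have a2 := lw _ w1
  have τ0 := c.τ0
  have τ1 := c.τ_le
  have : cr (tg c.T (c.t n)) x + c.τ / 2 ≤ cr (tg c.T (c.t n)) x' := by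
    rcases w2 with rfl | w2
    · by_cases i : n ∈ J
      · linarith [a1.1, a2.2 (ne i)]
      · linarith [a1.2 i, a2.1]
    · linarith [a1.1, a2.1]
  linarith [le_norm_of_cr w1.1 this]

lemma seg_slot {β : ℤ × ℤ} (b : S.Blk β) {J : Set V} {x1 x2 x x' : ℂ} (h1 : c.BP β J x1)
    (h2 : c.BP β J x2) (hx : x ∈ segment ℝ x1 x2) {m : V} {l h : ℤ} (g : S.Slot m l h)
    {inc : Prop} (lw : c.Low m l h inc x') (ne : m ∈ J → inc → False) (nb : β ≠ (l, h))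
    (nn : ¬ (l < β.1 ∧ β.2 < h)) : c.τ / 4 ≤ ‖x - x'‖ := by
  have u := (h1.up b).seg (h2.up b) hx
  rcases id b with b' | rfl
  · obtain ⟨a, ga⟩ := Step.mem_gaps.1 b'
    have lx := (h1.low ga).seg (h2.low ga) hx
    rcases ga.slot.lam g with k | k | k | k | k
    · exact low_low ga.slot g k lx lw fun e i => ne (e ▸ i)
    · rw [norm_sub_rev]
      exact low_low g ga.slot k lw lx fun e i j => ne (e ▸ j) i
    · exact up_low b g k.1 k.2.1 u lw ne
    · exact absurd k.2.2 nn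
    · exact absurd (Prod.ext k.1 k.2) nb
  · exact up_low b g (Step.in_root g.1 (Step.fst_mem g.1)).1 (Step.in_root g.1 (Step.fst_mem g.1)).2
      u lw ne

lemma sep_seg {β β' : ℤ × ℤ} (b : S.Blk β) (b' : S.Blk β') (ne : β ≠ β') {J J' : Set V}
    (d : Disjoint J J') {x1 x2 x1' x2' : ℂ} (h1 : c.BP β J x1) (h2 : c.BP β J x2)
    (h1' : c.BP β' J' x1') (h2' : c.BP β' J' x2') : Far (c.τ / 4) x1 x2 x1' x2' := by
  have key : ∀ {β β' : ℤ × ℤ}, S.Blk β → β' ∈ S.gaps → β ≠ β' → ¬ (β'.1 < β.1 ∧ β.2 < β'.2) →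
      ∀ {J J' : Set V}, Disjoint J J' → ∀ {x1 x2 x1' x2' : ℂ}, c.BP β J x1 → c.BP β J x2 →
      c.BP β' J' x1' → c.BP β' J' x2' → Far (c.τ / 4) x1 x2 x1' x2' := by
    intro β β' b b' ne nn J J' d x1 x2 x1' x2' h1 h2 h1' h2' x hx x' hx'
    obtain ⟨a, ga⟩ := Step.mem_gaps.1 b'
    exact seg_slot b h1 h2 hx ga.slot ((h1'.low ga).seg (h2'.low ga) hx')
      (fun i j => disjoint_left.1 d i j) ne nn
  have rt : ∀ β ∈ S.gaps, ¬ (β.1 < S.root.1 ∧ S.root.2 < β.2) := by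
    intro β hb k
    obtain ⟨a, ga⟩ := Step.mem_gaps.1 hb
    have := (Step.in_root ga.1 ga.2.1).1
    omega
  rcases id b with k | rfl <;> rcases id b' with k' | rfl
  · by_cases nn : β'.1 < β.1 ∧ β.2 < β'.2
    · exact (key b' k ne.symm (by omega) d.symm h1' h2' h1 h2).symm
    · exact key b k' ne nn d h1 h2 h1' h2'
  · exact (key b' k ne.symm (rt _ k) d.symm h1' h2' h1 h2).symm
  · exact key b k' ne (rt _ k') d h1 h2 h1' h2'
  · exact absurd rfl ne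

lemma R_ge : 34 ≤ c.R := by
  have := c.hR
  have h1 := c.p.M32
  have h2 := c.p.MD
  nlinarith [sq_nonneg ((A : ℝ) * (Δ + 1))]

lemma ray_pt {n : V} (hn : n ∈ S.N) {p : ℤ} {lam : ℝ} (hl : c.Λ ≤ lam) {x : ℂ}
    (hx : x ∈ segment ℝ (c.y n) (lam * c.U p)) :
    ∃ s : ℝ, 0 ≤ s ∧ ‖x - s * c.U p‖ ≤ c.R ∧ (s * c.η ≤ 6 * c.R → c.Low n p p True x) := by
  obtain ⟨a, θ, ha, hθ, e, rfl⟩ := hx
  have hR := R_ge (c := c)
  have τ0 := c.τ0
  have η0 : 0 < c.η := by linarith [c.E.pos, c.E.le]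
  have Λ0 : 0 < c.Λ := by
    by_contra k
    nlinarith [c.hΛ, mul_nonneg (mul_pos τ0 η0).le (neg_nonneg.2 (not_lt.1 k))]
  have ny := c.norm_y hn
  refine ⟨θ * lam, mul_nonneg hθ (by linarith), ?_, fun hs w hw => ⟨?_, fun k => absurd trivial k⟩⟩
  · have : a • c.y n + θ • ((lam : ℂ) * c.U p) - ((θ * lam : ℝ) : ℂ) * c.U p = a • c.y n := by
      simp only [real_smul]; push_cast; ring
    rw [this, norm_smul, Real.norm_eq_abs, abs_of_nonneg ha]
    nlinarith [norm_nonneg (c.y n)]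
  · rw [cr_add_right, cr_smul_right, cr_smul_right, cr_mul_right]
    have a1 := hw.2.1 rfl
    have a2 : cr w (c.y n) ≤ 2 * c.R := (cr_le _ _).trans (mul_le_mul hw.1 ny (norm_nonneg _) (by norm_num))
    have a3 : θ * (2 * c.R) ≤ c.τ / 8 := by
      have b1 : θ * c.Λ * c.η ≤ 6 * c.R :=
        (mul_le_mul_of_nonneg_right (mul_le_mul_of_nonneg_left hl hθ) η0.le).trans hs
      refine le_of_mul_le_mul_right ?_ (mul_pos η0 Λ0)
      nlinarith [c.hΛ, mul_le_mul_of_nonneg_right b1 (show 0 ≤ 2 * c.R by linarith)]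
    have a4 : θ * lam * (2 * c.ε) ≤ c.τ / 8 := by
      refine le_of_mul_le_mul_right ?_ η0
      nlinarith [c.hRε, mul_le_mul_of_nonneg_right hs (show 0 ≤ 2 * c.ε by linarith [c.E.pos])]
    have a5 : a = 1 - θ := by linarith
    have a6 := mul_le_mul_of_nonneg_left a1 (mul_nonneg hθ (show 0 ≤ lam by linarith))
    have a7 := mul_le_mul_of_nonneg_left a2 hθ
    rw [a5]; nlinarith

lemma sep_ray_seg {n : V} {p : ℤ} (g : S.Slot n p p) {lam : ℝ} (hl : c.Λ ≤ lam) {β : ℤ × ℤ}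
    (b : S.Blk β) {J : Set V} (hJ : n ∉ J) {x1 x2 : ℂ} (h1 : c.BP β J x1) (h2 : c.BP β J x2) :
    Far (c.τ / 4) x1 x2 (c.y n) (lam * c.U p) := by
  intro x hx x' hx'
  obtain ⟨s, s0, s1, s2⟩ := ray_pt g.1 hl hx'
  have hR := R_ge (c := c)
  by_cases k : s * c.η ≤ 6 * c.R
  · refine seg_slot b h1 h2 hx g (s2 k) (fun i _ => hJ i) ?_ (by
      rcases b with b | rfl
      · obtain ⟨a, ga⟩ := Step.mem_gaps.1 b
        have := ga.2.2.2.1; omega
      · have := Step.in_root g.1 g.2.1; omega)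
    rintro rfl
    rcases b with b | b
    · obtain ⟨a, ga⟩ := Step.mem_gaps.1 b
      exact lt_irrefl _ ga.2.2.2.1
    · have := Step.in_root g.1 g.2.1
      rw [← b] at this; exact lt_irrefl _ this.1
  · have a1 : ‖x‖ ≤ c.R := by
      have := (convex_closedBall (0 : ℂ) c.R).segment_subset (by simpa using h1.norm)
        (by simpa using h2.norm) hx
      simpa using this
    have a2 : ‖(s : ℂ) * c.U p‖ = s := by simp [(c.un g.2.2.2.2.2.1).1, abs_of_nonneg s0]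
    have a3 : (s : ℂ) * c.U p = x - (x - x') - (x' - s * c.U p) := by ring
    have a4 := norm_sub_le (x - (x - x')) (x' - s * c.U p)
    have a5 := norm_sub_le x (x - x')
    rw [← a3, a2] at a4
    nlinarith [c.E.one, c.τ_le.2.1]

lemma sep_ray_ray {n m : V} {p q : ℤ} (g : S.Slot n p p) (g' : S.Slot m q q) (ne : n ≠ m)
    (ne' : S.hd p ≠ S.hd q) (hpq : p ≤ q) {lam lam' : ℝ} (hl : c.Λ ≤ lam) (hl' : c.Λ ≤ lam') :
    Far (c.τ / 4) (c.y n) (lam * c.U p) (c.y m) (lam' * c.U q) := by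
  intro x hx x' hx'
  obtain ⟨s, s0, s1, s2⟩ := ray_pt g.1 hl hx
  obtain ⟨s', s0', s1', s2'⟩ := ray_pt g'.1 hl' hx'
  have hR := R_ge (c := c)
  by_contra k
  have x1 := g.2.2.2.2.2.1
  have x2 := g'.2.2.2.2.2.1
  have a1 : ‖(s : ℂ) * c.U p - s' * c.U q‖ ≤ 3 * c.R := by
    have e : (s : ℂ) * c.U p - s' * c.U q = (x - x') + (x' - s' * c.U q) - (x - s * c.U p) := by ring
    have b1 := norm_sub_le ((x - x') + (x' - s' * c.U q)) (x - s * c.U p)
    have b2 := norm_add_le (x - x') (x' - s' * c.U q)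
    rw [e]; linarith [c.τ_le.2.1]
  have η0 : 0 < c.η := by linarith [c.E.pos, c.E.le]
  have a2 : s * c.η ≤ 6 * c.R ∧ s' * c.η ≤ 6 * c.R := by
    rcases c.rl x1 x2 ((xt_rel c.dirs x1 x2 hpq).resolve_left ne') with r | r
    · have b1 := cr_le ((s : ℂ) * c.U p - s' * c.U q) (c.U q)
      have b2 := neg_le_cr (c.U p) ((s : ℂ) * c.U p - s' * c.U q)
      rw [cr_sub_left, cr_mul_left, cr_mul_left, cr_self, (c.un x2).1] at b1
      rw [cr_sub_right, cr_mul_right, cr_mul_right, cr_self, (c.un x1).1] at b2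
      constructor <;> nlinarith
    · have b1 := (le_abs_self _).trans ((abs_re_le_norm _).trans a1)
      simp only [sub_re, re_ofReal_mul] at b1
      have b2 := near_one r.1
      have b3 := near_neg r.2
      have b4 : s + s' ≤ 6 * c.R := by nlinarith [c.E.le, c.E.one]
      constructor <;> nlinarith [c.E.one]
  exact k (low_low g g' hpq (s2 a2.1) (s2' a2.2) fun e _ _ => ne e)

end Cl

end

end Pool.Agent.P.MP_845aff_co
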