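import Pool.Agent.P.MP_845aff_co.Sep

namespace Pool.Agent.P.MP_845aff_co

open PMap Set

lemma ncard_biUnion_le {α β : Type} [Finite α] [Finite β] (S : Set α) (T : α → Set β) (k : ℕ)
    (h : ∀ i ∈ S, (T i).ncard ≤ k) : (⋃ i ∈ S, T i).ncard ≤ S.ncard * k := by
  induction S, S.toFinite using Set.Finite.induction_on with
  | empty => simp
  | @insert a S ha _ ih =>
    rw [biUnion_insert, ncard_insert_of_notMem ha, add_mul, one_mul, add_comm]
    exact (ncard_union_le _ _).trans (add_le_add (h a (mem_insert _ _))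
      (ih fun i hi => h i (mem_insert_of_mem _ hi)))

lemma ncard_nb {V : Type} [Finite V] {G : SimpleGraph V} {Δ : ℕ}
    (hΔ : ∀ v, (G.neighborSet v).ncard ≤ Δ) (S : Set V) :
    {x | ∃ b ∈ S, G.Adj x b}.ncard ≤ S.ncard * Δ := by
  refine le_trans (ncard_le_ncard ?_) (ncard_biUnion_le S G.neighborSet Δ fun i _ => hΔ i)
  rintro x ⟨b, hb, h⟩
  exact mem_biUnion hb h.symm

variable {V D : Type} [Fintype V] [DecidableEq V] [Fintype D] [DecidableEq D] {G : SimpleGraph V}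

def KK (Δ : ℕ) : ℕ := Ctx.sepB (8 * Δ + 9)

def AA (Δ : ℕ) : ℕ := KK Δ + (KK Δ * Δ + 1) + (2 * KK Δ * Δ + 1) * KK Δ

namespace Ctx

variable (C : Ctx G D)

def Ext (X : Set V) (e : D) (b : V) : Prop :=
  ∃ x ∈ X, C.M.tl e = some x ∧ C.M.tl (C.M.a e) = some b ∧ b ∉ X ∧ G.Adj x b

def Exp (X : Set V) (v : V) : Prop := ∀ c, C.par v = some c → c ∉ X

def Piece (Δ : ℕ) (X : Set V) (ord : V → ℤ) : Prop :=
  Conn G X ∧ ∃ (d0 : D) (Pend : Set V), C.M.tl d0 ∈ o X ∧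
    (∀ e b, C.Ext X e b → (C.f X).SameCycle d0 e) ∧
    (∀ v ∈ X, C.Exp X v → (C.f X).SameCycle d0 (C.td v)) ∧
    (∀ k k' b b', k < k' → k' < per (C.f X) d0 → C.Ext X (el (C.f X) d0 k) b →
      C.Ext X (el (C.f X) d0 k') b' → ord b ≤ ord b') ∧
    Pend ⊆ X ∧ Pend.ncard ≤ KK Δ ∧ (bd G X).ncard ≤ KK Δ ∧ (∀ v ∈ Pend, C.Exp X v) ∧
    ∀ y ∈ X \ Pend, (bd G (comp G (X \ Pend) y)).ncard ≤ 8

omit [Fintype V] [DecidableEq D] in
lemma exists_exp {X : Set V} {v : V} (hv : v ∈ X) : ∃ x ∈ X, C.Exp X x := by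
  by_cases h : C.Exp X v
  · exact ⟨v, hv, h⟩
  · simp only [Exp, not_forall, not_not] at h
    obtain ⟨c, h1, h2⟩ := h
    exact ⟨c, h2, fun c' h => by rw [C.hpar _ _ h1] at h; exact absurd h (by simp)⟩

omit [Fintype V] [DecidableEq D] in
lemma gd_ext {X : Set V} {x b : V} (hx : x ∈ X) (hb : b ∉ X) (h : G.Adj x b) :
    C.Ext X (C.gd x b) b := ⟨x, hx, C.gd1 _ _ h, C.gd2 _ _ h, hb, h⟩

omit [Fintype V] in
lemma top (Δ : ℕ) (v : V) : C.Piece Δ (comp G univ v) 0 := by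
  set X := comp G univ v with hX
  have hc : Conn G X := conn_comp (mem_univ v)
  obtain ⟨x0, hx0, ex0⟩ := C.exists_exp (self_mem_comp univ v)
  have nb : ∀ x ∈ X, ∀ b, G.Adj x b → b ∈ X := fun x hx b h => comp_step (mem_univ v) hx h trivial
  have bX : bd G X = ∅ := by
    ext b; simp only [mem_empty_iff_false, iff_false]
    rintro ⟨h1, x, hx, h⟩; exact h1 (nb x hx b h)
  refine ⟨hc, C.td x0, ∅, by rw [C.td1]; simpa, ?_, ?_, fun _ _ _ _ _ _ _ _ => le_rfl,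
    empty_subset _, by simp, by simp [bX], by simp, ?_⟩
  · rintro e b ⟨x, hx, -, -, h1, h2⟩
    exact absurd (nb x hx b h2) h1
  · intro u hu eu
    refine C.orbit_child hc (by rw [C.td1]; simpa) (by rw [C.td1]; simpa) ?_
    intro c w cc cs w1 w2
    have loc : ∀ x ∉ o X, ∀ d e, C.M.tl d = x → C.M.tl e = x → w d = w e :=
      fun x hx d e h1 h2 => C.M.const_at w (fun d hd => by rw [w1, cs d (hd ▸ hx), add_zero]) h1 h2
    have key : ∀ u, C.Exp X u → ∃ d, C.M.tl d = none ∧ w (C.td u) = w d := by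
      intro u eu
      rcases h : C.par u with _ | p
      · refine ⟨C.M.a (C.td u), (C.td2 u).trans h, ?_⟩
        rw [w2, cs.out cc (by rw [C.td2, h]; simp), add_zero]
      · refine ⟨C.M.a (C.td p), (C.td2 p).trans (C.hpar _ _ h), ?_⟩
        have hp : some p ∉ o X := by simpa using eu p h
        rw [w2, cs _ (by rw [C.td1]; exact hp), add_zero, ← loc _ hp _ _ ((C.td2 u).trans h) (C.td1 p),
          w2, cs.out cc (by rw [C.td2, h]; exact hp), add_zero]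
    obtain ⟨d, h1, h2⟩ := key x0 ex0
    obtain ⟨d', h1', h2'⟩ := key u eu
    rw [h2, h2']
    exact loc none (by simp) _ _ h1 h1'
  · intro y hy
    have : comp G (X \ ∅) y = X := by
      rw [diff_empty]
      exact (comp_sub hy.1).antisymm fun w hw => hc y hy.1 w hw
    rw [this, bX]; simp

omit [Fintype V] in
/-- the darts leaving a component of `X \ N` lie on one face -/
lemma child_orbit {X N : Set V} {d0 : D} (h0 : C.M.tl d0 ∈ o X)
    (hexp : ∀ v ∈ X, C.Exp X v → (C.f X).SameCycle d0 (C.td v))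
    (nb : ∀ x ∈ X, ∀ b, b ∉ X → G.Adj x b → x ∈ N)
    (cor : ∀ n ∈ N, ∃ e, (C.f X).SameCycle d0 e ∧ C.M.tl e = some n) {y : V} (hy : y ∈ X \ N)
    {e e' : D} (he : (∃ b, C.Ext (comp G (X \ N) y) e b) ∨
      ∃ v ∈ comp G (X \ N) y, C.Exp (comp G (X \ N) y) v ∧ e = C.td v)
    (he' : (∃ b, C.Ext (comp G (X \ N) y) e' b) ∨
      ∃ v ∈ comp G (X \ N) y, C.Exp (comp G (X \ N) y) v ∧ e' = C.td v) :
    (C.f (comp G (X \ N) y)).SameCycle e e' := by
  set Y := comp G (X \ N) y with hY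
  have YX : Y ⊆ X \ N := comp_sub hy
  have tl : ∀ e, ((∃ b, C.Ext Y e b) ∨ ∃ v ∈ Y, C.Exp Y v ∧ e = C.td v) → C.M.tl e ∈ o Y := by
    rintro e (⟨b, x, hx, h, -⟩ | ⟨v, hv, -, rfl⟩)
    · rw [h]; simpa
    · rw [C.td1]; simpa
  refine C.orbit_child (conn_comp hy) (tl e he) (tl e' he') ?_
  intro c w cc cs w1 w2
  have cs' : C.M.Supp c (o X) := cs.mono (o_mono fun x hx => (YX hx).1)
  have loc : ∀ x ∉ Y, ∀ d e, C.M.tl d = some x → C.M.tl e = some x → w d = w e :=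
    fun x hx d e h1 h2 => C.M.const_at w
      (fun d hd => by rw [w1, cs d (by rw [hd]; simpa), add_zero]) h1 h2
  have via : ∀ e x e', x ∉ Y → C.M.tl (C.M.a e) = some x → (C.f X).SameCycle d0 e' →
      C.M.tl e' = some x → w e = w d0 := by
    intro e x e' hx h1 h2 h3
    rw [← C.w_outer h0 cc cs' w1 w2 h2, ← loc x hx _ _ h1 h3, w2,
      cs.out cc (by rw [h1]; simpa), add_zero]
  have key : ∀ e, ((∃ b, C.Ext Y e b) ∨ ∃ v ∈ Y, C.Exp Y v ∧ e = C.td v) → w e = w d0 := by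
    rintro e (⟨b, x, hx, h1, h2, h3, h4⟩ | ⟨v, hv, ev, rfl⟩)
    · have bX : b ∈ X := by
        by_contra h; exact (YX hx).2 (nb x (YX hx).1 b h h4)
      have bN : b ∈ N := by
        by_contra h; exact h3 (comp_step hy hx h4 ⟨bX, h⟩)
      obtain ⟨e', a1, a2⟩ := cor b bN
      exact via e b e' h3 h2 a1 a2
    · by_cases h : C.Exp X v
      · exact C.w_outer h0 cc cs' w1 w2 (hexp v (YX hv).1 h)
      · simp only [Exp, not_forall, not_not] at h
        obtain ⟨p, h1, h2⟩ := h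
        exact via _ p (C.td p) (ev p h1) ((C.td2 v).trans h1)
          (hexp p h2 fun c' h => by rw [C.hpar _ _ h1] at h; exact absurd h (by simp)) (C.td1 p)
  rw [key e he, key e' he']

omit [Fintype V] [DecidableEq D] in
lemma ext_unique {X : Set V} {e : D} {b b' : V} (h : C.Ext X e b) (h' : C.Ext X e b') : b = b' := by
  obtain ⟨_, -, -, h, -⟩ := h
  obtain ⟨_, -, -, h', -⟩ := h'
  exact Option.some.inj (h.symm.trans h')

/-- choosing the cut of the face of a component -/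
lemma child_mono {X Y : Set V} (hY : Conn G Y) (hYX : Y ⊆ X) {d0 : D} (h0 : C.M.tl d0 ∈ o X)
    (horb : ∀ e e' b b', C.Ext Y e b → C.Ext Y e' b' → (C.f Y).SameCycle e e')
    (hne : (bd G Y).Nonempty) (rep : V → ℤ)
    (hrep : ∀ s ∈ bd G Y, s ∈ X ∧ ∃ r < per (C.f X) d0, rep s = r ∧
      C.M.tl (el (C.f X) d0 r) = some s) :
    ∃ g0 b0, C.Ext Y g0 b0 ∧ ∀ k k' b b', k < k' → k' < per (C.f Y) g0 →
      C.Ext Y (el (C.f Y) g0 k) b → C.Ext Y (el (C.f Y) g0 k') b' → rep b ≤ rep b' := by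
  classical
  obtain ⟨s1, hs1, hmin⟩ := exists_min_image (bd G Y) rep (toFinite _) hne
  have ebd : ∀ e b, C.Ext Y e b → b ∈ bd G Y := by
    rintro e b ⟨x, hx, -, -, h1, h2⟩; exact ⟨h1, x, hx, h2⟩
  obtain ⟨s1Y, x1, hx1, a1⟩ := id hs1
  have e1 := C.gd_ext hx1 s1Y a1
  by_cases hall : ∀ e b, C.Ext Y e b → b = s1
  · exact ⟨_, _, e1, fun k k' b b' _ _ h h' => by rw [hall _ _ h, hall _ _ h']⟩
  push Not at hall
  obtain ⟨g, bg, hg, hbg⟩ := hall
  have hex : ∃ k, k < per (C.f Y) g ∧ C.Ext Y (el (C.f Y) g k) s1 := by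
    obtain ⟨k, hk, hk'⟩ := exists_el _ _ (horb _ _ _ _ hg e1)
    exact ⟨k, hk, hk' ▸ e1⟩
  obtain ⟨hk0, ek0⟩ := Nat.find_spec hex
  set k0 := Nat.find hex with hk0'
  set g0 := el (C.f Y) g k0 with hg0
  have hper : per (C.f Y) g0 = per (C.f Y) g := by
    have := Function.minimalPeriod_apply_iterate
      ((C.f Y).injective.mem_periodicPts g) k0
    rwa [Equiv.Perm.iterate_eq_pow] at this
  have hel : ∀ k, el (C.f Y) g0 k = el (C.f Y) g (k + k0) := by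
    intro k; simp [hg0, el, pow_add]
  have g0Y : C.M.tl g0 ∈ o Y := by
    obtain ⟨x, hx, h, -⟩ := ek0
    rw [h]; simpa
  have hd : ∀ {e b}, C.Ext Y e b → C.M.tl (C.M.a e) = some b := fun ⟨_, _, _, h, _⟩ => h
  refine ⟨g0, s1, ek0, fun k k' b b' hkk hk' h h' => ?_⟩
  by_contra hlt
  push Not at hlt
  have m1 := hmin b' (ebd _ _ h')
  have bs : b ≠ s1 := fun e => by rw [e] at hlt; omega
  have k0' : 0 < k := by
    rcases Nat.eq_zero_or_pos k with e | e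
    · rw [e] at h; exact absurd (C.ext_unique h ek0) bs
    · exact e
  obtain ⟨sX, r1, hr1, q1, y1⟩ := hrep s1 hs1
  obtain ⟨bX, r, hr, q, y⟩ := hrep b (ebd _ _ h)
  obtain ⟨bX', r', hr', q', y'⟩ := hrep b' (ebd _ _ h')
  by_cases bs' : b' = s1
  · obtain ⟨gX, rg, hrg, -, yg⟩ := hrep bg (ebd _ _ hg)
    obtain ⟨t, u, th, -⟩ := C.theta hY hYX h0 g0Y (j1 := 0) (j2 := k') (by omega) hk' le_rfl hr1
      sX sX s1Y s1Y (hd ek0) (bs' ▸ hd h') y1 y1
    have k00 : 0 < k0 := by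
      rcases Nat.eq_zero_or_pos k0 with e | e
      · rw [hg0, e] at ek0; exact absurd (C.ext_unique hg ek0) hbg
      · exact e
    have lt : k' + k0 < per (C.f Y) g := by
      by_contra hn
      refine Nat.find_min hex (m := k' + k0 - per (C.f Y) g) (by omega) ⟨by omega, ?_⟩
      rw [hel, bs', ← el_mod, Nat.mod_eq_sub_mod (by omega), el_mod] at h'
      exact h'
    have a1 := th k r b k0' (by omega) hr bX (ebd _ _ h).1 bs bs (hd h) y
    have a2 := th (per (C.f Y) g - k0) rg bg (by omega) (by omega) hrg gX (ebd _ _ hg).1 hbg hbg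
      (by rw [hel, Nat.sub_add_cancel hk0.le, el_per]; exact hd hg) yg
    rw [if_pos (by omega), if_neg (by omega)] at a1
    rw [if_neg (by omega), if_neg (by omega)] at a2
    have : (1 : ZMod 2) = 0 := by linear_combination a1 - a2
    exact absurd this (by decide)
  · obtain ⟨t, u, th, tu⟩ := C.theta hY hYX h0 g0Y (j1 := 0) (j2 := k) (r1 := r1) (r2 := r) k0'
      (by omega) (by omega) hr sX bX s1Y (ebd _ _ h).1 (hd ek0) (hd h) y1 y
    have a1 := th k' r' b' (by omega) hk' hr' bX' (ebd _ _ h').1 bs'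
      (fun e => by rw [e] at hlt; omega) (hd h') y'
    rw [if_neg (by omega), if_pos (by omega), tu bs.symm] at a1
    simp at a1

theorem step {Δ : ℕ} (hΔ : ∀ v, (G.neighborSet v).ncard ≤ Δ) (X : Set V) (ord : V → ℤ)
    (hP : C.Piece Δ X ord) : Nonempty (Step G (AA Δ) (C.Piece Δ) X ord) := by
  classical
  obtain ⟨hc, d0, Pend, h0, hext, hexp, hmono, PX, Pc, Bc, Pe, hcell⟩ := hP
  obtain ⟨v0, hv0, -⟩ := id h0
  obtain ⟨x0, hx0, ex0⟩ := C.exists_exp hv0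
  let Must : Set V := insert x0 {x | x ∈ X ∧ ∃ b, b ∉ X ∧ G.Adj x b}
  have hZ : ∀ U : Set V, ∃ Z : Finset V, (Must ∩ U ∪ bd G U ⊆ Z) ∧
      (U ⊆ X → (bd G U).ncard ≤ 8 → Z.card ≤ KK Δ) ∧ (∀ v ∈ Z, ∀ c, C.par v = some c → c ∈ Z) ∧
      ∀ y ∉ Z, (bd G (comp G (↑Z)ᶜ y)).ncard ≤ 8 := by
    intro U
    obtain ⟨Z, z1, z2, z3, z4⟩ := C.separator x0 (Must ∩ U ∪ bd G U).toFinite.toFinset
    refine ⟨Z, fun v hv => z1 ((Set.Finite.mem_toFinset _).2 hv), fun hU h8 => z2.trans (sepB_mono ?_), z3,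
      fun y hy => ?_⟩
    · rw [← ncard_eq_toFinset_card]
      have a1 := ncard_union_le (Must ∩ U) (bd G U)
      have a2 : Must ∩ U ⊆ insert x0 {x | ∃ b ∈ bd G U, G.Adj x b} := by
        rintro x ⟨rfl | ⟨-, b, hb, h⟩, hx⟩
        · exact mem_insert _ _
        · exact Or.inr ⟨b, ⟨fun h => hb (hU h), x, hx, h⟩, h⟩
      have a3 := ncard_le_ncard a2
      have a4 := ncard_insert_le x0 {x | ∃ b ∈ bd G U, G.Adj x b}
      have a5 := ncard_nb hΔ (bd G U)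
      have a6 : (bd G U).ncard * Δ ≤ 8 * Δ := Nat.mul_le_mul_right _ h8
      omega
    · obtain ⟨B, b1, b2⟩ := z4 y hy
      exact (ncard_le_ncard b2).trans (by simpa using b1)
  choose Z Z1 Z2 Z3 Z4 using hZ
  let N3 : Set V := {v | v ∈ X \ Pend ∧ C.par v = none ∧ v ∈ Z (comp G (X \ Pend) v)}
  let N : Set V := Pend ∪ Must ∪ N3
  have NX : N ⊆ X := by
    rintro v ((h | rfl | h) | h)
    exacts [PX h, hx0, h.1, h.1.1]
  have nb : ∀ x ∈ X, ∀ b, b ∉ X → G.Adj x b → x ∈ N :=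
    fun x hx b hb h => Or.inl (Or.inr (Or.inr ⟨hx, b, hb, h⟩))
  have cor : ∀ n ∈ N, ∃ e, (C.f X).SameCycle d0 e ∧ C.M.tl e = some n := by
    rintro n ((h | rfl | ⟨h, b, hb, hb'⟩) | h)
    · exact ⟨_, hexp n (PX h) (Pe n h), C.td1 n⟩
    · exact ⟨_, hexp n hx0 ex0, C.td1 n⟩
    · exact ⟨_, hext _ _ (C.gd_ext h hb hb'), C.gd1 _ _ hb'⟩
    · exact ⟨_, hexp n h.1.1 (fun c e => by rw [h.2.1] at e; exact absurd e (by simp)), C.td1 n⟩
  have hpos : ∀ e, ∃ k : ℕ, (C.f X).SameCycle d0 e → k < per (C.f X) d0 ∧ el (C.f X) d0 k = e := by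
    intro e
    by_cases h : (C.f X).SameCycle d0 e
    · obtain ⟨k, h1, h2⟩ := exists_el _ _ h
      exact ⟨k, fun _ => ⟨h1, h2⟩⟩
    · exact ⟨0, fun h' => absurd h' h⟩
  choose pos hpos using hpos
  have hcor : ∀ n, ∃ k : ℕ, n ∈ N → k < per (C.f X) d0 ∧ C.M.tl (el (C.f X) d0 k) = some n := by
    intro n
    by_cases h : n ∈ N
    · obtain ⟨e, h1, h2⟩ := cor n h
      exact ⟨pos e, fun _ => ⟨(hpos e h1).1, by rw [(hpos e h1).2, h2]⟩⟩
    · exact ⟨0, fun h' => absurd h' h⟩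
  choose cr hcr using hcor
  let Mk : V → Finset ℤ := fun n => if ∃ b, b ∉ X ∧ G.Adj n b then
    (Finset.univ.filter (fun b => b ∉ X ∧ G.Adj n b)).image (fun b => (pos (C.gd n b) : ℤ))
    else {(cr n : ℤ)}
  let hd : ℤ → V := fun p => (C.M.tl (C.M.a (el (C.f X) d0 p.toNat))).getD x0
  have gpos : ∀ n ∈ N, ∀ b, b ∉ X → G.Adj n b → pos (C.gd n b) < per (C.f X) d0 ∧
      el (C.f X) d0 (pos (C.gd n b)) = C.gd n b ∧ hd (pos (C.gd n b)) = b := by
    intro n hn b hb h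
    obtain ⟨a1, a2⟩ := hpos _ (hext _ _ (C.gd_ext (NX hn) hb h))
    exact ⟨a1, a2, by simp only [hd, Int.toNat_natCast, a2, C.gd2 _ _ h, Option.getD_some]⟩
  have mk1 : ∀ n, (∃ b, b ∉ X ∧ G.Adj n b) → ∀ p, p ∈ Mk n ↔
      ∃ b, (b ∉ X ∧ G.Adj n b) ∧ (pos (C.gd n b) : ℤ) = p := by
    intro n h p; simp only [Mk, if_pos h]; simp
  have mk2 : ∀ n, ¬ (∃ b, b ∉ X ∧ G.Adj n b) → Mk n = {(cr n : ℤ)} := by
    intro n h; simp only [Mk, if_neg h]
  have mk3 : ∀ n ∈ N, ∀ p ∈ Mk n, ∃ r < per (C.f X) d0, p = r ∧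
      C.M.tl (el (C.f X) d0 r) = some n := by
    intro n hn p hp
    by_cases h : ∃ b, b ∉ X ∧ G.Adj n b
    · obtain ⟨b, hb, rfl⟩ := (mk1 n h p).1 hp
      obtain ⟨a1, a2, -⟩ := gpos n hn b hb.1 hb.2
      exact ⟨_, a1, rfl, by rw [a2, C.gd1 _ _ hb.2]⟩
    · rw [mk2 n h, Finset.mem_singleton] at hp
      exact ⟨_, (hcr n hn).1, hp, (hcr n hn).2⟩
  have mk4 : ∀ n ∈ N, ∀ p ∈ Mk n, hd p ∉ X → G.Adj n (hd p) → ∃ r < per (C.f X) d0, p = r ∧
      C.Ext X (el (C.f X) d0 r) (hd p) := by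
    intro n hn p hp h1 h2
    obtain ⟨b, hb, rfl⟩ := (mk1 n ⟨_, h1, h2⟩ p).1 hp
    obtain ⟨a1, a2, a3⟩ := gpos n hn b hb.1 hb.2
    exact ⟨_, a1, rfl, by rw [a2, a3]; exact C.gd_ext (NX hn) hb.1 hb.2⟩
  have bdN : ∀ y ∈ X \ N, ∀ s ∈ bd G (comp G (X \ N) y), s ∈ N := by
    rintro y hy s ⟨h1, x, hx, h2⟩
    have xX := comp_sub hy hx
    have sX : s ∈ X := by
      by_contra h; exact xX.2 (nb x xX.1 s h h2)
    by_contra h; exact h1 (comp_step hy hx h2 ⟨sX, h⟩)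
  have corb := fun y hy e e' he he' => C.child_orbit h0 hexp nb cor (y := y) hy (e := e) (e' := e')
    he he'
  refine ⟨{
    N := N, Mk := Mk, hd := hd, conn := hc, sub := NX, ne := ⟨x0, Or.inl (Or.inr (Or.inl rfl))⟩,
    card := ?_, nb := nb, mk_disj := ?_, ext := ?_, kind := ?_, mono := ?_, hd_inj := ?_, nc := ?_,
    three := ?_, child := ?_ }⟩
  · let R : Set V := insert x0 {x | ∃ b ∈ bd G X ∪ Pend, G.Adj x b}
    have a1 : N3 ⊆ ⋃ y ∈ R ∩ (X \ Pend), (Z (comp G (X \ Pend) y) : Set V) := by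
      rintro v ⟨h1, -, h3⟩
      have : ∃ y ∈ R, y ∈ comp G (X \ Pend) v := by
        by_contra hn
        push Not at hn
        refine hn x0 (mem_insert _ _) (hc.sub_of_closed h1.1 (self_mem_comp _ v) ?_ hx0)
        intro a ha b hab _ bX
        refine comp_step h1 ha hab ⟨bX, fun bP => hn a (Or.inr ⟨b, Or.inr bP, hab⟩) ha⟩
      obtain ⟨y, y1, y2⟩ := this
      exact mem_biUnion (x := y) ⟨y1, comp_sub h1 y2⟩ (by rw [comp_eq y2]; exact h3)
    have a2 := ncard_biUnion_le (R ∩ (X \ Pend)) (fun y => (Z (comp G (X \ Pend) y) : Set V)) (KK Δ)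
      (fun y hy => by
        rw [ncard_coe_finset]
        exact Z2 _ (fun x hx => (comp_sub hy.2 hx).1) (hcell y hy.2))
    have a3 := ncard_le_ncard a1
    have a4 : (R ∩ (X \ Pend)).ncard ≤ 2 * KK Δ * Δ + 1 := by
      have b1 := ncard_le_ncard (inter_subset_left (s := R) (t := X \ Pend))
      have b2 : R.ncard ≤ _ + 1 := ncard_insert_le x0 {x | ∃ b ∈ bd G X ∪ Pend, G.Adj x b}
      have b3 := ncard_nb hΔ (bd G X ∪ Pend)
      have b4 := ncard_union_le (bd G X) Pend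
      have b5 : (bd G X ∪ Pend).ncard * Δ ≤ 2 * KK Δ * Δ := Nat.mul_le_mul_right _ (by omega)
      omega
    have a5 : (R ∩ (X \ Pend)).ncard * KK Δ ≤ (2 * KK Δ * Δ + 1) * KK Δ :=
      Nat.mul_le_mul_right _ a4
    have a6 : Must.ncard ≤ KK Δ * Δ + 1 := by
      have b1 : Must ⊆ insert x0 {x | ∃ b ∈ bd G X, G.Adj x b} := by
        rintro x (rfl | ⟨hx, b, hb, h⟩)
        · exact mem_insert _ _
        · exact Or.inr ⟨b, ⟨hb, x, hx, h⟩, h⟩
      have b2 := ncard_le_ncard b1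
      have b3 := ncard_insert_le x0 {x | ∃ b ∈ bd G X, G.Adj x b}
      have b4 := ncard_nb hΔ (bd G X)
      have b5 : (bd G X).ncard * Δ ≤ KK Δ * Δ := Nat.mul_le_mul_right _ Bc
      omega
    have a7 := ncard_union_le (Pend ∪ Must) N3
    have a8 := ncard_union_le Pend Must
    simp only [N, AA]
    omega
  · intro n hn n' hn' p hp hp'
    obtain ⟨r, -, r1, r2⟩ := mk3 n hn p hp
    obtain ⟨r', -, r1', r2'⟩ := mk3 n' hn' p hp'
    have : r = r' := by omega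
    rw [this, r2'] at r2
    exact (Option.some.inj r2).symm
  · intro n hn b hb h
    exact ⟨_, (mk1 n ⟨b, hb, h⟩ _).2 ⟨b, ⟨hb, h⟩, rfl⟩, (gpos n hn b hb h).2.2⟩
  · intro n hn
    by_cases h : ∃ b, b ∉ X ∧ G.Adj n b
    · left
      refine ⟨?_, fun p hp => ?_⟩
      · obtain ⟨b, hb⟩ := id h
        exact ⟨_, (mk1 n h _).2 ⟨b, hb, rfl⟩⟩
      · obtain ⟨b, hb, rfl⟩ := (mk1 n h p).1 hp
        rw [(gpos n hn b hb.1 hb.2).2.2]; exact hb
    · exact Or.inr ⟨⟨_, mk2 n h⟩, fun b h1 h2 => h ⟨b, h1, h2⟩⟩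
  · intro n hn n' hn' p hp p' hp' hlt h1 h2 h1' h2'
    obtain ⟨r, -, rfl, r2⟩ := mk4 n hn p hp h1 h2
    obtain ⟨r', r0, rfl, r2'⟩ := mk4 n' hn' p' hp' h1' h2'
    exact hmono r r' _ _ (by omega) r0 r2 r2'
  · intro n hn p hp p' hp' h
    by_cases h' : ∃ b, b ∉ X ∧ G.Adj n b
    · obtain ⟨b, hb, rfl⟩ := (mk1 n h' p).1 hp
      obtain ⟨b', hb', rfl⟩ := (mk1 n h' p').1 hp'
      rw [(gpos n hn b hb.1 hb.2).2.2, (gpos n hn b' hb'.1 hb'.2).2.2] at h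
      rw [h]
    · rw [mk2 n h', Finset.mem_singleton] at hp hp'
      rw [hp, hp']
  · intro Z Z' z1 z2 c1 c2 dj n1 m1 n2 m2 n3 m3 n4 m4 k1 k2 k3 k4 p1 q1 p2 q2 p3 q3 p4 q4 l1 l2 l3
    obtain ⟨r1, -, rfl, t1⟩ := mk3 n1 k1 p1 q1
    obtain ⟨r2, -, rfl, t2⟩ := mk3 n2 k2 p2 q2
    obtain ⟨r3, -, rfl, t3⟩ := mk3 n3 k3 p3 q3
    obtain ⟨r4, h4, rfl, t4⟩ := mk3 n4 k4 p4 q4
    exact C.nc_face h0 z1 z2 c1 c2 dj (k1 := r1) (k2 := r2) (k3 := r3) (k4 := r4) (by omega)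
      (by omega) (by omega) h4 (by rw [t1]; simpa) (by rw [t2]; simpa) (by rw [t3]; simpa)
      (by rw [t4]; simpa)
  · intro y hy y' hy' hne s1 s2 s3 n12 n13 n23 b1 b2 b3 b1' b2' b3'
    have dj : Disjoint (comp G (X \ N) y) (comp G (X \ N) y') :=
      Set.disjoint_left.2 fun x h1 h2 => hne (comp_eq_of_mem h1 h2)
    obtain ⟨g0, hg0⟩ : ∃ g0, C.Ext (comp G (X \ N) y) g0 s1 := by
      obtain ⟨h1, x, hx, h2⟩ := b1
      exact ⟨_, C.gd_ext hx h1 h2⟩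
    have g0Y : C.M.tl g0 ∈ o (comp G (X \ N) y) := by
      obtain ⟨x, hx, h, -⟩ := hg0
      rw [h]; simpa
    have loc : ∀ s ∈ bd G (comp G (X \ N) y), ∃ j < per (C.f (comp G (X \ N) y)) g0,
        C.M.tl (C.M.a (el (C.f (comp G (X \ N) y)) g0 j)) = some s := by
      rintro s ⟨h1, x, hx, h2⟩
      obtain ⟨j, j1, j2⟩ := exists_el _ _ (corb y hy g0 _ (Or.inl ⟨_, hg0⟩)
        (Or.inl ⟨_, C.gd_ext hx h1 h2⟩))
      exact ⟨j, j1, by rw [j2, C.gd2 _ _ h2]⟩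
    have tf := fun {j1 j2 j3 : ℕ} h12 h23 h3 {s1 s2 s3 : V} n12 n13 n23
        (b1 : s1 ∈ bd G (comp G (X \ N) y)) (b2 : s2 ∈ bd G (comp G (X \ N) y))
        (b3 : s3 ∈ bd G (comp G (X \ N) y)) b1' b2' b3' x1 x2 x3 =>
      C.three_face (conn_comp hy) (conn_comp hy') (fun x hx => (comp_sub hy hx).1)
        (fun x hx => (comp_sub hy' hx).1) dj h0 g0Y (j1 := j1) (j2 := j2) (j3 := j3) h12 h23 h3
        (s1 := s1) (s2 := s2) (s3 := s3) n12 n13 n23 (NX (bdN y hy _ b1)) (NX (bdN y hy _ b2))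
        (NX (bdN y hy _ b3)) b1.1 b2.1 b3.1 b1' b2' b3' x1 x2 x3 (cor _ (bdN y hy _ b1))
        (cor _ (bdN y hy _ b2)) (cor _ (bdN y hy _ b3))
    obtain ⟨j1, l1, x1⟩ := loc s1 b1
    obtain ⟨j2, l2, x2⟩ := loc s2 b2
    obtain ⟨j3, l3, x3⟩ := loc s3 b3
    have d12 : j1 ≠ j2 := fun e => n12 (by rw [e, x2] at x1; exact (Option.some.inj x1).symm)
    have d13 : j1 ≠ j3 := fun e => n13 (by rw [e, x3] at x1; exact (Option.some.inj x1).symm)
    have d23 : j2 ≠ j3 := fun e => n23 (by rw [e, x3] at x2; exact (Option.some.inj x2).symm)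
    rcases lt_or_gt_of_ne d12 with o12 | o12 <;> rcases lt_or_gt_of_ne d13 with o13 | o13 <;>
      rcases lt_or_gt_of_ne d23 with o23 | o23
    · exact tf o12 o23 l3 n12 n13 n23 b1 b2 b3 b1' b2' b3' x1 x2 x3
    · exact tf o13 o23 l2 n13 n12 n23.symm b1 b3 b2 b1' b3' b2' x1 x3 x2
    · omega
    · exact tf o13 o12 l2 n13.symm n23.symm n12 b3 b1 b2 b3' b1' b2' x3 x1 x2
    · exact tf o12 o13 l3 n12.symm n23 n13 b2 b1 b3 b2' b1' b3' x2 x1 x3
    · omega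
    · exact tf o23 o13 l1 n23 n12.symm n13.symm b2 b3 b1 b2' b3' b1' x2 x3 x1
    · exact tf o23 o12 l1 n23.symm n13.symm n12.symm b3 b2 b1 b3' b2' b1' x3 x2 x1
  · intro y hy rep hrep
    set Y := comp G (X \ N) y with hY
    have YX : Y ⊆ X \ N := comp_sub hy
    have hyP : y ∈ X \ Pend := ⟨hy.1, fun h => hy.2 (Or.inl (Or.inl h))⟩
    set U := comp G (X \ Pend) y with hU
    have YU : Y ⊆ U := comp_mono (X := X \ N) (Y := X \ Pend)
      (fun x hx => ⟨hx.1, fun h => hx.2 (Or.inl (Or.inl h))⟩) y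
    have UX : U ⊆ X \ Pend := comp_sub hyP
    have hne : (bd G Y).Nonempty := by
      by_contra hn
      have : X ⊆ Y := hc.sub_of_closed hy.1 (self_mem_comp _ y) fun a ha b hab _ _ => by
        by_contra hb; exact hn ⟨b, hb, a, ha, hab⟩
      exact (YX (this hx0)).2 (Or.inl (Or.inr (Or.inl rfl)))
    obtain ⟨g0, b0, hg0, hm⟩ := C.child_mono (conn_comp hy) (fun x hx => (YX hx).1) h0
      (fun e e' b b' h h' => corb y hy e e' (Or.inl ⟨b, h⟩) (Or.inl ⟨b', h'⟩)) hne rep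
      (fun s hs => ⟨NX (bdN y hy s hs), mk3 s (bdN y hy s hs) _ (hrep s hs)⟩)
    have bZ : bd G Y ⊆ Z U := by
      intro s hs
      have sN := bdN y hy s hs
      by_cases sU : s ∈ U
      · rcases sN with (h | h) | h
        · exact absurd h (UX sU).2
        · exact Z1 U (Or.inl ⟨h, sU⟩)
        · have := h.2.2
          rwa [comp_eq sU] at this
      · obtain ⟨-, x, hx, h⟩ := hs
        exact Z1 U (Or.inr ⟨sU, x, YU hx, h⟩)
    have cZ : (Z U).card ≤ KK Δ := Z2 U (fun x hx => (UX hx).1) (hcell y hyP)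
    refine ⟨conn_comp hy, g0, Y ∩ Z U, ?_, fun e b h => corb y hy _ _ (Or.inl ⟨_, hg0⟩)
      (Or.inl ⟨_, h⟩), fun v hv ev => corb y hy _ _ (Or.inl ⟨_, hg0⟩) (Or.inr ⟨v, hv, ev, rfl⟩), hm,
      inter_subset_left, ?_, ?_, ?_, ?_⟩
    · obtain ⟨x, hx, h, -⟩ := hg0
      rw [h]; simpa
    · exact (ncard_le_ncard inter_subset_right).trans (by simpa using cZ)
    · exact (ncard_le_ncard bZ).trans (by simpa using cZ)
    · rintro v ⟨-, hv⟩ c hc' cY
      refine (YX cY).2 (Or.inr ⟨UX (YU cY), C.hpar _ _ hc', ?_⟩)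
      rw [comp_eq (YU cY)]
      exact Z3 U v hv c hc'
    · rintro y' ⟨h1, h2⟩
      have h2' : y' ∉ Z U := fun h => h2 ⟨h1, h⟩
      have : comp G (Y \ (Y ∩ Z U)) y' = comp G (↑(Z U))ᶜ y' := by
        refine (comp_mono (fun x hx h => hx.2 ⟨hx.1, h⟩) y').antisymm
          (comp_le (self_mem_comp _ _) fun a ha b hab _ hb => ?_)
        have aY := (comp_sub (X := Y \ (Y ∩ Z U)) ⟨h1, h2⟩ ha).1
        refine comp_step ⟨h1, h2⟩ ha hab ⟨?_, fun h => hb h.2⟩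
        by_contra bY
        exact hb (bZ ⟨bY, a, aY, hab⟩)
      rw [this]
      exact Z4 U y' h2'

end Ctx

theorem peelable_of_map {Δ : ℕ} (hΔ : ∀ v, (G.neighborSet v).ncard ≤ Δ) (M : PMap D (Option V))
    (par : V → Option V) (h1 : ∀ v c, par v = some c → par c = none)
    (h2 : ∀ u v, G.Adj u v → ∃ d, M.tl d = some u ∧ M.tl (M.a d) = some v)
    (h3 : ∀ v, ∃ d, M.tl d = some v ∧ M.tl (M.a d) = par v) : Peelable G (AA Δ) := by
  choose td td1 td2 using h3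
  have : ∀ u v, ∃ d, G.Adj u v → M.tl d = some u ∧ M.tl (M.a d) = some v := by
    intro u v
    by_cases h : G.Adj u v
    · obtain ⟨d, hd⟩ := h2 u v h
      exact ⟨d, fun _ => hd⟩
    · exact ⟨td u, fun h' => absurd h' h⟩
  choose gd hgd using this
  let C : Ctx G D := ⟨M, par, h1, gd, fun u v h => (hgd u v h).1, fun u v h => (hgd u v h).2,
    td, td1, td2⟩
  exact ⟨C.Piece Δ, C.top Δ, C.step hΔ⟩

end Pool.Agent.P.MP_845aff_co
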