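import Mathlib

namespace Pool.Agent.P.MP_845aff_co

open Set

/-- A plane drawing of `G`: distinct points for the vertices and a simple arc for every edge
(`γ v u` is `γ u v` run backwards); the interior of an arc contains no vertex point and meets
no other arc interior. -/
structure Drawing {V : Type} (G : SimpleGraph V) where
  f : V → ℝ × ℝ
  γ : V → V → ℝ → ℝ × ℝ
  inj : Function.Injective f
  cont : ∀ u v, G.Adj u v → ContinuousOn (γ u v) (Icc 0 1)
  simple : ∀ u v, G.Adj u v → InjOn (γ u v) (Icc 0 1)
  src : ∀ u v, G.Adj u v → γ u v 0 = f u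
  rev : ∀ u v, G.Adj u v → ∀ t ∈ Icc (0 : ℝ) 1, γ v u t = γ u v (1 - t)
  avoid : ∀ u v, G.Adj u v → ∀ t ∈ Ioo (0 : ℝ) 1, ∀ w, γ u v t ≠ f w
  nocross : ∀ u v u' v', G.Adj u v → G.Adj u' v' → s(u, v) ≠ s(u', v') →
    ∀ t ∈ Ioo (0 : ℝ) 1, ∀ t' ∈ Ioo (0 : ℝ) 1, γ u v t ≠ γ u' v' t'

/-- The point set of the drawing that remains when all vertices outside `S` (and their edges)
are deleted. -/
def Drawing.carrier {V : Type} {G : SimpleGraph V} (D : Drawing G) (S : Set V) : Set (ℝ × ℝ) :=
  {x | (∃ v ∈ S, D.f v = x) ∨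
    ∃ u ∈ S, ∃ v ∈ S, G.Adj u v ∧ ∃ t ∈ Icc (0 : ℝ) 1, D.γ u v t = x}

/-- `v` is incident to the outer face of the drawing induced on `S`: its point lies in the closure
of the unbounded connected component of the complement of that drawing. -/
def Drawing.OnOuter {V : Type} {G : SimpleGraph V} (D : Drawing G) (S : Set V) (v : V) : Prop :=
  ∃ x, x ∉ D.carrier S ∧ ¬ Bornology.IsBounded (connectedComponentIn (D.carrier S)ᶜ x) ∧
    D.f v ∈ closure (connectedComponentIn (D.carrier S)ᶜ x)

/-- `G` has a plane drawing such that, after deleting the vertices incident to the outer face,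
every remaining vertex is incident to the outer face of the remaining drawing. -/
def TwoOuterplanar {V : Type} (G : SimpleGraph V) : Prop :=
  ∃ D : Drawing G, ∀ v, ¬ D.OnOuter univ v → D.OnOuter {u | ¬ D.OnOuter univ u} v

/-- `p` is a planar straight-line drawing of `G`. -/
def StraightLine {V : Type} (G : SimpleGraph V) (p : V → ℝ × ℝ) : Prop :=
  Function.Injective p ∧
  (∀ u v w, G.Adj u v → w ≠ u → w ≠ v → p w ∉ segment ℝ (p u) (p v)) ∧
  ∀ u v u' v', G.Adj u v → G.Adj u' v' → s(u, v) ≠ s(u', v') →
    Disjoint (openSegment ℝ (p u) (p v)) (openSegment ℝ (p u') (p v'))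

open Classical in
/-- The slope of the line through two distinct points (`none` for a vertical line). -/
noncomputable def slope (x y : ℝ × ℝ) : Option ℝ :=
  if x.1 = y.1 then none else some ((y.2 - x.2) / (y.1 - x.1))

/-- The set of slopes of the edge segments of the straight-line drawing `p`. -/
def slopes {V : Type} (G : SimpleGraph V) (p : V → ℝ × ℝ) : Set (Option ℝ) :=
  {m | ∃ u v, G.Adj u v ∧ slope (p u) (p v) = m}

end Pool.Agent.P.MP_845aff_co
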