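import Pool.Agent.P.MP_845aff_co.Draw0

namespace Pool.Agent.P.MP_845aff_co

open Set Complex

lemma draw_aux {V : Type} [Fintype V] (G : SimpleGraph V) {A : ℕ} {η ε σ R Λ : ℝ} (S : ℕ)
    (hε : 0 < ε) (hε1 : ε ≤ 1) (hεη : ε ≤ η) (hσ : 0 < σ) (hσ1 : σ ≤ 1) (hR : 1 ≤ R)
    (hΛ : 2 * R ≤ Λ) (hS : 16 * Λ ≤ σ * ε * S) (hL : Layout G A η ε σ R Λ)
    {P : Set V → (V → ℤ) → Prop} (hP : ∀ X ord, P X ord → Nonempty (Step G A P X ord)) (n : ℕ) :
    ∀ (X : Set V) (ord : V → ℤ), X.ncard ≤ n → P X ord → ∀ (g : ℝ) (z e : ℂ) (pos : V → ℂ),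
      0 < g → grid g z → ‖e‖ = 1 →
      (∀ b ∈ bd G X, grid g (pos b) ∧ g ≤ ‖pos b - z‖ ∧ ‖pos b - z‖ ≤ (S + 2) * g) →
      Dirs η ε (bd G X) ord (fun b => dir (pos b - z) / e) →
      ∃ p : V → ℂ, (∀ v, v ∉ X → p v = pos v) ∧ (∀ v ∈ X, ‖p v - z‖ ≤ g) ∧ PL G X p ∧
        SL G ((S + 3) * S) X p := by
  classical
  induction n with
  | zero =>
    intro X ord hX hPX
    obtain ⟨St⟩ := hP X ord hPX
    have : X = ∅ := by simpa [ncard_eq_zero (toFinite X)] using hX
    obtain ⟨x, hx⟩ := St.ne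
    have := St.sub hx
    simp_all
  | succ n ih =>
    intro X ord hX hPX g z e pos hg hz he hpos hD
    obtain ⟨St⟩ := hP X ord hPX
    have hΛ0 : 0 < Λ := by linarith
    have hσε : σ * ε ≤ 1 := by nlinarith
    have hS32 : (32 : ℝ) ≤ S := by
      have : σ * ε * S ≤ S := by nlinarith [Nat.cast_nonneg (α := ℝ) S]
      linarith
    have hS0 : (0 : ℝ) < S := by linarith
    have hSn : S ≠ 0 := by rintro rfl; simp at hS0
    have he0 : e ≠ 0 := by rintro rfl; simp at he
    set s : ℝ := g / Λ with hs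
    have hs0 : 0 < s := by positivity
    set g' : ℝ := g / S with hg'
    have hg'0 : 0 < g' := by positivity
    have hgS : g = S * g' := by rw [hg']; field_simp
    have hgΛ : g = Λ * s := by rw [hs]; field_simp
    have hkey : 16 * g' ≤ s * σ * ε := by
      have h1 : S * (16 * g') ≤ S * (s * σ * ε) := by nlinarith
      exact le_of_mul_le_mul_left h1 hS0
    have hkey' : 16 * g' ≤ s * σ := by nlinarith [mul_pos hs0 hσ]
    have hsR : s * R ≤ g / 2 := by nlinarith
    have hg'g : 32 * g' ≤ g := by nlinarith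
    obtain ⟨sh, hsh1, hsh2, hsh3, hsh4⟩ := hL P X ord St (fun b => dir (pos b - z) / e)
      (fun b => ‖pos b - z‖ / s) hD (fun b hb => by
        rw [le_div_iff₀ hs0, ← hgΛ]; exact (hpos b hb).2.1)
    choose rd hrd1 hrd2 using exists_round hg'0
    set Sh : V → ℂ := fun v => z + s * e * sh v with hSh
    have hShb : ∀ b ∈ bd G X, Sh b = pos b := by
      intro b hb
      have h1 := norm_mul_dir (pos b - z)
      have hsC : (s : ℂ) ≠ 0 := by exact_mod_cast hs0.ne'
      simp only [hSh, hsh1 b hb]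
      push_cast
      field_simp
      linear_combination h1
    have hShX : ∀ v ∈ X, ‖Sh v - z‖ ≤ g / 2 := by
      intro v hv
      simp only [hSh, add_sub_cancel_left, norm_mul, he, norm_real, Real.norm_eq_abs,
        abs_of_pos hs0, mul_one]
      nlinarith [hsh2 v hv]
    set pos1 : V → ℂ := fun v => if v ∈ X then rd (Sh v) else pos v with hpos1
    have hp1 : ∀ v ∈ X, pos1 v = rd (Sh v) := fun v hv => if_pos hv
    have hp1' : ∀ v, v ∉ X → pos1 v = pos v := fun v hv => if_neg hv
    have hbdN : ∀ y ∈ X \ St.N, ∀ b ∈ bd G (comp G (X \ St.N) y), b ∈ St.N := by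
      rintro y hy b ⟨hb, x, hx, hxb⟩
      by_contra hbN
      by_cases hbX : b ∈ X
      · exact hb (comp_step hy hx hxb ⟨hbX, hbN⟩)
      · exact (comp_sub hy hx).2 (St.nb x (comp_sub hy hx).1 b hbX hxb)
    have child : ∀ Y : Set V, ∃ f : V → ℂ, ∀ y ∈ X \ St.N, comp G (X \ St.N) y = Y →
        (∀ v, v ∉ Y → f v = pos1 v) ∧ (∀ v ∈ Y, ‖f v - rd (Sh v)‖ ≤ g') ∧ PL G Y f ∧
          SL G ((S + 3) * S) Y f := by
      intro Y
      by_cases hY : ∃ y ∈ X \ St.N, comp G (X \ St.N) y = Y
      swap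
      · exact ⟨0, fun y hy h => (hY ⟨y, hy, h⟩).elim⟩
      obtain ⟨y, hy, rfl⟩ := hY
      obtain ⟨c1, c2, rep, e', he', c3, c4⟩ := hsh3 y hy
      have hcard : (comp G (X \ St.N) y).ncard ≤ n := by
        have h1 : comp G (X \ St.N) y ⊂ X := by
          refine ⟨fun v hv => (comp_sub hy hv).1, fun h => ?_⟩
          obtain ⟨x, hx⟩ := St.ne
          exact (comp_sub hy (h (St.sub hx))).2 hx
        have := ncard_lt_ncard h1 (toFinite X)
        omega
      have hfar : ∀ b ∈ bd G (comp G (X \ St.N) y), s * σ ≤ ‖Sh b - Sh y‖ := by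
        intro b hb
        have : Sh b - Sh y = s * e * (sh b - sh y) := by simp only [hSh]; ring
        rw [this, norm_mul, norm_mul, he, norm_real, Real.norm_eq_abs, abs_of_pos hs0, mul_one]
        exact mul_le_mul_of_nonneg_left (c2 b hb) hs0.le
      have herr : ∀ b, ‖(Sh b - Sh y) - (rd (Sh b) - rd (Sh y))‖ ≤ 2 * g' := by
        intro b
        have : (Sh b - Sh y) - (rd (Sh b) - rd (Sh y))
            = (rd (Sh y) - Sh y) - (rd (Sh b) - Sh b) := by ring
        rw [this]
        linarith [norm_sub_le (rd (Sh y) - Sh y) (rd (Sh b) - Sh b), hrd2 (Sh y), hrd2 (Sh b)]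
      have hlow : ∀ b ∈ bd G (comp G (X \ St.N) y), g' ≤ ‖rd (Sh b) - rd (Sh y)‖ := by
        intro b hb
        have h1 := norm_sub_norm_le (Sh b - Sh y) (rd (Sh b) - rd (Sh y))
        linarith [hfar b hb, herr b]
      obtain ⟨f, f1, f2, f3, f4⟩ := ih _ rep hcard (St.child y hy rep c3) g' (rd (Sh y)) (e * e')
        pos1 hg'0 (hrd1 _) (by rw [norm_mul, he, he', mul_one]) (by
          intro b hb
          have hbX := St.sub (hbdN y hy b hb)
          rw [hp1 b hbX]
          refine ⟨hrd1 _, hlow b hb, ?_⟩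
          have h1 := norm_sub_norm_le (rd (Sh b) - rd (Sh y)) (Sh b - Sh y)
          have h2 := herr b
          rw [norm_sub_rev] at h2
          have h3 : ‖Sh b - Sh y‖ ≤ g := by
            have : Sh b - Sh y = (Sh b - z) - (Sh y - z) := by ring
            rw [this]
            linarith [norm_sub_le (Sh b - z) (Sh y - z), hShX b hbX, hShX y hy.1]
          nlinarith) (by
          refine (c4.perturb (γ := ε / 2) ?_ ?_).mono (by linarith) (by linarith)
          · intro b hb
            have hbX := St.sub (hbdN y hy b hb)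
            rw [hp1 b hbX, norm_div, norm_mul, he, he', norm_dir]
            · simp
            · intro h0
              have := hlow b hb
              rw [h0, norm_zero] at this
              linarith
          · intro b hb
            have hbX := St.sub (hbdN y hy b hb)
            have he'0 : e' ≠ 0 := by rintro rfl; simp at he'
            have h1 : dir (sh b - sh y) / e' = dir (Sh b - Sh y) / (e * e') := by
              have : Sh b - Sh y = s * e * (sh b - sh y) := by simp only [hSh]; ring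
              rw [this, dir_mul hs0 he]
              field_simp
            rw [hp1 b hbX, h1, ← sub_div, norm_div, norm_mul, he, he', mul_one, div_one]
            refine (norm_dir_sub (mul_pos hs0 hσ) (hfar b hb) (herr b)).trans ?_
            rw [div_le_iff₀ (mul_pos hs0 hσ)]
            nlinarith)
      refine ⟨f, fun _ _ _ => ⟨f1, fun v hv => ?_, f3, f4⟩⟩
      have : Sh v = Sh y := by simp only [hSh, c1 v hv]
      rw [this]; exact f2 v hv
    choose F hF using child
    set p : V → ℂ := fun v => if v ∈ X \ St.N then F (comp G (X \ St.N) v) v else pos1 v with hp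
    have hpin : ∀ v ∈ X \ St.N, p v = F (comp G (X \ St.N) v) v := fun v hv => if_pos hv
    have hpout : ∀ v, v ∉ X \ St.N → p v = pos1 v := fun v hv => if_neg hv
    have hagree : ∀ y ∈ X \ St.N, ∀ a ∈ comp G (X \ St.N) y, ∀ b, (a = b ∨ G.Adj a b) →
        p b = F (comp G (X \ St.N) y) b := by
      intro y hy a ha b hab
      by_cases hb : b ∈ X \ St.N
      · have hb' : b ∈ comp G (X \ St.N) y := by
          rcases hab with rfl | hab
          · exact ha
          · exact comp_step hy ha hab hb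
        rw [hpin b hb, comp_eq hb']
      · rw [hpout b hb, (hF _ y hy rfl).1 b (fun h => hb (comp_sub hy h))]
    have hagree2 : ∀ y ∈ X \ St.N, ∀ a b, (a ∈ comp G (X \ St.N) y ∨ b ∈ comp G (X \ St.N) y) →
        (a = b ∨ G.Adj a b) →
        p a = F (comp G (X \ St.N) y) a ∧ p b = F (comp G (X \ St.N) y) b := by
      rintro y hy a b (h | h) hab
      · exact ⟨hagree y hy a h a (Or.inl rfl), hagree y hy a h b hab⟩
      · exact ⟨hagree y hy b h a (hab.imp Eq.symm (fun h => h.symm)),
          hagree y hy b h b (Or.inl rfl)⟩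
    have hclose : ∀ v ∈ X, ‖p v - Sh v‖ ≤ 2 * g' := by
      intro v hv
      by_cases hvN : v ∈ X \ St.N
      · have h1 := (hF _ v hvN rfl).2.1 v (self_mem_comp _ _)
        rw [← hpin v hvN] at h1
        have : p v - Sh v = (p v - rd (Sh v)) + (rd (Sh v) - Sh v) := by ring
        rw [this]
        linarith [norm_add_le (p v - rd (Sh v)) (rd (Sh v) - Sh v), hrd2 (Sh v)]
      · rw [hpout v hvN, hp1 v hv]
        linarith [hrd2 (Sh v)]
    have hoff : ∀ v, v ∉ X → p v = pos v := fun v hv => by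
      rw [hpout v (fun h => hv h.1), hp1' v hv]
    have hclose2 : ∀ a ∈ X, ∀ b, (a = b ∨ G.Adj a b) → ‖p b - Sh b‖ ≤ 2 * g' := by
      intro a ha b hab
      by_cases hb : b ∈ X
      · exact hclose b hb
      · rcases hab with rfl | hab
        · exact (hb ha).elim
        · rw [hoff b hb, hShb b ⟨hb, a, ha, hab⟩, sub_self, norm_zero]
          positivity
    have hball : ∀ v ∈ X, ‖p v - z‖ ≤ g := by
      intro v hv
      have : p v - z = (p v - Sh v) + (Sh v - z) := by ring
      rw [this]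
      linarith [norm_add_le (p v - Sh v) (Sh v - z), hclose v hv, hShX v hv]
    refine ⟨p, hoff, hball, ?_, ?_⟩
    · intro a ha a' ha' b b' h1 h2 n1 n2 n3 n4
      by_cases hc : ∃ y ∈ X \ St.N, (a ∈ comp G (X \ St.N) y ∨ b ∈ comp G (X \ St.N) y) ∧
          (a' ∈ comp G (X \ St.N) y ∨ b' ∈ comp G (X \ St.N) y)
      · obtain ⟨y, hy, c1, c2⟩ := hc
        obtain ⟨e1, e2⟩ := hagree2 y hy a b c1 h1
        obtain ⟨e3, e4⟩ := hagree2 y hy a' b' c2 h2
        rw [e1, e2, e3, e4]
        exact (hF _ y hy rfl).2.2.1.gen c1 c2 h1 h2 n1 n2 n3 n4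
      · have := hsh4 a ha a' ha' b b' h1 h2 n1 n2 n3 n4 (fun y hy c1 c2 => hc ⟨y, hy, c1, c2⟩)
        exact disjoint_of_far (z := z) (δ := 2 * g') this hs0 he (by linarith) (hclose a ha)
          (hclose2 a ha b h1) (hclose a' ha') (hclose2 a' ha' b' h2)
    · intro a ha b hab
      by_cases hc : ∃ y ∈ X \ St.N, (a ∈ comp G (X \ St.N) y ∨ b ∈ comp G (X \ St.N) y)
      · obtain ⟨y, hy, c1⟩ := hc
        obtain ⟨e1, e2⟩ := hagree2 y hy a b c1 (Or.inr hab)
        rw [e1, e2]
        exact (hF _ y hy rfl).2.2.2.gen c1 hab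
      · have haN : a ∉ X \ St.N := fun h => hc ⟨a, h, Or.inl (self_mem_comp _ _)⟩
        have hbN : b ∉ X \ St.N := fun h => hc ⟨b, h, Or.inr (self_mem_comp _ _)⟩
        have ga : grid g' (p a) := by rw [hpout a haN, hp1 a ha]; exact hrd1 _
        have gb : grid g' (p b) ∧ ‖p b - z‖ ≤ (S + 2) * g := by
          by_cases hb : b ∈ X
          · refine ⟨by rw [hpout b hbN, hp1 b hb]; exact hrd1 _, (hball b hb).trans ?_⟩
            nlinarith
          · rw [hoff b hb]
            obtain ⟨q1, -, q3⟩ := hpos b ⟨hb, a, ha, hab⟩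
            exact ⟨q1.refine hSn, q3⟩
        refine grid_sub hg'0 ga gb.1 ?_
        have : p b - p a = (p b - z) - (p a - z) := by ring
        rw [this]
        have h3 := norm_sub_le (p b - z) (p a - z)
        have h4 := hball a ha
        have h5 : (((S + 3) * S : ℕ) : ℝ) * g' = (S + 3) * g := by
          rw [hgS]; push_cast; ring
        rw [h5]
        linarith [gb.2]

theorem draw_of_layout {V : Type} [Fintype V] (G : SimpleGraph V) {A : ℕ} {η ε σ R Λ : ℝ} (S : ℕ)
    (hε : 0 < ε) (hε1 : ε ≤ 1) (hεη : ε ≤ η) (hσ : 0 < σ) (hσ1 : σ ≤ 1) (hR : 1 ≤ R) (hΛ : 2 * R ≤ Λ)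
    (hS : 16 * Λ ≤ σ * ε * S) (hP : Peelable G A) (hL : Layout G A η ε σ R Λ) :
    ∃ p : V → ℝ × ℝ, StraightLine G p ∧ (slopes G p).ncard ≤ (2 * ((S + 3) * S) + 1) ^ 2 := by
  classical
  obtain ⟨P, hP0, hP⟩ := hP
  obtain ⟨j, hj⟩ := Countable.exists_injective_nat (Set V)
  have hbd : ∀ v, bd G (comp G univ v) = ∅ := by
    intro v
    ext b
    simp only [mem_empty_iff_false, iff_false]
    rintro ⟨hb, x, hx, hxb⟩
    exact hb (comp_step (mem_univ v) hx hxb (mem_univ b))
  have child : ∀ Y : Set V, ∃ f : V → ℂ, ∀ y, comp G univ y = Y →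
      (∀ v ∈ Y, ‖f v - 3 * j Y‖ ≤ 1) ∧ PL G Y f ∧ SL G ((S + 3) * S) Y f := by
    intro Y
    by_cases hY : ∃ y, comp G univ y = Y
    swap
    · exact ⟨0, fun y h => (hY ⟨y, h⟩).elim⟩
    obtain ⟨y, rfl⟩ := hY
    obtain ⟨f, -, f2, f3, f4⟩ := draw_aux G S hε hε1 hεη hσ hσ1 hR hΛ hS hL hP _ _ 0 le_rfl (hP0 y)
      1 (3 * j (comp G univ y)) 1 0 one_pos ⟨3 * j (comp G univ y), 0, by simp⟩ (by simp)
      (by simp [hbd]) (by simp [hbd, Dirs])
    exact ⟨f, fun _ _ => ⟨f2, f3, f4⟩⟩
  choose F hF using child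
  set p : V → ℂ := fun v => F (comp G univ v) v with hp
  have hin : ∀ a b, (a = b ∨ G.Adj a b) → b ∈ comp G univ a := by
    rintro a b (rfl | h)
    · exact self_mem_comp _ _
    · exact comp_step (mem_univ a) (self_mem_comp _ _) h (mem_univ b)
  have hag : ∀ a b, b ∈ comp G univ a → p b = F (comp G univ a) b := by
    intro a b h
    simp only [hp, comp_eq h]
  refine ⟨fun v => ((p v).re, (p v).im), straight_of_PL ?_, slopes_le ?_⟩
  · intro a _ a' _ b b' h1 h2 n1 n2 n3 n4
    by_cases hc : comp G univ a = comp G univ a'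
    · have ha' : a' ∈ comp G univ a := hc ▸ self_mem_comp _ _
      have hb' : b' ∈ comp G univ a := hc ▸ hin a' b' h2
      rw [hag a a (self_mem_comp _ _), hag a b (hin a b h1), hag a a' ha', hag a b' hb']
      exact (hF _ a rfl).2.1 a (self_mem_comp _ _) a' ha' b b' h1 h2 n1 n2 n3 n4
    · have key : ∀ a b, (a = b ∨ G.Adj a b) → segment ℝ (p a) (p b) ⊆
          Metric.closedBall (3 * (j (comp G univ a) : ℂ)) 1 := by
        intro a b h
        refine (convex_closedBall _ _).segment_subset ?_ ?_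
        · rw [mem_closedBall_iff_norm]
          exact (hF _ a rfl).1 a (self_mem_comp _ _)
        · rw [mem_closedBall_iff_norm, hag a b (hin a b h)]
          exact (hF _ a rfl).1 b (hin a b h)
      refine Disjoint.mono (key a b h1) (key a' b' h2) (Metric.closedBall_disjoint_closedBall ?_)
      have hne : (j (comp G univ a) : ℤ) - j (comp G univ a') ≠ 0 := by
        intro h
        exact hc (hj (by omega))
      have h3 : (1 : ℝ) ≤ |((j (comp G univ a) : ℝ) - j (comp G univ a'))| := by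
        have := Int.one_le_abs hne
        exact_mod_cast this
      have e : (3 * (j (comp G univ a) : ℂ)) - 3 * (j (comp G univ a') : ℂ)
          = ((3 * ((j (comp G univ a) : ℝ) - j (comp G univ a')) : ℝ) : ℂ) := by
        push_cast; ring
      rw [dist_eq_norm, e, norm_real, Real.norm_eq_abs, abs_mul, abs_of_pos (by norm_num : (0:ℝ) < 3)]
      linarith
  · intro a _ b hab
    rw [hag a a (self_mem_comp _ _), hag a b (hin a b (Or.inr hab))]
    exact (hF _ a rfl).2.2 a (self_mem_comp _ _) b hab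

end Pool.Agent.P.MP_845aff_co
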