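import Pool.Agent.P.MP_845aff_co.Geo0
import Pool.Agent.P.MP_845aff_co.Defs

namespace Pool.Agent.P.MP_845aff_co

open Set Complex

/-- lattice points of mesh `g` -/
def grid (g : ℝ) (x : ℂ) : Prop := ∃ a b : ℤ, x = g * (a + b * I)

lemma exists_round {g : ℝ} (hg : 0 < g) (x : ℂ) : ∃ y, grid g y ∧ ‖y - x‖ ≤ g := by
  refine ⟨g * ((round (x.re / g) : ℤ) + (round (x.im / g) : ℤ) * I), ⟨_, _, rfl⟩, ?_⟩
  refine (norm_le_abs_re_add_abs_im _).trans ?_
  have h1 := abs_sub_round (x.re / g)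
  have h2 := abs_sub_round (x.im / g)
  have e1 : ((g : ℂ) * ((round (x.re / g) : ℤ) + (round (x.im / g) : ℤ) * I) - x).re
      = -g * (x.re / g - round (x.re / g)) := by
    simp; field_simp; ring
  have e2 : ((g : ℂ) * ((round (x.re / g) : ℤ) + (round (x.im / g) : ℤ) * I) - x).im
      = -g * (x.im / g - round (x.im / g)) := by
    simp; field_simp; ring
  rw [e1, e2, abs_mul, abs_mul, abs_neg, abs_of_pos hg]
  nlinarith

lemma grid.refine {g : ℝ} {S : ℕ} (hS : S ≠ 0) {x : ℂ} (h : grid g x) : grid (g / S) x := by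
  obtain ⟨a, b, rfl⟩ := h
  refine ⟨a * S, b * S, ?_⟩
  have : (S : ℂ) ≠ 0 := by exact_mod_cast hS
  push_cast
  field_simp

lemma grid_sub {g : ℝ} (hg : 0 < g) {x y : ℂ} (hx : grid g x) (hy : grid g y) {K : ℕ}
    (h : ‖y - x‖ ≤ K * g) :
    ∃ (r : ℝ) (m n : ℤ), 0 < r ∧ |m| ≤ K ∧ |n| ≤ K ∧ y - x = r * (m + n * I) := by
  obtain ⟨a, b, rfl⟩ := hx
  obtain ⟨c, d, rfl⟩ := hy
  have e : (g : ℂ) * (c + d * I) - g * (a + b * I)
      = g * (((c - a : ℤ) : ℂ) + ((d - b : ℤ) : ℂ) * I) := by push_cast; ring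
  rw [e] at h ⊢
  rw [norm_mul, norm_real, Real.norm_eq_abs, abs_of_pos hg, mul_comm] at h
  have h' := le_of_mul_le_mul_right h hg
  have h1 := (abs_re_le_norm _).trans h'
  have h2 := (abs_im_le_norm _).trans h'
  refine ⟨g, c - a, d - b, hg, ?_, ?_, rfl⟩
  · have : (((c - a : ℤ) : ℂ) + ((d - b : ℤ) : ℂ) * I).re = ((c - a : ℤ) : ℝ) := by simp
    rw [this] at h1
    exact_mod_cast h1
  · have : (((c - a : ℤ) : ℂ) + ((d - b : ℤ) : ℂ) * I).im = ((d - b : ℤ) : ℝ) := by simp
    rw [this] at h2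
    exact_mod_cast h2

lemma disjoint_of_far {σ s δ : ℝ} {z e a b c d A B C D : ℂ} (h : Far σ a b c d) (hs : 0 < s)
    (he : ‖e‖ = 1) (hδ : 2 * δ < s * σ) (hA : ‖A - (z + s * e * a)‖ ≤ δ)
    (hB : ‖B - (z + s * e * b)‖ ≤ δ) (hC : ‖C - (z + s * e * c)‖ ≤ δ)
    (hD : ‖D - (z + s * e * d)‖ ≤ δ) : Disjoint (segment ℝ A B) (segment ℝ C D) := by
  rw [Set.disjoint_left]
  rintro x ⟨u, v, hu, hv, huv, rfl⟩ ⟨u', v', hu', hv', huv', hx⟩
  have h0 := h _ ⟨u, v, hu, hv, huv, rfl⟩ _ ⟨u', v', hu', hv', huv', rfl⟩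
  have huvC : (u : ℂ) + v = 1 := by exact_mod_cast huv
  have huvC' : (u' : ℂ) + v' = 1 := by exact_mod_cast huv'
  simp only [real_smul] at hx h0
  have e1 : s * e * (u * a + v * b - (u' * c + v' * d))
      = (u' * (C - (z + s * e * c)) + v' * (D - (z + s * e * d)))
        - (u * (A - (z + s * e * a)) + v * (B - (z + s * e * b))) := by
    linear_combination (-1 : ℂ) * hx - z * huvC + z * huvC'
  have e2 := congrArg norm e1
  rw [norm_mul, norm_mul, he, norm_real, Real.norm_eq_abs, abs_of_pos hs, mul_one] at e2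
  have key : ∀ (p q : ℝ) (P Q : ℂ), 0 ≤ p → 0 ≤ q → p + q = 1 → ‖P‖ ≤ δ → ‖Q‖ ≤ δ →
      ‖(p : ℂ) * P + q * Q‖ ≤ δ := by
    intro p q P Q hp hq hpq hP hQ
    refine (norm_add_le _ _).trans ?_
    rw [norm_mul, norm_mul, norm_real, norm_real, Real.norm_eq_abs, Real.norm_eq_abs,
      abs_of_nonneg hp, abs_of_nonneg hq]
    have : δ = p * δ + q * δ := by rw [← add_mul, hpq, one_mul]
    nlinarith [mul_le_mul_of_nonneg_left hP hp, mul_le_mul_of_nonneg_left hQ hq]
  have k1 := key u v _ _ hu hv huv hA hB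
  have k2 := key u' v' _ _ hu' hv' huv' hC hD
  have k3 := norm_sub_le (u' * (C - (z + s * e * c)) + v' * (D - (z + s * e * d)))
    (u * (A - (z + s * e * a)) + v * (B - (z + s * e * b)))
  nlinarith [mul_le_mul_of_nonneg_left h0 hs.le]

variable {V : Type} (G : SimpleGraph V)

/-- vertices and edges meeting `X` that have no common end are drawn disjointly -/
def PL (X : Set V) (p : V → ℂ) : Prop :=
  ∀ a ∈ X, ∀ a' ∈ X, ∀ b b', (a = b ∨ G.Adj a b) → (a' = b' ∨ G.Adj a' b') →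
    a ≠ a' → a ≠ b' → b ≠ a' → b ≠ b' →
    Disjoint (segment ℝ (p a) (p b)) (segment ℝ (p a') (p b'))

/-- edges meeting `X` have small integer directions -/
def SL (K : ℕ) (X : Set V) (p : V → ℂ) : Prop :=
  ∀ a ∈ X, ∀ b, G.Adj a b →
    ∃ (r : ℝ) (m n : ℤ), 0 < r ∧ |m| ≤ K ∧ |n| ≤ K ∧ p b - p a = r * (m + n * I)

variable {G}

lemma PL.gen {X : Set V} {p : V → ℂ} (h : PL G X p) {a a' b b' : V} (ha : a ∈ X ∨ b ∈ X)
    (ha' : a' ∈ X ∨ b' ∈ X) (h1 : a = b ∨ G.Adj a b) (h2 : a' = b' ∨ G.Adj a' b')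
    (n1 : a ≠ a') (n2 : a ≠ b') (n3 : b ≠ a') (n4 : b ≠ b') :
    Disjoint (segment ℝ (p a) (p b)) (segment ℝ (p a') (p b')) := by
  have h1' : b = a ∨ G.Adj b a := h1.imp Eq.symm G.adj_symm
  have h2' : b' = a' ∨ G.Adj b' a' := h2.imp Eq.symm G.adj_symm
  rcases ha with ha | ha <;> rcases ha' with ha' | ha'
  · exact h a ha a' ha' b b' h1 h2 n1 n2 n3 n4
  · rw [segment_symm ℝ (p a')]; exact h a ha b' ha' b a' h1 h2' n2 n1 n4 n3
  · rw [segment_symm ℝ (p a)]; exact h b ha a' ha' a b' h1' h2 n3 n4 n1 n2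
  · rw [segment_symm ℝ (p a), segment_symm ℝ (p a')]
    exact h b ha b' ha' a a' h1' h2' n4 n3 n2 n1

lemma SL.gen {K : ℕ} {X : Set V} {p : V → ℂ} (h : SL G K X p) {a b : V} (ha : a ∈ X ∨ b ∈ X)
    (hab : G.Adj a b) :
    ∃ (r : ℝ) (m n : ℤ), 0 < r ∧ |m| ≤ K ∧ |n| ≤ K ∧ p b - p a = r * (m + n * I) := by
  rcases ha with ha | ha
  · exact h a ha b hab
  · obtain ⟨r, m, n, hr, hm, hn, e⟩ := h b ha a hab.symm
    refine ⟨r, -m, -n, hr, by rwa [abs_neg], by rwa [abs_neg], ?_⟩
    push_cast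
    linear_combination (-1 : ℂ) * e

lemma straight_of_PL {p : V → ℂ} (h : PL G univ p) :
    StraightLine G (fun v => ((p v).re, (p v).im)) := by
  set q : V → ℝ × ℝ := fun v => ((p v).re, (p v).im) with hq
  have H : ∀ a a' b b', (a = b ∨ G.Adj a b) → (a' = b' ∨ G.Adj a' b') →
      a ≠ a' → a ≠ b' → b ≠ a' → b ≠ b' →
      Disjoint (segment ℝ (q a) (q b)) (segment ℝ (q a') (q b')) := by
    intro a a' b b' h1 h2 n1 n2 n3 n4
    have := h a trivial a' trivial b b' h1 h2 n1 n2 n3 n4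
    let L : ℂ →ᵃ[ℝ] ℝ × ℝ := equivRealProdLm.toLinearMap.toAffineMap
    have hL : Function.Injective L := equivRealProdLm.injective
    have := Set.disjoint_image_of_injective hL this
    rwa [image_segment, image_segment] at this
  have H2 : ∀ u v w, G.Adj u v → w ≠ u → w ≠ v → q w ∉ segment ℝ (q u) (q v) := by
    intro u v w huv n1 n2 hw
    exact Set.disjoint_left.1 (H w u w v (Or.inl rfl) (Or.inr huv) n1 n2 n1 n2)
      (left_mem_segment ℝ _ _) hw
  have H3 : ∀ u v v', G.Adj u v → G.Adj u v' → v ≠ v' →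
      Disjoint (openSegment ℝ (q u) (q v)) (openSegment ℝ (q u) (q v')) := by
    have aux : ∀ u v v', G.Adj u v → G.Adj u v' → v ≠ v' → ∀ s t s' t' : ℝ, 0 < t → 0 < t' →
        s + t = 1 → s' + t' = 1 → t ≤ t' → s • q u + t • q v = s' • q u + t' • q v' → False := by
      intro u v v' h1 h2 hne s t s' t' ht ht' e e' hle hx
      refine H2 u v v' h1 h2.ne' hne.symm ⟨1 - t / t', t / t', ?_, by positivity, by ring, ?_⟩
      · have := (div_le_one ht').2 hle
        linarith
      · have hs : s = 1 - t := by linarith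
        have hs' : s' = 1 - t' := by linarith
        subst hs hs'
        have hx1 := congrArg Prod.fst hx
        have hx2 := congrArg Prod.snd hx
        simp only [Prod.fst_add, Prod.smul_fst, smul_eq_mul, Prod.snd_add, Prod.smul_snd] at hx1 hx2
        ext
        · simp only [Prod.fst_add, Prod.smul_fst, smul_eq_mul]
          field_simp
          linarith
        · simp only [Prod.snd_add, Prod.smul_snd, smul_eq_mul]
          field_simp
          linarith
    intro u v v' h1 h2 hne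
    rw [Set.disjoint_left]
    rintro x ⟨s, t, -, ht, e, rfl⟩ ⟨s', t', -, ht', e', hx⟩
    rcases le_total t t' with hle | hle
    · exact aux u v v' h1 h2 hne s t s' t' ht ht' e e' hle hx.symm
    · exact aux u v' v h2 h1 hne.symm s' t' s t ht' ht e' e hle hx
  refine ⟨fun a a' haa => ?_, H2, fun u v u' v' h1 h2 hne => ?_⟩
  · by_contra hne
    refine Set.disjoint_left.1 (H a a' a a' (Or.inl rfl) (Or.inl rfl) hne hne hne hne)
      (left_mem_segment ℝ _ _) ?_
    rw [haa]; exact left_mem_segment ℝ _ _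
  · by_cases n1 : u = u'
    · subst n1
      exact H3 u v v' h1 h2 (by rintro rfl; exact hne rfl)
    by_cases n2 : u = v'
    · subst n2
      rw [openSegment_symm ℝ (q u')]
      exact H3 u v u' h1 h2.symm (by rintro rfl; exact hne Sym2.eq_swap)
    by_cases n3 : v = u'
    · subst n3
      rw [openSegment_symm ℝ (q u)]
      exact H3 v u v' h1.symm h2 n2
    by_cases n4 : v = v'
    · subst n4
      rw [openSegment_symm ℝ (q u), openSegment_symm ℝ (q u')]
      exact H3 v u u' h1.symm h2.symm n1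
    exact (H u u' v v' (Or.inr h1) (Or.inr h2) n1 n2 n3 n4).mono
      (openSegment_subset_segment ℝ _ _) (openSegment_subset_segment ℝ _ _)

lemma slopes_le {K : ℕ} {p : V → ℂ} (h : SL G K univ p) :
    (slopes G (fun v => ((p v).re, (p v).im))).ncard ≤ (2 * K + 1) ^ 2 := by
  classical
  let T : Finset (ℤ × ℤ) := Finset.Icc (-(K : ℤ)) K ×ˢ Finset.Icc (-(K : ℤ)) K
  let f : ℤ × ℤ → Option ℝ := fun x => if x.1 = 0 then none else some ((x.2 : ℝ) / x.1)
  have hsub : slopes G (fun v => ((p v).re, (p v).im)) ⊆ (T.image f : Finset _) := by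
    rintro _ ⟨u, v, huv, rfl⟩
    obtain ⟨r, m, n, hr, hm, hn, e⟩ := h u trivial v huv
    have e1 : (p v).re - (p u).re = r * m := by simpa using congrArg re e
    have e2 : (p v).im - (p u).im = r * n := by simpa using congrArg im e
    simp only [Finset.coe_image, mem_image, Finset.mem_coe]
    refine ⟨(m, n), ?_, ?_⟩
    · simp only [T, Finset.mem_product, Finset.mem_Icc]
      exact ⟨abs_le.1 hm, abs_le.1 hn⟩
    · simp only [f, slope]
      by_cases hm0 : m = 0
      · rw [if_pos hm0, if_pos]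
        rw [hm0] at e1; simp at e1; linarith
      · have : (m : ℝ) ≠ 0 := by exact_mod_cast hm0
        rw [if_neg hm0, if_neg, e1, e2]
        · congr 1; field_simp
        · intro h0
          have : r * m = 0 := by linarith
          rcases mul_eq_zero.1 this with h | h
          · exact hr.ne' h
          · contradiction
  refine (ncard_le_ncard hsub (Finset.finite_toSet _)).trans ?_
  rw [ncard_coe_finset]
  refine Finset.card_image_le.trans ?_
  simp only [T, Finset.card_product, Int.card_Icc]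
  have : ((K : ℤ) + 1 - -(K : ℤ)).toNat = 2 * K + 1 := by omega
  rw [this, sq]

end Pool.Agent.P.MP_845aff_co
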