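import Pool.Agent.P.MP_845aff_co.Parity

namespace Pool.Agent.P.MP_845aff_co

open PMap

structure Ctx {V : Type} [DecidableEq V] (G : SimpleGraph V) (D : Type) [Fintype D] where
  M : PMap D (Option V)
  par : V → Option V
  hpar : ∀ v c, par v = some c → par c = none
  gd : V → V → D
  gd1 : ∀ u v, G.Adj u v → M.tl (gd u v) = some u
  gd2 : ∀ u v, G.Adj u v → M.tl (M.a (gd u v)) = some v
  td : V → D
  td1 : ∀ v, M.tl (td v) = some v
  td2 : ∀ v, M.tl (M.a (td v)) = par v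

def o {V : Type} (X : Set V) : Set (Option V) := some '' X

@[simp] lemma some_mem_o {V : Type} {X : Set V} {v : V} : some v ∈ o X ↔ v ∈ X := by simp [o]
@[simp] lemma none_mem_o {V : Type} {X : Set V} : none ∉ o X := by simp [o]
lemma o_mono {V : Type} {X Y : Set V} (h : X ⊆ Y) : o X ⊆ o Y := Set.image_mono h

variable {V D : Type} [DecidableEq V] [Fintype D] [DecidableEq D] {G : SimpleGraph V}

namespace Ctx

variable (C : Ctx G D)

lemma chain_conn {Z : Set V} (hZ : Conn G Z) {u v : V} (hu : u ∈ Z) (hv : v ∈ Z) :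
    ∃ c, C.M.IsChain c ∧ C.M.Supp c (o Z) ∧
      ∀ x, C.M.bdry c x = ind (some u) x + ind (some v) x := by
  have := hZ u hu v hv
  clear hv
  induction this with
  | refl => exact ⟨0, ⟨fun _ => rfl, fun _ _ => rfl⟩, fun _ _ => rfl, fun x => by simp [bdry, z2]⟩
  | @tail a b _ h ih =>
    obtain ⟨c, h1, h2, h3⟩ := ih
    refine ⟨c + C.M.ec (C.gd a b), h1.add (C.M.ec_chain _), h2.add (C.M.ec_supp ?_ ?_), fun x => ?_⟩
    · rw [C.gd1 _ _ h.1]; simpa using h.2.1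
    · rw [C.gd2 _ _ h.1]; simpa using h.2.2
    · rw [bdry_add, h3, ec_bdry, C.gd1 _ _ h.1, C.gd2 _ _ h.1]
      have := z2 (ind (some a) x)
      linear_combination this

omit [DecidableEq D] in
lemma const_conn {β : Type} {Z : Set V} (hZ : Conn G Z) (w : D → β)
    (hs : ∀ d, C.M.tl d ∈ o Z → w (C.M.s d) = w d)
    (ha : ∀ d, C.M.tl d ∈ o Z → C.M.tl (C.M.a d) ∈ o Z → w (C.M.a d) = w d) {d e : D}
    (hd : C.M.tl d ∈ o Z) (he : C.M.tl e ∈ o Z) : w d = w e := by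
  obtain ⟨u, hu, hu'⟩ := hd
  obtain ⟨v, hv, hv'⟩ := he
  have loc : ∀ x ∈ Z, ∀ d e, C.M.tl d = some x → C.M.tl e = some x → w d = w e :=
    fun x hx d e h1 h2 => C.M.const_at w (fun d hd => hs d (by rw [hd]; simpa using hx)) h1 h2
  have := hZ u hu v hv
  clear hv
  induction this generalizing e with
  | refl => exact loc u hu _ _ hu'.symm hv'.symm
  | @tail a b _ h ih =>
    rw [ih (C.gd1 _ _ h.1).symm, ← ha _ (by rw [C.gd1 _ _ h.1]; simpa using h.2.1)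
      (by rw [C.gd2 _ _ h.1]; simpa using h.2.2)]
    exact loc b h.2.2 _ _ (C.gd2 _ _ h.1) hv'.symm

/-- the face permutation of the piece `X` -/
noncomputable abbrev f (X : Set V) : Equiv.Perm D := C.M.fX (o X)

lemma nc_face {X Z Z' : Set V} {d0 : D} (h0 : C.M.tl d0 ∈ o X) (hZ : Z ⊆ X) (hZ' : Z' ⊆ X)
    (cZ : Conn G Z) (cZ' : Conn G Z') (hd : Disjoint Z Z') {k1 k2 k3 k4 : ℕ} (h12 : k1 < k2)
    (h23 : k2 < k3) (h34 : k3 < k4) (h4 : k4 < per (C.f X) d0)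
    (t1 : C.M.tl (el (C.f X) d0 k1) ∈ o Z) (t2 : C.M.tl (el (C.f X) d0 k2) ∈ o Z')
    (t3 : C.M.tl (el (C.f X) d0 k3) ∈ o Z) (t4 : C.M.tl (el (C.f X) d0 k4) ∈ o Z') : False := by
  obtain ⟨u, hu, hu'⟩ := id t1
  obtain ⟨v, hv, hv'⟩ := id t3
  obtain ⟨c, c1, c2, c3⟩ := C.chain_conn cZ hu hv
  obtain ⟨w, w1, w2, t, w3⟩ := C.M.pot1 (o X) d0 h0 (p := k1) (q := k3) (by omega) (h34.trans h4) c1
    (c2.mono (o_mono hZ)) (by rw [← hu', ← hv']; exact c3)
  have dis : ∀ x, x ∈ o Z' → x ∉ o Z := by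
    rintro _ ⟨x, hx, rfl⟩ h
    exact Set.disjoint_left.1 hd (by simpa using h) hx
  have := C.const_conn cZ' w (fun d hd => by
      have a1 : C.M.s d ≠ el (C.f X) d0 k1 := fun e => dis _ hd (by rw [← C.M.tl_s, e]; exact t1)
      have a2 : C.M.s d ≠ el (C.f X) d0 k3 := fun e => dis _ hd (by rw [← C.M.tl_s, e]; exact t3)
      rw [w1, c2 d (dis _ hd), ind_ne a1, ind_ne a2]; simp)
    (fun d hd hd' => by
      rw [w2 d (o_mono hZ' hd) (o_mono hZ' hd'), c2 d (dis _ hd), add_zero]) t2 t4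
  rw [w3 k2 (h23.trans (h34.trans h4)), w3 k4 h4, if_pos (by omega), if_neg (by omega)] at this
  simp at this

omit [DecidableEq D] in
lemma w_outer {X : Set V} {d0 : D} (h0 : C.M.tl d0 ∈ o X) {c w : D → ZMod 2} (hc : C.M.IsChain c)
    (hs : C.M.Supp c (o X)) (w1 : ∀ d, w (C.M.s d) = w d + c d)
    (w2 : ∀ d, w (C.M.a d) = w d + c d) {e : D} (he : (C.f X).SameCycle d0 e) : w e = w d0 := by
  refine const_orbit w (C.f X) (fun d hd => ?_) he
  have hd' := C.M.tl_of_cyc h0 hd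
  by_cases h : C.M.tl (C.M.a d) ∈ o X
  · rw [fX_apply, C.M.aX_in hd' h, w1, w2, hc.1, add_assoc, z2, add_zero]
  · rw [fX_apply, C.M.aX_out fun e => h e.2, w1, hs.out hc h, add_zero]

/-- two darts at `Y` that no potential of a cycle inside `Y` separates lie on one face of `Y` -/
lemma orbit_child {Y : Set V} (hY : Conn G Y) {e e' : D} (he : C.M.tl e ∈ o Y)
    (he' : C.M.tl e' ∈ o Y)
    (h : ∀ c w : D → ZMod 2, C.M.IsChain c → C.M.Supp c (o Y) → (∀ d, w (C.M.s d) = w d + c d) →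
      (∀ d, w (C.M.a d) = w d + c d) → w e = w e') : (C.f Y).SameCycle e e' := by
  classical
  let χ : D → ZMod 2 := fun d => if (C.f Y).SameCycle e d then 1 else 0
  have hχ : ∀ d, χ (C.M.s d) = χ (C.M.aX (o Y) d) := by
    intro d
    have : C.M.s d = C.f Y (C.M.aX (o Y) d) := by rw [fX_apply, aX_aX]
    simp only [χ, this, Equiv.Perm.sameCycle_apply_right]
  let cQ : D → ZMod 2 := fun d => χ d + χ (C.M.aX (o Y) d)
  have hQ : C.M.IsChain cQ := by
    constructor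
    · intro d
      by_cases h : C.M.tl d ∈ o Y ∧ C.M.tl (C.M.a d) ∈ o Y
      · simp only [cQ, C.M.aX_in h.1 h.2, C.M.aX_in h.2 (by rw [C.M.aa]; exact h.1), C.M.aa,
          add_comm]
      · have h' : ¬ (C.M.tl (C.M.a d) ∈ o Y ∧ C.M.tl (C.M.a (C.M.a d)) ∈ o Y) := by
          rw [C.M.aa]; exact fun e => h ⟨e.2, e.1⟩
        simp only [cQ, C.M.aX_out h, C.M.aX_out h', z2]
    · intro d hd
      have : C.M.aX (o Y) d = d := by
        by_cases h : C.M.tl d ∈ o Y ∧ C.M.tl (C.M.a d) ∈ o Y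
        · rw [C.M.aX_in h.1 h.2, hd]
        · exact C.M.aX_out h
      simp only [cQ, this, z2]
  have hS : C.M.Supp cQ (o Y) := fun d hd => by
    simp only [cQ, C.M.aX_out (X := o Y) (d := d) fun e => hd e.1, z2]
  obtain ⟨w, w1, w2⟩ := C.M.pot0 hQ (by
    intro x
    have e2 := C.M.bdry_s χ x
    have e3 : cQ = χ + fun d => χ (C.M.s d) := by funext d; simp only [cQ, hχ, Pi.add_apply]
    rw [e3, bdry_add, e2, z2])
  have k := C.const_conn hY (fun d => w d + χ d) (fun d _ => by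
      simp only [w1, hχ, cQ]
      have := z2 (χ (C.M.aX (o Y) d))
      linear_combination this)
    (fun d hd hd' => by
      simp only [w2, cQ, C.M.aX_in hd hd']
      have := z2 (χ (C.M.a d))
      linear_combination this) he he'
  rw [h cQ w hQ hS w1 w2, add_right_inj] at k
  by_contra hn
  simp [χ, hn, Equiv.Perm.SameCycle.refl] at k

/-- walking around the face of `Y` -/
lemma walkY {Y : Set V} {g0 : D} (h0 : C.M.tl g0 ∈ o Y) {c w : D → ZMod 2} (hc : C.M.IsChain c)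
    (w1 : ∀ d, C.M.tl d ∈ o Y → w (C.M.s d) = w d + c d)
    (w2 : ∀ d, C.M.tl d ∈ o Y → C.M.tl (C.M.a d) ∈ o Y → w (C.M.a d) = w d + c d)
    {j1 j2 : ℕ} (h12 : j1 < j2) (h2 : j2 < per (C.f Y) g0)
    (x1 : C.M.tl (C.M.a (el (C.f Y) g0 j1)) ∉ o Y)
    (hext : ∀ d, C.M.tl d ∈ o Y → C.M.tl (C.M.a d) ∉ o Y →
      c d = ind d (el (C.f Y) g0 j1) + ind d (el (C.f Y) g0 j2))
    (x2 : C.M.tl (C.M.a (el (C.f Y) g0 j2)) ∉ o Y) {j : ℕ} (hj1 : j1 < j)
    (hj : j < per (C.f Y) g0) :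
    w (el (C.f Y) g0 j) = w (el (C.f Y) g0 j1) + if j ≤ j2 then 1 else 0 := by
  have step : ∀ k, w (C.f Y (el (C.f Y) g0 k)) = w (el (C.f Y) g0 k) +
      (ind (el (C.f Y) g0 k) (el (C.f Y) g0 j1) + ind (el (C.f Y) g0 k) (el (C.f Y) g0 j2)) := by
    intro k
    have hd := C.M.tl_of_cyc h0 (cyc_el (C.f Y) g0 k)
    generalize el (C.f Y) g0 k = d at hd
    by_cases h : C.M.tl (C.M.a d) ∈ o Y
    · have n1 : d ≠ el (C.f Y) g0 j1 := fun e => x1 (e ▸ h)
      have n2 : d ≠ el (C.f Y) g0 j2 := fun e => x2 (e ▸ h)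
      rw [fX_apply, C.M.aX_in hd h, w1 _ h, w2 _ hd h, hc.1, add_assoc, z2,
        ind_ne n1, ind_ne n2]
      simp
    · rw [fX_apply, C.M.aX_out fun e => h e.2, w1 _ hd, hext d hd h]
  have hi : ∀ k r, k < per (C.f Y) g0 → r < per (C.f Y) g0 → k ≠ r →
      ind (el (C.f Y) g0 k) (el (C.f Y) g0 r) = 0 :=
    fun k r hk hr h => ind_ne fun e => h (el_inj _ _ hk hr e)
  have a1 : ∀ j, j1 < j → j ≤ j2 → w (el (C.f Y) g0 j) = w (el (C.f Y) g0 j1) + 1 := by
    intro j h1 h2'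
    rw [el_const (C.f Y) g0 w (p := j1 + 1) h1 (fun k k1 k2 => by
      rw [step, hi k j1 (by omega) (by omega) (by omega), hi k j2 (by omega) (by omega) (by omega)]
      simp), el_succ, step, ind_self, hi j1 j2 (by omega) h2 (by omega), add_zero]
  by_cases hj2 : j ≤ j2
  · rw [if_pos hj2, a1 j hj1 hj2]
  · rw [if_neg hj2, el_const (C.f Y) g0 w (p := j2 + 1) (by omega) (fun k k1 k2 => by
      rw [step, hi k j1 (by omega) (by omega) (by omega), hi k j2 (by omega) (by omega) (by omega)]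
      simp), el_succ, step, ind_self, hi j2 j1 h2 (by omega) (by omega), a1 j2 h12 le_rfl,
      zero_add, add_assoc, z2]

/-- the theta lemma: comparing the face of `Y` with the face of `X` -/
lemma theta {X Y : Set V} (hY : Conn G Y) (hYX : Y ⊆ X) {d0 g0 : D} (h0 : C.M.tl d0 ∈ o X)
    (g0Y : C.M.tl g0 ∈ o Y) {j1 j2 r1 r2 : ℕ} (h12 : j1 < j2) (h2 : j2 < per (C.f Y) g0)
    (hr : r1 ≤ r2) (hr2 : r2 < per (C.f X) d0) {h1 h2' : V} (h1X : h1 ∈ X) (h2X : h2' ∈ X)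
    (h1Y : h1 ∉ Y) (h2Y : h2' ∉ Y)
    (x1 : C.M.tl (C.M.a (el (C.f Y) g0 j1)) = some h1)
    (x2 : C.M.tl (C.M.a (el (C.f Y) g0 j2)) = some h2')
    (y1 : C.M.tl (el (C.f X) d0 r1) = some h1) (y2 : C.M.tl (el (C.f X) d0 r2) = some h2') :
    ∃ t u : ZMod 2, (∀ j r h, j1 < j → j < per (C.f Y) g0 → r < per (C.f X) d0 → h ∈ X → h ∉ Y →
      h ≠ h1 → h ≠ h2' → C.M.tl (C.M.a (el (C.f Y) g0 j)) = some h →
      C.M.tl (el (C.f X) d0 r) = some h →
      u + (if j ≤ j2 then 1 else 0) = t + if r1 ≤ r ∧ r < r2 then 1 else 0) ∧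
      (h1 ≠ h2' → u = t) := by
  set e1 := el (C.f Y) g0 j1 with he1
  set e2 := el (C.f Y) g0 j2 with he2
  have t1 : C.M.tl e1 ∈ o Y := C.M.tl_of_cyc g0Y (cyc_el _ _ _)
  have t2 : C.M.tl e2 ∈ o Y := C.M.tl_of_cyc g0Y (cyc_el _ _ _)
  have e12 : e1 ≠ e2 := fun e => absurd (el_inj _ _ (by omega) h2 e) (by omega)
  obtain ⟨u, hu, hu'⟩ := id t1
  obtain ⟨v, hv, hv'⟩ := id t2
  obtain ⟨cY, c1, c2, c3⟩ := C.chain_conn hY hu hv
  set c := cY + C.M.ec e1 + C.M.ec e2 with hc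
  have cc : C.M.IsChain c := (c1.add (C.M.ec_chain _)).add (C.M.ec_chain _)
  have oYX := o_mono hYX
  obtain ⟨w, w1, w2, t, w3⟩ := C.M.pot1 (o X) d0 h0 hr hr2 cc
    (((c2.mono oYX).add (C.M.ec_supp (oYX t1) (by rw [x1]; simpa))).add
      (C.M.ec_supp (oYX t2) (by rw [x2]; simpa)))
    (by
      intro x
      rw [hc, bdry_add, bdry_add, c3, ec_bdry, ec_bdry, ← hu', ← hv', x1, x2, y1, y2]
      have a1 := z2 (ind (some u) x)
      have a2 := z2 (ind (some v) x)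
      linear_combination a1 + a2)
  have hext : ∀ d, C.M.tl d ∈ o Y → C.M.tl (C.M.a d) ∉ o Y → c d = ind d e1 + ind d e2 := by
    intro d hd hd'
    have a1 : d ≠ C.M.a e1 := fun e => h1Y (by rw [e, x1] at hd; simpa using hd)
    have a2 : d ≠ C.M.a e2 := fun e => h2Y (by rw [e, x2] at hd; simpa using hd)
    simp only [hc, Pi.add_apply, ec, c2.out c1 hd', ind_ne a1, ind_ne a2, add_zero, zero_add]
  have sY : ∀ d, C.M.tl d ≠ some h1 → C.M.tl d ≠ some h2' → w (C.M.s d) = w d + c d := by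
    intro d a1 a2
    rw [w1, ind_ne (fun e => a1 (by rw [← C.M.tl_s, e, y1])),
      ind_ne (fun e => a2 (by rw [← C.M.tl_s, e, y2])), add_zero, add_zero]
  have cz : ∀ d h, C.M.tl d = some h → h ∉ Y → c d = ind d (C.M.a e1) + ind d (C.M.a e2) := by
    intro d h hd hh
    have a0 : C.M.tl d ∉ o Y := by rw [hd]; simpa
    have a1 : d ≠ e1 := fun e => a0 (e ▸ t1)
    have a2 : d ≠ e2 := fun e => a0 (e ▸ t2)
    simp only [hc, Pi.add_apply, ec, c2 d a0, ind_ne a1, ind_ne a2, zero_add]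
  refine ⟨t, w e1, fun j r h hj1 hj hr hX hY' n1 n2 x y => ?_, fun n12 => ?_⟩
  · rw [← w3 r hr, ← C.walkY g0Y cc
      (fun d hd => sY d (fun e => h1Y (by rw [e] at hd; simpa using hd))
        (fun e => h2Y (by rw [e] at hd; simpa using hd)))
      (fun d hd hd' => w2 d (oYX hd) (oYX hd')) h12 h2 (by rw [x1]; simpa) hext
      (by rw [x2]; simpa) hj1 hj]
    have cz' : ∀ d, C.M.tl d = some h → c d = 0 := by
      intro d hd
      rw [cz d h hd hY', ind_ne (fun e => n1 (by rw [e, x1] at hd; simpa using hd.symm)),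
        ind_ne (fun e => n2 (by rw [e, x2] at hd; simpa using hd.symm)), add_zero]
    have tj : C.M.tl (el (C.f Y) g0 j) ∈ o Y := C.M.tl_of_cyc g0Y (cyc_el _ _ _)
    have := w2 _ (oYX tj) (by rw [x]; simpa)
    rw [← cc.1, cz' _ x, add_zero] at this
    rw [← this]
    exact C.M.const_at w (fun d hd => by
      rw [sY d (by rw [hd]; simpa) (by rw [hd]; simpa), cz' d hd, add_zero]) x y
  · have r12 : r1 ≠ r2 := fun e => n12 (by rw [e, y2] at y1; simpa using y1.symm)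
    have a := C.M.two_jumps w (o := el (C.f X) d0 r1) (e := C.M.a e1) (y1.trans x1.symm) (by
      intro d hd n1 n2
      rw [x1] at hd
      rw [w1, cz d h1 hd h1Y, ind_ne n1, ind_ne n2,
        ind_ne (fun e => n12 (by rw [e, x2] at hd; simpa using hd.symm)),
        ind_ne (fun e => n12 (by rw [← C.M.tl_s, e, y2] at hd; simpa using hd.symm))]
      simp)
    rw [w3 r1 (hr.trans_lt hr2), if_pos (by omega), w2 _ (oYX t1) (by rw [x1]; simpa),
      hext e1 t1 (by rw [x1]; simpa), ind_self, ind_ne e12, add_zero, add_left_inj] at a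
    exact a.symm

lemma three_face {X Y Y' : Set V} (hY : Conn G Y) (hY' : Conn G Y') (hYX : Y ⊆ X) (hYX' : Y' ⊆ X)
    (hd : Disjoint Y Y') {d0 g0 : D} (h0 : C.M.tl d0 ∈ o X) (g0Y : C.M.tl g0 ∈ o Y)
    {j1 j2 j3 : ℕ} (h12 : j1 < j2) (h23 : j2 < j3) (h3 : j3 < per (C.f Y) g0) {s1 s2 s3 : V}
    (n12 : s1 ≠ s2) (n13 : s1 ≠ s3) (n23 : s2 ≠ s3) (m1 : s1 ∈ X) (m2 : s2 ∈ X) (m3 : s3 ∈ X)
    (k1 : s1 ∉ Y) (k2 : s2 ∉ Y) (k3 : s3 ∉ Y)
    (b1 : s1 ∈ bd G Y') (b2 : s2 ∈ bd G Y') (b3 : s3 ∈ bd G Y')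
    (x1 : C.M.tl (C.M.a (el (C.f Y) g0 j1)) = some s1)
    (x2 : C.M.tl (C.M.a (el (C.f Y) g0 j2)) = some s2)
    (x3 : C.M.tl (C.M.a (el (C.f Y) g0 j3)) = some s3)
    (y1 : ∃ e, (C.f X).SameCycle d0 e ∧ C.M.tl e = some s1)
    (y2 : ∃ e, (C.f X).SameCycle d0 e ∧ C.M.tl e = some s2)
    (y3 : ∃ e, (C.f X).SameCycle d0 e ∧ C.M.tl e = some s3) : False := by
  have oYX := o_mono hYX
  obtain ⟨l1, v1, hv1, a1⟩ := b1
  have tY : ∀ j, C.M.tl (el (C.f Y) g0 j) ∈ o Y := fun j => C.M.tl_of_cyc g0Y (cyc_el _ _ _)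
  have dis : ∀ x, x ∈ o Y → x ∉ o Y' := by
    rintro _ ⟨x, hx, rfl⟩ h
    exact Set.disjoint_left.1 hd hx (by simpa using h)
  set e1 := el (C.f Y) g0 j1 with he1
  -- the cycle through `s1` and `s`
  have key : ∀ j s, j1 < j → j < per (C.f Y) g0 → s ∈ X → s ∉ Y → s ∈ bd G Y' → s1 ≠ s →
      C.M.tl (C.M.a (el (C.f Y) g0 j)) = some s →
      ∃ c w : D → ZMod 2, C.M.IsChain c ∧ C.M.Supp c (o X) ∧ (∀ d, w (C.M.s d) = w d + c d) ∧
        (∀ d, w (C.M.a d) = w d + c d) ∧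
        (∀ d, C.M.tl d = some s1 → c d = ind d (C.M.a e1) + ind d (C.M.a (C.gd v1 s1))) ∧
        (∀ d h, C.M.tl d = some h → h ∉ Y → h ∉ Y' → h ≠ s1 → h ≠ s → c d = 0) ∧
        ∀ i, j1 < i → i < per (C.f Y) g0 →
          w (el (C.f Y) g0 i) = w e1 + if i ≤ j then 1 else 0 := by
    rintro j s hj1 hj sX sY ⟨l, v, hv, a⟩ n1 x
    set e := el (C.f Y) g0 j with he
    obtain ⟨u, hu, hu'⟩ := tY j1
    obtain ⟨u2, hu2, hu2'⟩ := tY j
    obtain ⟨cY, c1, c2, c3⟩ := C.chain_conn hY hu hu2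
    obtain ⟨cZ, z1, z2', z3⟩ := C.chain_conn hY' hv1 hv
    set c := cY + C.M.ec e1 + C.M.ec e + cZ + C.M.ec (C.gd v1 s1) + C.M.ec (C.gd v s) with hc
    have cc : C.M.IsChain c := ((((c1.add (C.M.ec_chain _)).add (C.M.ec_chain _)).add z1).add
      (C.M.ec_chain _)).add (C.M.ec_chain _)
    obtain ⟨w, w1, w2⟩ := C.M.pot0 cc (by
      intro x'
      rw [hc, bdry_add, bdry_add, bdry_add, bdry_add, bdry_add, c3, z3, ec_bdry, ec_bdry, ec_bdry,
        ec_bdry, ← hu', ← hu2', x1, x, C.gd1 _ _ a1, C.gd2 _ _ a1, C.gd1 _ _ a, C.gd2 _ _ a]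
      have a1 := z2 (ind (some u) x')
      have a2 := z2 (ind (some u2) x')
      have a3 := z2 (ind (some v1) x')
      have a4 := z2 (ind (some v) x')
      have a5 := z2 (ind (some s1) x')
      have a6 := z2 (ind (some s) x')
      linear_combination a1 + a2 + a3 + a4 + a5 + a6)
    have out : ∀ d h, C.M.tl d = some h → h ∉ Y → h ∉ Y' → c d = ind d (C.M.a e1) +
        ind d (C.M.a e) + ind d (C.M.a (C.gd v1 s1)) + ind d (C.M.a (C.gd v s)) := by
      intro d h hd hh hh'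
      have a0 : C.M.tl d ∉ o Y := by rw [hd]; simpa
      have a0' : C.M.tl d ∉ o Y' := by rw [hd]; simpa
      have p1 : d ≠ e1 := fun e => a0 (e ▸ tY j1)
      have p2 : d ≠ e := fun e => a0 (e ▸ tY j)
      have p3 : d ≠ C.gd v1 s1 := fun e => a0' (by rw [e, C.gd1 _ _ a1]; simpa)
      have p4 : d ≠ C.gd v s := fun e => a0' (by rw [e, C.gd1 _ _ a]; simpa)
      simp only [hc, Pi.add_apply, ec, c2 d a0, z2' d a0', ind_ne p1, ind_ne p2, ind_ne p3,
        ind_ne p4, zero_add, add_zero]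
    refine ⟨c, w, cc, ?_, w1, w2, fun d hd => ?_, fun d h hd hh hh' q1 q2 => ?_, fun i hi1 hi => ?_⟩
    · refine (((((c2.mono oYX).add (C.M.ec_supp (oYX (tY _)) (by rw [x1]; simpa))).add
        (C.M.ec_supp (oYX (tY _)) (by rw [x]; simpa))).add (z2'.mono (o_mono hYX'))).add
        (C.M.ec_supp ?_ ?_)).add (C.M.ec_supp ?_ ?_)
      · rw [C.gd1 _ _ a1]; simpa using hYX' hv1
      · rw [C.gd2 _ _ a1]; simpa
      · rw [C.gd1 _ _ a]; simpa using hYX' hv
      · rw [C.gd2 _ _ a]; simpa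
    · rw [out d s1 hd k1 l1, ind_ne (x := d) (y := C.M.a e)
        (fun e => n1 (by rw [e, x] at hd; simpa using hd.symm)),
        ind_ne (x := d) (y := C.M.a (C.gd v s))
        (fun e => n1 (by rw [e, C.gd2 _ _ a] at hd; simpa using hd.symm)), add_zero, add_zero]
    · rw [out d h hd hh hh', ind_ne (fun e => q1 (by rw [e, x1] at hd; simpa using hd.symm)),
        ind_ne (fun e => q2 (by rw [e, x] at hd; simpa using hd.symm)),
        ind_ne (fun e => q1 (by rw [e, C.gd2 _ _ a1] at hd; simpa using hd.symm)),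
        ind_ne (fun e => q2 (by rw [e, C.gd2 _ _ a] at hd; simpa using hd.symm))]
      simp
    · refine C.walkY g0Y cc (fun d _ => w1 d) (fun d _ _ => w2 d) hj1 hj (by rw [x1]; simpa) ?_
        (by rw [x]; simpa) hi1 hi
      intro d hd hd'
      have p1 : d ≠ C.M.a e1 := fun e => k1 (by rw [e, x1] at hd; simpa using hd)
      have p2 : d ≠ C.M.a e := fun e => sY (by rw [e, x] at hd; simpa using hd)
      have p3 : d ≠ C.gd v1 s1 := fun e => dis _ hd (by rw [e, C.gd1 _ _ a1]; simpa)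
      have p4 : d ≠ C.gd v s := fun e => dis _ hd (by rw [e, C.gd1 _ _ a]; simpa)
      have p5 : d ≠ C.M.a (C.gd v1 s1) := fun e => k1 (by rw [e, C.gd2 _ _ a1] at hd; simpa using hd)
      have p6 : d ≠ C.M.a (C.gd v s) := fun e => sY (by rw [e, C.gd2 _ _ a] at hd; simpa using hd)
      simp only [hc, Pi.add_apply, ec, c2.out c1 hd', z2' d (dis _ hd), ind_ne p1, ind_ne p2,
        ind_ne p3, ind_ne p4, ind_ne p5, ind_ne p6, zero_add, add_zero, ← he1, ← he]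
  -- evaluation of a potential at an external dart
  have ev : ∀ (c w : D → ZMod 2) (j : ℕ) (s : V), C.M.IsChain c → C.M.Supp c (o X) →
      (∀ d, w (C.M.s d) = w d + c d) → (∀ d, w (C.M.a d) = w d + c d) →
      (∀ d, C.M.tl d = some s → c d = 0) → C.M.tl (C.M.a (el (C.f Y) g0 j)) = some s →
      (∃ e, (C.f X).SameCycle d0 e ∧ C.M.tl e = some s) → w (el (C.f Y) g0 j) = w d0 := by
    rintro c w j s cc cs w1 w2 z x ⟨e, he, te⟩
    have := w2 (el (C.f Y) g0 j)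
    rw [← cc.1, z _ x, add_zero] at this
    rw [← this, ← C.w_outer h0 cc cs w1 w2 he]
    exact C.M.const_at w (fun d hd => by rw [w1, z d hd, add_zero]) x te
  obtain ⟨c, w, p1, p2, p3, p4, p5, p6, p7⟩ := key j2 s2 h12 (by omega) m2 k2 b2 n12 x2
  obtain ⟨c', w', q1, q2, q3, q4, q5, q6, q7⟩ := key j3 s3 (by omega) h3 m3 k3 b3 n13 x3
  have r1 := ev c w j3 s3 p1 p2 p3 p4 (fun d hd => p6 d s3 hd k3 b3.1 n13.symm n23.symm) x3 y3
  have r2 := ev c' w' j2 s2 q1 q2 q3 q4 (fun d hd => q6 d s2 hd k2 b2.1 n12.symm n23) x2 y2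
  have r3 := ev (c + c') (w + w') j1 s1 (p1.add q1) (p2.add q2)
    (fun d => by simp only [Pi.add_apply, p3, q3]; ring)
    (fun d => by simp only [Pi.add_apply, p4, q4]; ring)
    (fun d hd => by simp only [Pi.add_apply, p5 d hd, q5 d hd, z2]) x1 y1
  rw [p7 j3 (by omega) h3, if_neg (by omega)] at r1
  rw [q7 j2 h12 (by omega), if_pos (by omega)] at r2
  simp only [Pi.add_apply, ← he1] at r3
  have : (1 : ZMod 2) = 0 := by linear_combination r1 + r2 - r3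
  exact absurd this (by decide)

end Ctx

end Pool.Agent.P.MP_845aff_co
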