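import Pool.Agent.P.MP_845aff_co.Peel

namespace Pool.Agent.P.MP_845aff_co

open Set Complex

noncomputable section

/-- cross product -/
def cr (a b : ℂ) : ℝ := a.re * b.im - a.im * b.re

/-- unit vector in the direction of `a` -/
def dir (a : ℂ) : ℂ := a / (‖a‖ : ℂ)

/-- unit vectors in the (almost) upper half plane, counterclockwise in the order `ord` -/
def Dirs {V : Type} (η ε : ℝ) (S : Set V) (ord : V → ℤ) (u : V → ℂ) : Prop :=
  (∀ s ∈ S, ‖u s‖ = 1 ∧ -ε ≤ (u s).im) ∧ InjOn ord S ∧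
  ∀ s ∈ S, ∀ s' ∈ S, ord s < ord s' → η ≤ cr (u s) (u s') ∨ (‖u s - 1‖ ≤ ε ∧ ‖u s' + 1‖ ≤ ε)

/-- the segments `ab` and `cd` are at distance at least `σ` -/
def Far (σ : ℝ) (a b c d : ℂ) : Prop :=
  ∀ x ∈ segment ℝ a b, ∀ x' ∈ segment ℝ c d, σ ≤ ‖x - x'‖

/-- the one-step layout property in normalized coordinates -/
def Layout {V : Type} (G : SimpleGraph V) (A : ℕ) (η ε σ R Λ : ℝ) : Prop :=
  ∀ (P : Set V → (V → ℤ) → Prop) (X : Set V) (ord : V → ℤ) (S : Step G A P X ord) (u : V → ℂ)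
    (lam : V → ℝ), Dirs η ε (bd G X) ord u → (∀ b ∈ bd G X, Λ ≤ lam b) →
    ∃ sh : V → ℂ, (∀ b ∈ bd G X, sh b = lam b * u b) ∧ (∀ x ∈ X, ‖sh x‖ ≤ R) ∧
      (∀ y ∈ X \ S.N, (∀ y' ∈ comp G (X \ S.N) y, sh y' = sh y) ∧
        (∀ s ∈ bd G (comp G (X \ S.N) y), σ ≤ ‖sh s - sh y‖) ∧
        ∃ (rep : V → ℤ) (e : ℂ), ‖e‖ = 1 ∧ (∀ s ∈ bd G (comp G (X \ S.N) y), rep s ∈ S.Mk s) ∧
          Dirs (2 * η) (ε / 2) (bd G (comp G (X \ S.N) y)) rep (fun s => dir (sh s - sh y) / e)) ∧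
      ∀ a ∈ X, ∀ a' ∈ X, ∀ b b', (a = b ∨ G.Adj a b) → (a' = b' ∨ G.Adj a' b') →
        a ≠ a' → a ≠ b' → b ≠ a' → b ≠ b' →
        (∀ y ∈ X \ S.N, (a ∈ comp G (X \ S.N) y ∨ b ∈ comp G (X \ S.N) y) →
          (a' ∈ comp G (X \ S.N) y ∨ b' ∈ comp G (X \ S.N) y) → False) →
        Far σ (sh a) (sh b) (sh a') (sh b')

lemma cr_add_right (w a b : ℂ) : cr w (a + b) = cr w a + cr w b := by simp [cr]; ring
lemma cr_sub_right (w a b : ℂ) : cr w (a - b) = cr w a - cr w b := by simp [cr]; ring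
lemma cr_neg_right (w a : ℂ) : cr w (-a) = -cr w a := by simp [cr]; ring
lemma cr_neg_left (w a : ℂ) : cr (-w) a = -cr w a := by simp [cr]; ring
lemma cr_add_left (w w' a : ℂ) : cr (w + w') a = cr w a + cr w' a := by simp [cr]; ring
lemma cr_sub_left (w w' a : ℂ) : cr (w - w') a = cr w a - cr w' a := by simp [cr]; ring
lemma cr_mul_right (w a : ℂ) (t : ℝ) : cr w (t * a) = t * cr w a := by simp [cr]; ring
lemma cr_mul_left (w a : ℂ) (t : ℝ) : cr (t * w) a = t * cr w a := by simp [cr]; ring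
lemma cr_smul_right (w a : ℂ) (t : ℝ) : cr w (t • a) = t * cr w a := by simp [cr]; ring
lemma cr_self (a : ℂ) : cr a a = 0 := by simp [cr]; ring
lemma cr_anti (a b : ℂ) : cr a b = -cr b a := by simp [cr]; ring
lemma cr_zero_right (w : ℂ) : cr w 0 = 0 := by simp [cr]

lemma abs_cr_le (a b : ℂ) : |cr a b| ≤ ‖a‖ * ‖b‖ := by
  have h : cr a b = ((starRingEnd ℂ) a * b).im := by simp [cr]; ring
  rw [h]
  exact (abs_im_le_norm _).trans (by simp)

lemma cr_le (a b : ℂ) : cr a b ≤ ‖a‖ * ‖b‖ := (le_abs_self _).trans (abs_cr_le a b)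
lemma neg_le_cr (a b : ℂ) : -(‖a‖ * ‖b‖) ≤ cr a b := neg_le_of_abs_le (abs_cr_le a b)

lemma cr_div (a b e : ℂ) (he : ‖e‖ = 1) : cr (a / e) (b / e) = cr a b := by
  have h : e.re * e.re + e.im * e.im = 1 := by
    have := Complex.sq_norm e
    rw [he, normSq_apply] at this; linarith
  simp only [cr, div_re, div_im, normSq_apply, h]
  linear_combination (a.re * b.im - a.im * b.re) * h

lemma cr_sum {ι : Type} (w : ℂ) (s : Finset ι) (f : ι → ℂ) :
    cr w (∑ i ∈ s, f i) = ∑ i ∈ s, cr w (f i) := by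
  classical
  induction s using Finset.induction_on with
  | empty => simp [cr]
  | insert a s h ih => rw [Finset.sum_insert h, Finset.sum_insert h, cr_add_right, ih]

lemma seg_le {w a b x : ℂ} {c : ℝ} (hx : x ∈ segment ℝ a b) (ha : cr w a ≤ c) (hb : cr w b ≤ c) :
    cr w x ≤ c := by
  obtain ⟨s, t, hs, ht, hst, rfl⟩ := hx
  rw [cr_add_right, cr_smul_right, cr_smul_right]
  have : c = s * c + t * c := by rw [← add_mul, hst, one_mul]
  nlinarith [mul_le_mul_of_nonneg_left ha hs, mul_le_mul_of_nonneg_left hb ht]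

lemma le_seg {w a b x : ℂ} {c : ℝ} (hx : x ∈ segment ℝ a b) (ha : c ≤ cr w a) (hb : c ≤ cr w b) :
    c ≤ cr w x := by
  have := seg_le (w := -w) (c := -c) hx (by rw [cr_neg_left]; linarith) (by rw [cr_neg_left]; linarith)
  rw [cr_neg_left] at this; linarith

lemma le_norm_of_cr {w x x' : ℂ} {τ : ℝ} (hw : ‖w‖ ≤ 2) (h : cr w x + τ ≤ cr w x') :
    τ / 2 ≤ ‖x - x'‖ := by
  have h1 := neg_le_cr w (x - x')
  rw [cr_sub_right] at h1
  nlinarith [norm_nonneg (x - x'), mul_le_mul_of_nonneg_right hw (norm_nonneg (x - x'))]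

lemma Far.symm {σ : ℝ} {a b c d : ℂ} (h : Far σ a b c d) : Far σ c d a b :=
  fun x hx x' hx' => by rw [norm_sub_rev]; exact h x' hx' x hx

lemma Far.mono {σ σ' : ℝ} {a b c d : ℂ} (h : Far σ a b c d) (h' : σ' ≤ σ) : Far σ' a b c d :=
  fun x hx x' hx' => h'.trans (h x hx x' hx')

lemma Far.swap {σ : ℝ} {a b c d : ℂ} (h : Far σ a b c d) : Far σ b a c d :=
  fun x hx x' hx' => h x (by rwa [segment_symm]) x' hx'

lemma far_of_cr {w a b c d : ℂ} {τ l : ℝ} (hw : ‖w‖ ≤ 2) (ha : cr w a ≤ l) (hb : cr w b ≤ l)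
    (hc : l + τ ≤ cr w c) (hd : l + τ ≤ cr w d) : Far (τ / 2) a b c d := fun _ hx _ hx' =>
  le_norm_of_cr hw (by linarith [seg_le hx ha hb, le_seg hx' hc hd])

lemma norm_dir {a : ℂ} (h : a ≠ 0) : ‖dir a‖ = 1 := by
  simp [dir, h]

lemma norm_mul_dir (a : ℂ) : (‖a‖ : ℂ) * dir a = a := by
  by_cases h : a = 0
  · simp [h, dir]
  · have : (‖a‖ : ℂ) ≠ 0 := by simpa using h
    simp only [dir]; field_simp

lemma dir_mul {t : ℝ} (ht : 0 < t) {e : ℂ} (he : ‖e‖ = 1) (a : ℂ) :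
    dir (t * e * a) = e * dir a := by
  have : (t : ℂ) ≠ 0 := by simpa using ht.ne'
  simp only [dir, norm_mul, he, norm_real, Real.norm_eq_abs, abs_of_pos ht]
  push_cast
  by_cases h : a = 0
  · simp [h]
  · have : (‖a‖ : ℂ) ≠ 0 := by simpa using h
    field_simp

lemma norm_dir_sub {a b : ℂ} {r δ : ℝ} (hr : 0 < r) (ha : r ≤ ‖a‖) (h : ‖a - b‖ ≤ δ) :
    ‖dir a - dir b‖ ≤ 2 * δ / r := by
  have ha0 : 0 < ‖a‖ := hr.trans_le ha
  have hδ : 0 ≤ δ := (norm_nonneg _).trans h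
  have e : (‖a‖ : ℂ) * (dir a - dir b) = (a - b) + ((‖b‖ - ‖a‖ : ℝ) : ℂ) * dir b := by
    have h1 := norm_mul_dir a
    have h2 := norm_mul_dir b
    push_cast
    linear_combination h1 - h2
  have h3 : ‖dir b‖ ≤ 1 := by
    by_cases hb : b = 0
    · simp [hb, dir]
    · exact (norm_dir hb).le
  have h4 : |‖b‖ - ‖a‖| ≤ δ := (abs_norm_sub_norm_le b a).trans (by rwa [norm_sub_rev])
  have h5 : ‖a‖ * ‖dir a - dir b‖ ≤ 2 * δ := by
    have := congrArg norm e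
    rw [norm_mul, norm_real, Real.norm_eq_abs, abs_of_pos ha0] at this
    rw [this]
    refine (norm_add_le _ _).trans ?_
    rw [norm_mul, norm_real, Real.norm_eq_abs]
    nlinarith [mul_le_mul h4 h3 (norm_nonneg _) hδ]
  rw [le_div_iff₀ hr]
  nlinarith [mul_le_mul_of_nonneg_right ha (norm_nonneg (dir a - dir b))]

lemma Dirs.perturb {V : Type} {η ε γ : ℝ} {S : Set V} {ord : V → ℤ} {u u' : V → ℂ}
    (h : Dirs η ε S ord u) (h1 : ∀ s ∈ S, ‖u' s‖ = 1) (h2 : ∀ s ∈ S, ‖u s - u' s‖ ≤ γ) :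
    Dirs (η - 2 * γ) (ε + γ) S ord u' := by
  obtain ⟨a, b, c⟩ := h
  refine ⟨fun s hs => ⟨h1 s hs, ?_⟩, b, fun s hs s' hs' hlt => ?_⟩
  · have := (abs_im_le_norm (u s - u' s)).trans (h2 s hs)
    rw [sub_im] at this
    linarith [(a s hs).2, (abs_le.1 this).2]
  · rcases c s hs s' hs' hlt with h | ⟨h, h'⟩
    · left
      have e : cr (u' s) (u' s') = cr (u s) (u s') - cr (u s - u' s) (u s') - cr (u' s) (u s' - u' s') := by
        rw [cr_sub_left, cr_sub_right]; ring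
      have b1 := cr_le (u s - u' s) (u s')
      have b2 := cr_le (u' s) (u s' - u' s')
      rw [(a s' hs').1] at b1
      rw [h1 s hs] at b2
      linarith [h2 s hs, h2 s' hs']
    · right
      constructor
      · have : u' s - 1 = (u s - 1) - (u s - u' s) := by ring
        rw [this]; linarith [norm_sub_le (u s - 1) (u s - u' s), h2 s hs]
      · have : u' s' + 1 = (u s' + 1) - (u s' - u' s') := by ring
        rw [this]; linarith [norm_sub_le (u s' + 1) (u s' - u' s'), h2 s' hs']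

lemma Dirs.mono {V : Type} {η ε η' ε' : ℝ} {S : Set V} {ord : V → ℤ} {u : V → ℂ}
    (h : Dirs η ε S ord u) (h1 : η' ≤ η) (h2 : ε ≤ ε') : Dirs η' ε' S ord u := by
  obtain ⟨a, b, c⟩ := h
  refine ⟨fun s hs => ⟨(a s hs).1, by linarith [(a s hs).2]⟩, b, fun s hs s' hs' hlt => ?_⟩
  rcases c s hs s' hs' hlt with h | ⟨h, h'⟩
  · exact Or.inl (h1.trans h)
  · exact Or.inr ⟨h.trans h2, h'.trans h2⟩

end

end Pool.Agent.P.MP_845aff_co
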