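import Pool.Agent.P.MP_845aff_co.Clus5
import Pool.Agent.P.MP_845aff_co.Comb

namespace Pool.Agent.P.MP_845aff_co

open Set Complex

noncomputable section

variable {V : Type} [Fintype V] {G : SimpleGraph V} {A : ℕ} {P : Set V → (V → ℤ) → Prop}
  {X : Set V} {ord : V → ℤ} {S : Step G A P X ord} {Δ : ℕ}

namespace Cl

structure Ob (c : Cl S Δ) where
  (Y T : Set V)
  β : ℤ × ℤ
  att : Set ℤ
  (lo hi : ℤ)
  h : ℝ
  blk : S.Blk β
  mem : ∀ s ∈ T, S.Arc β s ∨ S.Gap s β.1 β.2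
  isAtt : Att (c.K β) (apx c.T) att lo hi
  im : ∀ s ∈ T, c.idx β s ∈ att
  real : (∀ k ∈ att, ∃ s ∈ T, c.idx β s = k) ∨ (hi = lo + 1 ∧ T.Subsingleton)
  core : Y ⊆ X \ S.N
  conn : ∀ s ∈ T, ∀ s' ∈ T, Conn G (insert s (insert s' Y))

variable {c : Cl S Δ}

open Classical in
def rep (S : Step G A P X ord) (β : ℤ × ℤ) (s : V) : ℤ := if S.Gap s β.1 β.2 then β.1 else S.fst s

lemma rep_mem {β : ℤ × ℤ} {s : V} (h : S.Arc β s ∨ S.Gap s β.1 β.2) : rep S β s ∈ S.Mk s := by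
  by_cases g : S.Gap s β.1 β.2
  · rw [rep, if_pos g]; exact g.2.1
  · rw [rep, if_neg g]; exact Step.fst_mem (h.resolve_right g).1

lemma memN {β : ℤ × ℤ} {s : V} (h : S.Arc β s ∨ S.Gap s β.1 β.2) : s ∈ S.N := h.elim (·.1) (·.1)

lemma rep_lt {β : ℤ × ℤ} (b : S.Blk β) {s s' : V} (h : S.Arc β s ∨ S.Gap s β.1 β.2)
    (h' : S.Arc β s' ∨ S.Gap s' β.1 β.2) (hl : c.idx β s < c.idx β s') : rep S β s < rep S β s' := by
  have lt := (c.poly β).lt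
  have g' : ¬ S.Gap s' β.1 β.2 := fun g => by
    rw [idx, idx, if_pos g] at hl
    split_ifs at hl with k
    · omega
    · have := lt _ (c.arc_K b (h.resolve_right k)).1; omega
  have a' := h'.resolve_right g'
  rw [rep, rep, if_neg g']
  split_ifs with k
  · exact (b.inside a' (Step.fst_mem a'.1)).1
  · have a := h.resolve_right k
    rw [c.idx_arc b a, c.idx_arc b a'] at hl
    refine (Step.fst_ne a.1 a'.1 (by rintro rfl; omega)).lt_or_gt.resolve_right fun k => ?_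
    have := (c.t_lt a'.1 a.1 (Step.sep_of_C a'.1 a.1 (a'.2.trans a.2.symm) k)).1
    omega

lemma exists_ob (c : Cl S Δ) {Y T : Set V} (hT : T ⊆ S.N) (hne : T.Nonempty) (hY : Y ⊆ X \ S.N)
    (hc : ∀ s ∈ T, ∀ s' ∈ T, Conn G (insert s (insert s' Y))) (h1 h2 : ℝ) :
    ∃ o : Ob c, o.Y = Y ∧ o.T = T ∧ (o.att ⊆ {o.lo, o.hi} → o.h = h1) ∧
      (¬ o.att ⊆ {o.lo, o.hi} → o.h = h2) := by
  classical
  obtain ⟨β, b, ⟨s0, hs0, a0⟩, mem⟩ := Step.exists_blk hT hne fun s hs s' hs' a ha n1 n2 =>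
    ⟨_, by
      rintro x (rfl | rfl | hx)
      · exact S.sub (hT hs)
      · exact S.sub (hT hs')
      · exact (hY hx).1, hc s hs s' hs', Or.inl rfl, Or.inr (Or.inl rfl), by
      rintro (h | h | h)
      · exact n1 h
      · exact n2 h
      · exact (hY h).2 ha⟩
  have : ∃ att lo hi, Att (c.K β) (apx c.T) att lo hi ∧ (∀ s ∈ T, c.idx β s ∈ att) ∧
      ((∀ k ∈ att, ∃ s ∈ T, c.idx β s = k) ∨ (hi = lo + 1 ∧ T.Subsingleton)) := by
    by_cases hs : T.Subsingleton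
    · refine ⟨{c.t s0, c.t s0 + 1}, c.t s0, c.t s0 + 1, ⟨?_, Or.inl rfl, Or.inr rfl, by omega, ?_⟩,
        fun s h => ?_, Or.inr ⟨rfl, hs⟩⟩
      · rintro k (rfl | rfl)
        · exact Or.inr (c.arc_K b a0).1
        · exact Or.inr (c.arc_K b a0).2
      · rintro k (rfl | rfl) <;> omega
      · rw [hs h hs0, c.idx_arc b a0]; exact Or.inl rfl
    · obtain ⟨s1, m1, k1⟩ := Set.exists_min_image T (c.idx β) (toFinite _) hne
      obtain ⟨s2, m2, k2⟩ := Set.exists_max_image T (c.idx β) (toFinite _) hne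
      refine ⟨c.idx β '' T, c.idx β s1, c.idx β s2, ⟨?_, mem_image_of_mem _ m1, mem_image_of_mem _ m2,
        ?_, ?_⟩, fun s h => mem_image_of_mem _ h, Or.inl fun k hk => hk⟩
      · rintro k ⟨s, h, rfl⟩
        exact (c.B_idx b (mem s h)).2
      · obtain ⟨x, hx, x', hx', ne⟩ := not_subsingleton_iff.1 hs
        have := (idx_inj (c := c) b (mem x hx) (mem x' hx') ne).2
        have := k1 x hx
        have := k1 x' hx'
        have := k2 x hx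
        have := k2 x' hx'
        omega
      · rintro k ⟨s, h, rfl⟩
        exact ⟨k1 s h, k2 s h⟩
  obtain ⟨att, lo, hi, a1, a2, a3⟩ := this
  exact ⟨⟨Y, T, β, att, lo, hi, if att ⊆ {lo, hi} then h1 else h2, b, mem, a1, a2, a3, hY, hc⟩, rfl, rfl,
    fun h => if_pos h, fun h => if_neg h⟩

namespace Ob

def z (o : Ob c) : ℂ := ctr (c.B o.β) o.lo o.hi o.h

lemma hiK (o : Ob c) : o.hi ∈ c.K o.β := (o.isAtt.sub o.isAtt.hi_mem).resolve_left fun e => by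
  have h := o.isAtt.lt
  rcases o.isAtt.sub o.isAtt.lo_mem with k | k
  · omega
  · have := (c.poly o.β).lt _ k; omega

lemma bp (o : Ob c) (h0 : 0 ≤ o.h) (h1 : o.h ≤ c.H) (J : Set V) : c.BP o.β J o.z :=
  Or.inr ⟨o.lo, o.isAtt.sub o.isAtt.lo_mem, o.hi, o.hiK, o.h, o.isAtt.lt, h0, h1, rfl⟩

lemma nc (o o' : Ob c) (e : o.β = o'.β) (d : Disjoint o.Y o'.Y) : ∀ k1 ∈ o.att, ∀ k2 ∈ o'.att,
    ∀ k3 ∈ o.att, ∀ k4 ∈ o'.att, k1 < k2 → k2 < k3 → k3 < k4 → False := by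
  intro k1 m1 k2 m2 k3 m3 k4 m4 l1 l2 l3
  rcases o.real with r | r
  swap
  · have := o.isAtt.btw k1 m1
    have := o.isAtt.btw k3 m3
    omega
  rcases o'.real with r' | r'
  swap
  · have := o'.isAtt.btw k2 m2
    have := o'.isAtt.btw k4 m4
    omega
  obtain ⟨s1, t1, rfl⟩ := r k1 m1
  obtain ⟨s2, t2, rfl⟩ := r' k2 m2
  obtain ⟨s3, t3, rfl⟩ := r k3 m3
  obtain ⟨s4, t4, rfl⟩ := r' k4 m4
  have a1 := o.mem s1 t1
  have a2 := o'.mem s2 t2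
  have a3 := o.mem s3 t3
  have a4 := o'.mem s4 t4
  rw [← e] at a2 a4 l1 l2 l3
  have sub : ∀ {s s' : V} {Y : Set V}, s ∈ S.N → s' ∈ S.N → Y ⊆ X \ S.N → insert s (insert s' Y) ⊆ X := by
    rintro s s' Y h h' hY x (rfl | rfl | hx)
    · exact S.sub h
    · exact S.sub h'
    · exact (hY hx).1
  refine S.nc _ _ (sub (memN a1) (memN a3) o.core) (sub (memN a2) (memN a4) o'.core)
    (o.conn s1 t1 s3 t3) (o'.conn s2 t2 s4 t4) ?_ s1 (Or.inl rfl) s2 (Or.inl rfl) s3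
    (Or.inr (Or.inl rfl)) s4 (Or.inr (Or.inl rfl)) (memN a1) (memN a2) (memN a3) (memN a4)
    _ (rep_mem a1) _ (rep_mem a2) _ (rep_mem a3) _ (rep_mem a4) (rep_lt o.blk a1 a2 l1)
    (rep_lt o.blk a2 a3 l2) (rep_lt o.blk a3 a4 l3)
  rw [disjoint_left]
  rintro x (rfl | rfl | hx) (k | k | k)
  · rw [k] at l1; omega
  · rw [k] at l1; omega
  · exact (o'.core k).2 (memN a1)
  · rw [k] at l2; omega
  · rw [k] at l3; omega
  · exact (o'.core k).2 (memN a3)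
  · exact (o.core hx).2 (k ▸ memN a2)
  · exact (o.core hx).2 (k ▸ memN a4)
  · exact disjoint_left.1 d hx k

lemma small (o o' : Ob c) (e : o.β = o'.β) (d : Disjoint o.Y o'.Y) (e1 : o.lo = o'.lo)
    (e2 : o.hi = o'.hi) (h3 : ∀ s1 s2 s3, s1 ≠ s2 → s1 ≠ s3 → s2 ≠ s3 → s1 ∈ o.T → s2 ∈ o.T →
      s3 ∈ o.T → s1 ∈ o'.T → s2 ∈ o'.T → s3 ∈ o'.T → False) :
    o.att ⊆ {o.lo, o.hi} ∨ o'.att ⊆ {o'.lo, o'.hi} := by
  by_contra k
  simp only [not_or, not_subset, mem_insert_iff, mem_singleton_iff] at k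
  obtain ⟨⟨m, m1, m2, m3⟩, m', m1', m2', m3'⟩ := k
  have b := o.isAtt.btw m m1
  have b' := o'.isAtt.btw m' m1'
  rcases lt_trichotomy m m' with l | l | l
  · exact o'.nc o e.symm d.symm _ o'.isAtt.lo_mem _ m1 _ m1' _ o.isAtt.hi_mem (by omega) l (by omega)
  · have r := o.real.resolve_right (by omega)
    have r' := o'.real.resolve_right (by omega)
    have key : ∀ k ∈ o.att, k ∈ o'.att → ∃ s ∈ o.T, s ∈ o'.T ∧ c.idx o.β s = k := by
      intro k h h'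
      obtain ⟨s, t, u⟩ := r k h
      obtain ⟨s', t', u'⟩ := r' k h'
      refine ⟨s, t, ?_, u⟩
      by_contra n
      exact (idx_inj (c := c) o.blk (o.mem s t) (e ▸ o'.mem s' t') (fun j => n (j ▸ t'))).2
        (by rw [u, e, u'])
    obtain ⟨s1, a1, b1, c1⟩ := key _ o.isAtt.lo_mem (e1 ▸ o'.isAtt.lo_mem)
    obtain ⟨s2, a2, b2, c2⟩ := key _ m1 (l ▸ m1')
    obtain ⟨s3, a3, b3, c3⟩ := key _ o.isAtt.hi_mem (e2 ▸ o'.isAtt.hi_mem)
    exact h3 s1 s2 s3 (by rintro rfl; omega) (by rintro rfl; omega) (by rintro rfl; omega)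
      a1 a2 a3 b1 b2 b3
  · exact o.nc o' e d _ o.isAtt.lo_mem _ m1' _ m1 _ o'.isAtt.hi_mem (by omega) l (by omega)

/-- the segment `x1 x2` is covered by the star of `o`, using only leaves in `J` -/
def Cov (o : Ob c) (J : Set V) (x1 x2 : ℂ) : Prop :=
  ∀ x ∈ segment ℝ x1 x2, (∃ s ∈ J, s ∈ o.T ∧ x ∈ segment ℝ o.z (c.y s)) ∨ x = o.z

lemma far {δ : ℝ} (hδ : 0 < δ) (hδH : δ ≤ c.H) (hH : c.H ≤ 1 / (2 ^ 14 * c.M ^ 7)) (o o' : Ob c)
    (e : o.β = o'.β) (d : Disjoint o.Y o'.Y) (h0 : 0 ≤ o.h) (h1 : o.h ≤ c.H) (h0' : 0 ≤ o'.h)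
    (h1' : o'.h ≤ c.H) (same : o.lo = o'.lo → o.hi = o'.hi →
      (o.h + δ ≤ o'.h ∧ o.att ⊆ {o.lo, o.hi}) ∨ (o'.h + δ ≤ o.h ∧ o'.att ⊆ {o.lo, o.hi}))
    {J J' : Set V} (dJ : Disjoint J J') {x1 x2 x1' x2' : ℂ} (cv : o.Cov J x1 x2)
    (cv' : o'.Cov J' x1' x2') : Far (δ / 2) x1 x2 x1' x2' := by
  have key : ∀ k ∈ o.att, ∀ k' ∈ o'.att, k ≠ k' → Far (δ / 2) o.z (c.B o.β k) o'.z (c.B o'.β k') := by
    intro k hk k' hk' ne
    have := star_sep (c.poly o.β) hδ hδH hH o.isAtt (e ▸ o'.isAtt) h0 h1 h0' h1' (o.nc o' e d)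
      (o'.nc o e.symm d.symm) same hk hk' ne
    rw [z, z, ← e]; exact this
  have pick : ∀ (o : Ob c) (k : ℤ), ∃ k' ∈ o.att, k' ≠ k := by
    intro o k
    by_cases j : o.lo = k
    · exact ⟨_, o.isAtt.hi_mem, by have := o.isAtt.lt; omega⟩
    · exact ⟨_, o.isAtt.lo_mem, j⟩
  intro x hx x' hx'
  rcases cv x hx with ⟨s, a1, a2, a3⟩ | rfl <;> rcases cv' x' hx' with ⟨s', a1', a2', a3'⟩ | rfl
  · rw [← (c.B_idx o.blk (o.mem s a2)).1] at a3
    rw [← (c.B_idx o'.blk (o'.mem s' a2')).1] at a3'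
    refine key _ (o.im s a2) _ (o'.im s' a2') ?_ x a3 x' a3'
    rw [← e]
    exact (idx_inj o.blk (o.mem s a2) (e ▸ o'.mem s' a2')
      (fun j => disjoint_left.1 dJ a1 (j ▸ a1'))).2
  · rw [← (c.B_idx o.blk (o.mem s a2)).1] at a3
    obtain ⟨k, k1, k2⟩ := pick o' (c.idx o.β s)
    exact key _ (o.im s a2) k k1 k2.symm x a3 _ (left_mem_segment _ _ _)
  · rw [← (c.B_idx o'.blk (o'.mem s' a2')).1] at a3'
    obtain ⟨k, k1, k2⟩ := pick o (c.idx o'.β s')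
    exact key k k1 _ (o'.im s' a2') k2 _ (left_mem_segment _ _ _) x' a3'
  · obtain ⟨k, k1, k2⟩ := pick o' o.lo
    exact key _ o.isAtt.lo_mem k k1 k2.symm _ (left_mem_segment _ _ _) _ (left_mem_segment _ _ _)

lemma dirs (hH : c.H ≤ 1 / (2 ^ 14 * c.M ^ 7)) (o : Ob c) (h0 : 0 ≤ o.h) (h1 : o.h ≤ c.H) :
    (∀ s ∈ o.T, 1 / (32 * c.M ^ 2) ≤ ‖c.y s - o.z‖) ∧ ∃ e : ℂ, ‖e‖ = 1 ∧
      Dirs (1 / (128 * c.M ^ 5)) (64 * c.M ^ 2 * c.H) o.T (rep S o.β) fun s => dir (c.y s - o.z) / e := by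
  obtain ⟨a1, a2, a3, -, a4⟩ := star_dirs (c.poly o.β) hH o.isAtt h0 h1
  have e : ∀ s ∈ o.T, c.y s = c.B o.β (c.idx o.β s) := fun s hs => (c.B_idx o.blk (o.mem s hs)).1.symm
  refine ⟨fun s hs => e s hs ▸ a2 _ (o.im s hs), _, a1, fun s hs => ?_, fun s hs s' hs' h => ?_,
    fun s hs s' hs' h => ?_⟩
  · beta_reduce; rw [e s hs]; exact a3 _ (o.im s hs)
  · exact S.mk_disj s (memN (o.mem s hs)) s' (memN (o.mem s' hs')) _ (rep_mem (o.mem s hs))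
      (h ▸ rep_mem (o.mem s' hs'))
  · beta_reduce
    rw [e s hs, e s' hs']
    refine a4 _ (o.im s hs) _ (o.im s' hs') ?_
    have := (idx_inj (c := c) o.blk (o.mem s hs) (o.mem s' hs') (by rintro rfl; omega)).2
    refine this.lt_or_gt.resolve_right fun k => ?_
    have := rep_lt o.blk (o.mem s' hs') (o.mem s hs) k
    omega

end Ob

lemma exists_edge (c : Cl S Δ) {a b : V} (ha : a ∈ S.N) (hb : b ∈ S.N) (h : G.Adj a b) :
    ∃ o : Ob c, o.Y = ∅ ∧ o.T = {a, b} ∧ o.h = 0 ∧ o.att ⊆ {o.lo, o.hi} ∧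
      (∀ k ∈ o.att, ∃ s ∈ o.T, c.idx o.β s = k) ∧ o.Cov {a, b} (c.y a) (c.y b) := by
  have c1 : ∀ s s', G.Adj s s' → Conn G (insert s (insert s' ∅)) := fun s s' h => by
    simpa using (conn_singleton (G := G) s').insert rfl h.symm
  obtain ⟨o, e1, e2, e3, -⟩ := exists_ob c (Y := ∅) (T := {a, b}) (by simp [insert_subset_iff, ha, hb])
    (by simp) (by simp) (by
      rintro s (rfl | rfl) s' (rfl | rfl)
      · simpa using conn_singleton s'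
      · exact c1 _ _ h
      · exact c1 _ _ h.symm
      · simpa using conn_singleton s') 0 0
  have r := o.real.resolve_right fun k => h.ne (k.2 (by simp [e2]) (by simp [e2]))
  have lt := o.isAtt.lt
  have ia := (c.B_idx o.blk (o.mem a (by simp [e2]))).1
  have ib := (c.B_idx o.blk (o.mem b (by simp [e2]))).1
  have cs : (c.idx o.β a = o.lo ∧ c.idx o.β b = o.hi) ∨ (c.idx o.β b = o.lo ∧ c.idx o.β a = o.hi) := by
    obtain ⟨s, s1, s2⟩ := r _ o.isAtt.lo_mem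
    obtain ⟨t, t1, t2⟩ := r _ o.isAtt.hi_mem
    rw [e2] at s1 t1
    rcases s1 with rfl | rfl <;> rcases t1 with rfl | rfl <;> omega
  have sm : o.att ⊆ {o.lo, o.hi} := by
    intro k hk
    obtain ⟨s, s1, rfl⟩ := r k hk
    rw [e2] at s1
    simp only [mem_insert_iff, mem_singleton_iff]
    rcases s1 with rfl | rfl <;> omega
  refine ⟨o, e1, e2, e3 sm, sm, r, fun x hx => Or.inl ?_⟩
  have f := (c.poly o.β).far _ (o.isAtt.sub o.isAtt.lo_mem) _ o.hiK lt.ne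
  rw [Ob.z, e3 sm, e2]
  rcases cs with ⟨k1, k2⟩ | ⟨k1, k2⟩
  · rw [k1] at ia; rw [k2] at ib
    rcases seg_ctr f (x := x) (by rw [ia, ib]; exact hx) with j | j
    · exact ⟨a, by simp, by simp, ia ▸ j⟩
    · exact ⟨b, by simp, by simp, ib ▸ j⟩
  · rw [k2] at ia; rw [k1] at ib
    rcases seg_ctr f (x := x) (by rw [ia, ib, segment_symm]; exact hx) with j | j
    · exact ⟨b, by simp, by simp, ib ▸ j⟩
    · exact ⟨a, by simp, by simp, ia ▸ j⟩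

end Cl

end

end Pool.Agent.P.MP_845aff_co
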