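import Pool.Agent.P.MP_845aff_co.Lay

namespace Pool.Agent.P.MP_845aff_co

open Set Complex Cl

variable {V : Type} [Fintype V] {G : SimpleGraph V} {A Δ : ℕ}

lemma exists_num (W : Set V) : ∃ f : V → ℕ, InjOn f W ∧ ∀ x ∈ W, f x < W.ncard := by
  classical
  let e := W.toFinite.toFinset.equivFin
  refine ⟨fun x => if h : x ∈ W then e ⟨x, (Set.Finite.mem_toFinset _).2 h⟩ else 0, fun x hx x' hx' h => ?_,
    fun x hx => ?_⟩
  · simp only [dif_pos hx, dif_pos hx'] at h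
    exact congrArg Subtype.val (e.injective (Fin.ext h))
  · simp only [dif_pos hx]
    rw [ncard_eq_toFinset_card]
    exact Fin.is_lt _

lemma Step.bd_sub {P : Set V → (V → ℤ) → Prop} {X : Set V} {ord : V → ℤ} (S : Step G A P X ord)
    {y : V} (hy : y ∈ X \ S.N) :
    bd G (comp G (X \ S.N) y) ⊆ S.N ∧ (bd G (comp G (X \ S.N) y)).Nonempty := by
  constructor
  · rintro s ⟨h1, x, hx, h⟩
    have xX := comp_sub hy hx
    by_contra k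
    by_cases sX : s ∈ X
    · exact h1 (comp_step hy hx h ⟨sX, k⟩)
    · exact xX.2 (S.nb x xX.1 s sX h)
  · by_contra hn
    obtain ⟨n, hn'⟩ := S.ne
    have : X ⊆ comp G (X \ S.N) y := S.conn.sub_of_closed hy.1 (self_mem_comp _ y) fun a ha b hab _ _ => by
      by_contra hb; exact hn ⟨b, hb, a, ha, hab⟩
    exact (comp_sub hy (this (S.sub hn'))).2 hn'

theorem layout (q : Par A Δ) (hΔ : ∀ v, (G.neighborSet v).ncard ≤ Δ) {δ σ : ℝ} (hδ : 0 < δ)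
    (hδH : δ ≤ q.H) (hJ : 2 * (A * Δ : ℕ) * δ ≤ q.H) (hH : q.H ≤ 1 / (2 ^ 14 * q.M ^ 7))
    (σ1 : σ ≤ δ / 2) (σ2 : σ ≤ q.τ / 4) (σ3 : σ ≤ 1 / (32 * q.M ^ 2))
    (hη : 2 * q.η ≤ 1 / (128 * q.M ^ 5)) (hε : 64 * q.M ^ 2 * q.H ≤ q.ε / 2) :
    Layout G A q.η q.ε σ q.R q.Λ := by
  classical
  intro P X ord S u lam d hl
  obtain ⟨ps, ps1, ps2⟩ := exists_ps (S := S) q.E d
  let c : Cl S Δ := ⟨q, u, hΔ, d, ps, ps1, ps2⟩
  have home : ∀ n ∈ S.N, ∃ β, S.Blk β ∧ S.Arc β n := by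
    intro n hn
    obtain ⟨β, b, ⟨s, rfl, a⟩, -⟩ := Step.exists_blk (S := S) (T := {n}) (by simpa) (by simp) (by
      rintro s rfl s' rfl a _ n1 _
      exact ⟨{s'}, by simpa using S.sub hn, conn_singleton _, rfl, rfl, n1⟩)
    exact ⟨β, b, a⟩
  obtain ⟨f, f1, f2⟩ := exists_num {x | ∃ b ∈ S.N, G.Adj x b}
  have f3 : {x | ∃ b ∈ S.N, G.Adj x b}.ncard ≤ A * Δ :=
    (ncard_nb hΔ S.N).trans (Nat.mul_le_mul_right _ S.card)
  have hex : ∀ Y : Set V, (∃ y ∈ X \ S.N, Y = comp G (X \ S.N) y) → ∃ x, ∃ o : Ob c, x ∈ Y ∧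
      x ∈ {x | ∃ b ∈ S.N, G.Adj x b} ∧ o.Y = Y ∧ o.T = bd G Y ∧ (o.att ⊆ {o.lo, o.hi} → o.h = (f x + 1 : ℕ) * δ) ∧
      (¬ o.att ⊆ {o.lo, o.hi} → o.h = (f x + 1 + A * Δ : ℕ) * δ) := by
    rintro Y ⟨y, hy, rfl⟩
    obtain ⟨b1, s, hs⟩ := S.bd_sub hy
    obtain ⟨-, x, hx, h⟩ := id hs
    obtain ⟨o, ho⟩ := exists_ob c b1 ⟨s, hs⟩ (comp_sub hy) (fun s hs s' hs' =>
      ((conn_comp hy).insert_bd subset_rfl hs').insert_bd (subset_insert _ _) hs)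
      ((f x + 1 : ℕ) * δ) ((f x + 1 + A * Δ : ℕ) * δ)
    exact ⟨x, o, hx, ⟨s, b1 hs, h⟩, ho⟩
  obtain ⟨n0, hn0⟩ := S.ne
  haveI : Nonempty V := ⟨n0⟩
  haveI : Nonempty (Ob c) := by
    obtain ⟨o, -⟩ := exists_ob c (T := {n0}) (Y := ∅) (by simpa) (by simp) (by simp) (by
      rintro s rfl s' rfl
      simpa using conn_singleton s') 0 0
    exact ⟨o⟩
  choose! r ob hob using hex
  have r1 := fun Y h => (hob Y h).1
  have r2 := fun Y h => (hob Y h).2.1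
  have o1 := fun Y h => (hob Y h).2.2.1
  have o2 := fun Y h => (hob Y h).2.2.2.1
  have o3 := fun Y h => (hob Y h).2.2.2.2.1
  have o4 := fun Y h => (hob Y h).2.2.2.2.2
  have hh : ∀ y ∈ X \ S.N, δ ≤ (ob (comp G (X \ S.N) y)).h ∧ (ob (comp G (X \ S.N) y)).h ≤ c.H := by
    intro y hy
    have k := f2 _ (r2 _ ⟨y, hy, rfl⟩)
    have key : ∀ j : ℕ, 1 ≤ j → j ≤ 2 * (A * Δ) → δ ≤ j * δ ∧ j * δ ≤ c.H := by
      intro j j1 j2
      have a1 : (1 : ℝ) ≤ j := by exact_mod_cast j1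
      have a2 : (j : ℝ) ≤ 2 * (A * Δ : ℕ) := by exact_mod_cast j2
      exact ⟨by nlinarith, (mul_le_mul_of_nonneg_right a2 hδ.le).trans hJ⟩
    by_cases sm : (ob (comp G (X \ S.N) y)).att ⊆ {(ob (comp G (X \ S.N) y)).lo, (ob (comp G (X \ S.N) y)).hi}
    · rw [o3 _ ⟨y, hy, rfl⟩ sm]; exact key _ (by omega) (by omega)
    · rw [o4 _ ⟨y, hy, rfl⟩ sm]; exact key _ (by omega) (by omega)
  let sh : V → ℂ := fun v => if v ∈ X \ S.N then (ob (comp G (X \ S.N) v)).z else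
    if v ∈ S.N then c.y v else lam v * u v
  have sh1 : ∀ y ∈ X \ S.N, ∀ v ∈ comp G (X \ S.N) y, sh v = (ob (comp G (X \ S.N) y)).z := by
    intro y hy v hv
    simp only [sh, if_pos (comp_sub hy hv), comp_eq hv]
  have sh2 : ∀ v ∈ S.N, sh v = c.y v := fun v hv => by
    simp only [sh, if_neg (fun h : v ∈ X \ S.N => h.2 hv), if_pos hv]
  have sh3 : ∀ v ∉ X, sh v = lam v * u v := fun v hv => by
    simp only [sh, if_neg (fun h : v ∈ X \ S.N => hv h.1), if_neg (fun h => hv (S.sub h))]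
  refine ⟨sh, fun b hb => sh3 b hb.1, fun x hx => ?_, fun y hy => ⟨fun y' hy' => ?_, ?_⟩, ?_⟩
  · by_cases k : x ∈ S.N
    · rw [sh2 x k]; exact c.norm_y k
    · rw [sh1 x ⟨hx, k⟩ x (self_mem_comp _ _)]
      exact ((ob _).bp (hδ.le.trans (hh x ⟨hx, k⟩).1) (hh x ⟨hx, k⟩).2 ∅).norm
  · rw [sh1 y hy y' hy', sh1 y hy y (self_mem_comp _ _)]
  · obtain ⟨a1, e, a2, a3⟩ := (ob (comp G (X \ S.N) y)).dirs hH (hδ.le.trans (hh y hy).1) (hh y hy).2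
    rw [o2 _ ⟨y, hy, rfl⟩] at a1 a3
    have b1 := (S.bd_sub hy).1
    rw [sh1 y hy y (self_mem_comp _ _)]
    refine ⟨fun s hs => by rw [sh2 s (b1 hs)]; exact σ3.trans (a1 s hs), _, e, a2,
      fun s hs => rep_mem ((ob _).mem s (by rw [o2 _ ⟨y, hy, rfl⟩]; exact hs)), ?_⟩
    have := (a3.mono hη hε).perturb (γ := 0) (u' := fun s => dir (sh s - (ob (comp G (X \ S.N) y)).z) / e)
      (fun s hs => by rw [sh2 s (b1 hs)]; exact (a3.1 s hs).1) (fun s hs => by rw [sh2 s (b1 hs)]; simp)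
    simpa using this
  have th : ∀ a ∈ X, ∀ b, (a = b ∨ G.Adj a b) →
      (∃ p, S.Slot a p p ∧ S.hd p = b ∧ sh a = c.y a ∧ sh b = lam b * c.U p ∧ c.Λ ≤ lam b) ∨
      ∃ β, S.Blk β ∧ c.BP β {a, b} (sh a) ∧ c.BP β {a, b} (sh b) ∧
        ((a = b ∧ S.Arc β a ∧ sh a = c.y a) ∨ ∃ o : Ob c, o.β = β ∧ 0 ≤ o.h ∧ o.h ≤ c.H ∧
          o.Cov {a, b} (sh a) (sh b) ∧ ((o.Y = ∅ ∧ o.T = {a, b} ∧ o.h = 0 ∧ o.att ⊆ {o.lo, o.hi} ∧
            ∀ k ∈ o.att, ∃ s ∈ o.T, c.idx o.β s = k) ∨ ∃ y ∈ X \ S.N,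
            (a ∈ comp G (X \ S.N) y ∨ b ∈ comp G (X \ S.N) y) ∧ o = ob (comp G (X \ S.N) y))) := by
    intro a ha b hab
    by_cases bX : b ∈ X
    swap
    · have h : G.Adj a b := hab.resolve_left fun e => bX (e ▸ ha)
      have aN := S.nb a ha b bX h
      obtain ⟨p, p1, p2⟩ := S.ext a aN b bX h
      have xt : S.Xt p := ⟨a, aN, p1, p2 ▸ bX, p2 ▸ h⟩
      exact Or.inl ⟨p, ⟨aN, p1, p1, le_rfl, fun _ _ => by omega, xt, xt⟩, p2, sh2 a aN,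
        by rw [sh3 b bX, Cl.U, p2], hl b ⟨bX, a, ha, h⟩⟩
    right
    have star : ∀ y ∈ X \ S.N, ∀ v, v ∈ comp G (X \ S.N) y ∨ v ∈ bd G (comp G (X \ S.N) y) →
        v ∈ ({a, b} : Set V) → c.BP (ob (comp G (X \ S.N) y)).β {a, b} (sh v) := by
      rintro y hy v (hv | hv) m
      · rw [sh1 y hy v hv]
        exact (ob _).bp (hδ.le.trans (hh y hy).1) (hh y hy).2 _
      · exact Or.inl ⟨v, m, (ob _).mem v (by rw [o2 _ ⟨y, hy, rfl⟩]; exact hv),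
          sh2 v ((S.bd_sub hy).1 hv)⟩
    by_cases aN : a ∈ S.N <;> by_cases bN : b ∈ S.N
    · rcases hab with rfl | h
      · obtain ⟨β, k1, k2⟩ := home a aN
        have : c.BP β {a, a} (sh a) := Or.inl ⟨a, by simp, Or.inl k2, sh2 a aN⟩
        exact ⟨β, k1, this, this, Or.inl ⟨rfl, k2, sh2 a aN⟩⟩
      · obtain ⟨o, e1, e2, e3, e4, e5, e6⟩ := exists_edge c aN bN h
        refine ⟨o.β, o.blk, Or.inl ⟨a, by simp, o.mem a (by simp [e2]), sh2 a aN⟩,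
          Or.inl ⟨b, by simp, o.mem b (by simp [e2]), sh2 b bN⟩, Or.inr ⟨o, rfl, e3.ge,
          e3.le.trans c.H0, by rw [sh2 a aN, sh2 b bN]; exact e6, Or.inl ⟨e1, e2, e3, e4, e5⟩⟩⟩
    · have h : G.Adj a b := hab.resolve_left fun e => bN (e ▸ aN)
      have hy : b ∈ X \ S.N := ⟨bX, bN⟩
      have m : a ∈ bd G (comp G (X \ S.N) b) :=
        ⟨fun k => (comp_sub hy k).2 aN, b, self_mem_comp _ _, h.symm⟩
      refine ⟨_, (ob _).blk, star b hy a (Or.inr m) (by simp), star b hy b (Or.inl (self_mem_comp _ _))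
        (by simp), Or.inr ⟨_, rfl, hδ.le.trans (hh b hy).1, (hh b hy).2, fun x hx => Or.inl
        ⟨a, by simp, by rw [o2 _ ⟨b, hy, rfl⟩]; exact m, ?_⟩,
        Or.inr ⟨b, hy, Or.inr (self_mem_comp _ _), rfl⟩⟩⟩
      rwa [sh2 a aN, sh1 b hy b (self_mem_comp _ _), segment_symm] at hx
    · have h : G.Adj a b := hab.resolve_left fun e => aN (e ▸ bN)
      have hy : a ∈ X \ S.N := ⟨ha, aN⟩
      have m : b ∈ bd G (comp G (X \ S.N) a) :=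
        ⟨fun k => (comp_sub hy k).2 bN, a, self_mem_comp _ _, h⟩
      refine ⟨_, (ob _).blk, star a hy a (Or.inl (self_mem_comp _ _)) (by simp),
        star a hy b (Or.inr m) (by simp), Or.inr ⟨_, rfl, hδ.le.trans (hh a hy).1, (hh a hy).2,
        fun x hx => Or.inl ⟨b, by simp, by rw [o2 _ ⟨a, hy, rfl⟩]; exact m, ?_⟩,
        Or.inr ⟨a, hy, Or.inl (self_mem_comp _ _), rfl⟩⟩⟩
      rwa [sh2 b bN, sh1 a hy a (self_mem_comp _ _)] at hx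
    · have hy : a ∈ X \ S.N := ⟨ha, aN⟩
      have m : b ∈ comp G (X \ S.N) a := by
        rcases hab with rfl | h
        · exact self_mem_comp _ _
        · exact comp_step hy (self_mem_comp _ _) h ⟨bX, bN⟩
      refine ⟨_, (ob _).blk, star a hy a (Or.inl (self_mem_comp _ _)) (by simp),
        star a hy b (Or.inl m) (by simp), Or.inr ⟨_, rfl, hδ.le.trans (hh a hy).1, (hh a hy).2,
        fun x hx => Or.inr ?_, Or.inr ⟨a, hy, Or.inl (self_mem_comp _ _), rfl⟩⟩⟩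
      rwa [sh1 a hy b m, sh1 a hy a (self_mem_comp _ _), segment_same] at hx
  intro a ha a' ha' b b' hab hab' n1 n2 n3 n4 hsame
  have dJ : Disjoint ({a, b} : Set V) {a', b'} := by
    rw [disjoint_left]
    rintro x (rfl | rfl) (k | k)
    exacts [n1 k, n2 k, n3 k, n4 k]
  have vert : ∀ {β} {a : V} {J : Set V} {x1 x2 : ℂ}, S.Blk β → S.Arc β a → a ∉ J → c.BP β J x1 →
      c.BP β J x2 → Far σ x1 x2 (c.y a) (c.y a) := by
    intro β a J x1 x2 k1 k2 k3 k4 k5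
    refine (far_of_cr (τ := c.τ) (l := cr (tg c.T (c.t a)) (c.y a) - c.τ)
      (norm_tg (by linarith [c.p.hT]) (c.t_bd k2.1).1) ((k4.up k1 a k2).2 k3) ((k5.up k1 a k2).2 k3)
      (by linarith) (by linarith)).mono ?_
    have : c.τ = q.τ := rfl
    linarith [q.τ0]
  rcases th a ha b hab with ⟨p, g, e1, e2, e3, e4⟩ | ⟨β, k1, k2, k3, k4⟩ <;>
    rcases th a' ha' b' hab' with ⟨p', g', e1', e2', e3', e4'⟩ | ⟨β', k1', k2', k3', k4'⟩
  · rw [e2, e3, e2', e3']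
    rcases le_total p p' with k | k
    · exact (sep_ray_ray g g' n1 (by rw [e1, e1']; exact n4) k e4 e4').mono σ2
    · exact (sep_ray_ray g' g n1.symm (by rw [e1, e1']; exact n4.symm) k e4' e4).symm.mono σ2
  · rw [e2, e3]
    exact (sep_ray_seg g e4 k1' (disjoint_left.1 dJ (by simp)) k2' k3').symm.mono σ2
  · rw [e2', e3']
    exact (sep_ray_seg g' e4' k1 (disjoint_left.1 dJ.symm (by simp)) k2 k3).mono σ2
  by_cases e : β = β'
  swap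
  · exact (sep_seg k1 k1' e dJ k2 k3 k2' k3').mono σ2
  subst e
  rcases k4 with ⟨rfl, j1, j2⟩ | ⟨o, j1, j2, j3, j4, j5⟩
  · rw [j2]
    exact (vert k1 j1 (disjoint_left.1 dJ (by simp)) k2' k3').symm
  rcases k4' with ⟨rfl, j1', j2'⟩ | ⟨o', j1', j2', j3', j4', j5'⟩
  · rw [j2']
    exact vert k1 j1' (disjoint_left.1 dJ.symm (by simp)) k2 k3
  have e := j1.trans j1'.symm
  rcases j5 with ⟨i1, i2, i3, i4, i5⟩ | ⟨y, hy, i1, rfl⟩ <;>
    rcases j5' with ⟨i1', i2', i3', i4', i5'⟩ | ⟨y', hy', i1', rfl⟩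
  · refine (Ob.far hδ hδH hH o o' e (by simp [i1]) j2 j3 j2' j3' (fun l _ => ?_) dJ j4 j4').mono σ1
    obtain ⟨s, s1, s2⟩ := i5 _ o.isAtt.lo_mem
    obtain ⟨s', s1', s2'⟩ := i5' _ o'.isAtt.lo_mem
    exact absurd (by rw [s2, e, s2', l]) (idx_inj (c := c) o.blk (o.mem s s1) (e ▸ o'.mem s' s1')
      fun j => disjoint_left.1 dJ (i2 ▸ s1) (j ▸ i2' ▸ s1')).2
  · exact (Ob.far hδ hδH hH o _ e (by simp [i1]) j2 j3 j2' j3'
      (fun _ _ => Or.inl ⟨by linarith [(hh y' hy').1], i4⟩) dJ j4 j4').mono σ1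
  · exact (Ob.far hδ hδH hH _ o' e (by simp [i1']) j2 j3 j2' j3'
      (fun l1 l2 => Or.inr ⟨by linarith [(hh y hy).1], by rw [l1, l2]; exact i4'⟩) dJ j4 j4').mono σ1
  have ne : comp G (X \ S.N) y ≠ comp G (X \ S.N) y' := fun k => hsame y hy i1 (k ▸ i1')
  have dY : Disjoint (ob (comp G (X \ S.N) y)).Y (ob (comp G (X \ S.N) y')).Y := by
    rw [o1 _ ⟨y, hy, rfl⟩, o1 _ ⟨y', hy', rfl⟩, disjoint_left]
    exact fun x h h' => ne (comp_eq_of_mem h h')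
  refine (Ob.far hδ hδH hH _ _ e dY j2 j3 j2' j3' (fun l1 l2 => ?_) dJ j4 j4').mono σ1
  have sm := Ob.small _ _ e dY l1 l2 (by
    rw [o2 _ ⟨y, hy, rfl⟩, o2 _ ⟨y', hy', rfl⟩]; exact S.three y hy y' hy' ne)
  have fne : f (r (comp G (X \ S.N) y)) ≠ f (r (comp G (X \ S.N) y')) := fun k =>
    ne (comp_eq_of_mem (r1 _ ⟨y, hy, rfl⟩) (f1 (r2 _ ⟨y, hy, rfl⟩) (r2 _ ⟨y', hy', rfl⟩) k ▸
      r1 _ ⟨y', hy', rfl⟩))
  have b1 := f2 _ (r2 _ ⟨y, hy, rfl⟩)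
  have b2 := f2 _ (r2 _ ⟨y', hy', rfl⟩)
  have key : ∀ i j : ℕ, i < j → i * δ + δ ≤ j * δ := by
    intro i j h
    have : (i : ℝ) + 1 ≤ j := by exact_mod_cast h
    nlinarith
  have c3 := o3 _ ⟨y, hy, rfl⟩
  have c4 := o4 _ ⟨y, hy, rfl⟩
  have c3' := o3 _ ⟨y', hy', rfl⟩
  have c4' := o4 _ ⟨y', hy', rfl⟩
  rw [← l1, ← l2] at c3' c4' sm
  by_cases s1 : (ob (comp G (X \ S.N) y)).att ⊆ {(ob (comp G (X \ S.N) y)).lo, (ob (comp G (X \ S.N) y)).hi} <;>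
  by_cases s2 : (ob (comp G (X \ S.N) y')).att ⊆ {(ob (comp G (X \ S.N) y)).lo, (ob (comp G (X \ S.N) y)).hi}
  · rw [c3 s1, c3' s2]
    rcases fne.lt_or_gt with k | k
    · exact Or.inl ⟨key _ _ (by omega), s1⟩
    · exact Or.inr ⟨key _ _ (by omega), s2⟩
  · rw [c3 s1, c4' s2]; exact Or.inl ⟨key _ _ (by omega), s1⟩
  · rw [c4 s1, c3' s2]; exact Or.inr ⟨key _ _ (by omega), s2⟩
  · exact absurd sm (not_or.2 ⟨s1, s2⟩)

end Pool.Agent.P.MP_845aff_co
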