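import Pool.Agent.P.MP_845aff_co.Defs

/-! Plane topology: the outer face, small balls, short end pieces of arcs. -/

namespace Pool.Agent.P.MP_845aff_co

open Set Metric Topology

lemma outside_preconnected (ρ : ℝ) : IsPreconnected {x : ℝ × ℝ | ρ < ‖x‖} := by
  by_cases hρ : ρ < 0
  · have : {x : ℝ × ℝ | ρ < ‖x‖} = univ :=
      eq_univ_of_forall fun x => lt_of_lt_of_le hρ (norm_nonneg x)
    rw [this]; exact isPreconnected_univ
  have c1 : Convex ℝ {x : ℝ × ℝ | ρ < x.1} :=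
    convex_halfSpace_gt (LinearMap.fst ℝ ℝ ℝ).isLinear ρ
  have c2 : Convex ℝ {x : ℝ × ℝ | ρ < x.2} :=
    convex_halfSpace_gt (LinearMap.snd ℝ ℝ ℝ).isLinear ρ
  have c3 : Convex ℝ {x : ℝ × ℝ | x.1 < -ρ} :=
    convex_halfSpace_lt (LinearMap.fst ℝ ℝ ℝ).isLinear (-ρ)
  have c4 : Convex ℝ {x : ℝ × ℝ | x.2 < -ρ} :=
    convex_halfSpace_lt (LinearMap.snd ℝ ℝ ℝ).isLinear (-ρ)
  have h12 := c1.isPreconnected.union (ρ + 1, ρ + 1) (by simp) (by simp) c2.isPreconnected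
  have h34 := c3.isPreconnected.union (-ρ - 1, -ρ - 1) (by simp) (by simp) c4.isPreconnected
  have h := h12.union (-ρ - 1, ρ + 1) (by simp) (by simp) h34
  convert h using 1
  ext x
  simp only [mem_ofPred_eq, mem_union, Prod.norm_def, Real.norm_eq_abs, lt_max_iff, lt_abs]
  constructor
  · rintro ((h | h) | (h | h))
    · exact Or.inl (Or.inl h)
    · exact Or.inr (Or.inl (by linarith))
    · exact Or.inl (Or.inr h)
    · exact Or.inr (Or.inr (by linarith))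
  · rintro ((h | h) | (h | h))
    · exact Or.inl (Or.inl h)
    · exact Or.inr (Or.inl h)
    · exact Or.inl (Or.inr (by linarith))
    · exact Or.inr (Or.inr (by linarith))

/-- a point in the closure of the outer face can be approached from a fixed far point -/
lemma outer_path {C : Set (ℝ × ℝ)} (hC : IsClosed C) {ρ : ℝ} (hρ : ∀ x ∈ C, ‖x‖ ≤ ρ)
    {x0 : ℝ × ℝ} (hx0 : ρ < ‖x0‖) {x p : ℝ × ℝ} (hx : x ∉ C)
    (hu : ¬ Bornology.IsBounded (connectedComponentIn Cᶜ x))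
    (hp : p ∈ closure (connectedComponentIn Cᶜ x)) {r : ℝ} (hr : 0 < r) :
    ∃ P : Set (ℝ × ℝ), IsCompact P ∧ IsPreconnected P ∧ Disjoint P C ∧ x0 ∈ P ∧
      ∃ y ∈ P, y ∈ ball p r := by
  have hO : IsOpen (connectedComponentIn Cᶜ x) := hC.isOpen_compl.connectedComponentIn
  have hc : IsConnected (connectedComponentIn Cᶜ x) := isConnected_connectedComponentIn_iff.2 hx
  have h0 : x0 ∈ connectedComponentIn Cᶜ x := by
    rw [isBounded_iff_forall_norm_le] at hu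
    push Not at hu
    obtain ⟨y, hy, hy'⟩ := hu ρ
    rw [connectedComponentIn_eq hy]
    refine (outside_preconnected ρ).subset_connectedComponentIn hy' ?_ hx0
    intro u hu huC
    exact absurd (hρ u huC) (not_le.2 hu)
  obtain ⟨y, hy, hy'⟩ := Metric.mem_closure_iff.1 hp r hr
  obtain ⟨γ, hγ⟩ := (hO.isConnected_iff_isPathConnected.1 hc).joinedIn x0 h0 y hy
  refine ⟨range γ, isCompact_range γ.continuous, isPreconnected_range γ.continuous, ?_,
    ⟨0, γ.source⟩, y, ⟨1, γ.target⟩, by rwa [mem_ball, dist_comm]⟩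
  rw [Set.disjoint_left]
  rintro _ ⟨t, rfl⟩ h
  exact connectedComponentIn_subset _ _ (hγ t) h

variable {V : Type} [Finite V] {G : SimpleGraph V} (D : Drawing G)

omit [Finite V] in
lemma Drawing.tgt {u v : V} (h : G.Adj u v) : D.γ u v 1 = D.f v := by
  have := D.rev v u h.symm 1 (by norm_num)
  rw [this, sub_self, D.src v u h.symm]

lemma Drawing.carrier_compact (S : Set V) : IsCompact (D.carrier S) := by
  have : D.carrier S = D.f '' S ∪ ⋃ p ∈ {p : V × V | p.1 ∈ S ∧ p.2 ∈ S ∧ G.Adj p.1 p.2},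
      D.γ p.1 p.2 '' Icc 0 1 := by
    ext x
    simp only [Drawing.carrier, mem_ofPred_eq, mem_union, mem_image, mem_iUnion, exists_prop,
      Prod.exists]
    refine or_congr Iff.rfl ⟨?_, ?_⟩
    · rintro ⟨u, hu, v, hv, h, ht⟩
      exact ⟨u, v, ⟨hu, hv, h⟩, ht⟩
    · rintro ⟨u, v, ⟨hu, hv, h⟩, ht⟩
      exact ⟨u, hu, v, hv, h, ht⟩
  rw [this]
  exact ((toFinite S).image _).isCompact.union ((toFinite _).isCompact_biUnion fun p hp =>
    isCompact_Icc.image_of_continuousOn (D.cont _ _ hp.2.2))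

omit [Finite V] in
/-- points of arcs that are vertex points -/
lemma Drawing.eq_vertex {u v w : V} (h : G.Adj u v) {t : ℝ} (ht : t ∈ Icc (0 : ℝ) 1)
    (e : D.γ u v t = D.f w) : (t = 0 ∧ u = w) ∨ (t = 1 ∧ v = w) := by
  rcases ht.1.eq_or_lt with rfl | h0
  · exact Or.inl ⟨rfl, D.inj (by rw [← e, D.src u v h])⟩
  rcases ht.2.eq_or_lt with rfl | h1
  · exact Or.inr ⟨rfl, D.inj (by rw [← e, D.tgt h])⟩
  exact absurd e (D.avoid u v h t ⟨h0, h1⟩ w)

omit [Finite V] in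
/-- two arcs meet in an interior point -/
lemma Drawing.eq_arc {u v u' v' : V} (h : G.Adj u v) (h' : G.Adj u' v') {t t' : ℝ}
    (ht : t ∈ Ioo (0 : ℝ) 1) (ht' : t' ∈ Icc (0 : ℝ) 1) (e : D.γ u' v' t' = D.γ u v t) :
    (u' = u ∧ v' = v ∧ t' = t) ∨ (u' = v ∧ v' = u ∧ t' = 1 - t) := by
  have h0 : t' ≠ 0 := fun k => D.avoid u v h t ht u' (by rw [← e, k, D.src _ _ h'])
  have h1 : t' ≠ 1 := fun k => D.avoid u v h t ht v' (by rw [← e, k, D.tgt h'])
  have hs : s(u', v') = s(u, v) := by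
    by_contra hs
    exact D.nocross u' v' u v h' h hs t'
      ⟨lt_of_le_of_ne ht'.1 h0.symm, lt_of_le_of_ne ht'.2 h1⟩ t ht e
  rcases Sym2.eq_iff.1 hs with ⟨rfl, rfl⟩ | ⟨rfl, rfl⟩
  · exact Or.inl ⟨rfl, rfl, D.simple _ _ h ht' (Ioo_subset_Icc_self ht) e⟩
  · refine Or.inr ⟨rfl, rfl, ?_⟩
    rw [D.rev _ _ h t' ht'] at e
    have := D.simple _ _ h ⟨by linarith [ht'.2], by linarith [ht'.1]⟩ (Ioo_subset_Icc_self ht) e
    linarith

lemma Drawing.exists_radius : ∃ r : ℝ, 0 < r ∧ (∀ u w, u ≠ w → Disjoint (ball (D.f u) r)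
    (ball (D.f w) r)) ∧ ∀ w u v, G.Adj u v → ∀ t ∈ Icc (0 : ℝ) 1, D.γ u v t ∈ ball (D.f w) r →
      (u = w ∧ t < 1 / 3) ∨ (v = w ∧ 2 / 3 < t) := by
  have h1 : ∀ p : V × V, ∀ᶠ r in 𝓝[>] (0 : ℝ), p.1 ≠ p.2 →
      Disjoint (ball (D.f p.1) r) (ball (D.f p.2) r) := by
    rintro ⟨u, w⟩
    by_cases h : u = w
    · exact Filter.Eventually.of_forall fun _ h' => absurd h h'
    · have hd : 0 < dist (D.f u) (D.f w) / 2 := by
        have := dist_pos.2 (D.inj.ne h); positivity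
      filter_upwards [mem_nhdsWithin_of_mem_nhds (Iio_mem_nhds hd)] with r hr _
      exact ball_disjoint_ball (by rw [mem_Iio] at hr; linarith)
  have h2 : ∀ p : V × V × V, ∀ᶠ r in 𝓝[>] (0 : ℝ), G.Adj p.2.1 p.2.2 → ∀ t ∈ Icc (0 : ℝ) 1,
      D.γ p.2.1 p.2.2 t ∈ ball (D.f p.1) r →
        (p.2.1 = p.1 ∧ t < 1 / 3) ∨ (p.2.2 = p.1 ∧ 2 / 3 < t) := by
    rintro ⟨w, u, v⟩
    by_cases h : G.Adj u v
    swap
    · exact Filter.Eventually.of_forall fun _ h' => absurd h' h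
    classical
    let I : Set ℝ := Icc (if u = w then 1 / 3 else 0) (if v = w then 2 / 3 else 1)
    have hI : I ⊆ Icc 0 1 := Icc_subset_Icc (by split_ifs <;> norm_num) (by split_ifs <;> norm_num)
    have hc : IsClosed (D.γ u v '' I) :=
      (isCompact_Icc.image_of_continuousOn ((D.cont u v h).mono hI)).isClosed
    have hn : D.f w ∈ (D.γ u v '' I)ᶜ := by
      rintro ⟨t, ht, e⟩
      rcases D.eq_vertex h (hI ht) e with ⟨rfl, k⟩ | ⟨rfl, k⟩
      · have := ht.1; rw [if_pos k] at this; norm_num at this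
      · have := ht.2; rw [if_pos k] at this; norm_num at this
    obtain ⟨ε, hε, hb⟩ := Metric.isOpen_iff.1 hc.isOpen_compl _ hn
    filter_upwards [mem_nhdsWithin_of_mem_nhds (Iio_mem_nhds hε)] with r hr _ t ht hm
    by_contra hcon
    push Not at hcon
    refine hb (ball_subset_ball (le_of_lt hr) hm) ⟨t, ⟨?_, ?_⟩, rfl⟩
    · split_ifs with k
      exacts [hcon.1 k, ht.1]
    · split_ifs with k
      exacts [hcon.2 k, ht.2]
  obtain ⟨r, ⟨a, b⟩, hr⟩ := (((Filter.eventually_all.2 h1).and (Filter.eventually_all.2 h2)).and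
    self_mem_nhdsWithin).exists
  exact ⟨r, hr, fun u w => a (u, w), fun w u v => b (w, u, v)⟩

lemma Drawing.exists_cut (S : Set V) {P : Set (ℝ × ℝ)} (hP : IsClosed P)
    (hS : ∀ v ∈ S, D.f v ∉ P) : ∃ τ : ℝ, 0 < τ ∧ τ ≤ 1 / 3 ∧
      ∀ u ∈ S, ∀ v, G.Adj u v → ∀ t ∈ Icc (0 : ℝ) τ, D.γ u v t ∉ P := by
  have h1 : ∀ p : V × V, ∀ᶠ τ in 𝓝[>] (0 : ℝ), p.1 ∈ S → G.Adj p.1 p.2 →
      ∀ t ∈ Icc (0 : ℝ) τ, t ≤ 1 → D.γ p.1 p.2 t ∉ P := by
    rintro ⟨u, v⟩
    by_cases h : u ∈ S ∧ G.Adj u v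
    swap
    · exact Filter.Eventually.of_forall fun _ h1 h2 => absurd ⟨h1, h2⟩ h
    have hc := D.cont u v h.2 0 (by norm_num)
    have hm : Pᶜ ∈ 𝓝 (D.γ u v 0) := hP.isOpen_compl.mem_nhds (by
      rw [D.src u v h.2]; exact hS u h.1)
    obtain ⟨ε, hε, hb⟩ := Metric.mem_nhdsWithin_iff.1 (hc hm)
    filter_upwards [mem_nhdsWithin_of_mem_nhds (Iio_mem_nhds hε)] with τ hτ _ _ t ht h1
    refine hb ⟨?_, ht.1, h1⟩
    rw [mem_ball, Real.dist_eq, sub_zero, abs_of_nonneg ht.1]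
    exact lt_of_le_of_lt ht.2 hτ
  have h3 : (0 : ℝ) < 1 / 3 := by norm_num
  obtain ⟨τ, ⟨a, b⟩, hτ⟩ := (((Filter.eventually_all.2 h1).and
    (mem_nhdsWithin_of_mem_nhds (Iio_mem_nhds h3))).and self_mem_nhdsWithin).exists
  have b' : τ < 1 / 3 := b
  exact ⟨τ, hτ, b'.le, fun u hu v h t ht => a (u, v) hu h t ht (by linarith [ht.2])⟩

end Pool.Agent.P.MP_845aff_co
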