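import Pool.Agent.P.MP_845aff_co.Topo2
import Pool.Agent.P.MP_845aff_co.Topo3

/-! A 2-outerplanar drawing gives a planar map with a spanning tree of depth two. -/

namespace Pool.Agent.P.MP_845aff_co

open Set Metric

theorem exists_blobs {V : Type} [Fintype V] (G : SimpleGraph V) (h : TwoOuterplanar G) :
    ∃ (L : V → Prop) (B : Option V → Set (ℤ × ℤ)), (∀ x, (B x).Finite) ∧
      (∀ x y a, a ∈ B x → a ∈ B y → x = y) ∧
      (∀ x, ∀ a ∈ B x, ∀ b ∈ B x, MP_da739a_co.RT (B x) a b) ∧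
      (∀ u v, G.Adj u v → Touch (B (some u)) (B (some v))) ∧
      (∀ v, L v → Touch (B (some v)) (B none)) ∧
      ∀ v, ¬ L v → ∃ y, (∀ c, y = some c → L c) ∧ Touch (B (some v)) (B y) := by
  classical
  obtain ⟨D, hD⟩ := h
  set L : V → Prop := fun v => D.OnOuter univ v with hL
  set S : Set V := {u | ¬ D.OnOuter univ u} with hS
  have hCc := D.carrier_compact univ
  obtain ⟨ρ, hρ⟩ := hCc.isBounded.exists_norm_le
  let x0 : ℝ × ℝ := (|ρ| + 1, 0)
  have hx0 : ρ < ‖x0‖ := by
    have : |(|ρ| + 1)| ≤ ‖x0‖ := norm_fst_le x0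
    have h2 := le_abs_self ρ
    have h3 := le_abs_self (|ρ| + 1)
    linarith
  have hSC : D.carrier S ⊆ D.carrier univ := by
    rintro x (⟨v, -, h⟩ | ⟨u, -, v, -, h⟩)
    exacts [Or.inl ⟨v, trivial, h⟩, Or.inr ⟨u, trivial, v, trivial, h⟩]
  have hx0C : x0 ∉ D.carrier univ := fun h => absurd (hρ _ h) (not_le.2 hx0)
  obtain ⟨r, hr, hb1, hb2⟩ := D.exists_radius
  have hP : ∀ v, ∃ P : Set (ℝ × ℝ), IsCompact P ∧ IsPreconnected P ∧
      (L v → Disjoint P (D.carrier univ)) ∧ Disjoint P (D.carrier S) ∧ x0 ∈ P ∧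
      ∃ y ∈ P, y ∈ ball (D.f v) r := by
    intro v
    by_cases hv : L v
    · obtain ⟨x, h1, h2, h3⟩ := hv
      obtain ⟨P, a, b, c, d⟩ := outer_path hCc.isClosed hρ hx0 h1 h2 h3 hr
      exact ⟨P, a, b, fun _ => c, c.mono_right hSC, d⟩
    · obtain ⟨x, h1, h2, h3⟩ := hD v hv
      obtain ⟨P, a, b, c, d⟩ := outer_path (D.carrier_compact S).isClosed
        (fun x hx => hρ x (hSC hx)) hx0 h1 h2 h3 hr
      exact ⟨P, a, b, fun h => absurd h hv, c, d⟩
  choose P hPc hPp hPL hPS hP0 y hyP hyb using hP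
  obtain ⟨τ, hτ0, hτ1, hτ⟩ := D.exists_cut S (P := ⋃ v, P v)
    (isClosed_iUnion_of_finite fun v => (hPc v).isClosed) (by
      intro v hv h
      obtain ⟨w, hw⟩ := mem_iUnion.1 h
      exact Set.disjoint_left.1 (hPS w) hw (Or.inl ⟨v, hv, rfl⟩))
  let cut : V → V → ℝ := fun u v => if ¬ L u ∧ L v then τ else 1 / 3
  have c0 : ∀ u v, 0 < cut u v := fun u v => by simp only [cut]; split_ifs <;> positivity
  have c1 : ∀ u v, cut u v ≤ 1 / 3 := fun u v => by
    simp only [cut]; split_ifs; exacts [hτ1, le_rfl]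
  let key : V → ℕ := fun v => (Fintype.equivFin V v : ℕ) + if L v then 0 else Fintype.card V
  have key1 : ∀ u v, key u < key v → ¬ L u → ¬ L v := by
    intro u v h hu hv
    simp only [key, if_pos hv, if_neg hu] at h
    have := (Fintype.equivFin V v).2
    omega
  have key2 : ∀ u v, u ≠ v → key u < key v ∨ key v < key u := by
    intro u v h
    have h1 : (Fintype.equivFin V u : ℕ) ≠ Fintype.equivFin V v := fun e =>
      h ((Fintype.equivFin V).injective (Fin.ext e))
    have h2 := (Fintype.equivFin V v).2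
    have h3 := (Fintype.equivFin V u).2
    simp only [key]
    split_ifs <;> omega
  let K : Option V → Set (ℝ × ℝ) := fun x => Option.elim x ({x0} ∪ ⋃ v ∈ {v | L v}, P v)
    fun v => {D.f v} ∪ ⋃ u ∈ {u | G.Adj v u}, D.γ v u '' Icc 0 (cut v u)
  let σ : V → Set (ℝ × ℝ) := fun v => segment ℝ (D.f v) (y v)
  let R : Option V → Set (ℝ × ℝ) := fun x => Option.elim x ∅ fun v => P v ∪ σ v
  let E := {p : V × V // G.Adj p.1 p.2 ∧ key p.1 < key p.2} ⊕ {v // L v}
  let s : E → Option V := Sum.elim (fun p => some p.1.1) fun v => some v.1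
  let t : E → Option V := Sum.elim (fun p => some p.1.2) fun _ => none
  let A : V → V → Set (ℝ × ℝ) := fun u v => D.γ u v '' Icc (cut u v) (1 - cut v u)
  let M : E → Set (ℝ × ℝ) := Sum.elim (fun p => A p.1.1 p.1.2) fun v => σ v.1
  have hKn : ∀ z, z ∈ K none ↔ z = x0 ∨ ∃ v, L v ∧ z ∈ P v := fun z => by simp [K]
  have hKs : ∀ v z, z ∈ K (some v) ↔ z = D.f v ∨
      ∃ u t, G.Adj v u ∧ t ∈ Icc 0 (cut v u) ∧ D.γ v u t = z := fun v z => by
    simp only [K, Option.elim, mem_union, mem_singleton_iff, mem_iUnion, mem_ofPred_eq, mem_image,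
      exists_prop, exists_and_left]
  have i1 : ∀ u v, Icc 0 (cut u v) ⊆ Icc (0 : ℝ) 1 := fun u v =>
    Icc_subset_Icc le_rfl (by linarith [c1 u v])
  have i2 : ∀ u v, Icc (cut u v) (1 - cut v u) ⊆ Ioo (0 : ℝ) 1 := fun u v t ht =>
    ⟨by linarith [c0 u v, ht.1], by linarith [c0 v u, ht.2]⟩
  have i3 : ∀ u v, Icc (cut u v) (1 - cut v u) ⊆ Icc (0 : ℝ) 1 := fun u v =>
    (i2 u v).trans Ioo_subset_Icc_self
  have hσ : ∀ v, σ v ⊆ ball (D.f v) r := fun v =>
    (convex_ball _ _).segment_subset (mem_ball_self hr) (hyb v)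
  have hσc : ∀ v, IsCompact (σ v) := fun v => by
    simp only [σ]
    rw [segment_eq_image_lineMap]
    exact isCompact_Icc.image AffineMap.lineMap_continuous
  have hσp : ∀ v, IsPreconnected (σ v) := fun v => (convex_segment _ _).isPreconnected
  have KC : ∀ v, K (some v) ⊆ D.carrier univ := by
    intro v z hz
    rcases (hKs v z).1 hz with rfl | ⟨u, t, h1, h2, rfl⟩
    exacts [Or.inl ⟨v, trivial, rfl⟩, Or.inr ⟨v, trivial, u, trivial, h1, t, i1 _ _ h2, rfl⟩]
  have AC : ∀ u v, G.Adj u v → A u v ⊆ D.carrier univ := by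
    rintro u v h _ ⟨t, ht, rfl⟩
    exact Or.inr ⟨u, trivial, v, trivial, h, t, i3 _ _ ht, rfl⟩
  have dN : Disjoint (K none) (D.carrier univ) := by
    rw [Set.disjoint_left]
    intro z hz hc
    rcases (hKn z).1 hz with rfl | ⟨v, hv, h⟩
    exacts [hx0C hc, Set.disjoint_left.1 (hPL v hv) h hc]
  have Kb : ∀ v w, v ≠ w → Disjoint (ball (D.f v) r) (K (some w)) := by
    intro v w hvw
    rw [Set.disjoint_left]
    intro z hz hc
    rcases (hKs w z).1 hc with rfl | ⟨u, t, h1, h2, rfl⟩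
    · exact Set.disjoint_left.1 (hb1 v w hvw) hz (mem_ball_self hr)
    · rcases hb2 v w u h1 t (i1 _ _ h2) hz with k | k
      · exact hvw k.1.symm
      · linarith [k.2, h2.2, c1 w u]
  -- interior points of arcs lying in a vertex blob
  have K2 : ∀ u v w, G.Adj u v → ∀ t ∈ Ioo (0 : ℝ) 1, D.γ u v t ∈ K (some w) →
      (w = u ∧ t ≤ 1 / 3) ∨ (w = v ∧ 2 / 3 ≤ t) := by
    intro u v w h t ht hz
    rcases (hKs w _).1 hz with k | ⟨u', t', h1, h2, k⟩
    · exact absurd k (D.avoid u v h t ht w)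
    · rcases D.eq_arc h h1 ht (i1 _ _ h2) k with ⟨a, b, c⟩ | ⟨a, b, c⟩
      · exact Or.inl ⟨a, by linarith [h2.2, c1 w u']⟩
      · exact Or.inr ⟨a, by linarith [h2.2, c1 w u']⟩
  have K1 : ∀ u w, D.f u ∈ K (some w) → u = w := by
    intro u w h
    by_contra hne
    exact Set.disjoint_left.1 (Kb u w hne) (mem_ball_self hr) h
  -- middle pieces avoid the balls around outer vertices, and all balls if both ends are inner
  have Ab : ∀ u v w, G.Adj u v → key u < key v → (L w ∨ ¬ L u) → Disjoint (ball (D.f w) r) (A u v) := by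
    intro u v w h hk hw
    rw [Set.disjoint_left]
    rintro _ hz ⟨t, ht, rfl⟩
    rcases hb2 w u v h t (i3 _ _ ht) hz with ⟨rfl, k⟩ | ⟨rfl, k⟩
    · have : cut u v = 1 / 3 := if_neg fun hh => key1 u v hk hh.1 hh.2
      linarith [ht.1]
    · have : cut v u = 1 / 3 := if_neg fun hh => by
        rcases hw with hw | hw
        exacts [hh.1 hw, hw hh.2]
      linarith [ht.2]
  obtain ⟨B, b1, b2, b3, b4, b5⟩ := model_of_sets (W := Option V) (E := E)
    (fun x => ∀ c, x = some c → L c) none (by simp) s t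
    (by
      rintro (p | v)
      · exact fun h => p.2.1.ne (Option.some.inj h)
      · simp [s, t])
    K R M
    (by
      rintro (_ | v)
      · exact isCompact_singleton.union ((toFinite _).isCompact_biUnion fun v _ => hPc v)
      · exact isCompact_singleton.union ((toFinite _).isCompact_biUnion fun u hu =>
          isCompact_Icc.image_of_continuousOn ((D.cont v u hu).mono (i1 v u))))
    (by
      rintro (_ | v)
      · refine isPreconnected_of_forall x0 fun z hz => ?_
        rcases (hKn z).1 hz with rfl | ⟨v, hv, h⟩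
        · exact ⟨{x0}, singleton_subset_iff.2 hz, rfl, rfl, isPreconnected_singleton⟩
        · exact ⟨P v, fun z hz => (hKn z).2 (Or.inr ⟨v, hv, hz⟩), hP0 v, h, hPp v⟩
      · refine isPreconnected_of_forall (D.f v) fun z hz => ?_
        rcases (hKs v z).1 hz with rfl | ⟨u, t, h1, h2, rfl⟩
        · exact ⟨{D.f v}, singleton_subset_iff.2 hz, rfl, rfl, isPreconnected_singleton⟩
        · refine ⟨D.γ v u '' Icc 0 (cut v u), ?_, ⟨0, ⟨le_rfl, (c0 v u).le⟩, D.src v u h1⟩,
            ⟨t, h2, rfl⟩, isPreconnected_Icc.image _ ((D.cont v u h1).mono (i1 v u))⟩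
          rintro _ ⟨t', ht', rfl⟩
          exact (hKs _ _).2 (Or.inr ⟨u, t', h1, ht', rfl⟩))
    (by
      rintro (_ | v)
      exacts [⟨x0, (hKn _).2 (Or.inl rfl)⟩, ⟨D.f v, (hKs _ _).2 (Or.inl rfl)⟩])
    (by
      rintro (p | v)
      · exact isCompact_Icc.image_of_continuousOn ((D.cont _ _ p.2.1).mono (i3 _ _))
      · exact hσc v)
    (by
      rintro (p | v)
      · exact isPreconnected_Icc.image _ ((D.cont _ _ p.2.1).mono (i3 _ _))
      · exact hσp v)
    (by
      rintro (_ | v)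
      exacts [isCompact_empty, (hPc v).union (hσc v)])
    (by
      rintro (_ | v)
      exacts [isPreconnected_empty,
        (hPp v).union (y v) (hyP v) (right_mem_segment _ _ _) (hσp v)])
    (by
      rintro (_ | u) (_ | w) huw
      · exact absurd rfl huw
      · exact dN.mono_right (KC w)
      · exact (dN.mono_right (KC u)).symm
      · rw [Set.disjoint_left]
        intro z hz hz'
        apply huw
        rcases (hKs u z).1 hz with rfl | ⟨v, t, h1, h2, rfl⟩
        · rw [K1 _ _ hz']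
        · rcases h2.1.eq_or_lt with rfl | hlt
          · rw [D.src u v h1] at hz'
            rw [K1 _ _ hz']
          · rcases K2 u v w h1 t ⟨hlt, by linarith [h2.2, c1 u v]⟩ hz' with k | k
            · rw [k.1]
            · linarith [k.2, h2.2, c1 u v])
    (by
      rintro (p | v) (_ | w) h1 h2
      · exact (dN.mono_right (AC _ _ p.2.1)).symm
      · rw [Set.disjoint_left]
        rintro _ ⟨t, ht, rfl⟩ hz
        rcases K2 _ _ w p.2.1 t (i2 _ _ ht) hz with k | k
        exacts [h1 (by rw [k.1]; rfl), h2 (by rw [k.1]; rfl)]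
      · exact absurd rfl h2
      · exact (Kb v w fun e => h1 (by rw [← e]; rfl)).mono_left (hσ v))
    (by
      rintro (p | v) (q | w) hne
      · rw [Set.disjoint_left]
        rintro _ ⟨t, ht, rfl⟩ ⟨t', ht', e⟩
        rcases D.eq_arc p.2.1 q.2.1 (i2 _ _ ht) (i3 _ _ ht') e with ⟨a, b, -⟩ | ⟨a, b, -⟩
        · exact hne (congrArg Sum.inl (Subtype.ext (Prod.ext a b).symm))
        · have h1 := p.2.2
          have h2 := q.2.2
          rw [a, b] at h2
          omega
      · exact ((Ab _ _ w p.2.1 p.2.2 (Or.inl w.2)).mono_left (hσ w)).symm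
      · exact (Ab _ _ v q.2.1 q.2.2 (Or.inl v.2)).mono_left (hσ v)
      · exact (hb1 v w fun e => hne (congrArg Sum.inr (Subtype.ext e))).mono (hσ v) (hσ w))
    (by
      rintro (p | v)
      · exact ⟨D.γ p.1.1 p.1.2 (cut p.1.1 p.1.2), ⟨_, ⟨le_rfl, by
          linarith [c1 p.1.1 p.1.2, c1 p.1.2 p.1.1]⟩, rfl⟩,
          (hKs _ _).2 (Or.inr ⟨_, _, p.2.1, ⟨(c0 _ _).le, le_rfl⟩, rfl⟩)⟩
      · exact ⟨D.f v, left_mem_segment _ _ _, (hKs _ _).2 (Or.inl rfl)⟩)
    (by
      rintro (p | v)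
      · exact ⟨D.γ p.1.1 p.1.2 (1 - cut p.1.2 p.1.1), ⟨_, ⟨by
          linarith [c1 p.1.1 p.1.2, c1 p.1.2 p.1.1], le_rfl⟩, rfl⟩,
          (hKs _ _).2 (Or.inr ⟨_, _, p.2.1.symm, ⟨(c0 _ _).le, le_rfl⟩,
            D.rev _ _ p.2.1 _ (i1 _ _ ⟨(c0 _ _).le, le_rfl⟩)⟩)⟩
      · exact ⟨y v, right_mem_segment _ _ _, (hKn _).2 (Or.inr ⟨v, v.2, hyP v⟩)⟩)
    (by
      rintro (_ | v) h
      · exact absurd (by simp) h
      · exact ⟨D.f v, Or.inr (left_mem_segment _ _ _), (hKs _ _).2 (Or.inl rfl)⟩)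
    (by
      rintro (_ | v) h
      · exact absurd (by simp) h
      · exact ⟨x0, Or.inl (hP0 v), (hKn _).2 (Or.inl rfl)⟩)
    (by
      rintro (_ | v) (_ | w) h1 h2 hne
      · exact absurd rfl hne
      · exact absurd (by simp) h1
      · exact absurd (by simp) h2
      · have hw : ¬ L w := by simpa using h2
        refine Disjoint.union_left ?_ ((Kb v w fun e => hne (by rw [e])).mono_left (hσ v))
        rw [Set.disjoint_left]
        intro z hz hz'
        rcases (hKs w z).1 hz' with rfl | ⟨u, t, k1, k2, rfl⟩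
        · exact Set.disjoint_left.1 (hPS v) hz (Or.inl ⟨w, hw, rfl⟩)
        · by_cases hu : L u
          · have : cut w u = τ := if_pos ⟨hw, hu⟩
            exact hτ w hw u k1 t (this ▸ k2) (mem_iUnion.2 ⟨v, hz⟩)
          · exact Set.disjoint_left.1 (hPS v) hz (Or.inr ⟨w, hw, u, hu, k1, t, i1 _ _ k2, rfl⟩))
    (by
      rintro (_ | v) (p | w) h1 h2
      · exact absurd (by simp) h1
      · exact absurd (by simp) h1
      · have hw : ¬ L p.1.1 := by simpa [s] using h2
        refine Disjoint.union_left ?_ ((Ab _ _ v p.2.1 p.2.2 (Or.inr hw)).mono_left (hσ v))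
        refine (hPS v).mono_right ?_
        rintro _ ⟨t, ht, rfl⟩
        exact Or.inr ⟨_, hw, _, key1 _ _ p.2.2 hw, p.2.1, t, i3 _ _ ht, rfl⟩
      · exact absurd (by simpa [s] using w.2) h2)
  refine ⟨L, B, b1, b2, b3, fun u v h => ?_, fun v hv => b4 (Sum.inr ⟨v, hv⟩),
    fun v hv => b5 (some v) (by simpa using hv)⟩
  rcases key2 u v h.ne with k | k
  · exact b4 (Sum.inl ⟨(u, v), h, k⟩)
  · exact (b4 (Sum.inl ⟨(v, u), h.symm, k⟩)).symm

/-- LAYER T.  `none` is the vertex z placed in the outer face; `par v = none` means v is a child of z. -/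
theorem exists_map {V : Type} [Fintype V] [DecidableEq V] (G : SimpleGraph V) (h : TwoOuterplanar G) :
    ∃ (D : Type) (_ : Fintype D) (_ : DecidableEq D) (M : PMap D (Option V)) (par : V → Option V),
      (∀ v c, par v = some c → par c = none) ∧
      (∀ u v, G.Adj u v → ∃ d, M.tl d = some u ∧ M.tl (M.a d) = some v) ∧
      (∀ v, ∃ d, M.tl d = some v ∧ M.tl (M.a d) = par v) := by
  obtain ⟨L, B, b1, b2, b3, b4, b5, b6⟩ := exists_blobs G h
  obtain ⟨D, i1, i2, M, hM⟩ := map_of_blobs B b1 b2 b3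
  have : ∀ v, ∃ y : Option V, (L v → y = none) ∧ (∀ c, y = some c → L c) ∧ some v ≠ y ∧
      Touch (B (some v)) (B y) := by
    intro v
    by_cases hv : L v
    · exact ⟨none, fun _ => rfl, by simp, by simp, b5 v hv⟩
    · obtain ⟨y, h1, h2⟩ := b6 v hv
      exact ⟨y, fun h => absurd h hv, h1, fun e => hv (h1 v e.symm), h2⟩
  choose par p1 p2 p3 p4 using this
  exact ⟨D, i1, i2, M, par, fun v c h => p1 c (p2 v c h),
    fun u v h => hM _ _ (fun e => h.ne (Option.some.inj e)) (b4 u v h),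
    fun v => hM _ _ (p3 v) (p4 v)⟩

end Pool.Agent.P.MP_845aff_co
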