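import Pool.Agent.P.MP_845aff_co.Lay2
import Pool.Agent.P.MP_845aff_co.Draw
import Pool.Agent.P.MP_845aff_co.Topo

namespace Pool.Agent.P.MP_845aff_co

open Set

lemma pw {B c : ℝ} (hB : 100 ≤ B) (k : ℕ) {i j : ℕ} (hc : c ≤ 100 ^ k) (h : i + k ≤ j) :
    c * B ^ i ≤ B ^ j := by
  have h1 : c ≤ B ^ k := hc.trans (pow_le_pow_left₀ (by norm_num) hB k)
  calc c * B ^ i ≤ B ^ k * B ^ i := mul_le_mul_of_nonneg_right h1 (by positivity)
    _ = B ^ (i + k) := by ring
    _ ≤ B ^ j := pow_le_pow_right₀ (by linarith) h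

lemma pv {B c : ℝ} (hB : 100 ≤ B) (k : ℕ) {i j : ℕ} (hc : c ≤ 100 ^ k) (h : i + k ≤ j) :
    c * (1 / B ^ j) ≤ 1 / B ^ i := by
  rw [mul_one_div, div_le_div_iff₀ (by positivity) (by positivity), one_mul]
  exact pw hB k hc h

theorem draw_pow {V : Type} [Fintype V] (G : SimpleGraph V) {A Δ : ℕ}
    (hΔ : ∀ v, (G.neighborSet v).ncard ≤ Δ) (hP : Peelable G A) :
    ∃ p : V → ℝ × ℝ, StraightLine G p ∧ (slopes G p).ncard ≤ (100 * (A + 1) * (Δ + 1)) ^ 502 := by
  obtain ⟨b, hb⟩ : ∃ b : ℕ, b = 100 * (A + 1) * (Δ + 1) := ⟨_, rfl⟩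
  obtain ⟨B, hB'⟩ : ∃ B : ℝ, B = (b : ℝ) := ⟨_, rfl⟩
  rw [← hb]
  have e : B = 100 * (A + 1) * (Δ + 1) := by rw [hB', hb]; push_cast; ring
  have A0 : (0 : ℝ) ≤ A := Nat.cast_nonneg _
  have D0 : (0 : ℝ) ≤ Δ := Nat.cast_nonneg _
  have AD : (0 : ℝ) ≤ A * Δ := by positivity
  have hB : 100 ≤ B := by nlinarith
  have B0 : 0 < B := by linarith
  have one : ∀ i : ℕ, 1 / B ^ i ≤ 1 := fun i => by simpa using pv hB 0 (c := 1) (i := 0) (j := i) (by simp) (by simp)
  let q : Par A Δ :=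
    { η := 1 / B ^ 12, ε := 1 / B ^ 33, T := B, D := B ^ 15, M := 2 * B ^ 2, H := 1 / B ^ 39,
      τ := 1 / B ^ 3, R := B ^ 17, Λ := B ^ 50
      E := ⟨by positivity, pv hB 1 (by norm_num) (by norm_num), one _⟩
      p := ⟨by linarith, le_rfl, by
        have := pw hB 1 (c := 16) (i := 3) (j := 15) (by norm_num) (by norm_num)
        linarith [show 8 * (2 * B ^ 2) * B = 16 * B ^ 3 by ring]⟩
      hA := by nlinarith
      hTε := by
        rw [mul_one_div, div_le_one (by positivity)]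
        have := pw hB 1 (c := 2) (i := 1) (j := 33) (by norm_num) (by norm_num)
        linarith [pow_one B]
      hDη := by
        have := pw hB 1 (c := 10) (i := 2) (j := 3) (by norm_num) (by norm_num)
        have h : B ^ 15 * (1 / B ^ 12 / 2) = B ^ 3 / 2 := by field_simp
        nlinarith
      H0 := by positivity
      hH := by
        have := pw hB 1 (c := 16) (i := 2) (j := 39) (by norm_num) (by norm_num)
        rw [show 8 * (1 / B ^ 39) * (2 * B ^ 2) = 16 * B ^ 2 / B ^ 39 by ring, div_le_one (by positivity)]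
        exact this
      τ0 := by positivity
      hτ := by
        have := pw hB 1 (c := 8) (i := 2) (j := 3) (by norm_num) (by norm_num)
        rw [show 4 * (1 / B ^ 3) * (2 * B ^ 2) = 8 * B ^ 2 / B ^ 3 by ring, div_le_one (by positivity)]
        exact this
      hR := by
        have h1 : 100 * ((A : ℝ) * (Δ + 1)) ≤ B := by nlinarith
        have h2 : 10000 * ((A : ℝ) * (Δ + 1)) ^ 2 ≤ B ^ 2 := by
          have := pow_le_pow_left₀ (by positivity) h1 2
          linarith [show (100 * ((A : ℝ) * (Δ + 1))) ^ 2 = 10000 * ((A : ℝ) * (Δ + 1)) ^ 2 by ring]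
        have h3 := mul_le_mul_of_nonneg_left h2 (show 0 ≤ B ^ 15 by positivity)
        have h4 := pw hB 1 (c := 100) (i := 15) (j := 17) (by norm_num) (by norm_num)
        have h5 := pw hB 1 (c := 100) (i := 2) (j := 17) (by norm_num) (by norm_num)
        have h6 := pw hB 1 (c := 100) (i := 0) (j := 17) (by norm_num) (by norm_num)
        have h7 : B ^ 15 * B ^ 2 = B ^ 17 := by ring
        nlinarith
      hΛ := by
        have := pw hB 1 (c := 96) (i := 34) (j := 35) (by norm_num) (by norm_num)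
        rw [show 1 / B ^ 3 * (1 / B ^ 12) * B ^ 50 = B ^ 35 by field_simp]
        linarith [show (B ^ 17) ^ 2 = B ^ 34 by ring]
      hRε := by
        have := pv hB 1 (c := 96) (i := 15) (j := 16) (by norm_num) (by norm_num)
        rw [show 1 / B ^ 3 * (1 / B ^ 12) = 1 / B ^ 15 by field_simp,
          show 96 * B ^ 17 * (1 / B ^ 33) = 96 * (1 / B ^ 16) by field_simp]
        exact this }
  have hL := layout (G := G) q hΔ (δ := 1 / B ^ 40) (σ := 1 / B ^ 41) (by positivity)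
    ((one_mul _).ge.trans (pv hB 0 (i := 39) (by simp) (by simp)))
    (by
      change _ ≤ 1 / B ^ 39
      rw [show 1 / B ^ 39 = B * (1 / B ^ 40) by field_simp]
      refine mul_le_mul_of_nonneg_right ?_ (by positivity)
      push_cast; nlinarith)
    (by
      change 1 / B ^ 39 ≤ 1 / (2 ^ 14 * (2 * B ^ 2) ^ 7)
      refine one_div_le_one_div_of_le (by positivity) ?_
      have := pw hB 4 (c := 2 ^ 21) (i := 14) (j := 39) (by norm_num) (by norm_num)
      linarith [show 2 ^ 14 * (2 * B ^ 2) ^ 7 = 2 ^ 21 * B ^ 14 by ring])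
    (by linarith [pv hB 1 (c := 2) (i := 40) (j := 41) (by norm_num) (by norm_num)])
    (by
      change _ ≤ 1 / B ^ 3 / 4
      linarith [pv hB 1 (c := 4) (i := 3) (j := 41) (by norm_num) (by norm_num)])
    (by
      change _ ≤ 1 / (32 * (2 * B ^ 2) ^ 2)
      refine one_div_le_one_div_of_le (by positivity) ?_
      have := pw hB 2 (c := 128) (i := 4) (j := 41) (by norm_num) (by norm_num)
      linarith [show 32 * (2 * B ^ 2) ^ 2 = 128 * B ^ 4 by ring])
    (by
      change 2 * (1 / B ^ 12) ≤ 1 / (128 * (2 * B ^ 2) ^ 5)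
      rw [mul_one_div, div_le_div_iff₀ (by positivity) (by positivity)]
      have := pw hB 2 (c := 8192) (i := 10) (j := 12) (by norm_num) (by norm_num)
      linarith [show 2 * (128 * (2 * B ^ 2) ^ 5) = 8192 * B ^ 10 by ring])
    (by
      change 64 * (2 * B ^ 2) ^ 2 * (1 / B ^ 39) ≤ 1 / B ^ 33 / 2
      rw [show 64 * (2 * B ^ 2) ^ 2 * (1 / B ^ 39) = 256 * (1 / B ^ 35) by field_simp; ring]
      linarith [pv hB 2 (c := 512) (i := 33) (j := 35) (by norm_num) (by norm_num)])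
  obtain ⟨p, h1, h2⟩ := draw_of_layout G (b ^ 125) (by positivity : 0 < 1 / B ^ 33) (one _)
    ((one_mul _).ge.trans (pv hB 0 (i := 12) (by simp) (by simp)))
    (by positivity : 0 < 1 / B ^ 41) (one _) (one_le_pow₀ (by linarith) : 1 ≤ B ^ 17)
    (pw hB 1 (j := 50) (by norm_num) (by norm_num))
    (by
      push_cast
      rw [← hB', show 1 / B ^ 41 * (1 / B ^ 33) * B ^ 125 = B ^ 51 by field_simp]
      exact pw hB 1 (by norm_num) (by norm_num)) hP hL
  refine ⟨p, h1, h2.trans ?_⟩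
  rw [show b ^ 502 = (b * (b ^ 125) ^ 2) ^ 2 by ring]
  refine Nat.pow_le_pow_left ?_ 2
  have b1 : 100 ≤ b := by rw [hB'] at hB; exact_mod_cast hB
  have b2 : 1 ≤ b ^ 125 := Nat.one_le_pow _ _ (by omega)
  generalize b ^ 125 = s at b2
  nlinarith [Nat.mul_le_mul_right (s ^ 2) b1]

lemma AA_le (Δ : ℕ) : 100 * (AA Δ + 1) * (Δ + 1) ≤ (Δ + 2) ^ 38 := by
  set x := Δ + 2 with hx
  have p2 : ∀ k, 2 ^ k ≤ x ^ k := fun k => Nat.pow_le_pow_left (by omega) k
  have hK : KK Δ ≤ x ^ 13 := by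
    have : KK Δ ≤ 2 ^ 11 * x ^ 2 := by simp only [KK, Ctx.sepB, hx]; nlinarith
    calc KK Δ ≤ x ^ 11 * x ^ 2 := this.trans (Nat.mul_le_mul_right _ (p2 11))
      _ = x ^ 13 := by ring
  have h1 : 1 ≤ x ^ 13 := Nat.one_le_pow _ _ (by omega)
  have hA : AA Δ + 1 ≤ 2 ^ 3 * (x * (x ^ 13) ^ 2) := by
    have : AA Δ ≤ x ^ 13 + (x ^ 13 * x + 1) + (2 * x ^ 13 * x + 1) * x ^ 13 := by
      unfold AA; gcongr <;> omega
    have x1 : 1 ≤ x := by omega
    generalize x ^ 13 = k at this h1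
    nlinarith [Nat.mul_le_mul h1 h1, Nat.mul_le_mul x1 (Nat.mul_le_mul h1 h1),
      Nat.mul_le_mul_left (x * k) h1, Nat.mul_le_mul_right (k * k) x1, Nat.mul_le_mul_left k h1]
  calc 100 * (AA Δ + 1) * (Δ + 1) ≤ 2 ^ 7 * (2 ^ 3 * (x * (x ^ 13) ^ 2)) * x := by
        gcongr <;> omega
    _ ≤ x ^ 7 * (x ^ 3 * (x * (x ^ 13) ^ 2)) * x := by gcongr <;> omega
    _ = x ^ 38 := by ring

theorem main {V : Type} [Fintype V] (G : SimpleGraph V) (Δ : ℕ)
    (hΔ : ∀ v, (G.neighborSet v).ncard ≤ Δ) (h : TwoOuterplanar G) :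
    ∃ p : V → ℝ × ℝ, StraightLine G p ∧ (slopes G p).ncard ≤ (Δ + 2) ^ 19076 := by
  classical
  obtain ⟨D, _, _, M, par, h1, h2, h3⟩ := exists_map G h
  obtain ⟨p, a, b⟩ := draw_pow G hΔ (peelable_of_map hΔ M par h1 h2 h3)
  refine ⟨p, a, b.trans ?_⟩
  rw [show 19076 = 38 * 502 by norm_num, pow_mul]
  exact Nat.pow_le_pow_left (AA_le Δ) _

end Pool.Agent.P.MP_845aff_co
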