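import Mathlib

namespace Pool.Agent.P.MP_845aff_co

open Finset

/-- A planar combinatorial map: darts `D`, rotation `s`, edge involution `a` (fixed points are
dummy darts), tails in `W`; planarity is expressed by the existence of parity potentials. -/
structure PMap (D W : Type) [Fintype D] [DecidableEq W] where
  s : Equiv.Perm D
  a : Equiv.Perm D
  tl : D → W
  aa : ∀ d, a (a d) = d
  tl_s : ∀ d, tl (s d) = tl d
  cyc : ∀ d e, tl d = tl e → s.SameCycle d e
  pot : ∀ c : D → ZMod 2, (∀ d, c (a d) = c d) → (∀ d, a d = d → c d = 0) →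
    (∀ x, ∑ d ∈ univ.filter (fun d => tl d = x), c d = 0) →
    ∃ w : D → ZMod 2, ∀ d, w (s d) = w d + c d ∧ w (a d) = w d + c d

lemma z2 (x : ZMod 2) : x + x = 0 := by
  revert x; decide

lemma sameCycle_le {D : Type} [Finite D] (s : Equiv.Perm D) (R : D → D → Prop)
    (hr : ∀ x, R x x) (ht : ∀ x y z, R x y → R y z → R x z) (h : ∀ x, R x (s x)) {x y : D}
    (hxy : s.SameCycle x y) : R x y := by
  obtain ⟨k, rfl⟩ := hxy.exists_nat_pow_eq
  induction k with
  | zero => simpa using hr x
  | succ k ih =>
    rw [pow_succ']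
    exact ht _ _ _ (ih ⟨k, by simp⟩) (h _)

variable {D W : Type} [Fintype D] [DecidableEq D] [DecidableEq W]

lemma merge_cycles (s : Equiv.Perm D) {d0 d1 : D} (h : ¬ s.SameCycle d0 d1) :
    (s * Equiv.swap d0 d1).SameCycle d0 d1 ∧
      ∀ x y, s.SameCycle x y → (s * Equiv.swap d0 d1).SameCycle x y := by
  set s1 := s * Equiv.swap d0 d1 with hs1
  have step : ∀ x, s1.SameCycle x (s1 x) := fun x => ⟨1, by simp⟩
  have h1 : ∀ k : ℕ, s1.SameCycle (s d1) ((s ^ (k + 1)) d1) := by
    intro k
    induction k with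
    | zero => simp only [zero_add, pow_one]; exact Equiv.Perm.SameCycle.refl _ _
    | succ k ih =>
      by_cases e : (s ^ (k + 1)) d1 = d1
      · rw [pow_succ' s (k + 1), Equiv.Perm.mul_apply, e]
      · have e0 : (s ^ (k + 1)) d1 ≠ d0 := by
          intro e0
          exact h (Equiv.Perm.SameCycle.symm ⟨(k + 1 : ℕ), by rw [zpow_natCast]; exact e0⟩)
        have : s1 ((s ^ (k + 1)) d1) = (s ^ (k + 1 + 1)) d1 := by
          rw [hs1, Equiv.Perm.mul_apply, Equiv.swap_apply_of_ne_of_ne e0 e, pow_succ' s (k + 1),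
            Equiv.Perm.mul_apply]
        exact ih.trans (this ▸ step _)
  have h01 : s1.SameCycle d0 d1 := by
    have hp : 0 < orderOf s := orderOf_pos s
    have := h1 (orderOf s - 1)
    rw [Nat.sub_add_cancel hp, pow_orderOf_eq_one] at this
    have e : s1 d0 = s d1 := by simp [hs1]
    exact (e ▸ step d0).trans this
  refine ⟨h01, fun x y hxy => ?_⟩
  refine sameCycle_le s (fun x y => s1.SameCycle x y) (fun x => Equiv.Perm.SameCycle.refl _ _)
    (fun _ _ _ => Equiv.Perm.SameCycle.trans) (fun x => ?_) hxy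
  by_cases e0 : x = d0
  · subst e0
    have e : s1 d1 = s x := by simp [hs1]
    exact h01.trans (e ▸ step d1)
  by_cases e1 : x = d1
  · subst e1
    have e : s1 d0 = s x := by simp [hs1]
    exact h01.symm.trans (e ▸ step d0)
  have e : s1 x = s x := by simp [hs1, Equiv.swap_apply_of_ne_of_ne e0 e1]
  exact e ▸ step x

/-- contraction of one edge -/
def PMap.contract (M : PMap D W) (d0 : D) (h : M.tl d0 ≠ M.tl (M.a d0)) : PMap D W where
  s := M.s * Equiv.swap d0 (M.a d0)
  a := M.a * Equiv.swap d0 (M.a d0)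
  tl := fun d => if M.tl d = M.tl (M.a d0) then M.tl d0 else M.tl d
  aa := by
    intro d
    by_cases e0 : d = d0
    · subst e0; simp [M.aa]
    by_cases e1 : d = M.a d0
    · subst e1; simp
    have e2 : M.a d ≠ d0 := fun e => e1 (by rw [← e, M.aa])
    have e3 : M.a d ≠ M.a d0 := fun e => e0 (M.a.injective e)
    simp [Equiv.swap_apply_of_ne_of_ne e0 e1, Equiv.swap_apply_of_ne_of_ne e2 e3, M.aa]
  tl_s := by
    intro d
    by_cases e0 : d = d0
    · subst e0; simp [M.tl_s]
    by_cases e1 : d = M.a d0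
    · subst e1; simp [M.tl_s]
    simp [Equiv.swap_apply_of_ne_of_ne e0 e1, M.tl_s]
  cyc := by
    have hn : ¬ M.s.SameCycle d0 (M.a d0) := by
      intro hc
      exact h (sameCycle_le M.s (fun x y => M.tl x = M.tl y) (fun _ => rfl)
        (fun _ _ _ => Eq.trans) (fun x => (M.tl_s x).symm) hc)
    obtain ⟨h01, hall⟩ := merge_cycles M.s hn
    intro d e hde
    by_cases hd : M.tl d = M.tl (M.a d0) <;> by_cases he : M.tl e = M.tl (M.a d0) <;>
      simp only [hd, he, if_true, if_false] at hde
    · exact hall _ _ (M.cyc _ _ (hd.trans he.symm))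
    · exact (hall _ _ (M.cyc _ _ hd)).trans (h01.symm.trans (hall _ _ (M.cyc _ _ hde)))
    · exact (hall _ _ (M.cyc _ _ hde)).trans (h01.trans (hall _ _ (M.cyc _ _ he.symm)))
    · exact hall _ _ (M.cyc _ _ hde)
  pot := by
    intro c hc hf hs
    have hne : d0 ≠ M.a d0 := fun e => h (by rw [← e])
    have c0 : c d0 = 0 := hf d0 (by simp [M.aa])
    have c1 : c (M.a d0) = 0 := hf _ (by simp)
    set t := ∑ d ∈ univ.filter (fun d => M.tl d = M.tl d0), c d with ht
    have ht' : ∑ d ∈ univ.filter (fun d => M.tl d = M.tl (M.a d0)), c d = t := by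
      have := hs (M.tl d0)
      have e : univ.filter (fun d => (if M.tl d = M.tl (M.a d0) then M.tl d0 else M.tl d) = M.tl d0)
          = univ.filter (fun d => M.tl d = M.tl d0) ∪
            univ.filter (fun d => M.tl d = M.tl (M.a d0)) := by
        ext d
        by_cases hd : M.tl d = M.tl (M.a d0) <;> simp [hd]
      rw [e, sum_union] at this
      · have h2 := z2 t
        linear_combination this - h2
      · rw [disjoint_filter]
        intro d _ h1 h2
        exact h (h1.symm.trans h2)
    let c' : D → ZMod 2 := fun d => c d + (if d = d0 then t else 0) + (if d = M.a d0 then t else 0)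
    have ha : ∀ d, d ≠ d0 → d ≠ M.a d0 → c (M.a d) = c d := by
      intro d e0 e1
      have := hc d
      simpa [Equiv.swap_apply_of_ne_of_ne e0 e1] using this
    obtain ⟨w, hw⟩ := M.pot c' (by
        intro d
        by_cases e0 : d = d0
        · subst e0; simp [c', c0, c1, hne, hne.symm]
        by_cases e1 : d = M.a d0
        · subst e1; simp [c', c0, c1, hne, hne.symm, M.aa]
        have e2 : M.a d ≠ d0 := fun e => e1 (by rw [← e, M.aa])
        have e3 : M.a d ≠ M.a d0 := fun e => e0 (M.a.injective e)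
        simp [c', e0, e1, e2, e3, ha d e0 e1])
      (by
        intro d hd
        have e0 : d ≠ d0 := fun e => hne (by rw [← e, hd])
        have e1 : d ≠ M.a d0 := fun e => hne (by rw [e, M.aa] at hd; exact hd)
        have : c d = 0 := hf d (by simp [Equiv.swap_apply_of_ne_of_ne e0 e1, hd])
        simp [c', e0, e1, this])
      (by
        intro x
        simp only [c', sum_add_distrib, sum_ite_eq', mem_filter, mem_univ, true_and]
        by_cases x0 : M.tl d0 = x
        · subst x0
          rw [if_pos rfl, if_neg (Ne.symm h), ← ht, add_zero]; exact z2 t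
        by_cases x1 : M.tl (M.a d0) = x
        · subst x1
          rw [if_neg h, if_pos rfl, ht', add_zero]; exact z2 t
        rw [if_neg x0, if_neg x1, add_zero, add_zero, ← hs x]
        refine sum_congr ?_ fun _ _ => rfl
        ext d
        by_cases hd : M.tl d = M.tl (M.a d0)
        · simp [hd, x0, x1]
        · simp [hd])
    refine ⟨w, fun d => ?_⟩
    by_cases e0 : d = d0
    · subst e0
      have h1 := (hw (M.a d)).1
      have h2 := (hw d).2
      have h3 := z2 t
      simp only [c', c0, c1, if_true, if_neg hne, if_neg hne.symm] at h1 h2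
      simp only [Equiv.Perm.mul_apply, Equiv.swap_apply_left, M.aa, c0, add_zero, and_true]
      linear_combination h1 + h2 + h3
    by_cases e1 : d = M.a d0
    · subst e1
      have h1 := (hw d0).1
      have h2 := (hw d0).2
      simp only [c', c0, if_true, if_neg hne] at h1 h2
      simp only [Equiv.Perm.mul_apply, Equiv.swap_apply_right, c1, add_zero, and_true]
      linear_combination h1 - h2
    have h1 := hw d
    simp only [c', e0, e1, if_false, add_zero] at h1
    simpa [Equiv.swap_apply_of_ne_of_ne e0 e1] using h1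

/-- contraction of connected blobs -/
theorem PMap.blob {W' : Type} [DecidableEq W'] (q : W → W') (F0 : D → Prop) :
    ∀ (n : ℕ) (M : PMap D W), (univ.image M.tl).card = n → (∀ d, F0 d → F0 (M.a d)) →
    (∀ d, F0 d → q (M.tl d) = q (M.tl (M.a d))) →
    (∀ d e, q (M.tl d) = q (M.tl e) → Relation.ReflTransGen
      (fun x y => ∃ d', F0 d' ∧ M.tl d' = x ∧ M.tl (M.a d') = y) (M.tl d) (M.tl e)) →
    ∃ M' : PMap D W', (∀ d, M'.tl d = q (M.tl d)) ∧ ∃ F : D → Prop, (∀ d, F d → F0 d) ∧
      (∀ d, F d → F (M.a d)) ∧ (∀ d, F d → M'.a d = d ∧ M'.s d = M.s (M.a d)) ∧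
      (∀ d, ¬ F d → M'.a d = M.a d ∧ M'.s d = M.s d) := by
  intro n
  induction n using Nat.strong_induction_on with
  | _ n ih =>
  intro M hn hF hq hc
  by_cases hall : ∀ d, F0 d → M.tl d = M.tl (M.a d)
  · have key : ∀ d e, q (M.tl d) = q (M.tl e) → M.tl d = M.tl e := by
      intro d e h
      have := hc d e h
      generalize M.tl d = x at this
      generalize M.tl e = y at this
      induction this with
      | refl => rfl
      | tail _ h2 ih2 =>
        obtain ⟨d', h1, h2, h3⟩ := h2
        rw [ih2, ← h2, ← h3]; exact hall d' h1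
    refine ⟨⟨M.s, M.a, fun d => q (M.tl d), M.aa, fun d => by rw [M.tl_s],
      fun d e h => M.cyc d e (key d e h), ?_⟩, fun d => rfl, fun _ => False, by simp, by simp,
      by simp, by simp⟩
    intro c h1 h2 h3
    refine M.pot c h1 h2 fun x => ?_
    by_cases hx : ∃ e, M.tl e = x
    · obtain ⟨e, rfl⟩ := hx
      rw [← h3 (q (M.tl e))]
      refine sum_congr ?_ fun _ _ => rfl
      ext d
      simp only [mem_filter, mem_univ, true_and]
      exact ⟨fun h => by rw [h], key d e⟩
    · refine sum_eq_zero fun d hd => ?_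
      exact absurd ⟨d, (mem_filter.1 hd).2⟩ hx
  push Not at hall
  obtain ⟨d0, hd0, hne⟩ := hall
  have hne' : d0 ≠ M.a d0 := fun e => hne (by rw [← e])
  let M1 := M.contract d0 hne
  have ha0 : M1.a d0 = d0 := by simp [M1, PMap.contract, M.aa]
  have ha1 : M1.a (M.a d0) = M.a d0 := by simp [M1, PMap.contract]
  have ha : ∀ d, d ≠ d0 → d ≠ M.a d0 → M1.a d = M.a d := by
    intro d e0 e1; simp [M1, PMap.contract, Equiv.swap_apply_of_ne_of_ne e0 e1]
  have hs0 : M1.s d0 = M.s (M.a d0) := by simp [M1, PMap.contract]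
  have hs1 : M1.s (M.a d0) = M.s d0 := by simp [M1, PMap.contract]
  have hs : ∀ d, d ≠ d0 → d ≠ M.a d0 → M1.s d = M.s d := by
    intro d e0 e1; simp [M1, PMap.contract, Equiv.swap_apply_of_ne_of_ne e0 e1]
  let mg : W → W := fun x => if x = M.tl (M.a d0) then M.tl d0 else x
  have htl : ∀ d, M1.tl d = mg (M.tl d) := fun d => rfl
  have hqm : ∀ x, q (mg x) = q x := by
    intro x
    by_cases e : x = M.tl (M.a d0)
    · simp only [mg, e, if_true]; exact hq d0 hd0
    · simp only [mg, e, if_false]
  have hlt : (univ.image M1.tl).card < n := by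
    rw [← hn]
    refine card_lt_card ⟨?_, ?_⟩
    · intro x hx
      obtain ⟨d, -, rfl⟩ := mem_image.1 hx
      rw [htl]
      by_cases e : M.tl d = M.tl (M.a d0)
      · simp only [mg, e, if_true]; exact mem_image_of_mem _ (mem_univ _)
      · simp only [mg, e, if_false]; exact mem_image_of_mem _ (mem_univ _)
    · intro hsub
      have := hsub (mem_image_of_mem M.tl (mem_univ (M.a d0)))
      obtain ⟨d, -, hd⟩ := mem_image.1 this
      rw [htl] at hd
      by_cases e : M.tl d = M.tl (M.a d0)
      · simp only [mg, e, if_true] at hd; exact hne hd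
      · simp only [mg, e, if_false] at hd
  obtain ⟨M', h1, F1, h2, h3, h4, h5⟩ := ih _ hlt M1 rfl
    (by
      intro d hd
      by_cases e0 : d = d0
      · rw [e0, ha0]; exact hd0
      by_cases e1 : d = M.a d0
      · rw [e1, ha1]; exact hF _ hd0
      rw [ha d e0 e1]; exact hF d hd)
    (by
      intro d hd
      by_cases e0 : d = d0
      · rw [e0, ha0]
      by_cases e1 : d = M.a d0
      · rw [e1, ha1]
      rw [ha d e0 e1, htl, htl, hqm, hqm]; exact hq d hd)
    (by
      intro d e h
      rw [htl, htl, hqm, hqm] at h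
      have := hc d e h
      rw [htl, htl]
      generalize M.tl d = x at this
      generalize M.tl e = y at this
      induction this with
      | refl => exact Relation.ReflTransGen.refl
      | tail _ h2 ih2 =>
        obtain ⟨d', h1, h2, h3⟩ := h2
        by_cases e0 : d' = d0
        · subst e0
          rw [← h3]; rw [← h2] at ih2
          have : mg (M.tl (M.a d')) = mg (M.tl d') := by simp [mg]
          rw [this]; exact ih2
        by_cases e1 : d' = M.a d0
        · subst e1
          rw [← h3, M.aa]; rw [← h2] at ih2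
          have : mg (M.tl (M.a d0)) = mg (M.tl d0) := by simp [mg]
          rw [← this]; exact ih2
        exact ih2.tail ⟨d', h1, by rw [htl, h2], by rw [ha d' e0 e1, htl, h3]⟩)
  refine ⟨M', fun d => by rw [h1, htl, hqm], fun d => F1 d ∨ d = d0 ∨ d = M.a d0, ?_, ?_, ?_, ?_⟩
  · rintro d (h | rfl | rfl)
    · exact h2 d h
    · exact hd0
    · exact hF _ hd0
  · intro d hd
    by_cases e0 : d = d0
    · exact Or.inr (Or.inr (by rw [e0]))
    by_cases e1 : d = M.a d0
    · exact Or.inr (Or.inl (by rw [e1, M.aa]))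
    rcases hd with h | h | h
    · exact Or.inl (by rw [← ha d e0 e1]; exact h3 d h)
    · exact absurd h e0
    · exact absurd h e1
  · intro d hd
    by_cases e0 : d = d0
    · subst e0
      by_cases hf : F1 d
      · exact ⟨(h4 d hf).1, by rw [(h4 d hf).2, ha0, hs0]⟩
      · exact ⟨by rw [(h5 d hf).1, ha0], by rw [(h5 d hf).2, hs0]⟩
    by_cases e1 : d = M.a d0
    · subst e1
      by_cases hf : F1 (M.a d0)
      · exact ⟨(h4 _ hf).1, by rw [(h4 _ hf).2, ha1, hs1, M.aa]⟩
      · exact ⟨by rw [(h5 _ hf).1, ha1], by rw [(h5 _ hf).2, hs1, M.aa]⟩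
    rcases hd with h | h | h
    · have e2 : M.a d ≠ d0 := fun e => e1 (by rw [← e, M.aa])
      have e3 : M.a d ≠ M.a d0 := fun e => e0 (M.a.injective e)
      exact ⟨(h4 d h).1, by rw [(h4 d h).2, ha d e0 e1, hs _ e2 e3]⟩
    · exact absurd h e0
    · exact absurd h e1
  · intro d hd
    push Not at hd
    exact ⟨by rw [(h5 d hd.1).1, ha d hd.2.1 hd.2.2], by rw [(h5 d hd.1).2, hs d hd.2.1 hd.2.2]⟩

end Pool.Agent.P.MP_845aff_co
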