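import Mathlib

namespace Pool.Agent.P.MP_845aff_co

open Set

variable {V : Type} (G : SimpleGraph V)

def rel (X : Set V) (a b : V) : Prop := G.Adj a b ∧ a ∈ X ∧ b ∈ X

def Conn (X : Set V) : Prop := ∀ u ∈ X, ∀ v ∈ X, Relation.ReflTransGen (rel G X) u v

def comp (X : Set V) (v : V) : Set V := {w | Relation.ReflTransGen (rel G X) v w}

def bd (X : Set V) : Set V := {b | b ∉ X ∧ ∃ x ∈ X, G.Adj x b}

/-- one peeling step of a piece `X` whose outer neighbours are ordered by `ord` -/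
structure Step (A : ℕ) (P : Set V → (V → ℤ) → Prop) (X : Set V) (ord : V → ℤ) where
  N : Set V
  Mk : V → Finset ℤ
  hd : ℤ → V
  conn : Conn G X
  sub : N ⊆ X
  ne : N.Nonempty
  card : N.ncard ≤ A
  nb : ∀ x ∈ X, ∀ b, b ∉ X → G.Adj x b → x ∈ N
  mk_disj : ∀ n ∈ N, ∀ n' ∈ N, ∀ p, p ∈ Mk n → p ∈ Mk n' → n = n'
  ext : ∀ n ∈ N, ∀ b, b ∉ X → G.Adj n b → ∃ p ∈ Mk n, hd p = b
  kind : ∀ n ∈ N, ((Mk n).Nonempty ∧ ∀ p ∈ Mk n, hd p ∉ X ∧ G.Adj n (hd p)) ∨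
    ((∃ p, Mk n = {p}) ∧ ∀ b, b ∉ X → ¬ G.Adj n b)
  mono : ∀ n ∈ N, ∀ n' ∈ N, ∀ p ∈ Mk n, ∀ p' ∈ Mk n', p < p' → hd p ∉ X → G.Adj n (hd p) →
    hd p' ∉ X → G.Adj n' (hd p') → ord (hd p) ≤ ord (hd p')
  hd_inj : ∀ n ∈ N, ∀ p ∈ Mk n, ∀ p' ∈ Mk n, hd p = hd p' → p = p'
  nc : ∀ Z Z' : Set V, Z ⊆ X → Z' ⊆ X → Conn G Z → Conn G Z' → Disjoint Z Z' →
    ∀ n1 ∈ Z, ∀ n2 ∈ Z', ∀ n3 ∈ Z, ∀ n4 ∈ Z', n1 ∈ N → n2 ∈ N → n3 ∈ N → n4 ∈ N →
    ∀ p1 ∈ Mk n1, ∀ p2 ∈ Mk n2, ∀ p3 ∈ Mk n3, ∀ p4 ∈ Mk n4, p1 < p2 → p2 < p3 → p3 < p4 → False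
  three : ∀ y ∈ X \ N, ∀ y' ∈ X \ N, comp G (X \ N) y ≠ comp G (X \ N) y' →
    ∀ s1 s2 s3, s1 ≠ s2 → s1 ≠ s3 → s2 ≠ s3 →
    s1 ∈ bd G (comp G (X \ N) y) → s2 ∈ bd G (comp G (X \ N) y) → s3 ∈ bd G (comp G (X \ N) y) →
    s1 ∈ bd G (comp G (X \ N) y') → s2 ∈ bd G (comp G (X \ N) y') →
    s3 ∈ bd G (comp G (X \ N) y') → False
  child : ∀ y ∈ X \ N, ∀ rep : V → ℤ, (∀ s ∈ bd G (comp G (X \ N) y), rep s ∈ Mk s) →
    P (comp G (X \ N) y) rep

def Peelable (A : ℕ) : Prop :=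
  ∃ P : Set V → (V → ℤ) → Prop, (∀ v, P (comp G univ v) 0) ∧
    ∀ X ord, P X ord → Nonempty (Step G A P X ord)

variable {G}

lemma rel_symm {X : Set V} {a b : V} (h : rel G X a b) : rel G X b a := ⟨h.1.symm, h.2.2, h.2.1⟩

lemma rt_symm {X : Set V} {a b : V} (h : Relation.ReflTransGen (rel G X) a b) :
    Relation.ReflTransGen (rel G X) b a := by
  induction h with
  | refl => exact .refl
  | tail _ h2 ih => exact .head (rel_symm h2) ih

lemma rt_mono {X Y : Set V} (h : X ⊆ Y) {a b : V} (hab : Relation.ReflTransGen (rel G X) a b) :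
    Relation.ReflTransGen (rel G Y) a b := by
  induction hab with
  | refl => exact .refl
  | tail _ e ih => exact ih.tail ⟨e.1, h e.2.1, h e.2.2⟩

lemma self_mem_comp (X : Set V) (v : V) : v ∈ comp G X v := Relation.ReflTransGen.refl

lemma comp_sub {X : Set V} {v : V} (hv : v ∈ X) : comp G X v ⊆ X := by
  intro w hw
  induction hw with
  | refl => exact hv
  | tail _ h _ => exact h.2.2

lemma comp_step {X : Set V} {v a b : V} (hv : v ∈ X) (ha : a ∈ comp G X v) (h : G.Adj a b)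
    (hb : b ∈ X) : b ∈ comp G X v :=
  Relation.ReflTransGen.tail ha ⟨h, comp_sub hv ha, hb⟩

lemma comp_eq {X : Set V} {v w : V} (h : w ∈ comp G X v) : comp G X w = comp G X v := by
  ext x
  exact ⟨fun hx => Relation.ReflTransGen.trans h hx,
    fun hx => Relation.ReflTransGen.trans (rt_symm h) hx⟩

lemma comp_eq_of_mem {X : Set V} {v w x : V} (h : x ∈ comp G X v) (h' : x ∈ comp G X w) :
    comp G X v = comp G X w := (comp_eq h).symm.trans (comp_eq h')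

lemma comp_le {X S : Set V} {v : V} (hv : v ∈ S)
    (h : ∀ a ∈ S, ∀ b, G.Adj a b → a ∈ X → b ∈ X → b ∈ S) : comp G X v ⊆ S := by
  intro w hw
  induction hw with
  | refl => exact hv
  | tail _ h2 ih => exact h _ ih _ h2.1 h2.2.1 h2.2.2

lemma comp_mono {X Y : Set V} (h : X ⊆ Y) (v : V) : comp G X v ⊆ comp G Y v :=
  fun _ hw => rt_mono h hw

lemma conn_comp {X : Set V} {v : V} (hv : v ∈ X) : Conn G (comp G X v) := by
  have key : ∀ w ∈ comp G X v, Relation.ReflTransGen (rel G (comp G X v)) v w := by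
    intro w hw
    induction hw with
    | refl => exact .refl
    | tail h1 h2 ih => exact ih.tail ⟨h2.1, h1, comp_step hv h1 h2.1 h2.2.2⟩
  intro a ha b hb
  exact (rt_symm (key a ha)).trans (key b hb)

lemma conn_singleton (v : V) : Conn G {v} := by
  rintro a rfl b rfl; exact .refl

lemma Conn.insert {X : Set V} (h : Conn G X) {x b : V} (hx : x ∈ X) (hb : G.Adj x b) :
    Conn G (insert b X) := by
  have key : ∀ w ∈ Insert.insert b X, Relation.ReflTransGen (rel G (Insert.insert b X)) x w := by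
    rintro w (rfl | hw)
    · exact .single ⟨hb, Or.inr hx, Or.inl rfl⟩
    · exact rt_mono (subset_insert _ _) (h x hx w hw)
  intro a ha c hc
  exact (rt_symm (key a ha)).trans (key c hc)

lemma Conn.insert_bd {X : Set V} (h : Conn G X) {Y : Set V} (hY : Y ⊆ X) {b : V}
    (hb : b ∈ bd G Y) : Conn G (Insert.insert b X) := by
  obtain ⟨-, x, hx, hxb⟩ := hb
  exact h.insert (hY hx) hxb

lemma Conn.sub_of_closed {X S : Set V} (h : Conn G X) {v : V} (hv : v ∈ X) (hS : v ∈ S)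
    (hc : ∀ a ∈ S, ∀ b, G.Adj a b → a ∈ X → b ∈ X → b ∈ S) : X ⊆ S :=
  fun w hw => comp_le hS hc (h v hv w hw)

end Pool.Agent.P.MP_845aff_co
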