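import Pool.Agent.P.MP_845aff_co.PMap
import Pool.Agent.P.MP_845aff_co.Peel

namespace Pool.Agent.P.MP_845aff_co

open Finset

variable {D W : Type} [Fintype D] [DecidableEq D] [DecidableEq W]

namespace PMap

variable (M : PMap D W)

open Classical in
/-- the edge involution restricted to darts inside `X` -/
noncomputable def aX (X : Set W) : Equiv.Perm D :=
  Function.Involutive.toPerm (fun d => if M.tl d ∈ X ∧ M.tl (M.a d) ∈ X then M.a d else d) (by
    intro d
    by_cases h : M.tl d ∈ X ∧ M.tl (M.a d) ∈ X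
    · simp only [if_pos h, M.aa]; rw [if_pos ⟨h.2, h.1⟩]
    · simp only [if_neg h])

omit [DecidableEq D] in
lemma aX_in {X : Set W} {d : D} (h1 : M.tl d ∈ X) (h2 : M.tl (M.a d) ∈ X) : M.aX X d = M.a d := by
  simp [aX, h1, h2]

omit [DecidableEq D] in
lemma aX_out {X : Set W} {d : D} (h : ¬ (M.tl d ∈ X ∧ M.tl (M.a d) ∈ X)) : M.aX X d = d := by
  simp only [aX, Function.Involutive.coe_toPerm, if_neg h]

omit [DecidableEq D] in
lemma aX_aX (X : Set W) (d : D) : M.aX X (M.aX X d) = d := by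
  by_cases h : M.tl d ∈ X ∧ M.tl (M.a d) ∈ X
  · rw [M.aX_in h.1 h.2, M.aX_in h.2 (by rw [M.aa]; exact h.1), M.aa]
  · rw [M.aX_out h, M.aX_out h]

noncomputable def fX (X : Set W) : Equiv.Perm D := M.s * M.aX X

omit [DecidableEq D] in
lemma fX_apply (X : Set W) (d : D) : M.fX X d = M.s (M.aX X d) := rfl

omit [DecidableEq D] in
lemma tl_aX {X : Set W} {d : D} (h : M.tl d ∈ X) : M.tl (M.aX X d) ∈ X := by
  by_cases h2 : M.tl (M.a d) ∈ X
  · rw [M.aX_in h h2]; exact h2
  · rw [M.aX_out fun e => h2 e.2]; exact h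

omit [DecidableEq D] in
lemma tl_fX {X : Set W} {d : D} (h : M.tl d ∈ X) : M.tl (M.fX X d) ∈ X := by
  rw [fX_apply, M.tl_s]; exact M.tl_aX h

omit [DecidableEq D] in
lemma tl_of_cyc {X : Set W} {d e : D} (h : M.tl d ∈ X) (hc : (M.fX X).SameCycle d e) :
    M.tl e ∈ X :=
  sameCycle_le (M.fX X) (fun x y => M.tl x ∈ X → M.tl y ∈ X) (fun _ h => h)
    (fun _ _ _ h1 h2 h => h2 (h1 h)) (fun _ h => M.tl_fX h) hc h

def IsChain (c : D → ZMod 2) : Prop := (∀ d, c (M.a d) = c d) ∧ ∀ d, M.a d = d → c d = 0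

def bdry (c : D → ZMod 2) (x : W) : ZMod 2 := ∑ d ∈ univ.filter (fun d => M.tl d = x), c d

def Supp (c : D → ZMod 2) (Z : Set W) : Prop := ∀ d, M.tl d ∉ Z → c d = 0

variable {M}

omit [DecidableEq D] in
lemma IsChain.add {c c' : D → ZMod 2} (h : M.IsChain c) (h' : M.IsChain c') :
    M.IsChain (c + c') :=
  ⟨fun d => by simp [h.1, h'.1], fun d e => by simp [h.2 d e, h'.2 d e]⟩

omit [DecidableEq D] in
lemma bdry_add (c c' : D → ZMod 2) (x : W) : M.bdry (c + c') x = M.bdry c x + M.bdry c' x := by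
  simp [bdry, sum_add_distrib]

omit [DecidableEq D] in
lemma Supp.add {c c' : D → ZMod 2} {Z : Set W} (h : M.Supp c Z) (h' : M.Supp c' Z) :
    M.Supp (c + c') Z := fun d e => by simp [h d e, h' d e]

omit [DecidableEq D] in
lemma Supp.mono {c : D → ZMod 2} {Z Z' : Set W} (h : M.Supp c Z) (h' : Z ⊆ Z') :
    M.Supp c Z' := fun d e => h d fun e' => e (h' e')

omit [DecidableEq D] in
lemma Supp.out {c : D → ZMod 2} {Z : Set W} (h : M.Supp c Z) (hc : M.IsChain c) {d : D}
    (hd : M.tl (M.a d) ∉ Z) : c d = 0 := by rw [← hc.1]; exact h _ hd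

/-- indicator -/
def ind {α : Type} [DecidableEq α] (x y : α) : ZMod 2 := if x = y then 1 else 0

lemma ind_ne {α : Type} [DecidableEq α] {x y : α} (h : x ≠ y) : ind x y = 0 := if_neg h
lemma ind_self {α : Type} [DecidableEq α] (x : α) : ind x x = 1 := if_pos rfl

variable (M)

def ec (e : D) : D → ZMod 2 := fun d => ind d e + ind d (M.a e)

lemma ec_chain (e : D) : M.IsChain (M.ec e) := by
  constructor
  · intro d
    have h1 : ind (M.a d) e = ind d (M.a e) := by
      unfold ind; congr 1; exact propext ⟨fun h => by rw [← h, M.aa], fun h => by rw [h, M.aa]⟩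
    have h2 : ind (M.a d) (M.a e) = ind d e := by
      unfold ind; congr 1; exact propext ⟨fun h => M.a.injective h, fun h => by rw [h]⟩
    simp only [ec, h1, h2, add_comm]
  · intro d hd
    have : ind d (M.a e) = ind d e := by
      unfold ind; congr 1
      exact propext ⟨fun h => by rw [← hd, h, M.aa], fun h => by rw [← h, hd]⟩
    simp only [ec, this, z2]

lemma bdry_ind (e : D) (x : W) : M.bdry (fun d => ind d e) x = ind (M.tl e) x := by
  simp only [bdry, ind, sum_ite_eq', mem_filter, mem_univ, true_and]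

lemma ec_bdry (e : D) (x : W) :
    M.bdry (M.ec e) x = ind (M.tl e) x + ind (M.tl (M.a e)) x := by
  rw [← bdry_ind, ← bdry_ind, ← bdry_add]; rfl

lemma ec_supp {e : D} {Z : Set W} (h1 : M.tl e ∈ Z) (h2 : M.tl (M.a e) ∈ Z) :
    M.Supp (M.ec e) Z := by
  intro d hd
  have a1 : d ≠ e := fun h => hd (h ▸ h1)
  have a2 : d ≠ M.a e := fun h => hd (h ▸ h2)
  simp [ec, ind_ne a1, ind_ne a2]

omit [DecidableEq D] in
lemma pot0 {c : D → ZMod 2} (hc : M.IsChain c) (hb : ∀ x, M.bdry c x = 0) :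
    ∃ w : D → ZMod 2, (∀ d, w (M.s d) = w d + c d) ∧ ∀ d, w (M.a d) = w d + c d := by
  obtain ⟨w, hw⟩ := M.pot c hc.1 hc.2 hb
  exact ⟨w, fun d => (hw d).1, fun d => (hw d).2⟩

omit [DecidableEq D] in
lemma bdry_s (g : D → ZMod 2) (x : W) : M.bdry (fun d => g (M.s d)) x = M.bdry g x := by
  unfold bdry
  refine sum_bijective M.s M.s.bijective ?_ ?_
  · intro d; simp [M.tl_s]
  · intro d _; rfl

omit [DecidableEq D] in
/-- a function invariant under the rotation at `x` is constant at `x` -/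
lemma const_at {β : Type} (w : D → β) {x : W} (h : ∀ d, M.tl d = x → w (M.s d) = w d) {d e : D}
    (hd : M.tl d = x) (he : M.tl e = x) : w d = w e := by
  have := sameCycle_le M.s (fun a b => M.tl a = x → (M.tl b = x ∧ w a = w b))
    (fun _ h => ⟨h, rfl⟩)
    (fun _ _ _ h1 h2 h => ⟨(h2 (h1 h).1).1, (h1 h).2.trans (h2 (h1 h).1).2⟩)
    (fun a ha => ⟨by rw [M.tl_s]; exact ha, (h a ha).symm⟩) (M.cyc d e (hd.trans he.symm))
  exact (this hd).2

omit [DecidableEq D] in
lemma const_orbit {β : Type} (w : D → β) (f : Equiv.Perm D) {d0 : D}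
    (h : ∀ d, f.SameCycle d0 d → w (f d) = w d) {e : D} (he : f.SameCycle d0 e) : w e = w d0 := by
  have := sameCycle_le f (fun a b => f.SameCycle d0 a → (f.SameCycle d0 b ∧ w b = w a))
    (fun _ h => ⟨h, rfl⟩)
    (fun _ _ _ h1 h2 h => ⟨(h2 (h1 h).1).1, (h2 (h1 h).1).2.trans (h1 h).2⟩)
    (fun a ha => ⟨ha.trans ⟨1, by simp⟩, h a ha⟩) he
  exact (this (Equiv.Perm.SameCycle.refl _ _)).2

/-- two jumps on a vertex rotation: into `o` and out of `e` -/
lemma two_jumps (w : D → ZMod 2) {o e : D} (hoe : M.tl o = M.tl e)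
    (h : ∀ d, M.tl d = M.tl e → d ≠ e → M.s d ≠ o → w (M.s d) = w d) : w o = w e := by
  classical
  have hex : ∃ k : ℕ, (M.s ^ k) o = e := (M.cyc o e hoe).exists_nat_pow_eq
  have hk := Nat.find_spec hex
  have tlk : ∀ j : ℕ, M.tl ((M.s ^ j) o) = M.tl e := by
    intro j
    induction j with
    | zero => simpa using hoe
    | succ j ih => rw [pow_succ', Equiv.Perm.mul_apply, M.tl_s, ih]
  have key : ∀ j, j ≤ Nat.find hex → w ((M.s ^ j) o) = w o := by
    intro j
    induction j with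
    | zero => simp
    | succ j ih =>
      intro hj
      rw [pow_succ', Equiv.Perm.mul_apply, h _ (tlk j) (Nat.find_min hex (by omega)), ih (by omega)]
      intro e1
      have e2 : (M.s ^ (j + 1)) o = o := by rw [pow_succ', Equiv.Perm.mul_apply, e1]
      refine Nat.find_min hex (m := Nat.find hex - (j + 1)) (by omega) ?_
      have e3 : (M.s ^ (Nat.find hex - (j + 1))) ((M.s ^ (j + 1)) o) = e := by
        rw [← Equiv.Perm.mul_apply, ← pow_add, Nat.sub_add_cancel hj, hk]
      rwa [e2] at e3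
  rw [← key _ le_rfl, hk]

end PMap

/-! ### positions along an orbit -/

section orbit

variable (f : Equiv.Perm D) (d0 : D)

noncomputable def per : ℕ := Function.minimalPeriod f d0

def el (k : ℕ) : D := (f ^ k) d0

omit [Fintype D] [DecidableEq D] in
lemma el_succ (k : ℕ) : el f d0 (k + 1) = f (el f d0 k) := by
  simp [el, pow_succ']

omit [DecidableEq D] in
lemma per_pos : 0 < per f d0 :=
  Function.minimalPeriod_pos_of_mem_periodicPts (f.injective.mem_periodicPts d0)

omit [Fintype D] [DecidableEq D] in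
lemma el_per : el f d0 (per f d0) = d0 := by
  have := Function.iterate_minimalPeriod (f := f) (x := d0)
  rwa [Equiv.Perm.iterate_eq_pow] at this

omit [Fintype D] [DecidableEq D] in
lemma el_zero : el f d0 0 = d0 := rfl

omit [Fintype D] [DecidableEq D] in
lemma el_inj {j k : ℕ} (hj : j < per f d0) (hk : k < per f d0) (h : el f d0 j = el f d0 k) :
    j = k := by
  refine Function.iterate_injOn_Iio_minimalPeriod (f := f) (x := d0) hj hk ?_
  simpa [el, Equiv.Perm.iterate_eq_pow] using h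

omit [Fintype D] [DecidableEq D] in
lemma el_mod (k : ℕ) : el f d0 (k % per f d0) = el f d0 k := by
  have := Function.iterate_mod_minimalPeriod_eq (f := f) (x := d0) (n := k)
  rwa [Equiv.Perm.iterate_eq_pow, Equiv.Perm.iterate_eq_pow] at this

omit [Fintype D] [DecidableEq D] in
lemma cyc_el (k : ℕ) : f.SameCycle d0 (el f d0 k) := ⟨k, by simp [el]⟩

omit [DecidableEq D] in
lemma exists_el {e : D} (h : f.SameCycle d0 e) : ∃ k < per f d0, el f d0 k = e := by
  obtain ⟨k, hk⟩ := h.exists_nat_pow_eq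
  exact ⟨k % per f d0, Nat.mod_lt _ (per_pos f d0), by rw [el_mod]; exact hk⟩

omit [Fintype D] [DecidableEq D] in
lemma el_const {β : Type} (w : D → β) {p q : ℕ} (hpq : p ≤ q)
    (h : ∀ k, p ≤ k → k < q → w (f (el f d0 k)) = w (el f d0 k)) :
    w (el f d0 q) = w (el f d0 p) := by
  induction q, hpq using Nat.le_induction with
  | base => rfl
  | succ q hq ih =>
    rw [el_succ, h q hq (by omega), ih fun k h1 h2 => h k h1 (by omega)]

open Classical in
/-- indicator of a segment of the orbit -/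
noncomputable def seg (p q : ℕ) (x : D) : ZMod 2 :=
  if ∃ k, p ≤ k ∧ k < q ∧ el f d0 k = x then 1 else 0

omit [Fintype D] [DecidableEq D] in
lemma seg_el {p q k : ℕ} (hq : q ≤ per f d0) (hk : k < per f d0) :
    seg f d0 p q (el f d0 k) = if p ≤ k ∧ k < q then 1 else 0 := by
  unfold seg
  congr 1
  refine propext ⟨?_, fun h => ⟨k, h.1, h.2, rfl⟩⟩
  rintro ⟨j, h1, h2, h3⟩
  have := el_inj f d0 (by omega) hk h3
  omega

lemma seg_step {p q : ℕ} (hpq : p ≤ q) (hq : q < per f d0) (x : D) :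
    seg f d0 p q (f x) = seg f d0 p q x + PMap.ind (f x) (el f d0 p) +
      PMap.ind (f x) (el f d0 q) := by
  by_cases hx : f.SameCycle d0 x
  · obtain ⟨k, hk, rfl⟩ := exists_el f d0 hx
    have hi : ∀ j r, j < per f d0 → r < per f d0 →
        PMap.ind (el f d0 j) (el f d0 r) = if j = r then 1 else 0 := by
      intro j r hj hr
      unfold PMap.ind; congr 1
      exact propext ⟨el_inj f d0 hj hr, fun h => by rw [h]⟩
    by_cases hl : k + 1 < per f d0
    · rw [← el_succ, seg_el f d0 hq.le hl, seg_el f d0 hq.le hk, hi _ _ hl (by omega), hi _ _ hl hq]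
      split_ifs <;> first | rfl | omega
    · have e : f (el f d0 k) = el f d0 0 := by
        rw [← el_succ, show k + 1 = per f d0 by omega, el_per, el_zero]
      have h0 := per_pos f d0
      rw [e, seg_el f d0 hq.le h0, seg_el f d0 hq.le hk, hi _ _ h0 (by omega), hi _ _ h0 hq]
      split_ifs <;> first | rfl | omega
  · have hx' : ¬ f.SameCycle d0 (f x) := fun h => hx (h.trans ⟨-1, by simp⟩)
    have z : ∀ y, ¬ f.SameCycle d0 y → seg f d0 p q y = 0 := by
      intro y hy
      refine if_neg ?_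
      rintro ⟨k, -, -, rfl⟩
      exact hy (cyc_el f d0 k)
    have n : ∀ r, f x ≠ el f d0 r := fun r h => hx' (h ▸ cyc_el f d0 r)
    rw [z _ hx, z _ hx', PMap.ind_ne (n p), PMap.ind_ne (n q)]
    simp

end orbit

namespace PMap

variable (M : PMap D W)

/-- potentials for a chain closed up through a face of the submap on `X` -/
lemma pot1 (X : Set W) (d0 : D) (h0 : M.tl d0 ∈ X) {p q : ℕ} (hpq : p ≤ q)
    (hq : q < per (M.fX X) d0) {c : D → ZMod 2} (hc : M.IsChain c) (hs : M.Supp c X)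
    (hb : ∀ x, M.bdry c x = ind (M.tl (el (M.fX X) d0 p)) x + ind (M.tl (el (M.fX X) d0 q)) x) :
    ∃ w : D → ZMod 2,
      (∀ d, w (M.s d) = w d + c d + ind (M.s d) (el (M.fX X) d0 p) +
        ind (M.s d) (el (M.fX X) d0 q)) ∧
      (∀ d, M.tl d ∈ X → M.tl (M.a d) ∈ X → w (M.a d) = w d + c d) ∧
      ∃ t, ∀ k < per (M.fX X) d0, w (el (M.fX X) d0 k) = t + if p ≤ k ∧ k < q then 1 else 0 := by
  set f := M.fX X with hf
  set χ := seg f d0 p q with hχ
  have hχs : ∀ d, χ (M.s d) = χ (M.aX X d) + ind (M.s d) (el f d0 p) + ind (M.s d) (el f d0 q) := by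
    intro d
    have := seg_step f d0 hpq hq (M.aX X d)
    rwa [hf, fX_apply, aX_aX, ← hf] at this
  let cQ : D → ZMod 2 := fun d => χ d + χ (M.aX X d)
  have hQ : M.IsChain cQ := by
    constructor
    · intro d
      by_cases h : M.tl d ∈ X ∧ M.tl (M.a d) ∈ X
      · simp only [cQ, M.aX_in h.1 h.2, M.aX_in h.2 (by rw [M.aa]; exact h.1), M.aa, add_comm]
      · have h' : ¬ (M.tl (M.a d) ∈ X ∧ M.tl (M.a (M.a d)) ∈ X) := by
          rw [M.aa]; exact fun e => h ⟨e.2, e.1⟩
        simp only [cQ, M.aX_out h, M.aX_out h', z2]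
    · intro d hd
      have : M.aX X d = d := by
        by_cases h : M.tl d ∈ X ∧ M.tl (M.a d) ∈ X
        · rw [M.aX_in h.1 h.2, hd]
        · exact M.aX_out h
      simp only [cQ, this, z2]
  obtain ⟨w0, h1, h2⟩ := M.pot0 (hc.add hQ) (by
    intro x
    have e1 : (fun d => χ (M.s d)) = (fun d => χ (M.aX X d)) +
        (fun d => ind (M.s d) (el f d0 p)) + (fun d => ind (M.s d) (el f d0 q)) := by
      funext d; exact hχs d
    have e2 := M.bdry_s χ x
    rw [e1, bdry_add, bdry_add, M.bdry_s (fun d => ind d (el f d0 p)),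
      M.bdry_s (fun d => ind d (el f d0 q)), bdry_ind, bdry_ind] at e2
    have e3 : cQ = χ + fun d => χ (M.aX X d) := rfl
    rw [bdry_add, hb, e3, bdry_add, ← e2]
    generalize M.bdry (fun d => χ (M.aX X d)) x = u
    generalize ind (M.tl (el f d0 p)) x = u1
    generalize ind (M.tl (el f d0 q)) x = u2
    revert u u1 u2; decide)
  refine ⟨fun d => w0 d + χ d, fun d => ?_, fun d hd hd' => ?_, w0 d0, fun k hk => ?_⟩
  · simp only [h1, hχs, Pi.add_apply, cQ]
    have := z2 (χ (M.aX X d))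
    linear_combination this
  · simp only [h2, Pi.add_apply, cQ, M.aX_in hd hd']
    have := z2 (χ (M.a d))
    linear_combination this
  · simp only [hχ, seg_el f d0 hq.le hk]
    congr 1
    refine const_orbit w0 f (fun d hd => ?_) (cyc_el f d0 k)
    have hd' := M.tl_of_cyc h0 hd
    by_cases h : M.tl (M.a d) ∈ X
    · rw [hf, fX_apply, M.aX_in hd' h, h1, h2, (hc.add hQ).1, add_assoc, z2, add_zero]
    · have e : M.aX X d = d := M.aX_out fun e => h e.2
      rw [hf, fX_apply, e, h1]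
      simp only [Pi.add_apply, cQ, e, z2, hs.out hc h, add_zero]

end PMap

end Pool.Agent.P.MP_845aff_co
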