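import Pool.Agent.P.MP_845aff_co.Faces

namespace Pool.Agent.P.MP_845aff_co

open PMap Finset

section abstract

variable {D : Type} [Fintype D] [DecidableEq D]

lemma cut_lemma (pos : D → ℕ) (hinj : Function.Injective pos) (a : D → D) (aa : ∀ d, a (a d) = d)
    (Ch : D → Prop) (hCh : ∀ d, Ch d → Ch (a d))
    (nc : ∀ d e, Ch d → Ch e → pos d < pos e → pos e < pos (a d) → pos (a d) < pos (a e) → False)
    (P0 : Finset D) (hmin : ∃ m ∈ P0, ∀ d, pos m ≤ pos d) (hmax : ∃ m ∈ P0, ∀ d, pos d ≤ pos m) :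
    ∃ P : Finset D, P0 ⊆ P ∧ P.card ≤ P0.card + 2 * (2 * P0.card + 2) ^ 2 ∧
      ∀ x ∉ P, ∃ p ∈ P, ∃ q ∈ P, ∃ p' ∈ P, ∃ q' ∈ P,
        (pos p < pos x ∧ pos x < pos q) ∧
        (∀ d ∈ P, ¬ ((pos p < pos d ∧ pos d < pos q) ∨ (pos p' < pos d ∧ pos d < pos q'))) ∧
        ∀ d, ((pos p < pos d ∧ pos d < pos q) ∨ (pos p' < pos d ∧ pos d < pos q')) → Ch d →
          (pos p ≤ pos (a d) ∧ pos (a d) ≤ pos q) ∨ (pos p' ≤ pos (a d) ∧ pos (a d) ≤ pos q') := by
  classical
  let cl : D → ℕ := fun x => 2 * (P0.filter (fun p => pos p < pos x)).card + if x ∈ P0 then 1 else 0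
  have cl_lt : ∀ x, cl x < 2 * P0.card + 2 := by
    intro x
    have := card_filter_le P0 (fun p => pos p < pos x)
    simp only [cl]; split_ifs <;> omega
  have cl_strict : ∀ x y, pos x < pos y → x ∈ P0 ∨ y ∈ P0 → cl x < cl y := by
    intro x y h hxy
    have h1 : (P0.filter (fun p => pos p < pos x)) ⊆ (P0.filter (fun p => pos p < pos y)) := by
      intro p hp
      simp only [mem_filter] at hp ⊢
      exact ⟨hp.1, by omega⟩
    have h2 := card_le_card h1
    by_cases hx : x ∈ P0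
    · have : (P0.filter (fun p => pos p < pos x)).card < (P0.filter (fun p => pos p < pos y)).card :=
        card_lt_card ⟨h1, fun h' => by
          have := h' (mem_filter.2 ⟨hx, h⟩)
          simp at this⟩
      simp only [cl]; split_ifs <;> omega
    · have hy := hxy.resolve_left hx
      simp only [cl, hx, hy, if_true, if_false]; omega
  have cl_mono : ∀ x y, pos x ≤ pos y → cl x ≤ cl y := by
    intro x y h
    rcases h.eq_or_lt with h | h
    · rw [hinj h]
    by_cases hxy : x ∈ P0 ∨ y ∈ P0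
    · exact (cl_strict x y h hxy).le
    · push Not at hxy
      have h1 : (P0.filter (fun p => pos p < pos x)) ⊆ (P0.filter (fun p => pos p < pos y)) := by
        intro p hp
        simp only [mem_filter] at hp ⊢
        exact ⟨hp.1, by omega⟩
      have h2 := card_le_card h1
      simp only [cl, hxy.1, hxy.2, if_false]; omega
  have pos_lt : ∀ x y, cl x < cl y → pos x < pos y := by
    intro x y h
    by_contra h'
    have := cl_mono y x (by omega)
    omega
  let E : ℕ → ℕ → Finset D := fun i j => univ.filter (fun x => Ch x ∧ cl x = i ∧ cl (a x) = j)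
  have memE : ∀ i j x, x ∈ E i j ↔ Ch x ∧ cl x = i ∧ cl (a x) = j := by simp [E]
  have hex : ∀ ij : ℕ × ℕ, ∃ T : Finset D, T.card ≤ 2 ∧ (∀ x ∈ T, ij.1 ≠ ij.2 ∧ x ∈ E ij.1 ij.2 ∧
      ((∀ y ∈ E ij.1 ij.2, pos x ≤ pos y) ∨ (∀ y ∈ E ij.1 ij.2, pos y ≤ pos x))) ∧
      (ij.1 ≠ ij.2 → (E ij.1 ij.2).Nonempty → ∃ p ∈ T, ∃ q ∈ T, ∀ y ∈ E ij.1 ij.2,
        pos p ≤ pos y ∧ pos y ≤ pos q) := by
    rintro ⟨i, j⟩
    by_cases h : i ≠ j ∧ (E i j).Nonempty
    · obtain ⟨p, hp, hp'⟩ := exists_min_image (E i j) pos h.2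
      obtain ⟨q, hq, hq'⟩ := exists_max_image (E i j) pos h.2
      refine ⟨{p, q}, card_le_two, ?_, fun _ _ => ⟨p, by simp, q, by simp,
        fun y hy => ⟨hp' y hy, hq' y hy⟩⟩⟩
      intro x hx
      rcases mem_insert.1 hx with rfl | hx
      · exact ⟨h.1, hp, Or.inl hp'⟩
      · rw [mem_singleton.1 hx]; exact ⟨h.1, hq, Or.inr hq'⟩
    · exact ⟨∅, by simp, by simp, fun h1 h2 => absurd ⟨h1, h2⟩ h⟩
  choose T T1 T2 T3 using hex
  let R := range (2 * P0.card + 2) ×ˢ range (2 * P0.card + 2)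
  let P := P0 ∪ R.biUnion T
  have memT : ∀ i j x, x ∈ T (i, j) → x ∈ P := by
    intro i j x hx
    obtain ⟨-, h2, -⟩ := T2 _ x hx
    rw [memE] at h2
    refine mem_union_right _ (mem_biUnion.2 ⟨(i, j), ?_, hx⟩)
    simp only [R, mem_product, mem_range]
    have a1 := cl_lt x
    have a2 := cl_lt (a x)
    simp only at h2
    omega
  have memP : ∀ x ∈ P, x ∈ P0 ∨ ∃ i j, x ∈ T (i, j) := by
    intro x hx
    rcases mem_union.1 hx with h | h
    · exact Or.inl h
    · obtain ⟨ij, -, h⟩ := mem_biUnion.1 h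
      exact Or.inr ⟨ij.1, ij.2, h⟩
  -- chords between two extreme chords
  have main : ∀ i j p q, i ≠ j → p ∈ E i j → q ∈ E i j → ∀ d, pos p < pos d → pos d < pos q →
      cl d = i ∧ d ∉ P0 ∧ (Ch d → (pos p ≤ pos (a d) ∧ pos (a d) ≤ pos q) ∨ cl (a d) = j) := by
    intro i j p q hij hp hq d h1 h2
    rw [memE] at hp hq
    obtain ⟨p1, p2, p3⟩ := hp
    obtain ⟨q1, q2, q3⟩ := hq
    have c1 := cl_mono p d h1.le
    have c2 := cl_mono d q h2.le
    refine ⟨by omega, fun h => ?_, fun hd => ?_⟩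
    · have := cl_strict p d h1 (Or.inr h); omega
    by_contra hn
    push Not at hn
    have n1 := nc (a d) p (hCh d hd) p1
    have n2 := nc d q hd q1
    have n3 := nc p d p1 hd
    have n4 := nc (a p) (a d) (hCh p p1) (hCh d hd)
    have n5 := nc (a q) d (hCh q q1) hd
    have n6 := nc (a d) (a q) (hCh d hd) (hCh q q1)
    simp only [aa] at n1 n4 n5 n6
    have l1 := pos_lt (a d) p
    have l2 := pos_lt q (a d)
    have l3 := pos_lt (a d) (a q)
    have l4 := pos_lt (a p) (a d)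
    have l5 := pos_lt q (a p)
    have l6 := pos_lt (a p) p
    have l7 := pos_lt (a q) p
    have l8 := pos_lt (a d) (a p)
    have l9 := pos_lt (a q) (a d)
    have l10 := pos_lt q (a q)
    have m1 := cl_mono (a d) p
    have m2 := cl_mono q (a d)
    have n7 := nc (a d) (a q) (hCh d hd) (hCh q q1)
    have n8 := nc (a p) (a d) (hCh p p1) (hCh d hd)
    simp only [aa] at n7 n8
    rcases lt_or_gt_of_ne hij with hij | hij
    · by_cases k1 : pos (a d) < pos p
      · exact n1 k1 h1 (by omega)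
      · have k2 : pos q < pos (a d) := hn.1 (by omega)
        rcases lt_or_gt_of_ne hn.2 with k3 | k3
        · exact n2 h2 k2 (by omega)
        · exact n3 h1 (by omega) (by omega)
    · by_cases k1 : pos q < pos (a d)
      · exact n5 (by omega) h2 k1
      · have k2 : pos (a d) < pos p := by
          by_contra k2
          exact k1 (hn.1 (by omega))
        rcases lt_or_gt_of_ne hn.2 with k3 | k3
        · exact n6 (by omega) (by omega) h2
        · exact n4 (by omega) k2 h1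
  have noP : ∀ i j p q, i ≠ j → p ∈ E i j → q ∈ E i j →
      (∀ y ∈ E i j, pos p ≤ pos y ∧ pos y ≤ pos q) → ∀ d ∈ P, ¬ (pos p < pos d ∧ pos d < pos q) := by
    rintro i j p q hij hp hq hpq d hd ⟨h1, h2⟩
    obtain ⟨m1, m2, m3⟩ := main i j p q hij hp hq d h1 h2
    rcases memP d hd with h | ⟨i', j', h⟩
    · exact m2 h
    obtain ⟨t1, t2, t3⟩ := T2 _ d h
    have t2' := (memE _ _ _).1 t2
    simp only at t1 t2' t3
    have e1 : i' = i := by omega
    rcases m3 t2'.1 with k | k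
    · have c1 := cl_mono p (a d) k.1
      have c2 := cl_mono (a d) q k.2
      have := ((memE _ _ _).1 hp).2.1
      have := ((memE _ _ _).1 hq).2.1
      omega
    · have e2 : j' = j := by omega
      subst e1 e2
      rcases t3 with t3 | t3
      · have := t3 p hp; omega
      · have := t3 q hq; omega
  refine ⟨P, subset_union_left, ?_, fun x hx => ?_⟩
  · refine (card_union_le _ _).trans (Nat.add_le_add_left ?_ _)
    refine (card_biUnion_le_card_mul R T 2 fun ij _ => T1 ij).trans ?_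
    simp only [R, card_product, card_range]
    nlinarith
  obtain ⟨mn, mn1, mn2⟩ := hmin
  obtain ⟨mx, mx1, mx2⟩ := hmax
  have hP0 : ∀ y ∈ P0, y ∈ P := fun y hy => mem_union_left _ hy
  obtain ⟨lo, lo1, lo2⟩ := exists_max_image (P.filter (fun p => pos p < pos x)) pos
    ⟨mn, mem_filter.2 ⟨hP0 _ mn1, lt_of_le_of_ne (mn2 x) fun e => hx (hinj e ▸ hP0 _ mn1)⟩⟩
  obtain ⟨hi, hi1, hi2⟩ := exists_min_image (P.filter (fun p => pos x < pos p)) pos
    ⟨mx, mem_filter.2 ⟨hP0 _ mx1, lt_of_le_of_ne (mx2 x) fun e => hx (hinj e ▸ hP0 _ mx1)⟩⟩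
  simp only [mem_filter, and_imp] at lo1 lo2 hi1 hi2
  have gap : ∀ d ∈ P, ¬ (pos lo < pos d ∧ pos d < pos hi) := by
    rintro d hd ⟨h1, h2⟩
    rcases lt_trichotomy (pos d) (pos x) with h | h | h
    · have := lo2 d hd h; omega
    · exact hx (hinj h ▸ hd)
    · have := hi2 d hd h; omega
  by_cases hc : ∃ d, pos lo < pos d ∧ pos d < pos hi ∧ Ch d ∧ cl (a d) ≠ cl d
  · obtain ⟨d, h1, h2, h3, h4⟩ := hc
    obtain ⟨p, p1, q, q1, pq⟩ := T3 (cl d, cl (a d)) h4.symm ⟨d, (memE _ _ _).2 ⟨h3, rfl, rfl⟩⟩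
    obtain ⟨p', p1', q', q1', pq'⟩ := T3 (cl (a d), cl d) h4
      ⟨a d, (memE _ _ _).2 ⟨hCh d h3, rfl, by rw [aa]⟩⟩
    have pE := (T2 _ p p1).2.1
    have qE := (T2 _ q q1).2.1
    have pE' := (T2 _ p' p1').2.1
    have qE' := (T2 _ q' q1').2.1
    simp only at pq pq' pE qE pE' qE'
    have hd := pq d ((memE _ _ _).2 ⟨h3, rfl, rfl⟩)
    have g1 := gap p (memT _ _ _ p1)
    have g2 := gap q (memT _ _ _ q1)
    refine ⟨p, memT _ _ _ p1, q, memT _ _ _ q1, p', memT _ _ _ p1', q', memT _ _ _ q1',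
      ⟨by omega, by omega⟩, ?_, ?_⟩
    · rintro e he (h | h)
      · exact noP _ _ p q h4.symm pE qE pq e he h
      · exact noP _ _ p' q' h4 pE' qE' pq' e he h
    · rintro e (h | h) he
      · obtain ⟨m1, -, m3⟩ := main _ _ p q h4.symm pE qE e h.1 h.2
        rcases m3 he with k | k
        · exact Or.inl k
        · exact Or.inr (pq' _ ((memE _ _ _).2 ⟨hCh e he, k, by rw [aa, m1]⟩))
      · obtain ⟨m1, -, m3⟩ := main _ _ p' q' h4 pE' qE' e h.1 h.2
        rcases m3 he with k | k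
        · exact Or.inr k
        · exact Or.inl (pq _ ((memE _ _ _).2 ⟨hCh e he, k, by rw [aa, m1]⟩))
  push Not at hc
  refine ⟨lo, lo1.1, hi, hi1.1, lo, lo1.1, hi, hi1.1, ⟨lo1.2, hi1.2⟩, ?_, ?_⟩
  · rintro e he (h | h) <;> exact gap e he h
  · intro e h he
    have h : pos lo < pos e ∧ pos e < pos hi := by tauto
    left
    have k := hc e h.1 h.2 he
    -- a boundary point strictly between `e` and `a e` is impossible
    have key : ∀ b ∈ P, (pos e < pos b ∧ pos b < pos (a e)) ∨ (pos (a e) < pos b ∧ pos b < pos e) →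
        False := by
      intro b hb hbe
      have c1 := cl_mono e b
      have c2 := cl_mono b (a e)
      have c3 := cl_mono (a e) b
      have c4 := cl_mono b e
      rcases memP b hb with h0 | ⟨i', j', h0⟩
      · have s1 := cl_strict e b
        have s2 := cl_strict (a e) b
        simp only [h0, or_true, forall_const] at s1 s2
        omega
      obtain ⟨t1, t2, -⟩ := T2 _ b h0
      have t2' := (memE _ _ _).1 t2
      simp only at t1 t2'
      have l1 := pos_lt (a b) e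
      have l2 := pos_lt (a b) (a e)
      have l3 := pos_lt e (a b)
      have l4 := pos_lt (a e) (a b)
      have n1 := nc e b he t2'.1
      have n2 := nc (a b) e (hCh b t2'.1) he
      have n3 := nc (a e) b (hCh e he) t2'.1
      have n4 := nc (a b) (a e) (hCh b t2'.1) (hCh e he)
      simp only [aa] at n2 n3 n4
      rcases lt_or_gt_of_ne t1 with t1 | t1 <;> rcases hbe with hbe | hbe
      · exact n1 hbe.1 hbe.2 (by omega)
      · exact n3 hbe.1 hbe.2 (by omega)
      · exact n2 (by omega) hbe.1 hbe.2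
      · exact n4 (by omega) hbe.1 hbe.2
    constructor
    · by_contra hn
      exact key lo lo1.1 (Or.inr ⟨by omega, h.1⟩)
    · by_contra hn
      exact key hi hi1.1 (Or.inl ⟨h.2, by omega⟩)

omit [DecidableEq D] in
lemma interval_of_exit (f : Equiv.Perm D) (d0 : D) (S : Set D) (h0 : d0 ∉ S) (x0 : D)
    (hx : ∀ d ∈ S, f d ∉ S → d = x0) {i j k : ℕ} (hij : i ≤ j) (hjk : j ≤ k) (hk : k < per f d0)
    (hi : el f d0 i ∈ S) (hk' : el f d0 k ∈ S) : el f d0 j ∈ S := by
  have ex : ∀ p q, p ≤ q → el f d0 p ∈ S → el f d0 q ∉ S →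
      ∃ r, p ≤ r ∧ r < q ∧ el f d0 r = x0 := by
    intro p q hpq hp
    induction q, hpq using Nat.le_induction with
    | base => exact fun h => absurd hp h
    | succ q hq ih =>
      intro h
      by_cases hq' : el f d0 q ∈ S
      · exact ⟨q, hq, by omega, hx _ hq' (by rwa [← el_succ])⟩
      · obtain ⟨r, r1, r2, r3⟩ := ih hq'
        exact ⟨r, r1, by omega, r3⟩
  by_contra hj
  obtain ⟨r, r1, r2, r3⟩ := ex i j hij hi hj
  obtain ⟨r', r1', r2', r3'⟩ := ex k (per f d0) hk.le hk' (by rwa [el_per])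
  have := el_inj f d0 (by omega) r2' (r3.trans r3'.symm)
  omega

lemma el_jump (f : Equiv.Perm D) (g0 : D) (w : D → ZMod 2) {j1 j2 : ℕ} (h12 : j1 < j2)
    (h2 : j2 < per f g0)
    (step : ∀ d, w (f d) = w d + (ind d (el f g0 j1) + ind d (el f g0 j2)))
    {j : ℕ} (hj1 : j1 < j) (hj : j < per f g0) :
    w (el f g0 j) = w (el f g0 j1) + if j ≤ j2 then 1 else 0 := by
  have hi : ∀ k r, k < per f g0 → r < per f g0 → k ≠ r → ind (el f g0 k) (el f g0 r) = 0 :=
    fun k r hk hr h => ind_ne fun e => h (el_inj _ _ hk hr e)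
  have a1 : ∀ j, j1 < j → j ≤ j2 → w (el f g0 j) = w (el f g0 j1) + 1 := by
    intro j h1 h2'
    rw [el_const f g0 w (p := j1 + 1) h1 (fun k k1 k2 => by
      rw [step, hi k j1 (by omega) (by omega) (by omega), hi k j2 (by omega) (by omega) (by omega)]
      simp), el_succ, step, ind_self, hi j1 j2 (by omega) h2 (by omega), add_zero]
  by_cases hj2 : j ≤ j2
  · rw [if_pos hj2, a1 j hj1 hj2]
  · rw [if_neg hj2, el_const f g0 w (p := j2 + 1) (by omega) (fun k k1 k2 => by
      rw [step, hi k j1 (by omega) (by omega) (by omega), hi k j2 (by omega) (by omega) (by omega)]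
      simp), el_succ, step, ind_self, hi j2 j1 h2 (by omega) (by omega), a1 j2 h12 le_rfl,
      zero_add, add_assoc, z2]

end abstract

variable {V D : Type} [DecidableEq V] [Fintype D] [DecidableEq D] {G : SimpleGraph V}

namespace Ctx

variable (C : Ctx G D)

def A (p : D) : Finset V := (C.M.tl p).toFinset ∪ ((C.M.tl p).bind C.par).toFinset

omit [DecidableEq D] in
lemma mem_A {p : D} {y : V} :
    y ∈ C.A p ↔ C.M.tl p = some y ∨ ∃ v, C.M.tl p = some v ∧ C.par v = some y := by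
  simp [A, Option.mem_def, Option.bind_eq_some_iff]

omit [DecidableEq D] in
lemma card_A (p : D) : (C.A p).card ≤ 2 := by
  have : ∀ x : Option V, x.toFinset.card ≤ 1 := by rintro (_ | x) <;> simp
  exact (card_union_le _ _).trans (add_le_add (this _) (this _))

lemma contour (v0 : V) : ∃ (pos : D → ℕ) (F : D → Prop), Function.Injective pos ∧
    (∀ d, F d → ∃ v, d = C.td v ∨ d = C.M.a (C.td v)) ∧ (∀ d, F d → F (C.M.a d)) ∧
    (∀ d e, ¬ F d → ¬ F e → pos d < pos e → pos e < pos (C.M.a d) →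
      pos (C.M.a d) < pos (C.M.a e) → False) ∧
    ∀ y d e d', y ∈ C.A d → y ∈ C.A d' → pos d ≤ pos e → pos e ≤ pos d' → y ∈ C.A e := by
  classical
  let R : Option V → Option V → Prop := fun x y => ∃ d', (∃ v, d' = C.td v ∨ d' = C.M.a (C.td v)) ∧
    C.M.tl d' = x ∧ C.M.tl (C.M.a d') = y
  have up : ∀ v, R (some v) (C.par v) := fun v => ⟨_, ⟨v, Or.inl rfl⟩, C.td1 v, C.td2 v⟩
  have dn : ∀ v, R (C.par v) (some v) :=
    fun v => ⟨_, ⟨v, Or.inr rfl⟩, C.td2 v, by rw [C.M.aa, C.td1]⟩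
  have root : ∀ x, Relation.ReflTransGen R x none ∧ Relation.ReflTransGen R none x := by
    rintro (_ | v)
    · exact ⟨.refl, .refl⟩
    · have u := up v
      have d := dn v
      rcases h : C.par v with _ | c
      · rw [h] at u d; exact ⟨.single u, .single d⟩
      · have u' := up c
        have d' := dn c
        rw [C.hpar v c h] at u' d'
        rw [h] at u d
        exact ⟨.head u (.single u'), .tail (.single d') d⟩
  obtain ⟨M', -, F, F1, F2, F3, F4⟩ := PMap.blob (fun _ : Option V => ())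
    (fun d => ∃ v, d = C.td v ∨ d = C.M.a (C.td v)) _ C.M rfl
    (by
      rintro d ⟨v, rfl | rfl⟩
      · exact ⟨v, Or.inr rfl⟩
      · exact ⟨v, Or.inl (C.M.aa _)⟩)
    (fun _ _ => rfl) (fun d e _ => (root _).1.trans (root _).2)
  obtain ⟨d0, hd0⟩ : ∃ d0, C.M.tl d0 = none := by
    rcases h : C.par v0 with _ | c
    · exact ⟨_, (C.td2 v0).trans h⟩
    · exact ⟨_, (C.td2 c).trans (C.hpar _ _ h)⟩
  have hex : ∀ d, ∃ k < per M'.s d0, el M'.s d0 k = d := fun d => exists_el _ _ (M'.cyc _ _ rfl)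
  choose pos p1 p2 using hex
  refine ⟨pos, F, fun d e h => by rw [← p2 d, h, p2], F1, F2, ?_, ?_⟩
  · intro d e hd he h1 h2 h3
    obtain ⟨w, w1, w2⟩ := M'.pot0 (M'.ec_chain d) (fun x => by rw [ec_bdry, z2])
    have st : ∀ x, w (M'.s x) = w x + (ind x (el M'.s d0 (pos d)) +
        ind x (el M'.s d0 (pos (C.M.a d)))) := by
      intro x; rw [p2, p2, w1, ec, (F4 d hd).1]
    have a1 := el_jump M'.s d0 w (h1.trans h2) (p1 _) st h1 (p1 _)
    have a2 := el_jump M'.s d0 w (h1.trans h2) (p1 _) st (h1.trans (h2.trans h3)) (p1 _)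
    rw [p2, p2, if_pos h2.le] at a1
    rw [p2, p2, if_neg (by omega)] at a2
    have a3 := w2 e
    have n1 : e ≠ d := fun h => by rw [h] at h1; omega
    have n2 : e ≠ C.M.a d := fun h => by rw [h] at h2; omega
    rw [(F4 e he).1, ec, (F4 d hd).1, ind_ne n1, ind_ne n2, a1, a2] at a3
    simp at a3
  · intro y d e d' hd hd' h1 h2
    have := interval_of_exit M'.s d0 {d | y ∈ C.A d} (by simp [mem_A, hd0]) (C.td y) (by
      intro x hx hn
      simp only [Set.mem_setOf_eq, mem_A] at hx hn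
      by_cases hF : F x
      · rw [(F3 x hF).2, C.M.tl_s] at hn
        obtain ⟨v, rfl | rfl⟩ := F1 x hF
        · rw [C.td2] at hn
          rw [C.td1] at hx
          rcases hx with hx | ⟨v', hx, hx'⟩
          · rw [Option.some.inj hx]
          · rw [← Option.some.inj hx] at hx'
            exact absurd (Or.inl hx') hn
        · rw [C.M.aa, C.td1] at hn
          rw [C.td2] at hx
          rcases hx with hx | ⟨v', hx, hx'⟩
          · exact absurd (Or.inr ⟨v, rfl, hx⟩) hn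
          · rw [C.hpar _ _ hx] at hx'; exact absurd hx' (by simp)
      · rw [(F4 x hF).2, C.M.tl_s] at hn
        exact absurd hx hn) h1 h2 (p1 _) (by rw [p2]; exact hd) (by rw [p2]; exact hd')
    rwa [p2] at this

def sepB (w : ℕ) : ℕ := 2 * (w + 2 + 2 * (2 * (w + 2) + 2) ^ 2)

lemma sepB_mono {a b : ℕ} (h : a ≤ b) : sepB a ≤ sepB b := by
  unfold sepB; gcongr

theorem separator (v0 : V) (W : Finset V) : ∃ Z : Finset V, W ⊆ Z ∧ Z.card ≤ sepB W.card ∧
    (∀ v ∈ Z, ∀ c, C.par v = some c → c ∈ Z) ∧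
    ∀ y ∉ Z, ∃ B : Finset V, B.card ≤ 8 ∧ bd G (comp G (↑Z)ᶜ y) ⊆ ↑B := by
  classical
  obtain ⟨pos, F, hinj, F1, F2, nc, hint⟩ := C.contour v0
  obtain ⟨mn, -, mn2⟩ := exists_min_image univ pos ⟨C.td v0, mem_univ _⟩
  obtain ⟨mx, -, mx2⟩ := exists_max_image univ pos ⟨C.td v0, mem_univ _⟩
  let P0 : Finset D := insert mn (insert mx (W.image C.td))
  have hP0 : P0.card ≤ W.card + 2 := by
    have h1 := card_insert_le mn (insert mx (W.image C.td))
    have h2 := card_insert_le mx (W.image C.td)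
    have h3 := card_image_le (s := W) (f := C.td)
    simp only [P0]; omega
  obtain ⟨P, P1, P2, P3⟩ := cut_lemma pos hinj C.M.a C.M.aa (fun d => ¬ F d)
    (fun d hd h => hd (by rw [← C.M.aa d]; exact F2 _ h)) nc P0
    ⟨mn, by simp [P0], fun d => mn2 d (mem_univ _)⟩ ⟨mx, by simp [P0], fun d => mx2 d (mem_univ _)⟩
  have tA : ∀ v, v ∈ C.A (C.td v) := fun v => C.mem_A.2 (Or.inl (C.td1 v))
  refine ⟨P.biUnion C.A, fun v hv => ?_, ?_, ?_, fun y hy => ?_⟩
  · exact mem_biUnion.2 ⟨C.td v, P1 (mem_insert_of_mem (mem_insert_of_mem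
      (mem_image_of_mem _ hv))), tA v⟩
  · refine (card_biUnion_le_card_mul P C.A 2 fun p _ => C.card_A p).trans ?_
    have : (2 * P0.card + 2) ^ 2 ≤ (2 * (W.card + 2) + 2) ^ 2 := by gcongr
    unfold sepB; omega
  · intro v hv c hc
    obtain ⟨p, hp, hv⟩ := mem_biUnion.1 hv
    refine mem_biUnion.2 ⟨p, hp, C.mem_A.2 (Or.inr ?_)⟩
    rcases C.mem_A.1 hv with h | ⟨v', -, h⟩
    · exact ⟨v, h, hc⟩
    · rw [C.hpar _ _ h] at hc; exact absurd hc (by simp)
  have hy' : C.td y ∉ P := fun h => hy (mem_biUnion.2 ⟨_, h, tA y⟩)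
  obtain ⟨p, hp, q, hq, p', hp', q', hq', h1, h2, h3⟩ := P3 _ hy'
  let B := C.A p ∪ C.A q ∪ C.A p' ∪ C.A q'
  let Γ : D → Prop := fun d => (pos p < pos d ∧ pos d < pos q) ∨ (pos p' < pos d ∧ pos d < pos q')
  have BZ : ∀ v ∈ B, v ∈ P.biUnion C.A := by
    intro v hv
    simp only [B, mem_union] at hv
    rcases hv with ((h | h) | h) | h
    exacts [mem_biUnion.2 ⟨_, hp, h⟩, mem_biUnion.2 ⟨_, hq, h⟩, mem_biUnion.2 ⟨_, hp', h⟩,
      mem_biUnion.2 ⟨_, hq', h⟩]
  have K1 : ∀ d v, ((pos p ≤ pos d ∧ pos d ≤ pos q) ∨ (pos p' ≤ pos d ∧ pos d ≤ pos q')) →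
      v ∈ C.A d → v ∉ B → ∀ d', v ∈ C.A d' → Γ d' := by
    intro d v hd hv hB d' hd'
    simp only [B, mem_union, not_or] at hB
    rcases hd with hd | hd
    · left
      constructor
      · by_contra h; exact hB.1.1.1 (hint v d' p d hd' hv (by omega) hd.1)
      · by_contra h; exact hB.1.1.2 (hint v d q d' hv hd' hd.2 (by omega))
    · right
      constructor
      · by_contra h; exact hB.1.2 (hint v d' p' d hd' hv (by omega) hd.1)
      · by_contra h; exact hB.2 (hint v d q' d' hv hd' hd.2 (by omega))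
  have wk : ∀ d, Γ d → (pos p ≤ pos d ∧ pos d ≤ pos q) ∨ (pos p' ≤ pos d ∧ pos d ≤ pos q') := by
    intro d hd; simp only [Γ] at hd; omega
  have K2 : ∀ v v', v ∉ B → Γ (C.td v) → G.Adj v v' → v' ∉ B → Γ (C.td v') := by
    intro v v' hv hΓ hadj hv'
    have S := K1 _ v (wk _ hΓ) (tA v) hv
    have e1 := S (C.gd v v') (C.mem_A.2 (Or.inl (C.gd1 _ _ hadj)))
    by_cases hF : F (C.gd v v')
    · obtain ⟨u, hu | hu⟩ := F1 _ hF
      · have a1 := C.gd1 _ _ hadj
        have a2 := C.gd2 _ _ hadj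
        rw [hu, C.td1] at a1
        rw [hu, C.td2, Option.some.inj a1] at a2
        exact K1 _ v' (wk _ hΓ) (C.mem_A.2 (Or.inr ⟨v, C.td1 v, a2⟩)) hv' _ (tA v')
      · have a1 := C.gd1 _ _ hadj
        have a2 := C.gd2 _ _ hadj
        rw [hu, C.M.aa, C.td1] at a2
        rw [hu, C.td2, Option.some.inj a2] at a1
        exact S _ (C.mem_A.2 (Or.inr ⟨v', C.td1 v', a1⟩))
    · exact K1 _ v' (h3 _ e1 hF) (C.mem_A.2 (Or.inl (C.gd2 _ _ hadj))) hv' _ (tA v')
  refine ⟨B, ?_, ?_⟩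
  · have := C.card_A
    have a1 := card_union_le (C.A p ∪ C.A q ∪ C.A p') (C.A q')
    have a2 := card_union_le (C.A p ∪ C.A q) (C.A p')
    have a3 := card_union_le (C.A p) (C.A q)
    have := C.card_A p; have := C.card_A q; have := C.card_A p'; have := C.card_A q'
    simp only [B]; omega
  · have sub : comp G (↑(P.biUnion C.A))ᶜ y ⊆ {v | Γ (C.td v)} :=
      comp_le (Or.inl h1) fun a ha b hab aX bX =>
        K2 a b (fun h => aX (BZ _ h)) ha hab (fun h => bX (BZ _ h))
    rintro b ⟨hb, x, hx, hxb⟩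
    by_contra hB
    have xZ := comp_sub (G := G) (X := (↑(P.biUnion C.A))ᶜ) (v := y) hy hx
    have bZ : b ∈ P.biUnion C.A := by
      by_contra h; exact hb (comp_step hy hx hxb h)
    have g := K2 x b (fun h => xZ (BZ _ h)) (sub hx) hxb hB
    obtain ⟨r, hr, hr'⟩ := mem_biUnion.1 bZ
    exact h2 r hr (K1 _ b (wk _ g) (tA b) hB r hr')

end Ctx

end Pool.Agent.P.MP_845aff_co
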