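import Pool.Agent.P.MP_845aff_co.PMap
import Pool.Agent.P.MP_da739a_co.Grid

/-! A minor model in the square grid gives a planar combinatorial map. -/

namespace Pool.Agent.P.MP_845aff_co

open Finset Pool.Agent.P.MP_da739a_co

lemma exists_cellpot (H V : ℤ → ℤ → ZMod 2) (N : ℤ) (hH : ∀ i j, i ≤ N → H i j = 0)
    (hV : ∀ i j, i ≤ N → V i j = 0)
    (hs : ∀ i j, H i j + V i j + H (i - 1) j + V i (j - 1) = 0) :
    ∃ W : ℤ → ℤ → ZMod 2, ∀ i j, W i j = W (i - 1) j + V i j ∧ W i j = W i (j - 1) + H i j := by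
  have h1 : ∀ i j, ∑ m ∈ Ioc N i, V m j = ∑ m ∈ Ioc N (i - 1), V m j + V i j := by
    intro i j
    by_cases h : i ≤ N
    · rw [Ioc_eq_empty (by omega), Ioc_eq_empty (by omega), hV i j h]; simp
    · have : Ioc N i = insert i (Ioc N (i - 1)) := by
        ext m; simp only [mem_Ioc, mem_insert]; omega
      rw [this, sum_insert (by simp), add_comm]
  refine ⟨fun i j => ∑ m ∈ Ioc N i, V m j, fun i j => ⟨h1 i j, ?_⟩⟩
  by_cases h : i ≤ N
  · simp only [Ioc_eq_empty (show ¬ N < i by omega), hH i j h]; simp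
  · have h' : N ≤ i := by omega
    clear h
    induction i, h' using Int.leInduction with
    | base => simp [hH N j le_rfl]
    | succ i hi ih =>
      have a := h1 (i + 1) j
      have b := h1 (i + 1) (j - 1)
      have c := hs (i + 1) j
      simp only [add_sub_cancel_right] at a b c
      have d := z2 (H (i + 1) j)
      have e := z2 (V (i + 1) (j - 1))
      simp only at ih ⊢
      linear_combination a - b + ih + c - d - e

/-- the four directions -/
def dir4 (k : Fin 4) : ℤ × ℤ := ![(1, 0), (0, 1), (-1, 0), (0, -1)] k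

lemma dir4_add_two (k : Fin 4) : dir4 k + dir4 (k + 2) = 0 := by
  revert k; decide

lemma add_two_two (k : Fin 4) : k + 2 + 2 = k := by
  revert k; decide

/-- opposite dart -/
def opp (U : Finset (ℤ × ℤ)) (d : U × Fin 4) : U × Fin 4 :=
  if h : d.1.1 + dir4 d.2 ∈ U then (⟨_, h⟩, d.2 + 2) else d

lemma opp_opp (U : Finset (ℤ × ℤ)) : Function.Involutive (opp U) := by
  rintro ⟨⟨p, hp⟩, k⟩
  by_cases h : p + dir4 k ∈ U
  · have h2 : p + dir4 k + dir4 (k + 2) = p := by rw [add_assoc, dir4_add_two, add_zero]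
    have h3 : p + dir4 k + dir4 (k + 2) ∈ U := by rw [h2]; exact hp
    simp only [opp, h, dif_pos, h3, add_two_two]
    simp only [h2]
  · simp only [opp, h, dif_neg, not_false_eq_true]

/-- the map of a finite piece of the square grid -/
def gridMap (U : Finset (ℤ × ℤ)) : PMap (U × Fin 4) (ℤ × ℤ) where
  s := Equiv.prodCongr (Equiv.refl _) (Equiv.addRight 1)
  a := (opp_opp U).toPerm
  tl := fun d => d.1.1
  aa := opp_opp U
  tl_s := fun _ => rfl
  cyc := by
    rintro ⟨p, k⟩ ⟨p', l⟩ h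
    obtain rfl : p = p' := Subtype.ext h
    have step : ∀ k : Fin 4, Equiv.Perm.SameCycle
        (Equiv.prodCongr (Equiv.refl U) (Equiv.addRight (1 : Fin 4))) (p, k) (p, k + 1) :=
      fun k => ⟨1, by simp⟩
    have h0 : ∀ k : Fin 4, Equiv.Perm.SameCycle
        (Equiv.prodCongr (Equiv.refl U) (Equiv.addRight (1 : Fin 4))) (p, 0) (p, k) := by
      intro k
      fin_cases k
      · exact Equiv.Perm.SameCycle.refl _ _
      · exact step 0
      · exact (step 0).trans (step 1)
      · exact ((step 0).trans (step 1)).trans (step 2)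
    exact (h0 k).symm.trans (h0 l)
  pot := by
    intro c hc hf hs
    let C : ℤ × ℤ → Fin 4 → ZMod 2 := fun p k => if h : p ∈ U then c (⟨p, h⟩, k) else 0
    have C0 : ∀ p k, p ∉ U → C p k = 0 := fun p k h => by simp [C, h]
    have C1 : ∀ p k, p + dir4 k ∉ U → C p k = 0 := by
      intro p k h
      by_cases hp : p ∈ U
      · simp only [C, hp, dif_pos]
        exact hf _ (by simp [opp, h])
      · exact C0 p k hp
    have C2 : ∀ p k, C (p + dir4 k) (k + 2) = C p k := by
      intro p k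
      by_cases hp : p ∈ U
      · by_cases h : p + dir4 k ∈ U
        · have := hc (⟨p, hp⟩, k)
          simp only [Function.Involutive.coe_toPerm, opp, h, dif_pos] at this
          simp only [C, hp, h, dif_pos, this]
        · rw [C0 _ _ h, C1 _ _ h]
      · rw [C0 _ _ hp, C1 _ _ (by rwa [add_assoc, dir4_add_two, add_zero])]
    have C3 : ∀ p, C p 0 + C p 1 + C p 2 + C p 3 = 0 := by
      intro p
      by_cases hp : p ∈ U
      · have := hs p
        have e : univ.filter (fun d : U × Fin 4 => d.1.1 = p) =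
            univ.image (fun k => (⟨p, hp⟩, k)) := by
          ext ⟨⟨p', hp'⟩, k⟩
          simp [eq_comm]
        rw [e, sum_image (fun _ _ _ _ h => (Prod.ext_iff.1 h).2), Fin.sum_univ_four] at this
        simpa [C, hp] using this
      · simp [C0 p _ hp]
    obtain ⟨N, hN⟩ := (U.image Prod.fst).bddBelow
    have hN' : ∀ i j, i ≤ N - 1 → (i, j) ∉ U := by
      intro i j h hU
      have := hN (mem_coe.2 (mem_image_of_mem Prod.fst hU))
      simp only at this
      omega
    have e2 : ∀ i j, C (i, j) 2 = C (i - 1, j) 0 := by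
      intro i j
      have := C2 (i - 1, j) 0
      simpa [dir4] using this
    have e3 : ∀ i j, C (i, j) 3 = C (i, j - 1) 1 := by
      intro i j
      have := C2 (i, j - 1) 1
      simpa [dir4] using this
    obtain ⟨W, hW⟩ := exists_cellpot (fun i j => C (i, j) 0) (fun i j => C (i, j) 1) (N - 1)
      (fun i j h => C0 _ _ (hN' i j h)) (fun i j h => C0 _ _ (hN' i j h))
      (fun i j => by have := C3 (i, j); rwa [e2, e3] at this)
    let w : ℤ × ℤ → Fin 4 → ZMod 2 := fun p k =>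
      ![W p.1 (p.2 - 1), W p.1 p.2, W (p.1 - 1) p.2, W (p.1 - 1) (p.2 - 1)] k
    have w1 : ∀ p k, w p (k + 1) = w p k + C p k := by
      rintro ⟨i, j⟩ k
      fin_cases k
      · exact (hW i j).2
      · have := (hW i j).1
        have d := z2 (C (i, j) 1)
        show W (i - 1) j = W i j + C (i, j) 1
        linear_combination -this - d
      · have := (hW (i - 1) j).2
        have d := z2 (C (i - 1, j) 0)
        show W (i - 1) (j - 1) = W (i - 1) j + C (i, j) 2
        rw [e2]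
        linear_combination -this - d
      · have := (hW i (j - 1)).1
        show W i (j - 1) = W (i - 1) (j - 1) + C (i, j) 3
        rw [e3]
        exact this
    have w2 : ∀ p k, w (p + dir4 k) (k + 2) = w p (k + 1) := by
      rintro ⟨i, j⟩ k
      fin_cases k
      · show W (i + 1 - 1) (j + 0) = W i j
        simp
      · show W (i + 0 - 1) (j + 1 - 1) = W (i - 1) j
        simp
      · show W (i + -1) (j + 0 - 1) = W (i - 1) (j - 1)
        simp [sub_eq_add_neg]
      · show W (i + 0) (j + -1) = W i (j - 1)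
        simp [sub_eq_add_neg]
    refine ⟨fun d => w d.1.1 d.2, ?_⟩
    rintro ⟨⟨p, hp⟩, k⟩
    have hC : C p k = c (⟨p, hp⟩, k) := by simp [C, hp]
    refine ⟨by rw [← hC]; exact w1 p k, ?_⟩
    by_cases h : p + dir4 k ∈ U
    · simp only [Function.Involutive.coe_toPerm, opp, h, dif_pos]
      rw [w2, w1, hC]
    · simp only [Function.Involutive.coe_toPerm, opp, h, dif_neg, not_false_eq_true]
      rw [← hC, C1 _ _ h, add_zero]

lemma joins_dir {g : GE} {a b : ℤ × ℤ} (h : Joins g a b) : ∃ k, b = a + dir4 k := by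
  obtain ⟨⟨i, j⟩, t⟩ := g
  cases t <;> rcases h with ⟨rfl, rfl⟩ | ⟨rfl, rfl⟩
  · exact ⟨0, by simp [gt, dir4]⟩
  · exact ⟨2, by simp [gt, dir4]⟩
  · exact ⟨1, by simp [gt, dir4]⟩
  · exact ⟨3, by simp [gt, dir4]⟩

lemma grid_dart (U : Finset (ℤ × ℤ)) {g : GE} {a b : ℤ × ℤ} (h : Joins g a b) (ha : a ∈ U)
    (hb : b ∈ U) : ∃ d, (gridMap U).tl d = a ∧ (gridMap U).tl ((gridMap U).a d) = b := by
  obtain ⟨k, rfl⟩ := joins_dir h
  refine ⟨(⟨a, ha⟩, k), rfl, ?_⟩
  simp [gridMap, opp, hb]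

/-- two sets of cells touch -/
def Touch (A B : Set (ℤ × ℤ)) : Prop := ∃ a ∈ A, ∃ b ∈ B, ∃ g, Joins g a b

lemma Touch.symm {A B : Set (ℤ × ℤ)} (h : Touch A B) : Touch B A := by
  obtain ⟨a, ha, b, hb, g, hg⟩ := h
  exact ⟨b, hb, a, ha, g, Or.symm hg⟩

lemma Touch.mono {A B A' B' : Set (ℤ × ℤ)} (h : Touch A B) (h1 : A ⊆ A') (h2 : B ⊆ B') :
    Touch A' B' := by
  obtain ⟨a, ha, b, hb, g, hg⟩ := h
  exact ⟨a, h1 ha, b, h2 hb, g, hg⟩

theorem map_of_blobs {W : Type} [Finite W] [DecidableEq W] [Nonempty W] (B : W → Set (ℤ × ℤ))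
    (hfin : ∀ x, (B x).Finite) (hdis : ∀ x y a, a ∈ B x → a ∈ B y → x = y)
    (hcon : ∀ x, ∀ a ∈ B x, ∀ b ∈ B x, RT (B x) a b) :
    ∃ (D : Type) (_ : Fintype D) (_ : DecidableEq D) (M : PMap D W),
      ∀ x y, x ≠ y → Touch (B x) (B y) → ∃ d, M.tl d = x ∧ M.tl (M.a d) = y := by
  classical
  let U : Finset (ℤ × ℤ) := (Set.finite_iUnion hfin).toFinset
  have hU : ∀ a, a ∈ U ↔ ∃ x, a ∈ B x := fun a => by simp [U]
  let q : ℤ × ℤ → W := fun a => Classical.epsilon fun x => a ∈ B x
  have hq : ∀ x a, a ∈ B x → q a = x := fun x a h =>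
    hdis _ _ a (Classical.epsilon_spec (p := fun x => a ∈ B x) ⟨x, h⟩) h
  let M := gridMap U
  obtain ⟨M', h1, F, h2, -, -, h5⟩ := PMap.blob q (fun d => q (M.tl d) = q (M.tl (M.a d))) _ M rfl
    (fun d hd => by rw [M.aa]; exact hd.symm) (fun d hd => hd) (by
      intro d e h
      obtain ⟨x, hx⟩ := (hU _).1 d.1.2
      obtain ⟨y, hy⟩ := (hU _).1 e.1.2
      have hxy : x = y := by rw [← hq x _ hx, ← hq y _ hy]; exact h
      subst hxy
      have := hcon x _ hx _ hy
      show Relation.ReflTransGen _ d.1.1 e.1.1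
      refine Relation.ReflTransGen.mono ?_ _ _ this
      rintro a b ⟨ha, hb, g, hg⟩
      obtain ⟨d', k1, k2⟩ := grid_dart U hg ((hU _).2 ⟨x, ha⟩) ((hU _).2 ⟨x, hb⟩)
      exact ⟨d', by rw [k1, k2, hq x a ha, hq x b hb], k1, k2⟩)
  refine ⟨_, inferInstance, inferInstance, M', ?_⟩
  rintro x y hxy ⟨a, ha, b, hb, g, hg⟩
  obtain ⟨d, k1, k2⟩ := grid_dart U hg ((hU _).2 ⟨x, ha⟩) ((hU _).2 ⟨y, hb⟩)
  have hn : ¬ F d := fun h => by
    have := h2 d h
    rw [k1, k2, hq x a ha, hq y b hb] at this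
    exact hxy this
  exact ⟨d, by rw [h1, k1, hq x a ha], by rw [h1, (h5 d hn).1, k2, hq y b hb]⟩

end Pool.Agent.P.MP_845aff_co
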