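import Pool.Agent.P.MP_845aff_co.Topo1
import Pool.Agent.P.MP_da739a_co.Topo

/-! Growing the blobs of the outer vertices, and minor models from compact sets. -/

namespace Pool.Agent.P.MP_845aff_co

open Set Pool.Agent.P.MP_da739a_co

lemma rt_restrict {U U' : Set (ℤ × ℤ)} {r a : ℤ × ℤ} (h : RT U r a)
    (hU : ∀ b, b ∈ U → RT U r b → b ∈ U') : RT U' r a := by
  induction h with
  | refl => exact Relation.ReflTransGen.refl
  | @tail b c hb hbc ih =>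
    exact Relation.ReflTransGen.tail ih
      ⟨hU b hbc.1 hb, hU c hbc.2.1 (Relation.ReflTransGen.tail hb hbc), hbc.2.2⟩

theorem absorb {W : Type} [Finite W] [Nonempty W] (good : W → Prop) (z : W) (hz : good z)
    (B0 : W → Set (ℤ × ℤ)) (hfin : ∀ x, (B0 x).Finite)
    (hdis : ∀ x y a, a ∈ B0 x → a ∈ B0 y → x = y)
    (hcon : ∀ x, ∀ a ∈ B0 x, ∀ b ∈ B0 x, RT (B0 x) a b)
    (Q : W → Set (ℤ × ℤ)) (hQf : ∀ x, (Q x).Finite)
    (hQ : ∀ x, ¬ good x → ∃ a ∈ B0 z, ∃ b ∈ B0 x, a ∈ Q x ∧ RT (Q x) a b)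
    (hQd : ∀ x y, ¬ good x → ¬ good y → ∀ a ∈ Q x, a ∈ B0 y → y = x) :
    ∃ B : W → Set (ℤ × ℤ), (∀ x, B0 x ⊆ B x) ∧ (∀ x, (B x).Finite) ∧
      (∀ x y a, a ∈ B x → a ∈ B y → x = y) ∧ (∀ x, ∀ a ∈ B x, ∀ b ∈ B x, RT (B x) a b) ∧
      ∀ x, ¬ good x → ∃ y, good y ∧ Touch (B x) (B y) := by
  let F : Set (ℤ × ℤ) := (⋃ x, Q x) \ ⋃ x, B0 x
  let S : ℤ × ℤ → W → Prop := fun a w =>
    good w ∧ ∃ b c g, RT F a b ∧ b ∈ F ∧ c ∈ B0 w ∧ Joins g b c
  have hS : ∀ a a', RT F a a' → S a = S a' := by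
    intro a a' h
    funext w
    refine propext ⟨?_, ?_⟩
    · rintro ⟨h1, b, c, g, h2, h3⟩
      exact ⟨h1, b, c, g, h.symm.trans' h2, h3⟩
    · rintro ⟨h1, b, c, g, h2, h3⟩
      exact ⟨h1, b, c, g, h.trans' h2, h3⟩
  let B : W → Set (ℤ × ℤ) := fun w =>
    B0 w ∪ {a | a ∈ F ∧ (∃ w', S a w') ∧ Classical.epsilon (S a) = w}
  have hB0 : ∀ x, B0 x ⊆ B x := fun x => subset_union_left
  have hroot : ∀ x, ∀ a ∈ B x, ∃ c ∈ B0 x, RT (B x) a c := by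
    rintro x a (ha | ⟨ha, h1, h2⟩)
    · exact ⟨a, ha, Relation.ReflTransGen.refl⟩
    · obtain ⟨-, b, c, g, k1, k2, k3, k4⟩ := Classical.epsilon_spec h1
      rw [h2] at k3
      have hin : ∀ b', b' ∈ F → RT F a b' → b' ∈ B x := fun b' hb' h =>
        Or.inr ⟨hb', by rw [← hS a b' h]; exact h1, by rw [← hS a b' h]; exact h2⟩
      exact ⟨c, k3, Relation.ReflTransGen.tail (rt_restrict k1 hin)
        ⟨hin b k2 k1, hB0 x k3, g, k4⟩⟩
  refine ⟨B, hB0, fun x => (hfin x).union ?_, ?_, ?_, ?_⟩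
  · exact ((finite_iUnion hQf).subset sdiff_subset).subset fun a ha => ha.1
  · rintro x y a (hx | hx) (hy | hy)
    · exact hdis x y a hx hy
    · exact absurd (mem_iUnion.2 ⟨x, hx⟩) hy.1.2
    · exact absurd (mem_iUnion.2 ⟨y, hy⟩) hx.1.2
    · exact hx.2.2.symm.trans hy.2.2
  · intro x a ha b hb
    obtain ⟨c, hc, h1⟩ := hroot x a ha
    obtain ⟨d, hd, h2⟩ := hroot x b hb
    exact h1.trans' (((hcon x c hc d hd).mono (hB0 x)).trans' h2.symm)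
  · intro x hx
    obtain ⟨a, ha, b, hb, haQ, hab⟩ := hQ x hx
    have hax : a ∉ B0 x := fun h => hx (hdis _ _ a ha h ▸ hz)
    obtain ⟨u, v, k1, -, k3, g, k4⟩ := first_entry hab hax haQ hb
    have key : ∀ u, RT (Q x \ B0 x) a u →
        (∃ w, good w ∧ u ∈ B0 w) ∨ (u ∈ F ∧ ∃ w, S u w) := by
      intro u hu
      induction hu with
      | refl => exact Or.inl ⟨z, hz, ha⟩
      | @tail c d _ hcd ih =>
        obtain ⟨-, hd, g', hg'⟩ := hcd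
        by_cases hdB : ∃ w, d ∈ B0 w
        · obtain ⟨w, hw⟩ := hdB
          refine Or.inl ⟨w, ?_, hw⟩
          by_contra hw'
          exact hd.2 (hQd x w hx hw' d hd.1 hw ▸ hw)
        · have hdF : d ∈ F := ⟨mem_iUnion.2 ⟨x, hd.1⟩, fun h => hdB (mem_iUnion.1 h)⟩
          refine Or.inr ⟨hdF, ?_⟩
          rcases ih with ⟨w, h1, h2⟩ | ⟨h1, w, h2⟩
          · exact ⟨w, h1, d, c, g', Relation.ReflTransGen.refl, hdF, h2, Or.symm hg'⟩
          · exact ⟨w, by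
              rw [← hS c d (Relation.ReflTransGen.single ⟨h1, hdF, g', hg'⟩)]; exact h2⟩
    rcases key u k1 with ⟨w, h1, h2⟩ | ⟨h1, h2⟩
    · exact ⟨w, h1, v, hB0 x k3, u, hB0 w h2, g, Or.symm k4⟩
    · exact ⟨_, (Classical.epsilon_spec h2).1, v, hB0 x k3, u, Or.inr ⟨h1, h2, rfl⟩, g, Or.symm k4⟩

lemma nb_finite {η : ℝ} (hη : 0 < η) {X : Set (ℝ × ℝ)} (hX : IsCompact X) : (nb η X).Finite := by
  obtain ⟨R, hR⟩ := hX.isBounded.exists_norm_le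
  refine ((finite_Icc (⌊-R / η⌋ - 1) (⌊R / η⌋ + 1)).prod
    (finite_Icc (⌊-R / η⌋ - 1) (⌊R / η⌋ + 1))).subset ?_
  rintro a ⟨x, hx, h1, h2⟩
  have h := hR x hx
  have a1 : |x.1| ≤ R := (norm_fst_le x).trans h
  have a2 : |x.2| ≤ R := (norm_snd_le x).trans h
  rw [abs_le] at a1 a2 h1 h2
  have b1 := Int.floor_le_floor (div_le_div_of_nonneg_right a1.1 hη.le)
  have b2 := Int.floor_le_floor (div_le_div_of_nonneg_right a1.2 hη.le)
  have b3 := Int.floor_le_floor (div_le_div_of_nonneg_right a2.1 hη.le)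
  have b4 := Int.floor_le_floor (div_le_div_of_nonneg_right a2.2 hη.le)
  simp only [gp] at h1 h2
  simp only [mem_prod, mem_Icc]
  omega

/-- blobs, connectors and free curves give a minor model with a tree of depth two -/
theorem model_of_sets {W E : Type} [Finite W] [Finite E] [Nonempty W] (good : W → Prop) (z : W)
    (hz : good z) (s t : E → W) (hst : ∀ e, s e ≠ t e) (K R : W → Set (ℝ × ℝ))
    (M : E → Set (ℝ × ℝ)) (hKc : ∀ x, IsCompact (K x)) (hKp : ∀ x, IsPreconnected (K x))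
    (hKn : ∀ x, (K x).Nonempty) (hMc : ∀ e, IsCompact (M e)) (hMp : ∀ e, IsPreconnected (M e))
    (hRc : ∀ x, IsCompact (R x)) (hRp : ∀ x, IsPreconnected (R x))
    (dKK : ∀ x y, x ≠ y → Disjoint (K x) (K y))
    (dMK : ∀ e w, s e ≠ w → t e ≠ w → Disjoint (M e) (K w))
    (dMM : ∀ e f, e ≠ f → Disjoint (M e) (M f))
    (hs : ∀ e, (M e ∩ K (s e)).Nonempty) (ht : ∀ e, (M e ∩ K (t e)).Nonempty)
    (hR1 : ∀ x, ¬ good x → (R x ∩ K x).Nonempty) (hR2 : ∀ x, ¬ good x → (R x ∩ K z).Nonempty)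
    (dRK : ∀ x y, ¬ good x → ¬ good y → x ≠ y → Disjoint (R x) (K y))
    (dRM : ∀ x e, ¬ good x → ¬ good (s e) → Disjoint (R x) (M e)) :
    ∃ B : W → Set (ℤ × ℤ), (∀ x, (B x).Finite) ∧
      (∀ x y a, a ∈ B x → a ∈ B y → x = y) ∧ (∀ x, ∀ a ∈ B x, ∀ b ∈ B x, RT (B x) a b) ∧
      (∀ e, Touch (B (s e)) (B (t e))) ∧ ∀ x, ¬ good x → ∃ y, good y ∧ Touch (B x) (B y) := by
  obtain ⟨η, hη, hsep⟩ := exists_mesh (J := W ⊕ E ⊕ W) (Sum.elim K (Sum.elim M R)) (by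
    rintro (v | e | v)
    exacts [hKc v, hMc e, hRc v])
  choose p hp using hKn
  let U : W → Set (ℤ × ℤ) := fun v =>
    {a | a ∈ nb η (K v) ∨ ∃ e, s e = v ∧ a ∈ nb η (M e) \ nb η (K (t e))}
  have hMU : ∀ e w a, a ∈ nb η (M e) \ nb η (K (t e)) → a ∈ nb η (K w) → s e = w := by
    intro e w a ha hw
    by_contra hne
    by_cases h : t e = w
    · exact ha.2 (h ▸ hw)
    · exact hsep (Sum.inr (Sum.inl e)) (Sum.inl w) (dMK e w hne h) a ha.1 hw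
  have hUd : ∀ u v a, a ∈ U u → a ∈ U v → u = v := by
    intro u v a hu hv'
    rcases hu with hu | ⟨e, rfl, hu⟩ <;> rcases hv' with hv' | ⟨f, rfl, hv'⟩
    · by_contra hne
      exact hsep (Sum.inl u) (Sum.inl v) (dKK u v hne) a hu hv'
    · exact (hMU f u a hv' hu).symm
    · exact hMU e v a hu hv'
    · by_contra hne
      exact hsep (Sum.inr (Sum.inl e)) (Sum.inr (Sum.inl f))
        (dMM e f fun h => hne (by rw [h])) a hu.1 hv'.1
  let B0 : W → Set (ℤ × ℤ) := fun v => {a | a ∈ U v ∧ RT (U v) (gp η (p v)) a}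
  have hKB : ∀ v a, a ∈ nb η (K v) → a ∈ B0 v := fun v a ha =>
    ⟨Or.inl ha, (rt_of_preconnected hη (hKp v) (hp v) ha).mono fun a ha => Or.inl ha⟩
  have hrt : ∀ v, ∀ a ∈ B0 v, RT (B0 v) (gp η (p v)) a := fun v a ha =>
    rt_restrict ha.2 fun b h1 h2 => ⟨h1, h2⟩
  obtain ⟨B, b1, b2, b3, b4, b5⟩ := absorb good z hz B0
    (fun v => ((nb_finite hη (hKc v)).union (finite_iUnion fun e => nb_finite hη (hMc e))).subset
      (by
        rintro a ⟨h | ⟨e, -, h⟩, -⟩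
        exacts [Or.inl h, Or.inr (mem_iUnion.2 ⟨e, h.1⟩)]))
    (fun x y a hx hy => hUd x y a hx.1 hy.1)
    (fun x a ha b hb => (hrt x a ha).symm.trans' (hrt x b hb))
    (fun x => nb η (R x)) (fun x => nb_finite hη (hRc x))
    (fun x hx => by
      obtain ⟨u, hu1, hu2⟩ := hR1 x hx
      obtain ⟨v, hv1, hv2⟩ := hR2 x hx
      exact ⟨gp η v, hKB _ _ (gp_mem hv2), gp η u, hKB _ _ (gp_mem hu2), gp_mem hv1,
        rt_of_preconnected hη (hRp x) hv1 (gp_mem hu1)⟩)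
    (fun x y hx hy a ha hb => by
      by_contra hne
      rcases hb.1 with h | ⟨e, he, h⟩
      · exact hsep (Sum.inr (Sum.inr x)) (Sum.inl y) (dRK x y hx hy (Ne.symm hne)) a ha h
      · exact hsep (Sum.inr (Sum.inr x)) (Sum.inr (Sum.inl e)) (dRM x e hx (he ▸ hy)) a ha h.1)
  refine ⟨B, b2, b3, b4, fun e => ?_, b5⟩
  obtain ⟨u, a2, a1⟩ := hs e
  obtain ⟨v, c2, c1⟩ := ht e
  obtain ⟨x, y, k1, k2, k3, g, hg⟩ := first_entry (B := nb η (K (t e)))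
    (rt_of_preconnected hη (hMp e) a2 (gp_mem c2))
    (hsep (Sum.inl (s e)) (Sum.inl (t e)) (dKK _ _ (hst e)) _ (gp_mem a1)) (gp_mem a2) (gp_mem c1)
  refine ⟨x, b1 _ ⟨Or.inr ⟨e, rfl, k2⟩, ?_⟩, y, b1 _ (hKB _ _ k3), g, hg⟩
  exact (hKB _ _ (gp_mem a1)).2.trans' (k1.mono fun a ha => Or.inr ⟨e, rfl, ha⟩)

end Pool.Agent.P.MP_845aff_co
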